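import Pool.Agent.NH29.GN.Fin2

/-!
# Project GN: final forms of the conditions
-/

set_option autoImplicit false

namespace Pool.Agent.NH29.GN

open MvPolynomial Module
open scoped LinearAlgebra.Projectivization

namespace Fn

/-- linear forms without common zero -/
theorem noZero_of_points {k K : Type} [Field k] [Field K] [Algebra k K] [IsAlgClosed K]
    {M n : ℕ} {V : Set (MvPolynomial (Fin (M + 1)) k)}
    {ℓ : Fin (n + 1) → MvPolynomial (Fin (M + 1)) k}
    (h : ∀ y : Fin (M + 1) → K, (∀ H ∈ V, aeval y H = 0) → (∀ j, aeval y (ℓ j) = 0) → y = 0) :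
    NoZero V ℓ := by
  intro a
  rw [← vanishingIdeal_zeroLocus_eq_radical (K := K), mem_vanishingIdeal_iff]
  intro y hy
  rw [zeroLocus_span] at hy
  have h1 := h y (fun H hH => hy H (Or.inl hH)) (fun j => hy _ (Or.inr ⟨j, rfl⟩))
  rw [h1, aeval_X]
  rfl

/-- the numerical condition, from sums of the right number of degrees -/
theorem num_of_sum {n q : ℕ} {d : Fin q → ℕ} (hq : n + 2 ≤ q)
    (h : ∀ m, 1 ≤ m → m ≤ n → ∀ B : Finset (Fin q), B.card + m + 1 = q →
      n + m * (n - m) ≤ m * ∑ b ∈ B, d b) (C : Finset (Fin q)) (hC : C ≠ Finset.univ) :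
    Num2 n d C := by
  obtain ⟨b₀, hb₀⟩ : ∃ b₀, b₀ ∉ C := by
    by_contra h
    push Not at h
    exact hC (Finset.eq_univ_iff_forall.2 h)
  refine ⟨b₀, hb₀, fun m hm1 hmn B _ hB => ?_⟩
  obtain ⟨B', hB'1, hB'2⟩ := Finset.exists_subset_card_eq (s := B) (n := q - m - 1) (by omega)
  have h1 := h m hm1 hmn B' (by omega)
  have h2 : ∑ b ∈ B', (m * d b + 1) ≤ ∑ b ∈ B, (m * d b + 1) :=
    Finset.sum_le_sum_of_subset hB'1
  have h3 : ∑ b ∈ B', (m * d b + 1) = m * ∑ b ∈ B', d b + (q - m - 1) := by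
    rw [Finset.sum_add_distrib, ← Finset.mul_sum, Finset.sum_const, hB'2, smul_eq_mul, mul_one]
  rw [h3] at h2
  obtain ⟨r, rfl⟩ := Nat.exists_eq_add_of_le hmn
  have h4 : m + r - m = r := by omega
  rw [h4] at h1 ⊢
  have h5 : (m + 1) * r = m * r + r := by ring
  rw [h5]
  omega

/-- few linear forms -/
theorem num_of_few {n q : ℕ} {d : Fin q → ℕ} (hd : ∀ i, 1 ≤ d i) (hq : n + 2 ≤ q)
    (h : (Finset.univ.filter fun i => d i = 1).card + 2 ≤ 2 * (q - n)) (C : Finset (Fin q))
    (hC : C ≠ Finset.univ) : Num2 n d C := by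
  classical
  set S : Finset (Fin q) := Finset.univ.filter fun i => d i = 1 with hS
  have hSd : ∀ i, i ∉ S → 2 ≤ d i := by
    intro i hi
    rw [hS, Finset.mem_filter] at hi
    have h1 := hd i
    by_contra h2
    exact hi ⟨Finset.mem_univ _, by omega⟩
  -- sums
  have hsum : ∀ B : Finset (Fin q), 2 * B.card ≤ ∑ b ∈ B, d b + (B ∩ S).card := by
    intro B
    have h1 : (B ∩ S).card = ∑ b ∈ B, if b ∈ S then 1 else 0 := by
      rw [Finset.sum_ite_mem, Finset.sum_const, smul_eq_mul, mul_one]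
    rw [h1, ← Finset.sum_add_distrib, mul_comm, ← smul_eq_mul]
    refine Finset.card_nsmul_le_sum _ _ _ fun b _ => ?_
    have h3 := hd b
    split_ifs with h4
    · omega
    · have := hSd b h4
      omega
  have hcard : ∀ B : Finset (Fin q), B.card ≤ ∑ b ∈ B, d b := by
    intro B
    have h1 := Finset.card_nsmul_le_sum B d 1 fun b _ => hd b
    rwa [smul_eq_mul, mul_one] at h1
  have hms : ∀ (B : Finset (Fin q)) (m : ℕ), ∑ b ∈ B, (m * d b + 1) = m * ∑ b ∈ B, d b + B.card := by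
    intro B m
    rw [Finset.sum_add_distrib, ← Finset.mul_sum, Finset.sum_const, smul_eq_mul, mul_one]
  obtain ⟨e, rfl⟩ := Nat.exists_eq_add_of_le hq
  by_cases hcase : ∃ k₀, k₀ ∈ S ∧ k₀ ∉ C
  · obtain ⟨k₀, hk₀S, hk₀C⟩ := hcase
    refine ⟨k₀, hk₀C, fun m hm1 hmn B hk₀B hB => ?_⟩
    rw [hms]
    have h1 : (B ∩ S).card + 1 ≤ S.card := by
      have h2 : B ∩ S ⊆ S.erase k₀ := by
        intro b hb
        rw [Finset.mem_inter] at hb
        rw [Finset.mem_erase]
        exact ⟨fun h => hk₀B (h ▸ hb.1), hb.2⟩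
      have h3 := Finset.card_le_card h2
      rw [Finset.card_erase_of_mem hk₀S] at h3
      have h4 : 0 < S.card := Finset.card_pos.2 ⟨k₀, hk₀S⟩
      omega
    have h2 := hsum B
    obtain ⟨r, rfl⟩ := Nat.exists_eq_add_of_le hmn
    have h3 : m + r - m = r := by omega
    rw [h3]
    have h4 : 2 * r + 1 ≤ ∑ b ∈ B, d b := by omega
    have h5 : m * (2 * r + 1) ≤ m * ∑ b ∈ B, d b := Nat.mul_le_mul_left _ h4
    have h6 : (m + 1) * r + r ≤ m * (2 * r) + r + r := by nlinarith
    have h7 : m * (2 * r + 1) = m * (2 * r) + m := by ring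
    have h8 : r ≤ m * r := Nat.le_mul_of_pos_left _ hm1
    have h9 : (m + 1) * r = m * r + r := by ring
    have h10 : m * (2 * r) = m * r + m * r := by ring
    omega
  · push Not at hcase
    obtain ⟨k₀, hk₀⟩ : ∃ b₀, b₀ ∉ C := by
      by_contra h
      push Not at h
      exact hC (Finset.eq_univ_iff_forall.2 h)
    refine ⟨k₀, hk₀, fun m hm1 hmn B hk₀B hB => ?_⟩
    rw [hms]
    have h1 : (B ∩ S).card ≤ S.card := Finset.card_le_card Finset.inter_subset_right
    have h1' : S.card ≤ C.card := Finset.card_le_card fun b hb => hcase b hb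
    have h2 := hsum B
    have h2' := hcard B
    obtain ⟨r, rfl⟩ := Nat.exists_eq_add_of_le hmn
    have h3 : m + r - m = r := by omega
    rw [h3]
    have h9 : (m + 1) * r = m * r + r := by ring
    have h10 : m * (2 * r) = m * r + m * r := by ring
    rcases Nat.eq_zero_or_pos S.card with h0 | h0
    · have h4 : 2 * r + 2 ≤ ∑ b ∈ B, d b := by omega
      have h5 : m * (2 * r + 2) ≤ m * ∑ b ∈ B, d b := Nat.mul_le_mul_left _ h4
      have h7 : m * (2 * r + 2) = m * (2 * r) + 2 * m := by ring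
      have h8 : r ≤ m * r := Nat.le_mul_of_pos_left _ hm1
      omega
    · rcases Nat.eq_zero_or_pos r with hr | hr
      · subst hr
        have h4 : 1 ≤ ∑ b ∈ B, d b := by omega
        have h5 : m * 1 ≤ m * ∑ b ∈ B, d b := Nat.mul_le_mul_left _ h4
        omega
      · have h4 : 2 * r ≤ ∑ b ∈ B, d b := by omega
        have h5 : m * (2 * r) ≤ m * ∑ b ∈ B, d b := Nat.mul_le_mul_left _ h4
        have h8 : m + r ≤ m * r + 1 := by
          obtain ⟨m', rfl⟩ := Nat.exists_eq_add_of_le hm1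
          obtain ⟨r', rfl⟩ := Nat.exists_eq_add_of_le hr
          nlinarith [Nat.zero_le (m' * r')]
        omega

end Fn

end Pool.Agent.NH29.GN
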