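import Pool.Agent.NH29.GN.Stm

/-!
# Project GN, part ALG: integrality from forms without common zero
-/

set_option autoImplicit false

namespace Pool.Agent.NH29.GN

open MvPolynomial

namespace AlgA

variable {E Ω : Type} [Field E] [Field Ω] [Algebra E Ω] {M : ℕ}

/-- the span of the values of the monomials of degree less than `N` -/
noncomputable def S (E : Type) {Ω : Type} [Field E] [Field Ω] [Algebra E Ω] {M : ℕ}
    (y : Fin (M + 1) → Ω) (N : ℕ) : Submodule E Ω :=
  Submodule.span E
    ((fun β : Fin (M + 1) →₀ ℕ => aeval y (monomial β (1 : E))) '' {β | β.degree < N})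

theorem fin_set (N : ℕ) : {β : Fin (M + 1) →₀ ℕ | β.degree < N}.Finite := by
  refine (Set.finite_Iic (Finsupp.equivFunOnFinite.symm fun _ : Fin (M + 1) => N)).subset ?_
  intro β hβ
  rw [Set.mem_Iic]
  intro i
  have h1 : β i ≤ β.degree := Finsupp.le_degree i β
  have h2 : β.degree < N := hβ
  have h3 : β i ≤ N := by omega
  simpa using h3

theorem mem_mon (y : Fin (M + 1) → Ω) {N : ℕ} {β : Fin (M + 1) →₀ ℕ} (h : β.degree < N) :
    aeval y (monomial β (1 : E)) ∈ S E y N :=
  Submodule.subset_span ⟨β, h, rfl⟩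

theorem aeval_mon (y : Fin (M + 1) → Ω) (β : Fin (M + 1) →₀ ℕ) (c : E) :
    aeval y (monomial β c) = c • aeval y (monomial β (1 : E)) := by
  rw [← map_smul, smul_monomial, smul_eq_mul, mul_one]

theorem mem_of_hom (y : Fin (M + 1) → Ω) {P : MvPolynomial (Fin (M + 1)) E} {n N : ℕ}
    (hP : P.IsHomogeneous n) (h : n < N) : aeval y P ∈ S E y N := by
  rw [P.as_sum, map_sum]
  refine Submodule.sum_mem _ fun β hβ => ?_
  rw [aeval_mon]
  refine Submodule.smul_mem _ _ (mem_mon y ?_)
  have h1 : Finsupp.weight 1 β = n := hP (mem_support_iff.1 hβ)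
  have h2 : β.degree = Finsupp.weight 1 β := by
    rw [Finsupp.degree_eq_weight_one]
    rfl
  omega

theorem gen (y : Fin (M + 1) → Ω) {F : MvPolynomial (Fin (M + 1)) E} {f : ℕ}
    (hF : F.IsHomogeneous f)
    (h : ∀ (Q : MvPolynomial (Fin (M + 1)) E) (n : ℕ), Q.IsHomogeneous n →
      aeval y (Q * F) ∈ S E y (n + f)) (Q : MvPolynomial (Fin (M + 1)) E) (N : ℕ) :
    aeval y (homogeneousComponent N (Q * F)) ∈ S E y N := by
  rw [← sum_homogeneousComponent Q, Finset.sum_mul, map_sum, map_sum]
  refine Submodule.sum_mem _ fun n _ => ?_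
  have h1 : (homogeneousComponent n Q * F).IsHomogeneous (n + f) :=
    (homogeneousComponent_isHomogeneous n Q).mul hF
  rw [homogeneousComponent_of_mem ((mem_homogeneousSubmodule _ _).2 h1)]
  split_ifs with hN
  · rw [hN]
    exact h _ _ (homogeneousComponent_isHomogeneous n Q)
  · rw [map_zero]
    exact Submodule.zero_mem _

theorem key (V : Set (MvPolynomial (Fin (M + 1)) E)) (hV : ∀ H ∈ V, ∃ e, H.IsHomogeneous e)
    (J : Type) (G : J → MvPolynomial (Fin (M + 1)) E) (g : J → ℕ) (hg : ∀ j, 1 ≤ g j)
    (hG : ∀ j, (G j).IsHomogeneous (g j)) (y : Fin (M + 1) → Ω)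
    (hy : ∀ H ∈ V, aeval y H = 0) (hyG : ∀ j, ∃ b : E, aeval y (G j) = algebraMap E Ω b)
    {P : MvPolynomial (Fin (M + 1)) E} (hP : P ∈ Ideal.span (V ∪ Set.range G)) :
    ∀ (Q : MvPolynomial (Fin (M + 1)) E) (N : ℕ),
      aeval y (homogeneousComponent N (Q * P)) ∈ S E y N := by
  induction hP using Submodule.span_induction with
  | mem P hP =>
    rcases hP with hP | ⟨j, rfl⟩
    · obtain ⟨e, he⟩ := hV P hP
      refine gen y he fun Q n _ => ?_
      rw [map_mul, hy P hP, mul_zero]
      exact Submodule.zero_mem _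
    · refine gen y (hG j) fun Q n hQ => ?_
      obtain ⟨b, hb⟩ := hyG j
      rw [map_mul, hb, mul_comm, ← Algebra.smul_def]
      have := hg j
      exact Submodule.smul_mem _ _ (mem_of_hom y hQ (by omega))
  | zero =>
    intro Q N
    rw [mul_zero, map_zero, map_zero]
    exact Submodule.zero_mem _
  | add P P' _ _ h h' =>
    intro Q N
    rw [mul_add, map_add, map_add]
    exact Submodule.add_mem _ (h Q N) (h' Q N)
  | smul r P _ h =>
    intro Q N
    rw [smul_eq_mul, ← mul_assoc]
    exact h _ N

end AlgA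

open AlgA in
theorem alg : AlgStm := by
  intro E Ω _ _ _ M V hV J G g hg hG hrad y hy hyG a
  have hI := fun {P : MvPolynomial (Fin (M + 1)) E} (hP : P ∈ Ideal.span (V ∪ Set.range G)) =>
    key V hV J G g hg hG y hy hyG hP
  choose e he using hrad
  set e0 := ∑ a, e a with he0
  have hX : ∀ a, (X a : MvPolynomial (Fin (M + 1)) E) ^ e0 ∈ Ideal.span (V ∪ Set.range G) := by
    intro a
    have h1 : e a ≤ e0 := Finset.single_le_sum (f := e) (fun _ _ => Nat.zero_le _)
      (Finset.mem_univ a)
    obtain ⟨c, hc⟩ := Nat.exists_eq_add_of_le h1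
    rw [hc, pow_add]
    exact Ideal.mul_mem_right _ _ (he a)
  set N0 := (M + 1) * e0 + 1 with hN0
  have hall : ∀ N, ∀ β : Fin (M + 1) →₀ ℕ, β.degree = N →
      aeval y (monomial β (1 : E)) ∈ S E y N0 := by
    intro N
    induction N using Nat.strong_induction_on with
    | _ N ih =>
      intro β hβ
      by_cases hN : N < N0
      · exact mem_mon y (by omega)
      push Not at hN
      have hex : ∃ a, e0 ≤ β a := by
        by_contra hcon
        push Not at hcon
        have h1 : β.degree = ∑ i, β i := Finsupp.degree_eq_sum β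
        have h2 : ∑ i, β i ≤ ∑ _i : Fin (M + 1), e0 :=
          Finset.sum_le_sum fun i _ => (hcon i).le
        rw [Finset.sum_const, Finset.card_univ, Fintype.card_fin, smul_eq_mul] at h2
        omega
      obtain ⟨a, ha⟩ := hex
      have hmem : monomial β (1 : E) ∈ Ideal.span (V ∪ Set.range G) := by
        have h1 : monomial β (1 : E) =
            monomial (β - Finsupp.single a e0) (1 : E) * (X a) ^ e0 := by
          rw [X_pow_eq_monomial, monomial_mul, mul_one]
          congr 1
          rw [tsub_add_cancel_of_le]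
          exact Finsupp.single_le_iff.2 ha
        rw [h1]
        exact Ideal.mul_mem_left _ _ (hX a)
      have h3 := hI hmem 1 N
      have h4 : (monomial β (1 : E)).IsHomogeneous N := isHomogeneous_monomial _ hβ
      rw [one_mul, homogeneousComponent_of_mem ((mem_homogeneousSubmodule _ _).2 h4),
        if_pos rfl] at h3
      have h5 : S E y N ≤ S E y N0 := by
        apply Submodule.span_le.2
        rintro _ ⟨γ, hγ, rfl⟩
        exact ih γ.degree hγ γ rfl
      exact h5 h3
  have hrange : Subalgebra.toSubmodule (aeval y : MvPolynomial (Fin (M + 1)) E →ₐ[E] Ω).range =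
      S E y N0 := by
    apply le_antisymm
    · rintro _ ⟨P, rfl⟩
      change aeval y P ∈ _
      rw [P.as_sum, map_sum]
      refine Submodule.sum_mem _ fun β _ => ?_
      rw [aeval_mon]
      exact Submodule.smul_mem _ _ (hall _ β rfl)
    · apply Submodule.span_le.2
      rintro _ ⟨γ, hγ, rfl⟩
      exact ⟨monomial γ 1, rfl⟩
  have hfg : (Subalgebra.toSubmodule
      (aeval y : MvPolynomial (Fin (M + 1)) E →ₐ[E] Ω).range).FG := by
    rw [hrange]
    exact Submodule.fg_span ((fin_set N0).image _)
  have hint : IsIntegral E (y a) := by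
    refine IsIntegral.of_mem_of_fg _ hfg _ ⟨X a, ?_⟩
    simp
  exact hint.isAlgebraic

end Pool.Agent.NH29.GN
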