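import Pool.Agent.NH29.GN.Stm

/-!
# GN-DER (helper80): extension of derivations with prescribed values
-/

set_option autoImplicit false
set_option linter.unusedVariables false

namespace Pool.Agent.NH29.GN

namespace Der

open MvPolynomial

/-- field extensions in characteristic zero are formally smooth -/
theorem smooth0 (F L : Type) [Field F] [Field L] [Algebra F L] [CharZero F] :
    Algebra.FormallySmooth F L := by
  obtain ⟨s, hs⟩ := exists_isTranscendenceBasis F L
  have h1 : Algebra.IsAlgebraic
      (IntermediateField.adjoin F (Set.range (Subtype.val : s → L))) L :=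
    hs.isAlgebraic_field
  have h2 : CharZero (IntermediateField.adjoin F (Set.range (Subtype.val : s → L))) :=
    charZero_of_injective_algebraMap
      (algebraMap F (IntermediateField.adjoin F (Set.range (Subtype.val : s → L)))).injective
  have h3 : Algebra.IsSeparable
      (IntermediateField.adjoin F (Set.range (Subtype.val : s → L))) L := inferInstance
  exact Algebra.FormallySmooth.of_algebraicIndependent_of_isSeparable hs.1

section

variable {L : Type} [Field L]

/-- the element with the given components -/
def pr (x y : L) : TrivSqZeroExt L L := (x, y)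

theorem pr_fst (x y : L) : (pr x y).fst = x := rfl

theorem pr_snd (x y : L) : (pr x y).snd = y := rfl

theorem msnd (x y : TrivSqZeroExt L L) : (x * y).snd = x.fst * y.snd + y.fst * x.snd := by
  rw [TrivSqZeroExt.snd_mul, smul_eq_mul, op_smul_eq_mul, mul_comm x.snd]

end

section

variable {k K L : Type} [Field k] [Field K] [Field L] [Algebra k K] [Algebra K L] [Algebra k L]
  [IsScalarTower k K L]

/-- the deformation of the structure map of `K` -/
noncomputable def psi0 (D₀ : Derivation k K L) : K →+* TrivSqZeroExt L L where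
  toFun a := pr (algebraMap K L a) (D₀ a)
  map_one' := by
    rw [map_one, D₀.map_one_eq_zero]
    rfl
  map_mul' a b := by
    rw [map_mul, D₀.leibniz]
    refine TrivSqZeroExt.ext ?_ ?_
    · rw [TrivSqZeroExt.fst_mul]
      rfl
    · rw [msnd]
      show a • D₀ b + b • D₀ a = algebraMap K L a * D₀ b + algebraMap K L b * D₀ a
      rw [Algebra.smul_def, Algebra.smul_def]
  map_zero' := by
    rw [map_zero, map_zero]
    rfl
  map_add' a b := by
    rw [map_add, map_add]
    rfl

theorem psi0_fst (D₀ : Derivation k K L) (a : K) :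
    (psi0 D₀ a).fst = algebraMap K L a := rfl

theorem psi0_snd (D₀ : Derivation k K L) (a : K) : (psi0 D₀ a).snd = D₀ a := rfl

end

theorem der : DerStm := by
  intro k K L _ _ _ _ _ _ _ _ J v hv D₀ w
  let R := TrivSqZeroExt L L
  let P := MvPolynomial J K
  let g : P →+* R := eval₂Hom (psi0 D₀)
    (fun j => pr (v j) (w j))
  let π : R →+* L := (TrivSqZeroExt.fstHom L L L).toRingHom
  have hπ : ∀ x : R, π x = x.fst := fun x => rfl
  let a : P →+* L := (aeval v).toRingHom
  have ha : Function.Injective a := hv
  have hga : π.comp g = a := by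
    refine MvPolynomial.ringHom_ext (fun c => ?_) (fun j => ?_)
    · rw [RingHom.comp_apply]
      show π (eval₂Hom (psi0 D₀) _ (C c)) = aeval v (C c)
      rw [coe_eval₂Hom, eval₂_C, hπ, psi0_fst, algHom_C]
    · rw [RingHom.comp_apply]
      show π (eval₂Hom (psi0 D₀) _ (X j)) = aeval v (X j)
      rw [coe_eval₂Hom, eval₂_X, hπ, aeval_X]
      rfl
  let F := FractionRing P
  have hgu : ∀ y : nonZeroDivisors P, IsUnit (g y) := by
    intro y
    rw [TrivSqZeroExt.isUnit_iff_isUnit_fst]
    have h1 : (g y).fst = a y := by
      rw [← hga]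
      rfl
    rw [h1, isUnit_iff_ne_zero]
    intro h2
    exact nonZeroDivisors.ne_zero y.2 (ha (by rw [h2, map_zero]))
  let ι : F →+* L := IsLocalization.lift (M := nonZeroDivisors P) (g := a) (fun y => by
    rw [isUnit_iff_ne_zero]
    intro h2
    exact nonZeroDivisors.ne_zero y.2 (ha (by rw [h2, map_zero])))
  let ψ : F →+* R := IsLocalization.lift (M := nonZeroDivisors P) (g := g) hgu
  have hι : ∀ p : P, ι (algebraMap P F p) = a p := fun p => IsLocalization.lift_eq _ p
  have hψ : ∀ p : P, ψ (algebraMap P F p) = g p := fun p => IsLocalization.lift_eq _ p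
  have hcomp : π.comp ψ = ι := by
    refine IsLocalization.ringHom_ext (nonZeroDivisors P) ?_
    refine RingHom.ext fun p => ?_
    show π (ψ (algebraMap P F p)) = ι (algebraMap P F p)
    rw [hι, hψ, ← hga]
    rfl
  letI : Algebra F L := ι.toAlgebra
  letI : Algebra F R := ψ.toAlgebra
  have hch : CharZero F := by
    have h1 : CharZero K := charZero_of_injective_algebraMap (algebraMap k K).injective
    have h2 : Function.Injective ((algebraMap P F).comp (C : K →+* P)) := by
      intro x y hxy
      exact C_injective J K (IsFractionRing.injective P F hxy)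
    exact charZero_of_injective_ringHom h2
  have hsm : Algebra.FormallySmooth F L := smooth0 F L
  let fst' : R →ₐ[F] L := { π with
    commutes' := fun x => by
      show (π.comp ψ) x = ι x
      rw [hcomp] }
  have hsurj : Function.Surjective fst' := fun x => ⟨TrivSqZeroExt.inl x, rfl⟩
  have hnil : IsNilpotent (RingHom.ker (fst' : R →+* L)) := by
    refine ⟨2, (Submodule.pow_succ (n := 1) _).trans ?_⟩
    rw [Submodule.pow_one, Ideal.zero_eq_bot, eq_bot_iff]
    refine Ideal.mul_le.2 ?_
    intro x hx y hy
    have hx' : x.fst = 0 := hx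
    have hy' : y.fst = 0 := hy
    rw [Ideal.mem_bot]
    refine TrivSqZeroExt.ext ?_ ?_
    · rw [TrivSqZeroExt.fst_mul, hx', zero_mul, TrivSqZeroExt.fst_zero]
    · rw [msnd, hx', hy', zero_mul, zero_mul, add_zero, TrivSqZeroExt.snd_zero]
  let Φ : L →ₐ[F] R := Algebra.FormallySmooth.liftOfSurjective (AlgHom.id F L) fst' hsurj hnil
  have hΦ1 : ∀ x : L, (Φ x).fst = x := fun x =>
    Algebra.FormallySmooth.liftOfSurjective_apply (AlgHom.id F L) fst' hsurj hnil x
  have hΦ2 : ∀ p : P, Φ (a p) = g p := by
    intro p
    have h1 := Φ.commutes (algebraMap P F p)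
    have h2 : algebraMap F L (algebraMap P F p) = a p := hι p
    have h3 : algebraMap F R (algebraMap P F p) = g p := hψ p
    rw [h2, h3] at h1
    exact h1
  have hΦK : ∀ c : K, Φ (algebraMap K L c) = psi0 D₀ c := by
    intro c
    have h1 := hΦ2 (C c)
    have h2 : a (C c) = algebraMap K L c := aeval_C v c
    have h3 : g (C c) = psi0 D₀ c := eval₂_C _ _ _
    rw [h2, h3] at h1
    exact h1
  have hΦv : ∀ j, Φ (v j) = pr (v j) (w j) := by
    intro j
    have h1 := hΦ2 (X j)
    have h2 : a (X j) = v j := aeval_X v j
    have h3 : g (X j) = pr (v j) (w j) := eval₂_X _ _ _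
    rw [h2, h3] at h1
    exact h1
  have hleib : ∀ x y : L, (Φ (x * y)).snd = x * (Φ y).snd + y * (Φ x).snd := by
    intro x y
    rw [map_mul, msnd, hΦ1, hΦ1]
  let Dl : L →ₗ[k] L :=
    { toFun := fun x => (Φ x).snd
      map_add' := fun x y => by rw [map_add, TrivSqZeroExt.snd_add]
      map_smul' := fun c x => by
        show (Φ (c • x)).snd = c • (Φ x).snd
        rw [Algebra.smul_def c x, hleib, IsScalarTower.algebraMap_apply k K L, hΦK, psi0_snd,
          D₀.map_algebraMap, mul_zero, add_zero, Algebra.smul_def,
          IsScalarTower.algebraMap_apply k K L] }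
  refine ⟨Derivation.mk' Dl (fun x y => ?_), fun c => ?_, fun j => ?_⟩
  · show (Φ (x * y)).snd = x • (Φ y).snd + y • (Φ x).snd
    rw [hleib, smul_eq_mul, smul_eq_mul]
  · show (Φ (algebraMap K L c)).snd = D₀ c
    rw [hΦK, psi0_snd]
  · show (Φ (v j)).snd = w j
    rw [hΦv, pr_snd]

end Der

/-- **GN-DER.** -/
theorem der : DerStm := Der.der

end Pool.Agent.NH29.GN
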