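import Pool.Agent.NH29.GN.Stm2

/-!
# Project GN, part 2: FINE

The nondegenerate solutions of the unit equation have finitely many ratios.
-/

set_option autoImplicit false

namespace Pool.Agent.NH29.GN

open MvPolynomial Module Filter

namespace FineJ

/-- proportional along the ultrafilter -/
def rel {K : Type} [Field K] {J : Type} (w : ℕ → J → Kˣ) (𝒰 : Ultrafilter ℕ) (i j : J) : Prop :=
  ∃ c : K, ∀ᶠ s in (𝒰 : Filter ℕ), (w s i : K) = c * w s j

theorem rel_refl {K : Type} [Field K] {J : Type} (w : ℕ → J → Kˣ) (𝒰 : Ultrafilter ℕ) (i : J) :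
    rel w 𝒰 i i := ⟨1, Eventually.of_forall fun s => (one_mul _).symm⟩

theorem rel_symm {K : Type} [Field K] {J : Type} {w : ℕ → J → Kˣ} {𝒰 : Ultrafilter ℕ} {i j : J}
    (h : rel w 𝒰 i j) : rel w 𝒰 j i := by
  obtain ⟨c, hc⟩ := h
  have hc0 : c ≠ 0 := by
    rintro rfl
    obtain ⟨s, hs⟩ := hc.exists
    rw [zero_mul] at hs
    exact (w s i).ne_zero hs
  refine ⟨c⁻¹, hc.mono fun s hs => ?_⟩
  rw [hs, inv_mul_cancel_left₀ hc0]

theorem rel_trans {K : Type} [Field K] {J : Type} {w : ℕ → J → Kˣ} {𝒰 : Ultrafilter ℕ}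
    {i j l : J} (h : rel w 𝒰 i j) (h' : rel w 𝒰 j l) : rel w 𝒰 i l := by
  obtain ⟨c, hc⟩ := h
  obtain ⟨d, hd⟩ := h'
  refine ⟨c * d, ?_⟩
  filter_upwards [hc, hd] with s h1 h2
  rw [h1, h2, mul_assoc]

/-- the equivalence relation -/
def st {K : Type} [Field K] {J : Type} (w : ℕ → J → Kˣ) (𝒰 : Ultrafilter ℕ) : Setoid J :=
  ⟨rel w 𝒰, rel_refl w 𝒰, rel_symm, rel_trans⟩

/-- the key step: no sequence of nondegenerate solutions has pairwise different ratio vectors -/
theorem key {K : Type} [Field K] (hUE : UE K) (Γ : Subgroup Kˣ) (hΓ : Γ.FG) (J : Type)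
    [Fintype J] (w : ℕ → J → Kˣ) (h1 : ∀ s j, w s j ∈ Γ) (h2 : ∀ s, ∑ j, (w s j : K) = 0)
    (h3 : ∀ s, ∀ S : Finset J, S.Nonempty → S ≠ Finset.univ → ∑ j ∈ S, (w s j : K) ≠ 0)
    (h4 : ∀ s t, (∀ i j, (w s i : K) / w s j = (w t i : K) / w t j) → s = t) : False := by
  classical
  let 𝒰 : Ultrafilter ℕ := Filter.hyperfilter ℕ
  by_cases hall : ∀ i j, rel w 𝒰 i j
  · choose c hc using hall
    have hev : ∀ᶠ s in (𝒰 : Filter ℕ), ∀ i j, (w s i : K) = c i j * w s j := by
      rw [eventually_all]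
      intro i
      rw [eventually_all]
      exact hc i
    have hfin : {s | ∀ i j, (w s i : K) = c i j * w s j}.Finite := by
      refine Set.Subsingleton.finite fun s hs t ht => ?_
      refine h4 s t fun i j => ?_
      rw [hs i j, ht i j, mul_div_cancel_right₀ _ (w s j).ne_zero,
        mul_div_cancel_right₀ _ (w t j).ne_zero]
    exact Filter.notMem_hyperfilter_of_finite hfin hev
  · push Not at hall
    obtain ⟨i0, j0, hij⟩ := hall
    have hrep : ∀ j, ∃ c : K, ∀ᶠ s in (𝒰 : Filter ℕ),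
        (w s j : K) = c * w s (Quotient.mk (st w 𝒰) j).out := by
      intro j
      have : (st w 𝒰) ((Quotient.mk (st w 𝒰) j).out) j := Quotient.mk_out j
      exact rel_symm this
    choose c hc using hrep
    have hev : ∀ᶠ s in (𝒰 : Filter ℕ), ∀ j,
        (w s j : K) = c j * w s (Quotient.mk (st w 𝒰) j).out := by
      rw [eventually_all]
      exact hc
    have hfib : ∀ s, (∀ j, (w s j : K) = c j * w s (Quotient.mk (st w 𝒰) j).out) →
        ∀ p : Quotient (st w 𝒰), ∑ j ∈ Finset.univ.filter (fun j => Quotient.mk (st w 𝒰) j = p),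
          (w s j : K) =
        (∑ j ∈ Finset.univ.filter (fun j => Quotient.mk (st w 𝒰) j = p), c j) * w s p.out := by
      intro s hs p
      rw [Finset.sum_mul]
      refine Finset.sum_congr rfl fun j hj => ?_
      rw [Finset.mem_filter] at hj
      rw [hs j, hj.2]
    have ha := hUE Γ hΓ 𝒰 (Quotient (st w 𝒰)) (fun p s => w s p.out) (fun p s => h1 s _)
      (fun p p' hpp c' hc' => hpp (by
        have h : (st w 𝒰) p.out p'.out := ⟨c', hc'⟩
        have h' := Quotient.sound h
        rwa [Quotient.out_eq, Quotient.out_eq] at h'))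
      (fun p => ∑ j ∈ Finset.univ.filter (fun j => Quotient.mk (st w 𝒰) j = p), c j)
      (by
        filter_upwards [hev] with s hs
        rw [← h2 s]
        rw [← Finset.sum_fiberwise Finset.univ (fun j => Quotient.mk (st w 𝒰) j)
          (fun j => (w s j : K))]
        exact Finset.sum_congr rfl fun p _ => (hfib s hs p).symm)
      (Quotient.mk (st w 𝒰) i0)
    obtain ⟨s, hs⟩ := hev.exists
    refine h3 s (Finset.univ.filter (fun j => Quotient.mk (st w 𝒰) j =
      Quotient.mk (st w 𝒰) i0)) ⟨i0, by simp⟩ ?_ ?_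
    · intro h
      have hj : j0 ∈ Finset.univ.filter (fun j => Quotient.mk (st w 𝒰) j =
          Quotient.mk (st w 𝒰) i0) := by
        rw [h]
        exact Finset.mem_univ _
      rw [Finset.mem_filter] at hj
      have h5 : (st w 𝒰) j0 i0 := Quotient.exact hj.2
      exact hij (rel_symm h5)
    · rw [hfib s hs, ha, zero_mul]

end FineJ

theorem fine : FineStm := by
  intro K _ hUE Γ hΓ J _
  classical
  let N : Set (J → Kˣ) := {w | (∀ j, w j ∈ Γ) ∧ ∑ j, (w j : K) = 0 ∧
    ∀ S : Finset J, S.Nonempty → S ≠ Finset.univ → ∑ j ∈ S, (w j : K) ≠ 0}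
  let r : (J → Kˣ) → (J × J → K) := fun w ij => (w ij.1 : K) / w ij.2
  have hQ : (r '' N).Finite := by
    by_contra hinf
    let f := Set.Infinite.natEmbedding _ hinf
    choose w hwN hw using fun s => (f s).2
    refine FineJ.key hUE Γ hΓ J w (fun s => (hwN s).1) (fun s => (hwN s).2.1)
      (fun s => (hwN s).2.2) (fun s t h => ?_)
    apply f.injective
    apply Subtype.ext
    rw [← hw s, ← hw t]
    funext ij
    exact h ij.1 ij.2
  refine ⟨hQ.toFinset.biUnion (fun q => Finset.univ.image q), fun w g1 g2 g3 i j => ?_⟩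
  rw [Finset.mem_biUnion]
  refine ⟨r w, ?_, ?_⟩
  · rw [Set.Finite.mem_toFinset]
    exact ⟨w, ⟨g1, g2, g3⟩, rfl⟩
  · rw [Finset.mem_image]
    exact ⟨(i, j), Finset.mem_univ _, rfl⟩

end Pool.Agent.NH29.GN
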