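import Pool.Agent.NH29.GN.Stm

/-! HILB: growth of the powers of a subspace over an algebraically closed field. -/

set_option autoImplicit false

namespace Pool.Agent.NH29.GN

open Module

namespace Hilbx

variable {K L : Type} [Field K] [Field L] [Algebra K L]

/-- the subspace `x B` -/
noncomputable def sc (x : L) (B : Submodule K L) : Submodule K L := B.map (LinearMap.mulLeft K x)

lemma mem_sc {x y : L} {B : Submodule K L} : y ∈ sc x B ↔ ∃ b ∈ B, x * b = y := by
  unfold sc
  rw [Submodule.mem_map]
  simp

lemma finrank_sc {x : L} (hx : x ≠ 0) (B : Submodule K L) : finrank K (sc x B) = finrank K B := by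
  unfold sc
  refine (Submodule.equivMapOfInjective (LinearMap.mulLeft K x) ?_ B).finrank_eq.symm
  intro a b h
  simpa [hx] using h

lemma fd_sc {x : L} (B : Submodule K L) (hB : B.FG) : (sc x B).FG := hB.map _

lemma mem_K [IsAlgClosed K] {x : L} {B : Submodule K L} (hB : B ≠ ⊥) (hBf : B.FG)
    (h : ∀ b ∈ B, x * b ∈ B) : ∃ c : K, algebraMap K L c = x := by
  have h1 : IsIntegral K x := isIntegral_of_smul_mem_submodule B hB hBf x (by simpa using h)
  have h2 := IsAlgClosed.degree_eq_one_of_irreducible K (minpoly.irreducible h1)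
  exact minpoly.mem_range_of_degree_eq_one K x h2

/-- the linear Cauchy-Davenport theorem over an algebraically closed field -/
theorem cd [IsAlgClosed K] (N : ℕ) : ∀ A B : Submodule K L, A.FG → B.FG → A ≠ ⊥ → B ≠ ⊥ →
    finrank K A = N → finrank K A + finrank K B ≤ finrank K (A * B : Submodule K L) + 1 := by
  induction N using Nat.strong_induction_on with
  | _ N ih =>
    intro A B hAf hBf hA hB hN
    have fA : FiniteDimensional K A := Module.Finite.iff_fg.2 hAf
    have fB : FiniteDimensional K B := Module.Finite.iff_fg.2 hBf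
    have fAB : FiniteDimensional K (A * B : Submodule K L) := Module.Finite.iff_fg.2 (hAf.mul hBf)
    obtain ⟨a, haA, ha0⟩ := Submodule.exists_mem_ne_zero_of_ne_bot hA
    obtain ⟨b, hbB, hb0⟩ := Submodule.exists_mem_ne_zero_of_ne_bot hB
    by_cases hc : ∃ a ∈ A, ∃ b ∈ B, a ≠ 0 ∧ b ≠ 0 ∧ ¬ A ≤ sc (a / b) B
    · obtain ⟨a, haA, b, hbB, ha0, hb0, hc⟩ := hc
      set e := a / b with he
      have he0 : e ≠ 0 := div_ne_zero ha0 hb0
      have haA' : a ∈ A ⊓ sc e B := ⟨haA, mem_sc.2 ⟨b, hbB, by rw [he]; field_simp⟩⟩
      have fsB : FiniteDimensional K (sc e B) := Module.Finite.iff_fg.2 (fd_sc B hBf)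
      have fsA : FiniteDimensional K (sc e⁻¹ A) := Module.Finite.iff_fg.2 (fd_sc A hAf)
      have h1 : finrank K (A ⊓ sc e B : Submodule K L) < N := by
        rw [← hN]
        apply Submodule.finrank_lt_finrank_of_lt
        refine lt_of_le_of_ne inf_le_left fun h => hc ?_
        rw [← h]
        exact inf_le_right
      have h2 : finrank K (B ⊔ sc e⁻¹ A : Submodule K L) = finrank K (A ⊔ sc e B : Submodule K L) := by
        rw [← finrank_sc he0 (B ⊔ sc e⁻¹ A)]
        suffices hse : sc e (B ⊔ sc e⁻¹ A) = A ⊔ sc e B by rw [hse]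
        ext y
        rw [mem_sc, Submodule.mem_sup]
        constructor
        · rintro ⟨x, hx, rfl⟩
          obtain ⟨b', hb', c, hc', rfl⟩ := Submodule.mem_sup.1 hx
          obtain ⟨a', ha', rfl⟩ := mem_sc.1 hc'
          refine ⟨a', ha', e * b', mem_sc.2 ⟨b', hb', rfl⟩, ?_⟩
          field_simp
          ring
        · rintro ⟨a', ha', c, hc', rfl⟩
          obtain ⟨b', hb', rfl⟩ := mem_sc.1 hc'
          refine ⟨b' + e⁻¹ * a', Submodule.mem_sup.2 ⟨b', hb', e⁻¹ * a', mem_sc.2 ⟨a', ha', rfl⟩, rfl⟩, ?_⟩
          field_simp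
          ring
      have h3 : (A ⊓ sc e B) * (B ⊔ sc e⁻¹ A) ≤ A * B := by
        rw [Submodule.mul_le]
        intro x hx y hy
        obtain ⟨hxA, hxB⟩ := hx
        obtain ⟨b', hb', c, hc', rfl⟩ := Submodule.mem_sup.1 hy
        obtain ⟨a', ha', rfl⟩ := mem_sc.1 hc'
        rw [mul_add]
        apply Submodule.add_mem
        · exact Submodule.mul_mem_mul hxA hb'
        · obtain ⟨b'', hb'', rfl⟩ := mem_sc.1 hxB
          have : e * b'' * (e⁻¹ * a') = a' * b'' := by field_simp
          rw [this]
          exact Submodule.mul_mem_mul ha' hb''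
      have h4 := ih _ h1 (A ⊓ sc e B) (B ⊔ sc e⁻¹ A)
        (Module.Finite.iff_fg.1 (inferInstance : FiniteDimensional K (A ⊓ sc e B : Submodule K L)))
        (hBf.sup (fd_sc A hAf))
        (fun h => ha0 ((Submodule.mem_bot K).1 (h ▸ haA')))
        (fun h => hb0 ((Submodule.mem_bot K).1 (h ▸ (Submodule.mem_sup_left hbB : b ∈ B ⊔ sc e⁻¹ A)))) rfl
      have h5 := Submodule.finrank_sup_add_finrank_inf_eq A (sc e B)
      have h6 := finrank_sc he0 B
      have h7 := Submodule.finrank_mono h3
      omega
    · push Not at hc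
      have h1 : ∀ α ∈ A, ∃ c : K, algebraMap K L c = α * a⁻¹ := by
        intro α hα
        apply mem_K hB hBf
        intro b' hb'
        by_cases hb'0 : b' = 0
        · rw [hb'0, mul_zero]; exact B.zero_mem
        · obtain ⟨b'', hb'', h⟩ := mem_sc.1 (hc a haA b' hb' ha0 hb'0 hα)
          have : α * a⁻¹ * b' = b'' := by
            rw [← h]
            field_simp
          rw [this]
          exact hb''
      have h2 : A ≤ Submodule.span K {a} := by
        intro α hα
        obtain ⟨c, hc⟩ := h1 α hα
        rw [Submodule.mem_span_singleton]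
        refine ⟨c, ?_⟩
        rw [Algebra.smul_def, hc]
        field_simp
      have h3 : finrank K A ≤ 1 := by
        refine (Submodule.finrank_mono h2).trans ?_
        rw [finrank_span_singleton ha0]
      have h4 : sc a B ≤ A * B := by
        intro y hy
        obtain ⟨b', hb', rfl⟩ := mem_sc.1 hy
        exact Submodule.mul_mem_mul haA hb'
      have h5 := Submodule.finrank_mono h4
      rw [finrank_sc ha0] at h5
      omega

lemma val_single {n : ℕ} (z : Fin (n + 1) → L) (β : Fin (n + 1) →₀ ℕ) (i : Fin (n + 1)) :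
    val z (β + Finsupp.single i 1) = val z β * z i := by
  unfold val
  simp only [Finsupp.add_apply, pow_add, Finset.prod_mul_distrib]
  congr 1
  rw [Finset.prod_eq_single i]
  · simp
  · intro j _ hj
    rw [Finsupp.single_eq_of_ne hj, pow_zero]
  · intro h
    exact absurd (Finset.mem_univ i) h

lemma pow_le {n : ℕ} (z : Fin (n + 1) → L) (e : ℕ) :
    (Submodule.span K (Set.range z)) ^ e ≤
      Submodule.span K (Set.range fun β : Mon n e => val z β.1) := by
  induction e with
  | zero =>
    rw [pow_zero, Submodule.one_eq_span, Submodule.span_le]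
    intro x hx
    rw [Set.mem_singleton_iff.1 hx]
    apply Submodule.subset_span
    refine ⟨⟨0, by simp⟩, ?_⟩
    simp [val]
  | succ e ih =>
    rw [pow_succ]
    refine (mul_le_mul_left ih _).trans ?_
    rw [Submodule.span_mul_span, Submodule.span_le]
    rintro x ⟨_, ⟨β, rfl⟩, _, ⟨i, rfl⟩, rfl⟩
    apply Submodule.subset_span
    refine ⟨⟨β.1 + Finsupp.single i 1, ?_⟩, val_single z β.1 i⟩
    have := β.2
    simp [map_add, this]

end Hilbx

open Hilbx in
theorem hilb : HilbStm := by
  intro K L _ _ _ _ n m e z h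
  have hWf : (Submodule.span K (Set.range z)).FG := Submodule.fg_span (Set.finite_range z)
  set W := Submodule.span K (Set.range z) with hW
  have hW0 : W ≠ ⊥ := by
    intro h0
    rw [h0, finrank_bot] at h
    omega
  have h1 : m * e + 1 ≤ finrank K (W ^ e : Submodule K L) := by
    induction e with
    | zero =>
      rw [pow_zero, Submodule.one_eq_span, finrank_span_singleton one_ne_zero]
      omega
    | succ e ih =>
      have h2 : (W ^ e : Submodule K L) ≠ ⊥ := by
        intro h0
        rw [h0, finrank_bot] at ih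
        omega
      have h3 := cd _ (W ^ e) W (hWf.pow e) hWf h2 hW0 rfl
      rw [← pow_succ] at h3
      have : m * (e + 1) = m * e + m := by ring
      omega
  have hf : FiniteDimensional K (Submodule.span K (Set.range fun β : Mon n e => val z β.1)) :=
    FiniteDimensional.span_of_finite K (Set.finite_range _)
  exact h1.trans (Submodule.finrank_mono (pow_le z e))

end Pool.Agent.NH29.GN
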