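import Pool.Agent.NH29.GN.Stm

/-!
# Project GN: points at which quotients of general forms are constant
-/

set_option autoImplicit false

namespace Pool.Agent.NH29.GN

open MvPolynomial Module Filter

namespace IntP

/-- an element integral over an algebraically closed field is in it -/
theorem mem_of_integral {K Ω : Type} [Field K] [IsAlgClosed K] [Field Ω] [Algebra K Ω] (w : Ω)
    (hw : IsIntegral K w) : ∃ b : K, w = algebraMap K Ω b := by
  have hq : (minpoly K w).leadingCoeff = 1 := minpoly.monic hw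
  have h : (minpoly K w).degree = 1 :=
    IsAlgClosed.degree_eq_one_of_irreducible K (minpoly.irreducible hw)
  refine ⟨-(minpoly K w).coeff 0, ?_⟩
  have h2 : Polynomial.aeval w (minpoly K w) = 0 := minpoly.aeval K w
  rw [Polynomial.eq_X_add_C_of_degree_eq_one h, hq, Polynomial.C_1, one_mul, map_add,
    Polynomial.aeval_X, Polynomial.aeval_C, add_eq_zero_iff_eq_neg] at h2
  rw [map_neg]
  exact h2

theorem val_smul {L Ω : Type} [Field L] [Field Ω] (f : L →+* Ω) {M : ℕ} (c : Ω)
    (x : Fin (M + 1) → L) (β : Fin (M + 1) →₀ ℕ) :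
    val (fun i => c * f (x i)) β = c ^ β.degree * f (val x β) := by
  unfold val
  rw [map_prod, Finsupp.degree_eq_sum, ← Finset.prod_pow_eq_pow_sum, ← Finset.prod_mul_distrib]
  refine Finset.prod_congr rfl fun i _ => ?_
  rw [mul_pow, map_pow]

theorem fv_smul {K L Ω : Type} [Field K] [Field L] [Field Ω] [Algebra K L] [Algebra K Ω]
    [Algebra L Ω] [IsScalarTower K L Ω] {M q : ℕ} {d : Fin q → ℕ} (t : Idx M d → K) (c : Ω)
    (x : Fin (M + 1) → L) (i : Fin q) :
    fv t (fun j => c * algebraMap L Ω (x j)) i = c ^ d i * algebraMap L Ω (fv t x i) := by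
  unfold fv
  rw [map_sum, Finset.mul_sum]
  refine Finset.sum_congr rfl fun β _ => ?_
  rw [val_smul, β.2, map_mul, ← IsScalarTower.algebraMap_apply]
  ring

theorem eval_smul {k Ω : Type} [Field k] [Field Ω] (f : k →+* Ω) {M e : ℕ}
    (H : MvPolynomial (Fin (M + 1)) k) (hH : H.IsHomogeneous e) (c : Ω) (z : Fin (M + 1) → Ω) :
    eval₂ f (fun i => c * z i) H = c ^ e * eval₂ f z H := by
  rw [eval₂_eq', eval₂_eq', Finset.mul_sum]
  refine Finset.sum_congr rfl fun s hs => ?_
  have h1 : ∑ i, s i = e := by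
    rw [← Finsupp.degree_eq_sum, Finsupp.degree_eq_weight_one]
    exact hH (mem_support_iff.1 hs)
  have h2 : ∏ i, (c * z i) ^ s i = c ^ e * ∏ i, z i ^ s i := by
    rw [← h1, ← Finset.prod_pow_eq_pow_sum, ← Finset.prod_mul_distrib]
    exact Finset.prod_congr rfl fun i _ => mul_pow _ _ _
  rw [h2]
  ring

/-- the form -/
noncomputable def frm {K : Type} [Field K] {M q : ℕ} {d : Fin q → ℕ} (t : Idx M d → K)
    (i : Fin q) : MvPolynomial (Fin (M + 1)) K :=
  ∑ β : Mon M (d i), monomial β.1 (t ⟨i, β⟩)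

theorem aeval_frm {K L : Type} [Field K] [Field L] [Algebra K L] {M q : ℕ} {d : Fin q → ℕ}
    (t : Idx M d → K) (y : Fin (M + 1) → L) (i : Fin q) : aeval y (frm t i) = fv t y i := by
  unfold frm fv val
  rw [map_sum]
  refine Finset.sum_congr rfl fun β _ => ?_
  rw [aeval_monomial, Finsupp.prod_fintype _ _ (fun _ => pow_zero _)]

theorem frm_hom {K : Type} [Field K] {M q : ℕ} {d : Fin q → ℕ} (t : Idx M d → K) (i : Fin q) :
    (frm t i).IsHomogeneous (d i) := by
  unfold frm
  exact IsHomogeneous.sum _ _ _ fun β _ => isHomogeneous_monomial _ β.2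

theorem fv_zero {K L : Type} [Field K] [Field L] [Algebra K L] {M q : ℕ} {d : Fin q → ℕ}
    (hd : ∀ i, 1 ≤ d i) (t : Idx M d → K) (i : Fin q) : fv t (0 : Fin (M + 1) → L) i = 0 := by
  unfold fv
  refine Finset.sum_eq_zero fun β _ => ?_
  have h1 : ∑ j, β.1 j = d i := by rw [← Finsupp.degree_eq_sum]; exact β.2
  obtain ⟨j, -, hj⟩ : ∃ j ∈ Finset.univ, β.1 j ≠ 0 := by
    apply Finset.exists_ne_zero_of_sum_ne_zero
    rw [h1]
    have := hd i
    omega
  have h2 : val (0 : Fin (M + 1) → L) β.1 = 0 := by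
    unfold val
    exact Finset.prod_eq_zero (Finset.mem_univ j) (by rw [Pi.zero_apply, zero_pow hj])
  rw [h2, mul_zero]

end IntP

open IntP in
theorem int (h1 : NczStm) (h2 : AlgStm) : IntStm := by
  intro k K L _ _ _ _ _ _ _ M n q V hV ℓ hℓ hZ hnq d hd t ht C hC x hx hC0 hb hq
  classical
  -- the polynomials over `K`
  set f : k →+* K := algebraMap k K with hf
  set VK : Set (MvPolynomial (Fin (M + 1)) K) := (MvPolynomial.map f) '' V with hVK
  have hrad : ∀ a, X a ∈ (Ideal.span (VK ∪ Set.range (frm t))).radical := by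
    intro a
    rw [← vanishingIdeal_zeroLocus_eq_radical (K := K), mem_vanishingIdeal_iff]
    intro y hy
    rw [mem_zeroLocus_iff] at hy
    have hy0 : y = 0 := by
      refine h1 k K M n q V hV ℓ hℓ hZ hnq d hd t ht y ?_ ?_
      · intro H hH
        have h3 := hy (MvPolynomial.map f H)
          (Ideal.subset_span (Or.inl (Set.mem_image_of_mem _ hH)))
        rw [aeval_def, eval₂_map, Algebra.algebraMap_self, RingHom.id_comp] at h3
        rw [aeval_def]
        exact h3
      · intro i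
        rw [← aeval_frm]
        exact hy _ (Ideal.subset_span (Or.inr (Set.mem_range_self i)))
    rw [aeval_X, hy0, Pi.zero_apply]
  -- the auxiliary field
  obtain ⟨b₀, hb₀⟩ : ∃ b₀, b₀ ∉ C := by
    by_contra hcon
    push Not at hcon
    exact hC (Finset.eq_univ_iff_forall.2 hcon)
  let Ω : Type := AlgebraicClosure L
  obtain ⟨ρ, hρ⟩ : ∃ ρ : Ω, ρ ^ d b₀ = algebraMap L Ω (fv t x b₀) :=
    IsAlgClosed.exists_pow_nat_eq _ (hd b₀)
  have hinj : Function.Injective (algebraMap L Ω) := RingHom.injective _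
  have hne : algebraMap L Ω (fv t x b₀) ≠ 0 := by
    rw [Ne, map_eq_zero]
    exact hb b₀ hb₀
  have hρ0 : ρ ≠ 0 := by
    rintro rfl
    rw [zero_pow (by have := hd b₀; omega)] at hρ
    exact hne hρ.symm
  set x' : Fin (M + 1) → Ω := fun j => ρ⁻¹ * algebraMap L Ω (x j) with hx'
  have hfv : ∀ i, fv t x' i = ρ⁻¹ ^ d i * algebraMap L Ω (fv t x i) := fun i => fv_smul t _ x i
  have hval : ∀ i, ∃ b : K, fv t x' i = algebraMap K Ω b := by
    intro i
    by_cases hi : i ∈ C
    · exact ⟨0, by rw [hfv, hC0 i hi, map_zero, map_zero, mul_zero]⟩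
    · obtain ⟨a, ha⟩ := hq i b₀ hi hb₀
      have h3 : fv t x' i ^ d b₀ = algebraMap K Ω a := by
        rw [hfv, mul_pow, ← pow_mul, mul_comm (d i), pow_mul, inv_pow, hρ,
          IsScalarTower.algebraMap_apply K L Ω, ← ha, map_div₀, map_pow, map_pow, inv_pow]
        rw [div_eq_inv_mul]
      apply mem_of_integral
      refine IsIntegral.of_pow (n := d b₀) (by have := hd b₀; omega) ?_
      rw [h3]
      exact isIntegral_algebraMap
  have halg : ∀ a, IsAlgebraic K (x' a) := by
    refine h2 K Ω M VK ?_ (Fin q) (frm t) d hd (frm_hom t) hrad x' ?_ ?_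
    · rintro _ ⟨H, hH, rfl⟩
      obtain ⟨e, he⟩ := hV H hH
      exact ⟨e, he.map f⟩
    · rintro _ ⟨H, hH, rfl⟩
      obtain ⟨e, he⟩ := hV H hH
      rw [aeval_def, eval₂_map]
      have h3 := hx H hH
      have h4 := congrArg (algebraMap L Ω) h3
      rw [eval₂_comp_left, map_zero, ← RingHom.comp_assoc, ← IsScalarTower.algebraMap_eq] at h4
      rw [hx', eval_smul _ H he]
      have h5 : eval₂ ((algebraMap K Ω).comp f) (fun j => algebraMap L Ω (x j)) H = 0 := h4
      rw [h5, mul_zero]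
    · intro j
      rw [aeval_frm]
      exact hval j
  have hy : ∀ a, ∃ b : K, x' a = algebraMap K Ω b := fun a =>
    mem_of_integral _ (halg a).isIntegral
  choose y hy using hy
  have hy' : ∀ a, algebraMap L Ω (x a) = ρ * algebraMap K Ω (y a) := by
    intro a
    rw [← hy a, hx']
    exact (mul_inv_cancel_left₀ hρ0 _).symm
  obtain ⟨a₀, ha₀⟩ : ∃ a, y a ≠ 0 := by
    by_contra hcon
    push Not at hcon
    have h3 : x' = 0 := by
      funext a
      rw [hy a, hcon a, map_zero, Pi.zero_apply]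
    have h4 := hfv b₀
    rw [h3, fv_zero hd, inv_pow, hρ, inv_mul_cancel₀ hne] at h4
    exact zero_ne_one h4
  have hya : algebraMap K L (y a₀) ≠ 0 := by
    rw [Ne, map_eq_zero]
    exact ha₀
  have hρL : ρ = algebraMap L Ω (x a₀ / algebraMap K L (y a₀)) := by
    rw [map_div₀, hy' a₀, ← IsScalarTower.algebraMap_apply]
    have h3 : algebraMap K Ω (y a₀) ≠ 0 := by
      rw [Ne, map_eq_zero]
      exact ha₀
    rw [mul_div_cancel_right₀ _ h3]
  refine ⟨x a₀ / algebraMap K L (y a₀), y, funext fun a => hinj ?_⟩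
  rw [hy' a, map_mul, ← hρL, ← IsScalarTower.algebraMap_apply]

end Pool.Agent.NH29.GN
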