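import Pool.Agent.NH29.GN.Stm

/-!
# GN-LIN: linear algebra (helper90)
-/

set_option autoImplicit false

namespace Pool.Agent.NH29.GN

open Module

namespace LinA

variable {K L : Type} [Field K] [Field L] [Algebra K L]

/-- a maximal linearly independent subfamily -/
theorem exists_sub {ι V : Type} [Fintype ι] [AddCommGroup V] [Module K V] (v : ι → V) :
    ∃ s : Finset ι, LinearIndependent K (fun i : s => v i) ∧
      ∀ i, v i ∈ Submodule.span K (v '' (s : Set ι)) := by
  classical
  obtain ⟨b, -, -, h1, h2⟩ := exists_linearIndepOn_extension (K := K) (v := v)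
    (linearIndepOn_empty K v) (Set.empty_subset Set.univ)
  refine ⟨b.toFinset, ?_, fun i => ?_⟩
  · have h3 : LinearIndepOn K v ((b.toFinset : Finset ι) : Set ι) := by
      rw [Set.coe_toFinset]
      exact h2
    exact h3
  · rw [Set.coe_toFinset]
    exact h1 ⟨i, Set.mem_univ i, rfl⟩

end LinA

open LinA

theorem lin : LinStm := by
  classical
  intro K L _ _ _ E _ _ W _ q φ σ _ w 𝒟 T _ κ a ha hyp c hc
  -- the restrictions to `W`
  obtain ⟨r, hr⟩ : ∃ r : Fin q → Dual L W, ∀ k y, r k y = φ k (y : E) :=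
    ⟨fun k => (φ k).comp W.subtype, fun _ _ => rfl⟩
  obtain ⟨J, hJ1, hJ2⟩ := exists_sub (K := L) r
  have hJc : J.card ≤ finrank L W := by
    have h1 := hJ1.fintype_card_le_finrank
    rw [Fintype.card_coe, Subspace.dual_finrank_eq] at h1
    exact h1
  have hBc : q ≤ (Jᶜ).card + finrank L W := by
    have h1 := Finset.card_compl_add_card J
    rw [Fintype.card_fin] at h1
    omega
  refine ⟨Jᶜ, hBc, ?_⟩
  -- the vanishing of the sums
  have hG : ∀ g ∈ 𝒟, (∀ l, κ l g = 0) → (∀ k ∈ J, ∀ β, g ⟨k, β⟩ = 0) → ∀ b, b ∉ J →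
      ∑ β, algebraMap K L (g ⟨b, β⟩) * w b β = 0 := by
    intro g hg hκ hsup b hb
    have h1 := hJ2 b
    rw [Submodule.mem_span_image_finset_iff_exists_fun'] at h1
    obtain ⟨s, hs⟩ := h1
    have h2 := hyp (fun k => (if k = b then 1 else 0) - if k ∈ J then s k else 0) (by
      intro y hy
      have h3 : ∑ j ∈ J, s j * φ j y = φ b y := by
        have h4 := congrArg (fun f : Dual L W => f ⟨y, hy⟩) hs
        simp only [LinearMap.sum_apply, LinearMap.smul_apply, smul_eq_mul, hr] at h4
        exact h4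
      simp only [sub_mul, ite_mul, one_mul, zero_mul, Finset.sum_sub_distrib,
        Finset.sum_ite_eq', Finset.mem_univ, if_true, Finset.sum_ite_mem, Finset.univ_inter]
      rw [h3, sub_self]) g hg hκ
    rw [Finset.sum_eq_single b] at h2
    · rw [if_pos rfl, if_neg hb, sub_zero, one_mul] at h2
      exact (mul_eq_zero.1 h2).resolve_left (ha b)
    · intro k _ hkb
      by_cases hkJ : k ∈ J
      · have h5 : ∑ β, algebraMap K L (g ⟨k, β⟩) * w k β = 0 :=
          Finset.sum_eq_zero fun β _ => by rw [hsup k hkJ β, map_zero, zero_mul]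
        rw [h5, mul_zero, mul_zero]
      · rw [if_neg hkb, if_neg hkJ, sub_zero, zero_mul]
    · intro h; exact absurd (Finset.mem_univ b) h
  -- independent subfamilies
  choose s hs1 hs2 using fun k => exists_sub (K := K) (w k)
  have hfr : ∀ k, finrank K (Submodule.span K (Set.range (w k))) ≤ (s k).card := by
    intro k
    have h1 : Submodule.span K (Set.range (w k)) ≤
        Submodule.span K (((s k).image (w k) : Finset L) : Set L) := by
      rw [Submodule.span_le]
      rintro _ ⟨i, rfl⟩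
      rw [Finset.coe_image]
      exact hs2 k i
    have h2 : Module.Finite K (Submodule.span K (((s k).image (w k) : Finset L) : Set L)) :=
      FiniteDimensional.span_finset K _
    exact (Submodule.finrank_mono h1).trans
      ((finrank_span_finset_le_card _).trans Finset.card_image_le)
  -- the extension by zero
  let I : Type := (b : {b // b ∈ Jᶜ}) × {β // β ∈ s b.1}
  let ι : (I → K) →ₗ[K] (((k : Fin q) × σ k) → K) :=
    { toFun := fun h x => if h' : x.1 ∈ Jᶜ ∧ x.2 ∈ s x.1 then h ⟨⟨x.1, h'.1⟩, ⟨x.2, h'.2⟩⟩ else 0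
      map_add' := by
        intro f g
        funext x
        simp only [Pi.add_apply]
        split_ifs
        · rfl
        · rw [add_zero]
      map_smul' := by
        intro f g
        funext x
        simp only [Pi.smul_apply, RingHom.id_apply]
        split_ifs
        · rfl
        · rw [smul_zero] }
  let Ψ : (I → K) →ₗ[K] ((((k : Fin q) × σ k) → K) ⧸ 𝒟) × (T → K) :=
    (𝒟.mkQ.comp ι).prod ((LinearMap.pi κ).comp ι)
  have hinj : Function.Injective Ψ := by
    rw [← LinearMap.ker_eq_bot, LinearMap.ker_eq_bot']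
    intro h hh
    have h1 : 𝒟.mkQ (ι h) = 0 := congrArg Prod.fst hh
    have h2 : ∀ l, κ l (ι h) = 0 := fun l => congrFun (congrArg Prod.snd hh) l
    have h3 : ι h ∈ 𝒟 := by
      rw [Submodule.mkQ_apply, Submodule.Quotient.mk_eq_zero] at h1
      exact h1
    have h4 := hG (ι h) h3 h2 (by
      intro k hk β
      show (if h' : k ∈ Jᶜ ∧ β ∈ s k then h ⟨⟨k, h'.1⟩, ⟨β, h'.2⟩⟩ else 0) = 0
      rw [dif_neg]
      rintro ⟨h5, _⟩
      exact (Finset.mem_compl.1 h5) hk)
    funext x
    obtain ⟨⟨b, hb⟩, β⟩ := x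
    have h5 := h4 b (Finset.mem_compl.1 hb)
    have h6 : ∑ β : {β // β ∈ s b}, h ⟨⟨b, hb⟩, β⟩ • w b β.1 = 0 := by
      rw [← h5]
      have h7 : ∀ β : σ b, algebraMap K L (ι h ⟨b, β⟩) * w b β =
          if h' : β ∈ s b then h ⟨⟨b, hb⟩, ⟨β, h'⟩⟩ • w b β else 0 := by
        intro β
        show algebraMap K L (if h' : b ∈ Jᶜ ∧ β ∈ s b then h ⟨⟨b, h'.1⟩, ⟨β, h'.2⟩⟩ else 0) *
          w b β = _
        by_cases h8 : β ∈ s b
        · rw [dif_pos ⟨hb, h8⟩, dif_pos h8, Algebra.smul_def]
        · rw [dif_neg (fun h9 => h8 h9.2), dif_neg h8, map_zero, zero_mul]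
      rw [Finset.sum_congr rfl fun β _ => h7 β]
      rw [← Finset.sum_subset (Finset.subset_univ (s b)) (by
        intro β _ hβ
        rw [dif_neg hβ])]
      rw [← Finset.sum_attach (s b)]
      refine Finset.sum_congr rfl fun β _ => ?_
      rw [dif_pos β.2]
    exact Fintype.linearIndependent_iff.1 (hs1 b) (fun β => h ⟨⟨b, hb⟩, β⟩) h6 β
  have hle := LinearMap.finrank_le_finrank_of_injective hinj
  rw [Module.finrank_fintype_fun_eq_card, Module.finrank_prod,
    Module.finrank_fintype_fun_eq_card] at hle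
  have hq := Submodule.finrank_quotient_add_finrank 𝒟
  have hcard : Fintype.card I = ∑ b ∈ Jᶜ, (s b).card := by
    rw [Fintype.card_sigma]
    simp only [Fintype.card_coe]
    exact Finset.sum_coe_sort Jᶜ fun b => (s b).card
  rw [hcard] at hle
  have hsum : ∑ b ∈ Jᶜ, finrank K (Submodule.span K (Set.range (w b))) ≤ ∑ b ∈ Jᶜ, (s b).card :=
    Finset.sum_le_sum fun b _ => hfr b
  omega

end Pool.Agent.NH29.GN
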