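import Pool.Agent.NH29.GN.Stm

set_option autoImplicit false

namespace Pool.Agent.NH29.GN

open MvPolynomial Module Filter

namespace Ncz

theorem trdeg_adjoin_le {k Ω : Type} [Field k] [Field Ω] [Algebra k Ω] (S : Finset Ω) :
    Algebra.trdeg k (IntermediateField.adjoin k (S : Set Ω)) ≤ S.card := by
  classical
  obtain ⟨L, hL⟩ : ∃ L, L = IntermediateField.adjoin k (S : Set Ω) := ⟨_, rfl⟩
  rw [← hL]
  obtain ⟨s, hs⟩ : ∃ s : Set L, ∀ x : L, x ∈ s ↔ (x : Ω) ∈ S :=
    ⟨{x : L | (x : Ω) ∈ S}, fun _ => Iff.rfl⟩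
  have h2 : IntermediateField.adjoin k s = ⊤ := by
    rw [eq_top_iff]
    rintro ⟨x, hx⟩ -
    have h2 : (IntermediateField.adjoin k s).map L.val = L := by
      rw [IntermediateField.adjoin_map]
      conv_rhs => rw [hL]
      congr 1
      ext z
      constructor
      · rintro ⟨b, hb, rfl⟩
        exact (hs b).1 hb
      · intro hz
        have hzL : z ∈ L := by rw [hL]; exact IntermediateField.subset_adjoin _ _ hz
        exact ⟨⟨z, hzL⟩, (hs _).2 hz, rfl⟩
    have h3 : x ∈ (IntermediateField.adjoin k s).map L.val := by rw [h2]; exact hx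
    obtain ⟨w, hw, hwx⟩ := h3
    have h4 : w = ⟨x, hx⟩ := Subtype.ext hwx
    rw [← h4]
    exact hw
  have h3 : Algebra.IsAlgebraic (Algebra.adjoin k s) L := by
    rw [← IntermediateField.isAlgebraic_adjoin_iff_top, h2]
    exact ⟨fun x => isAlgebraic_algebraMap (⟨x, trivial⟩ : (⊤ : IntermediateField k L))⟩
  have h4 := Algebra.IsAlgebraic.trdeg_le_cardinalMk k s
  have h6 : Cardinal.mk s ≤ S.card := by
    have h7 : Function.Injective (fun x : s => (⟨(x : L), (hs _).1 x.2⟩ : S)) := by
      intro a b hab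
      have h8 := congrArg Subtype.val hab
      exact Subtype.ext (Subtype.ext h8)
    have h8 := Cardinal.mk_le_of_injective h7
    rwa [Cardinal.mk_coe_finset] at h8
  exact h4.trans h6

/-- an algebraically independent family algebraic over the field generated by `S` has at most `#S`
members -/
theorem card_le {k K : Type} [Field k] [Field K] [Algebra k K] (S : Finset K) {ι : Type} [Fintype ι]
    (t : ι → K) (ht : AlgebraicIndependent k t)
    (h : ∀ i, IsAlgebraic (IntermediateField.adjoin k (S : Set K)) (t i)) :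
    Fintype.card ι ≤ S.card := by
  obtain ⟨F, hF⟩ : ∃ F, F = IntermediateField.adjoin k (S : Set K) := ⟨_, rfl⟩
  have h1 : Algebra.trdeg k F ≤ S.card := by
    rw [hF]
    exact trdeg_adjoin_le S
  rw [← hF] at h
  let G : IntermediateField F K := algebraicClosure F K
  have : IsScalarTower k G K := IsScalarTower.of_algebraMap_eq fun _ => rfl
  have : IsScalarTower k F G := IsScalarTower.of_algebraMap_eq fun _ => rfl
  have : FaithfulSMul k F := inferInstance
  have h2 : Algebra.trdeg k F + Algebra.trdeg F G = Algebra.trdeg k G := trdeg_add_eq k F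
  have h3 : Algebra.trdeg F G = 0 := trdeg_eq_zero
  rw [h3, add_zero] at h2
  let t' : ι → G := fun i => ⟨t i, mem_algebraicClosure_iff.2 (h i)⟩
  have h4 : AlgebraicIndependent k t' := by
    apply AlgebraicIndependent.of_comp (IsScalarTower.toAlgHom k G K)
    exact ht
  have h5 := h4.cardinalMk_le_trdeg
  rw [← h2] at h5
  have h6 := h5.trans h1
  rw [Cardinal.mk_fintype] at h6
  exact_mod_cast h6

lemma val_smul {L : Type} [Field L] {M : ℕ} (c : L) (x : Fin (M + 1) → L) (β : Fin (M + 1) →₀ ℕ) :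
    val (fun i => c * x i) β = c ^ β.degree * val x β := by
  unfold val
  simp only [mul_pow, Finset.prod_mul_distrib]
  congr 1
  rw [Finset.prod_pow_eq_pow_sum, Finsupp.degree_eq_sum]

lemma fv_smul {K L : Type} [Field K] [Field L] [Algebra K L] {M q : ℕ} {d : Fin q → ℕ}
    (t : Idx M d → K) (c : L) (x : Fin (M + 1) → L) (i : Fin q) :
    fv t (fun i => c * x i) i = c ^ d i * fv t x i := by
  unfold fv
  rw [Finset.mul_sum]
  refine Finset.sum_congr rfl fun β _ => ?_
  rw [val_smul, β.2]
  ring

lemma aeval_smul {k L : Type} [Field k] [Field L] [Algebra k L] {M e : ℕ}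
    {H : MvPolynomial (Fin (M + 1)) k} (hH : H.IsHomogeneous e) (c : L) (x : Fin (M + 1) → L) :
    aeval (fun i => c * x i) H = c ^ e * aeval x H := by
  rw [MvPolynomial.aeval_def, MvPolynomial.aeval_def, MvPolynomial.eval₂_eq', MvPolynomial.eval₂_eq',
    Finset.mul_sum]
  refine Finset.sum_congr rfl fun β hβ => ?_
  have h1 : β.degree = e := by
    have := hH (MvPolynomial.mem_support_iff.1 hβ)
    rw [← this, Finsupp.degree_eq_weight_one]
    rfl
  have h2 := val_smul c x β
  unfold val at h2
  rw [h2, h1]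
  ring

end Ncz

open Ncz in
theorem ncz (h : AlgStm) : NczStm := by
  classical
  intro k K _ _ _ _ _ M n q V hV l hl hNZ hq d hd t ht y hyV hyt
  by_contra hy0
  -- some linear form does not vanish at `y`
  obtain ⟨j0, hj0⟩ : ∃ j, aeval y (l j) ≠ 0 := by
    by_contra hcon
    push Not at hcon
    apply hy0
    ext a
    obtain ⟨N, hN⟩ := hNZ a
    have h1 : Ideal.span (V ∪ Set.range l) ≤ RingHom.ker (aeval y : MvPolynomial (Fin (M + 1)) k →ₐ[k] K) := by
      rw [Ideal.span_le]
      rintro H (hH | ⟨j, rfl⟩)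
      · exact hyV H hH
      · exact hcon j
    have h2 := h1 hN
    rw [RingHom.mem_ker, map_pow, aeval_X] at h2
    exact eq_zero_of_pow_eq_zero h2
  obtain ⟨c, hc⟩ : ∃ c, c = (aeval y (l j0))⁻¹ := ⟨_, rfl⟩
  have hc0 : c ≠ 0 := by rw [hc]; exact inv_ne_zero hj0
  obtain ⟨z, hz⟩ : ∃ z : Fin (M + 1) → K, z = fun i => c * y i := ⟨_, rfl⟩
  have hzV : ∀ H ∈ V, aeval z H = 0 := by
    intro H hH
    obtain ⟨e, he⟩ := hV H hH
    rw [hz, aeval_smul he, hyV H hH, mul_zero]
  have hzt : ∀ i, fv t z i = 0 := by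
    intro i
    rw [hz, fv_smul, hyt i, mul_zero]
  have hzj : aeval z (l j0) = 1 := by
    rw [hz, aeval_smul (hl j0), pow_one, hc, inv_mul_cancel₀ hj0]
  obtain ⟨a0, ha0⟩ : ∃ a, z a ≠ 0 := by
    obtain ⟨a, ha⟩ := Function.ne_iff.1 hy0
    refine ⟨a, ?_⟩
    rw [hz]
    exact mul_ne_zero hc0 ha
  -- the exceptional coefficients
  let β : ∀ i : Fin q, Mon M (d i) := fun i => ⟨Finsupp.single a0 (d i), Finsupp.degree_single _ _⟩
  let X0 : Finset (Idx M d) := Finset.univ.image fun i => ⟨i, β i⟩
  let T' : Finset K := (Finset.univ \ X0).image t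
  let B : Finset K := (Finset.univ.erase j0).image fun j => aeval z (l j)
  let S : Finset K := B ∪ T'
  obtain ⟨F, hF⟩ : ∃ F, F = IntermediateField.adjoin k (S : Set K) := ⟨_, rfl⟩
  have hSF : ∀ x ∈ S, x ∈ F := by
    intro x hx
    rw [hF]
    exact IntermediateField.subset_adjoin _ _ hx
  let G : IntermediateField F K := algebraicClosure F K
  have : IsScalarTower k G K := IsScalarTower.of_algebraMap_eq fun _ => rfl
  have hFG : ∀ x ∈ F, x ∈ G := by
    intro x hx
    exact mem_algebraicClosure_iff.2 (isAlgebraic_algebraMap (⟨x, hx⟩ : F))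
  have hlG : ∀ j, aeval z (l j) ∈ G := by
    intro j
    by_cases hj : j = j0
    · rw [hj, hzj]
      exact one_mem _
    · apply hFG
      apply hSF
      exact Finset.mem_union_left _ (Finset.mem_image_of_mem _ (Finset.mem_erase.2 ⟨hj, Finset.mem_univ j⟩))
  have hG : ∀ x, IsAlgebraic G x → x ∈ G := by
    intro x hx
    rw [mem_algebraicClosure_iff]
    exact hx.restrictScalars F
  have hzG : ∀ a, z a ∈ G := by
    intro a
    apply hG
    refine h G K M (MvPolynomial.map (algebraMap k G) '' V) ?_ (Fin (n + 1))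
      (fun j => MvPolynomial.map (algebraMap k G) (l j)) (fun _ => 1) (fun _ => le_rfl)
      (fun j => (hl j).map _) ?_ z ?_ ?_ a
    · rintro _ ⟨H, hH, rfl⟩
      obtain ⟨e, he⟩ := hV H hH
      exact ⟨e, he.map _⟩
    · intro b
      obtain ⟨N, hN⟩ := hNZ b
      refine ⟨N, ?_⟩
      have h1 := Ideal.mem_map_of_mem (MvPolynomial.map (algebraMap k G)) hN
      rw [Ideal.map_span, Set.image_union, ← Set.range_comp, map_pow, MvPolynomial.map_X] at h1
      exact h1
    · rintro _ ⟨H, hH, rfl⟩
      rw [MvPolynomial.aeval_map_algebraMap]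
      exact hzV H hH
    · intro j
      refine ⟨⟨aeval z (l j), hlG j⟩, ?_⟩
      rw [MvPolynomial.aeval_map_algebraMap]
      rfl
  have hvalG : ∀ γ : Fin (M + 1) →₀ ℕ, val z γ ∈ G := by
    intro γ
    unfold val
    exact prod_mem fun i _ => pow_mem (hzG i) _
  have htG' : ∀ p : Idx M d, p ∉ X0 → t p ∈ G := by
    intro p hp
    apply hFG
    apply hSF
    exact Finset.mem_union_right _ (Finset.mem_image_of_mem _
      (Finset.mem_sdiff.2 ⟨Finset.mem_univ p, hp⟩))
  have hmem : ∀ (i : Fin q) (γ : Mon M (d i)), (⟨i, γ⟩ : Idx M d) ∈ X0 → γ = β i := by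
    intro i γ hγ
    obtain ⟨i', -, h1⟩ := Finset.mem_image.1 hγ
    obtain ⟨h2, h3⟩ := Sigma.mk.inj h1
    subst h2
    exact (eq_of_heq h3).symm
  have htG : ∀ p : Idx M d, t p ∈ G := by
    rintro ⟨i, γ⟩
    by_cases hp : (⟨i, γ⟩ : Idx M d) ∈ X0
    · have h1 := hmem i γ hp
      rw [h1]
      have h2 := hzt i
      unfold fv at h2
      rw [← Finset.add_sum_erase _ _ (Finset.mem_univ (β i))] at h2
      have h3 : val z (β i).1 = z a0 ^ d i := by
        unfold val
        rw [Finset.prod_eq_single a0]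
        · simp [β]
        · intro b _ hb
          simp [β, Ne.symm hb]
        · intro hb
          exact absurd (Finset.mem_univ _) hb
      have h4 : z a0 ^ d i ≠ 0 := pow_ne_zero _ ha0
      have h5 : t ⟨i, β i⟩ = -(∑ x ∈ Finset.univ.erase (β i), algebraMap K K (t ⟨i, x⟩) * val z x.1) /
          z a0 ^ d i := by
        rw [h3] at h2
        rw [eq_div_iff h4]
        exact eq_neg_of_add_eq_zero_left h2
      rw [h5]
      refine div_mem (neg_mem (sum_mem fun x hx => mul_mem ?_ (hvalG _))) (pow_mem (hzG a0) _)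
      apply htG'
      intro hx2
      exact (Finset.mem_erase.1 hx).1 (hmem i x hx2)
    · exact htG' _ hp
  have hcard := card_le S t ht (fun p => by
    rw [← hF]
    exact mem_algebraicClosure_iff.1 (htG p))
  -- counting
  have hX0 : X0.card = q := by
    rw [Finset.card_image_of_injective, Finset.card_univ, Fintype.card_fin]
    intro i i' hii
    exact (Sigma.mk.inj hii).1
  have h1 : T'.card ≤ Fintype.card (Idx M d) - q := by
    refine Finset.card_image_le.trans ?_
    rw [Finset.card_sdiff_of_subset (Finset.subset_univ _), hX0, Finset.card_univ]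
  have h2 : B.card ≤ n := by
    refine Finset.card_image_le.trans ?_
    rw [Finset.card_erase_of_mem (Finset.mem_univ _), Finset.card_univ, Fintype.card_fin]
    omega
  have h3 : S.card ≤ B.card + T'.card := Finset.card_union_le _ _
  have h4 : q ≤ Fintype.card (Idx M d) := by
    have h5 := Finset.card_le_univ X0
    omega
  omega

end Pool.Agent.NH29.GN
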