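import Pool.Agent.NH29.GN.Stm

/-! REL: a maximal multiplicatively independent subset is algebraically independent. -/

set_option autoImplicit false

namespace Pool.Agent.NH29.GN

open MvPolynomial

namespace Relx

variable {K L : Type} [Field K] [Field L] [Algebra K L] {q : ℕ}

/-- no nontrivial monomial in the `v j`, `j ∈ J`, is constant -/
def Good (K : Type) {L : Type} [Field K] [Field L] [Algebra K L] {q : ℕ} (v : Fin q → L)
    (J : Finset (Fin q)) : Prop :=
  ∀ m : Fin q → ℤ, (∀ j, j ∉ J → m j = 0) → (∃ a : K, ∏ j, v j ^ m j = algebraMap K L a) → m = 0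

lemma good_empty (v : Fin q → L) : Good K v ∅ := by
  intro m hm _
  funext j
  exact hm j (Finset.notMem_empty j)

/-- exponents on `J` extended by zero -/
def ex (J : Finset (Fin q)) (α : J →₀ ℕ) (b : Fin q) : ℤ :=
  if h : b ∈ J then (α ⟨b, h⟩ : ℤ) else 0

lemma ex_inj (J : Finset (Fin q)) : Function.Injective (ex J) := by
  intro α β h
  ext j
  have h1 := congrFun h j.1
  simp only [ex, j.2, dite_true] at h1
  exact_mod_cast h1

lemma ex_off (J : Finset (Fin q)) (α : J →₀ ℕ) (b : Fin q) (hb : b ∉ J) : ex J α b = 0 := by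
  simp [ex, hb]

lemma prod_ex (v : Fin q → L) (J : Finset (Fin q)) (α : J →₀ ℕ) :
    ∏ b, v b ^ ex J α b = ∏ j : J, v j ^ α j := by
  have h1 : ∏ b, v b ^ ex J α b = ∏ b ∈ J, v b ^ ex J α b := by
    symm
    apply Finset.prod_subset (Finset.subset_univ J)
    intro b _ hb
    rw [ex_off J α b hb, zpow_zero]
  rw [h1, ← Finset.prod_coe_sort]
  apply Finset.prod_congr rfl
  intro j _
  simp [ex]

lemma key (v : Fin q → L) (m : Fin q → ℤ) (b : Fin q) :
    ∏ j, v j ^ m j = v b ^ m b * ∏ j, v j ^ (Function.update m b 0 j) := by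
  classical
  rw [← Finset.mul_prod_erase Finset.univ (fun j => v j ^ m j) (Finset.mem_univ b),
    ← Finset.mul_prod_erase Finset.univ (fun j => v j ^ (Function.update m b 0 j)) (Finset.mem_univ b)]
  simp only [Function.update_self, zpow_zero, one_mul]
  congr 1
  apply Finset.prod_congr rfl
  intro j hj
  rw [Function.update_of_ne (Finset.ne_of_mem_erase hj)]

end Relx

open Relx in
theorem rel : RelStm := by
  classical
  intro K L _ _ _ q v hv hInd
  obtain ⟨J, hJ, hmax⟩ := Finset.exists_max_image
    ((Finset.univ : Finset (Finset (Fin q))).filter (fun J => Good K v J)) Finset.card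
    ⟨∅, by rw [Finset.mem_filter]; exact ⟨Finset.mem_univ _, good_empty v⟩⟩
  rw [Finset.mem_filter] at hJ
  have hJ := hJ.2
  refine ⟨J, ?_, ?_⟩
  · rw [algebraicIndependent_iff]
    intro p hp
    by_contra hp0
    have h1 : ∑ m ∈ p.support.image (ex J), algebraMap K L
        (Function.extend (ex J) (fun α => coeff α p) 0 m) * ∏ b, v b ^ m b = 0 := by
      rw [Finset.sum_image (fun a _ b _ h => ex_inj J h)]
      rw [aeval_def, eval₂_eq'] at hp
      rw [← hp]
      apply Finset.sum_congr rfl
      intro α _
      rw [(ex_inj J).extend_apply, prod_ex]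
    have h2 := hInd _ _ h1 (by
      intro m hm m' hm' hne a ha
      rw [Finset.mem_image] at hm hm'
      obtain ⟨α, _, rfl⟩ := hm
      obtain ⟨β, _, rfl⟩ := hm'
      apply hne
      have h3 : ∏ j, v j ^ (ex J α - ex J β) j = algebraMap K L a := by
        have h4 : ∏ j, v j ^ (ex J α - ex J β) j = (∏ j, v j ^ ex J α j) / ∏ j, v j ^ ex J β j := by
          rw [← Finset.prod_div_distrib]
          apply Finset.prod_congr rfl
          intro j _
          rw [Pi.sub_apply, zpow_sub₀ (hv j)]
        have h5 : ∏ j, v j ^ ex J β j ≠ 0 :=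
          Finset.prod_ne_zero_iff.2 fun j _ => zpow_ne_zero _ (hv j)
        rw [h4, ha]
        field_simp
      have h6 := hJ (ex J α - ex J β) (by
        intro j hj
        rw [Pi.sub_apply, ex_off J α j hj, ex_off J β j hj, sub_zero]) ⟨a, h3⟩
      exact sub_eq_zero.1 h6)
    apply hp0
    ext α
    rw [coeff_zero]
    by_cases hα : α ∈ p.support
    · have := h2 _ (Finset.mem_image_of_mem _ hα)
      rwa [(ex_inj J).extend_apply] at this
    · exact notMem_support_iff.1 hα
  · intro b
    by_cases hb : b ∈ J
    · refine ⟨1, Pi.single b 1, 1, one_pos, one_ne_zero, ?_, ?_⟩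
      · intro j hj
        have : j ≠ b := fun h => hj (h ▸ hb)
        exact Pi.single_eq_of_ne this _
      · rw [map_one, one_mul, pow_one, Finset.prod_eq_single b]
        · simp
        · intro j _ hj
          rw [Pi.single_eq_of_ne hj, zpow_zero]
        · intro h
          exact absurd (Finset.mem_univ b) h
    · have h1 : ¬ Good K v (insert b J) := by
        intro h2
        have h3 := hmax (insert b J) (by rw [Finset.mem_filter]; exact ⟨Finset.mem_univ _, h2⟩)
        rw [Finset.card_insert_of_notMem hb] at h3
        omega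
      unfold Good at h1
      push Not at h1
      obtain ⟨m, hm, ⟨a, ha⟩, hm0⟩ := h1
      have hmb : m b ≠ 0 := by
        intro h2
        apply hm0
        apply hJ m _ ⟨a, ha⟩
        intro j hj
        by_cases hjb : j = b
        · rw [hjb, h2]
        · exact hm j (by rw [Finset.mem_insert]; push Not; exact ⟨hjb, hj⟩)
      have hpr : ∏ j, v j ^ m j ≠ 0 := Finset.prod_ne_zero_iff.2 fun j _ => zpow_ne_zero _ (hv j)
      have ha0 : a ≠ 0 := by
        rintro rfl
        rw [map_zero] at ha
        exact hpr ha
      have haL : algebraMap K L a ≠ 0 := by rw [← ha]; exact hpr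
      -- normalise the sign
      obtain ⟨m', a', hm', ha', ha0', hpos⟩ : ∃ (m' : Fin q → ℤ) (a' : K),
          (∀ j, j ∉ insert b J → m' j = 0) ∧ ∏ j, v j ^ m' j = algebraMap K L a' ∧ a' ≠ 0 ∧
          0 < m' b := by
        rcases lt_or_gt_of_ne hmb with h | h
        · refine ⟨-m, a⁻¹, ?_, ?_, inv_ne_zero ha0, ?_⟩
          · intro j hj
            rw [Pi.neg_apply, hm j hj, neg_zero]
          · rw [map_inv₀, ← ha, ← Finset.prod_inv_distrib]
            apply Finset.prod_congr rfl
            intro j _
            rw [Pi.neg_apply, zpow_neg]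
          · rw [Pi.neg_apply]; omega
        · exact ⟨m, a, hm, ha, ha0, h⟩
      refine ⟨(m' b).toNat, fun j => - Function.update m' b 0 j, a', by omega, ha0', ?_, ?_⟩
      · intro j hj
        show - Function.update m' b 0 j = 0
        by_cases hjb : j = b
        · rw [hjb, Function.update_self, neg_zero]
        · rw [Function.update_of_ne hjb, hm' j (by rw [Finset.mem_insert]; push Not; exact ⟨hjb, hj⟩),
            neg_zero]
      · rw [← ha', key v m' b]
        have h5 : ∏ j, v j ^ (Function.update m' b 0 j) ≠ 0 :=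
          Finset.prod_ne_zero_iff.2 fun j _ => zpow_ne_zero _ (hv j)
        have h6 : ∏ j, v j ^ (- Function.update m' b 0 j) =
            (∏ j, v j ^ (Function.update m' b 0 j))⁻¹ := by
          rw [← Finset.prod_inv_distrib]
          apply Finset.prod_congr rfl
          intro j _
          rw [zpow_neg]
        rw [h6, mul_assoc, mul_inv_cancel₀ h5, mul_one, ← zpow_natCast]
        congr 1
        omega

end Pool.Agent.NH29.GN
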