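import Pool.Agent.NH29.GN.Stm

/-!
# GN-STA: infinitely many points give a bad point over the ultrapower
-/

set_option autoImplicit false

namespace Pool.Agent.NH29.GN

open MvPolynomial Module Filter
open scoped LinearAlgebra.Projectivization

namespace STA

/-- the class of a sequence, as a ring homomorphism -/
noncomputable def mkH (K : Type) [Field K] : (ℕ → K) →+* UP K where
  toFun := UP.mk
  map_one' := rfl
  map_mul' := fun _ _ => rfl
  map_zero' := rfl
  map_add' := fun _ _ => rfl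

lemma mkH_apply {K : Type} [Field K] (f : ℕ → K) : mkH K f = UP.mk f := rfl

lemma algMap {K : Type} [Field K] (a : K) : algebraMap K (UP K) a = mkH K (fun _ => a) := rfl

lemma mk_eq {K : Type} (f g : ℕ → K) :
    UP.mk f = UP.mk g ↔ ∀ᶠ s in ((hyperfilter ℕ : Ultrafilter ℕ) : Filter ℕ), f s = g s :=
  Filter.Germ.coe_eq

lemma mk_surj {K : Type} (c : UP K) : ∃ f : ℕ → K, UP.mk f = c := by
  obtain ⟨f, hf⟩ := Quotient.exists_rep c
  exact ⟨f, hf⟩

lemma mk_eq_zero {K : Type} [Field K] (f : ℕ → K) :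
    mkH K f = 0 ↔ ∀ᶠ s in ((hyperfilter ℕ : Ultrafilter ℕ) : Filter ℕ), f s = 0 := by
  have h : (0 : UP K) = UP.mk (fun _ => (0 : K)) := rfl
  rw [mkH_apply, h, mk_eq]

lemma mk_ne_zero {K : Type} [Field K] (f : ℕ → K) (h : ∀ s, f s ≠ 0) : mkH K f ≠ 0 := by
  intro h0
  rw [mk_eq_zero] at h0
  obtain ⟨s, hs⟩ := h0.exists
  exact h s hs

lemma mk_inv {K : Type} [Field K] (f : ℕ → K) (h : ∀ s, f s ≠ 0) :
    (mkH K f)⁻¹ = mkH K (fun s => (f s)⁻¹) := by
  rw [inv_eq_iff_eq_inv]
  refine eq_inv_of_mul_eq_one_left ?_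
  rw [← map_mul]
  have : f * (fun s => (f s)⁻¹) = 1 := by
    funext s
    simp [h s]
  rw [this, map_one]

lemma mk_div {K : Type} [Field K] (f g : ℕ → K) (h : ∀ s, g s ≠ 0) :
    mkH K f / mkH K g = mkH K (fun s => f s / g s) := by
  rw [div_eq_mul_inv, mk_inv g h, ← map_mul]
  congr 1
  funext s
  simp [div_eq_mul_inv]

/-- the limit of a sequence of vectors -/
noncomputable def lim {K : Type} [Field K] {M : ℕ} (p : ℕ → Fin (M + 1) → K) :
    Fin (M + 1) → UP K := fun i => mkH K (fun s => p s i)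

lemma mk_val {K : Type} [Field K] {M : ℕ} (p : ℕ → Fin (M + 1) → K) (β : Fin (M + 1) →₀ ℕ) :
    val (lim p) β = mkH K (fun s => val (p s) β) := by
  have : (fun s => val (p s) β) = ∏ i, (fun s => p s i) ^ β i := by
    funext s
    simp [val, Finset.prod_apply]
  rw [this, map_prod]
  simp [val, lim, map_pow]

lemma mk_fv {K : Type} [Field K] {M q : ℕ} {d : Fin q → ℕ} (t : Idx M d → K)
    (p : ℕ → Fin (M + 1) → K) (i : Fin q) :
    fv t (lim p) i = mkH K (fun s => fv t (p s) i) := by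
  have : (fun s => fv t (p s) i) =
      ∑ β : Mon M (d i), (fun _ => t ⟨i, β⟩) * (fun s => val (p s) β.1) := by
    funext s
    simp [fv, Finset.sum_apply]
  rw [this, map_sum]
  simp only [fv, map_mul, mk_val]
  rfl

lemma mk_eval {k K : Type} [Field k] [Field K] [Algebra k K] {M : ℕ}
    (p : ℕ → Fin (M + 1) → K) (H : MvPolynomial (Fin (M + 1)) k) :
    eval₂ ((algebraMap K (UP K)).comp (algebraMap k K)) (lim p) H =
      mkH K (fun s => aeval (p s) H) := by
  induction H using MvPolynomial.induction_on with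
  | C a =>
    simp only [eval₂_C, RingHom.comp_apply, algMap, algHom_C]
  | add f g hf hg =>
    have : (fun s => aeval (p s) (f + g)) = (fun s => aeval (p s) f) + (fun s => aeval (p s) g) := by
      funext s; simp
    rw [this, map_add, eval₂_add, hf, hg]
  | mul_X f i hf =>
    have : (fun s => aeval (p s) (f * X i)) = (fun s => aeval (p s) f) * (fun s => p s i) := by
      funext s; simp
    rw [this, map_mul, eval₂_mul, hf, eval₂_X]
    rfl

lemma mk_zpow {K : Type} [Field K] (f : ℕ → Kˣ) (m : ℤ) :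
    (mkH K (fun s => (f s : K))) ^ m = mkH K (fun s => ((f s ^ m : Kˣ) : K)) := by
  have hn : ∀ n : ℕ, (mkH K (fun s => (f s : K))) ^ n = mkH K (fun s => ((f s ^ n : Kˣ) : K)) := by
    intro n
    rw [← map_pow]
    congr 1
  cases m with
  | ofNat n => simpa using hn n
  | negSucc n =>
    rw [zpow_negSucc, hn, mk_inv _ (fun s => Units.ne_zero _)]
    congr 1
    funext s
    simp [zpow_negSucc]

lemma mk_prod_zpow {K : Type} [Field K] {q : ℕ} (f : Fin q → ℕ → Kˣ) (m : Fin q → ℤ) :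
    ∏ b, (mkH K (fun s => (f b s : K))) ^ m b =
      mkH K (fun s => ((∏ b, f b s ^ m b : Kˣ) : K)) := by
  have : (fun s => ((∏ b, f b s ^ m b : Kˣ) : K)) = ∏ b, fun s => ((f b s ^ m b : Kˣ) : K) := by
    funext s
    simp [Finset.prod_apply, Units.coe_prod]
  rw [this, map_prod]
  exact Finset.prod_congr rfl (fun b _ => mk_zpow _ _)

end STA

open STA in
theorem sta : StaStm := by
  intro k K _ _ _ _ _ hUE M q V _ d C t Γ hΓ hinf
  -- an injective sequence of points
  set Z := {P : ℙ K (Fin (M + 1) → K) | (∀ H ∈ V, aeval P.rep H = 0) ∧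
      (∀ c ∈ C, fv t P.rep c = 0) ∧
      (∀ b, b ∉ C → fv t P.rep b ≠ 0) ∧ ∀ b b', b ∉ C → b' ∉ C → ∃ γ ∈ Γ,
        fv t P.rep b ^ d b' / fv t P.rep b' ^ d b = (γ : K)} with hZ
  obtain ⟨P, hPi⟩ : ∃ P : ℕ → ℙ K (Fin (M + 1) → K), Function.Injective P ∧ ∀ s, P s ∈ Z := by
    have := hinf.to_subtype
    let e := Infinite.natEmbedding Z
    exact ⟨fun s => (e s : ℙ K (Fin (M + 1) → K)),
      Subtype.val_injective.comp e.injective, fun s => (e s).2⟩
  obtain ⟨hP, hPZ⟩ := hPi
  have hPne : ∀ s, (P s).rep ≠ 0 := fun s => (P s).rep_nonzero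
  refine ⟨lim (fun s => (P s).rep), ?_, ?_, ?_, ?_, ?_, ?_⟩
  · intro H hH
    rw [mk_eval]
    have : (fun s => aeval (P s).rep H) = (0 : ℕ → K) := by
      funext s; exact (hPZ s).1 H hH
    rw [this, map_zero]
  · intro c hc
    rw [mk_fv]
    have : (fun s => fv t (P s).rep c) = (0 : ℕ → K) := by
      funext s; exact (hPZ s).2.1 c hc
    rw [this, map_zero]
  · intro b hb
    rw [mk_fv]
    exact mk_ne_zero _ (fun s => (hPZ s).2.2.1 b hb)
  · intro h0
    have h1 : ∀ i, ∀ᶠ s in ((hyperfilter ℕ : Ultrafilter ℕ) : Filter ℕ), (P s).rep i = 0 := by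
      intro i
      have := congrFun h0 i
      exact (mk_eq_zero _).mp this
    obtain ⟨s, hs⟩ := (Filter.eventually_all.mpr h1).exists
    exact hPne s (funext hs)
  · intro c y hxy
    obtain ⟨f, rfl⟩ := mk_surj c
    have h1 : ∀ i, ∀ᶠ s in ((hyperfilter ℕ : Ultrafilter ℕ) : Filter ℕ),
        (P s).rep i = f s * y i := by
      intro i
      have := congrFun hxy i
      exact (mk_eq _ _).mp this
    have h2 := Filter.eventually_all.mpr h1
    have h3 : {s | ∀ i, (P s).rep i = f s * y i}.Infinite := by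
      intro hfin
      exact (notMem_hyperfilter_of_finite hfin) h2
    obtain ⟨s₁, hs₁, s₂, hs₂, hne⟩ := h3.nontrivial
    apply hne
    apply hP
    have hf1 : f s₁ ≠ 0 := by
      intro h
      apply hPne s₁
      funext i
      rw [hs₁ i, h, zero_mul]
      rfl
    rw [← (P s₁).mk_rep, ← (P s₂).mk_rep, eq_comm, Projectivization.mk_eq_mk_iff']
    refine ⟨f s₂ / f s₁, ?_⟩
    funext i
    rw [Pi.smul_apply, hs₁ i, hs₂ i, smul_eq_mul]
    field_simp
  · intro b₀ hb₀
    -- the quotients as units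
    have hw : ∀ b s, ∃ γ : Kˣ, γ ∈ Γ ∧
        (γ : K) = if b ∈ C then 1 else fv t (P s).rep b ^ d b₀ / fv t (P s).rep b₀ ^ d b := by
      intro b s
      by_cases hb : b ∈ C
      · exact ⟨1, Γ.one_mem, by simp [hb]⟩
      · obtain ⟨γ, hγ, h⟩ := (hPZ s).2.2.2 b b₀ hb hb₀
        exact ⟨γ, hγ, by simp [hb, h]⟩
    choose w hwΓ hwv using hw
    have hquo : ∀ b, quo C t (lim (fun s => (P s).rep)) b₀ b = mkH K (fun s => (w b s : K)) := by
      intro b
      by_cases hb : b ∈ C
      · have : (fun s => (w b s : K)) = 1 := by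
          funext s; rw [hwv]; simp [hb]
        rw [this, map_one]; simp [quo, hb]
      · have e : (fun s => (w b s : K)) = fun s =>
            (fun s => fv t (P s).rep b ^ d b₀) s / (fun s => fv t (P s).rep b₀ ^ d b) s := by
          funext s; rw [hwv]; simp [hb]
        rw [e, ← mk_div _ _ (fun s => pow_ne_zero _ ((hPZ s).2.2.1 b₀ hb₀))]
        simp only [quo, hb, if_false, mk_fv]
        rw [← map_pow, ← map_pow]
        rfl
    intro S c hsum hnp m hm
    simp only [hquo, mk_prod_zpow] at hsum hnp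
    have key := hUE Γ hΓ (hyperfilter ℕ) S (fun m s => ∏ b, w b s ^ (m.1 b)) ?_ ?_
      (fun m => c m.1) ?_ ⟨m, hm⟩
    · exact key
    · intro m s
      exact Subgroup.prod_mem _ (fun b _ => Subgroup.zpow_mem _ (hwΓ b s) _)
    · intro m m' hmm a hev
      refine hnp m.1 m.2 m'.1 m'.2 (fun h => hmm (Subtype.ext h)) a ?_
      rw [algMap, ← map_mul]
      exact (mk_eq _ _).mpr hev
    · have h1 : ∑ m ∈ S, algebraMap K (UP K) (c m) *
          mkH K (fun s => ((∏ b, w b s ^ m b : Kˣ) : K)) =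
          mkH K (∑ m ∈ S, (fun _ => c m) * fun s => ((∏ b, w b s ^ m b : Kˣ) : K)) := by
        rw [map_sum]
        exact Finset.sum_congr rfl (fun m _ => by rw [map_mul, algMap])
      rw [h1, mk_eq_zero] at hsum
      filter_upwards [hsum] with s hs
      rw [Finset.sum_apply] at hs
      rw [← hs, ← Finset.sum_coe_sort S]
      rfl

end Pool.Agent.NH29.GN
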