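import Pool.Agent.NH29.GN.Stm2
import Pool.Agent.NH29.GN.Sta

/-!
# GN-STU: more and more points for varying coefficients give a bad point over the double ultrapower
-/

set_option autoImplicit false

namespace Pool.Agent.NH29.GN

open MvPolynomial Module Filter
open scoped LinearAlgebra.Projectivization

namespace STU92

open STA

lemma mk_ne_zero' {K : Type} [Field K] (f : ℕ → K)
    (h : ∀ᶠ s in ((hyperfilter ℕ : Ultrafilter ℕ) : Filter ℕ), f s ≠ 0) : mkH K f ≠ 0 := by
  intro h0
  rw [mk_eq_zero] at h0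
  obtain ⟨s, hs⟩ := (h0.and h).exists
  exact hs.2 hs.1

/-- almost all indices are large -/
lemma large (n : ℕ) : ∀ᶠ s in ((hyperfilter ℕ : Ultrafilter ℕ) : Filter ℕ), n < s := by
  by_contra h
  have h1 : ∀ᶠ s in ((hyperfilter ℕ : Ultrafilter ℕ) : Filter ℕ), ¬ n < s :=
    Ultrafilter.eventually_not.mpr h
  have h2 : {s : ℕ | ¬ n < s}.Finite := by
    refine (Set.finite_Iic n).subset ?_
    intro s hs
    simpa using hs
  exact (notMem_hyperfilter_of_finite h2) h1

lemma mk_val2 {K : Type} [Field K] {M : ℕ} (p : ℕ → Fin (M + 1) → K) (β : Fin (M + 1) →₀ ℕ) :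
    val (lim p) β = mkH K (fun s => val (p s) β) := mk_val p β

lemma mk_fv2 {K : Type} [Field K] {M q : ℕ} {d : Fin q → ℕ} (t : ℕ → Idx M d → K)
    (p : ℕ → Fin (M + 1) → K) (i : Fin q) :
    fv (K := UP K) (L := UP K) (fun j => mkH K (fun N => t N j)) (lim p) i =
      mkH K (fun N => fv (t N) (p N) i) := by
  have : (fun N => fv (t N) (p N) i) =
      ∑ β : Mon M (d i), (fun N => t N ⟨i, β⟩) * (fun N => val (p N) β.1) := by
    funext s
    simp [fv, Finset.sum_apply]
  rw [this, map_sum]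
  simp only [fv, map_mul, mk_val]
  rfl

/-- the class of a double sequence of units -/
noncomputable def un {K : Type} [Field K] (f : ℕ → Kˣ) : (UP K)ˣ :=
  Units.mk0 (mkH K (fun N => (f N : K))) (mk_ne_zero _ fun _ => Units.ne_zero _)

lemma un_val {K : Type} [Field K] (f : ℕ → Kˣ) : ((un f : (UP K)ˣ) : UP K) =
    mkH K (fun N => (f N : K)) := rfl

lemma un_prod {K : Type} [Field K] {q : ℕ} (f : Fin q → ℕ → Kˣ) (m : Fin q → ℤ) :
    ((∏ b, un (f b) ^ m b : (UP K)ˣ) : UP K) =
      mkH K (fun s => ((∏ b, f b s ^ m b : Kˣ) : K)) := by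
  rw [← mk_prod_zpow, Units.coe_prod]
  refine Finset.prod_congr rfl fun b _ => ?_
  rw [Units.val_zpow_eq_zpow_val, un_val]

end STU92

open STA STU92 in
theorem stu : StuStm := by
  intro k K _ _ _ _ _ hUE M q V _ d C t Γ hΓ hyp
  letI : Algebra k (UP K) := ((algebraMap K (UP K)).comp (algebraMap k K)).toAlgebra
  choose P hPi hP using hyp
  -- the points
  let p : ℕ → ℕ → Fin (M + 1) → K := fun s N =>
    if h : s < N then (P N ⟨s, h⟩).rep else 0
  have hp : ∀ (s N : ℕ) (h : s < N), p s N = (P N ⟨s, h⟩).rep := fun s N h => dif_pos h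
  have hpne : ∀ s N : ℕ, s < N → p s N ≠ 0 := fun s N h => by
    rw [hp s N h]; exact (P N ⟨s, h⟩).rep_nonzero
  let y : ℕ → Fin (M + 1) → UP K := fun s => lim (p s)
  let t1 : Idx M d → UP K := fun i => mkH K fun N => t N i
  have hyfv : ∀ s b, fv t1 (y s) b = mkH K (fun N => fv (t N) (p s N) b) := fun s b =>
    mk_fv2 t (p s) b
  have hyne : ∀ s, y s ≠ 0 := by
    intro s h0
    have h1 : ∀ i, ∀ᶠ N in ((hyperfilter ℕ : Ultrafilter ℕ) : Filter ℕ), p s N i = 0 := by
      intro i
      exact (mk_eq_zero _).mp (congrFun h0 i)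
    obtain ⟨N, hN, hs⟩ := ((Filter.eventually_all.mpr h1).and (large s)).exists
    exact hpne s N hs (funext hN)
  have hyC : ∀ s, ∀ c ∈ C, fv t1 (y s) c = 0 := by
    intro s c hc
    rw [hyfv, mk_eq_zero]
    filter_upwards [large s] with N hN
    rw [hp s N hN]
    exact (hP N _).2.1 c hc
  have hyoff : ∀ s, ∀ b, b ∉ C → fv t1 (y s) b ≠ 0 := by
    intro s b hb
    rw [hyfv]
    refine mk_ne_zero' _ ?_
    filter_upwards [large s] with N hN
    rw [hp s N hN]
    exact (hP N _).2.2.1 b hb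
  have hyV : ∀ s, ∀ H ∈ V, aeval (y s) H = 0 := by
    intro s H hH
    have h1 : aeval (y s) H =
        eval₂ ((algebraMap K (UP K)).comp (algebraMap k K)) (lim (p s)) H := rfl
    rw [h1, mk_eval, mk_eq_zero]
    filter_upwards [large s] with N hN
    rw [hp s N hN]
    exact (hP N _).1 H hH
  have hprop : ∀ (s₁ s₂ : ℕ) (c : UP K), (∀ i, y s₂ i = c * y s₁ i) → s₁ = s₂ := by
    intro s₁ s₂ c hc
    obtain ⟨g, rfl⟩ := mk_surj c
    have h1 : ∀ i, ∀ᶠ N in ((hyperfilter ℕ : Ultrafilter ℕ) : Filter ℕ),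
        p s₂ N i = g N * p s₁ N i := fun i => (mk_eq _ _).mp (hc i)
    obtain ⟨N, ⟨hN, hN1⟩, hN2⟩ :=
      (((Filter.eventually_all.mpr h1).and (large s₁)).and (large s₂)).exists
    have h2 : P N ⟨s₁, hN1⟩ = P N ⟨s₂, hN2⟩ := by
      rw [← (P N ⟨s₁, hN1⟩).mk_rep, ← (P N ⟨s₂, hN2⟩).mk_rep, eq_comm,
        Projectivization.mk_eq_mk_iff']
      refine ⟨g N, ?_⟩
      funext i
      rw [Pi.smul_apply, smul_eq_mul, ← hp s₁ N hN1, ← hp s₂ N hN2]
      exact (hN i).symm
    have h3 := hPi N h2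
    simpa using h3
  refine ⟨lim (K := UP K) y, ?_, ?_, ?_, ?_, ?_, ?_⟩
  · intro H hH
    rw [mk_eval (k := k) (K := UP K) y H]
    have : (fun s => aeval (y s) H) = (0 : ℕ → UP K) := by
      funext s; exact hyV s H hH
    rw [this, map_zero]
  · intro c hc
    show fv t1 (lim (K := UP K) y) c = 0
    rw [mk_fv (K := UP K)]
    have : (fun s => fv t1 (y s) c) = (0 : ℕ → UP K) := by
      funext s; exact hyC s c hc
    rw [this, map_zero]
  · intro b hb
    show fv t1 (lim (K := UP K) y) b ≠ 0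
    rw [mk_fv (K := UP K)]
    exact mk_ne_zero _ (fun s => hyoff s b hb)
  · intro h0
    have h1 : ∀ i, ∀ᶠ s in ((hyperfilter ℕ : Ultrafilter ℕ) : Filter ℕ), y s i = 0 := by
      intro i
      have := congrFun h0 i
      exact (mk_eq_zero _).mp this
    obtain ⟨s, hs⟩ := (Filter.eventually_all.mpr h1).exists
    exact hyne s (funext hs)
  · intro c z hxz
    obtain ⟨f, rfl⟩ := mk_surj c
    have h1 : ∀ i, ∀ᶠ s in ((hyperfilter ℕ : Ultrafilter ℕ) : Filter ℕ),
        y s i = f s * z i := by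
      intro i
      have := congrFun hxz i
      exact (mk_eq _ _).mp this
    have h2 := Filter.eventually_all.mpr h1
    have h3 : {s | ∀ i, y s i = f s * z i}.Infinite := by
      intro hfin
      exact (notMem_hyperfilter_of_finite hfin) h2
    obtain ⟨s₁, hs₁, s₂, hs₂, hne⟩ := h3.nontrivial
    apply hne
    have hf1 : f s₁ ≠ 0 := by
      intro h
      apply hyne s₁
      funext i
      rw [hs₁ i, h, zero_mul]
      rfl
    refine hprop s₁ s₂ (f s₂ / f s₁) fun i => ?_
    rw [hs₁ i, hs₂ i]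
    field_simp
  · intro b₀ hb₀
    -- the quotients as units
    have hw : ∀ b s N, ∃ γ : Kˣ, γ ∈ Γ ∧
        (γ : K) = if b ∈ C ∨ ¬ s < N then 1 else
          fv (t N) (p s N) b ^ d b₀ / fv (t N) (p s N) b₀ ^ d b := by
      intro b s N
      by_cases hb : b ∈ C ∨ ¬ s < N
      · exact ⟨1, Γ.one_mem, by rw [if_pos hb]; rfl⟩
      · have hb1 : b ∉ C := fun h => hb (Or.inl h)
        have hN : s < N := by
          by_contra h
          exact hb (Or.inr h)
        obtain ⟨γ, hγ, h⟩ := (hP N ⟨s, hN⟩).2.2.2 b b₀ hb1 hb₀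
        refine ⟨γ, hγ, ?_⟩
        rw [if_neg hb, hp s N hN, h]
    choose w hwΓ hwv using hw
    have hquo1 : ∀ b s, b ∉ C → fv t1 (y s) b ^ d b₀ / fv t1 (y s) b₀ ^ d b =
        mkH K (fun N => (w b s N : K)) := by
      intro b s hb
      rw [div_eq_iff (pow_ne_zero _ (hyoff s b₀ hb₀)), hyfv, hyfv, ← map_pow, ← map_pow,
        ← map_mul, mkH_apply, mkH_apply, mk_eq]
      filter_upwards [large s] with N hN
      have h1 : fv (t N) (p s N) b₀ ≠ 0 := by
        rw [hp s N hN]
        exact (hP N _).2.2.1 b₀ hb₀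
      have h2 : ¬ (b ∈ C ∨ ¬ s < N) := by
        push Not
        exact ⟨hb, hN⟩
      rw [Pi.mul_apply, Pi.pow_apply, Pi.pow_apply, hwv, if_neg h2]
      field_simp
    have hquo : ∀ b, quo C t1 (lim (K := UP K) y) b₀ b =
        mkH (UP K) (fun s => ((un (w b s) : (UP K)ˣ) : UP K)) := by
      intro b
      by_cases hb : b ∈ C
      · have : (fun s => ((un (w b s) : (UP K)ˣ) : UP K)) = 1 := by
          funext s
          rw [un_val]
          have h1 : (fun N => (w b s N : K)) = 1 := by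
            funext N
            rw [hwv, if_pos (Or.inl hb)]
            rfl
          rw [h1, map_one]
          rfl
        rw [this, map_one]
        simp [quo, hb]
      · have e : (fun s => ((un (w b s) : (UP K)ˣ) : UP K)) = fun s =>
            (fun s => fv t1 (y s) b ^ d b₀) s / (fun s => fv t1 (y s) b₀ ^ d b) s := by
          funext s
          rw [un_val, ← hquo1 b s hb]
        rw [e, ← mk_div _ _ (fun s => pow_ne_zero _ (hyoff s b₀ hb₀))]
        simp only [quo, hb, if_false, mk_fv]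
        rw [← map_pow, ← map_pow]
        rfl
    intro S c hsum hnp m hm
    have hquo' : ∀ b, quo C (fun i => UP.mk fun N => t N i) (lim (K := UP K) y) b₀ b =
        mkH (UP K) (fun s => ((un (w b s) : (UP K)ˣ) : UP K)) := hquo
    simp only [hquo', mk_prod_zpow, un_prod] at hsum hnp
    have key := hUE Γ hΓ (hyperfilter ℕ) S (fun m s N => ∏ b, w b s N ^ (m.1 b)) ?_ ?_
      (fun m => c m.1) ?_ ⟨m, hm⟩
    · exact key
    · intro m s N
      exact Subgroup.prod_mem _ (fun b _ => Subgroup.zpow_mem _ (hwΓ b s N) _)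
    · intro m m' hmm a hev
      refine hnp m.1 m.2 m'.1 m'.2 (fun h => hmm (Subtype.ext h)) a ?_
      rw [algMap, ← map_mul]
      exact (mk_eq _ _).mpr hev
    · have h1 : ∑ m ∈ S, algebraMap (UP K) (UP (UP K)) (c m) *
          mkH (UP K) (fun s => mkH K (fun N => ((∏ b, w b s N ^ m b : Kˣ) : K))) =
          mkH (UP K) (∑ m ∈ S, (fun _ => c m) *
            fun s => mkH K (fun N => ((∏ b, w b s N ^ m b : Kˣ) : K))) := by
        rw [map_sum]
        exact Finset.sum_congr rfl (fun m _ => by rw [map_mul, algMap])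
      rw [h1, mk_eq_zero] at hsum
      filter_upwards [hsum] with s hs
      rw [Finset.sum_apply] at hs
      rw [← hs, ← Finset.sum_coe_sort S]
      rfl

end Pool.Agent.NH29.GN
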