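import Pool.Agent.NH29.GN.Stm
import Pool.Agent.R405.SchF

/-!
U1: the unit equation over number fields, from the subspace theorem.
-/

set_option autoImplicit false
set_option linter.unusedSectionVars false

namespace Pool.Agent.NH29.GN

namespace U1

open NumberField IsDedekindDomain Height Filter Topology Finset
open Pool.Agent.W180.OP (Pl av wt nrm le_nrm nrm_pos exists_nrm fv_support_finite)
open Pool.Agent.R405 (Good exists_good schF)

variable {F : Type} [Field F] [NumberField F]

/-- the height of a vector of `S`-units -/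
lemma height_eq {n : ℕ} (hn : 0 < n) (S : Finset (Pl F)) (hinf : ∀ w, Sum.inl w ∈ S)
    (x : Fin n → F) (hx : ∀ i, x i ≠ 0)
    (hu : ∀ v : HeightOneSpectrum (𝓞 F), Sum.inr v ∉ S → ∀ i, av (Sum.inr v : Pl F) (x i) = 1) :
    logHeight x = ∑ p ∈ S, wt p * Real.log (nrm (av p) x) := by
  classical
  have hx0 : x ≠ 0 := fun h => hx ⟨0, hn⟩ (congrFun h _)
  set g : HeightOneSpectrum (𝓞 F) → ℝ := fun v => nrm (av (Sum.inr v : Pl F)) x with hg
  have hpos : ∀ p : Pl F, 0 < nrm (av p) x := fun p => nrm_pos _ hx0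
  have hsub : Function.mulSupport g ⊆ (S.toRight : Set (HeightOneSpectrum (𝓞 F))) := by
    intro v hv
    by_contra hc
    apply hv
    have hvS : Sum.inr v ∉ S := fun h => hc (Finset.mem_coe.2 (Finset.mem_toRight.2 h))
    obtain ⟨i, hi⟩ := exists_nrm (av (Sum.inr v : Pl F)) hn x
    show nrm (av (Sum.inr v : Pl F)) x = 1
    rw [← hi]
    exact hu v hvS i
  have e : ∏ᶠ v : FinitePlace F, ⨆ i, v (x i) = ∏ᶠ v : HeightOneSpectrum (𝓞 F), g v := by
    rw [← finprod_comp_equiv (FinitePlace.equivHeightOneSpectrum (K := F)).symm]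
    rfl
  have e2 : ∏ᶠ v : HeightOneSpectrum (𝓞 F), g v = ∏ v ∈ S.toRight, g v :=
    finprod_eq_prod_of_mulSupport_subset _ hsub
  have hw : ∀ w : InfinitePlace F, (⨆ i, w (x i)) = nrm (av (Sum.inl w : Pl F)) x := fun w => rfl
  have h4 : 0 < ∏ w : InfinitePlace F, (⨆ i, w (x i)) ^ w.mult :=
    Finset.prod_pos fun w _ => pow_pos (by rw [hw]; exact hpos _) _
  have h5 : 0 < ∏ v ∈ S.toRight, g v := Finset.prod_pos fun v _ => hpos _
  rw [logHeight_eq_log_mulHeight, NumberField.mulHeight_eq hx0, e, e2,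
    Real.log_mul h4.ne' h5.ne', Real.log_prod fun w _ => (pow_pos (by rw [hw]; exact hpos _) _).ne',
    Real.log_prod fun v _ => (hpos (Sum.inr v)).ne', ← Finset.toLeft_disjSum_toRight (u := S),
    Finset.sum_disjSum]
  rw [Finset.toLeft_disjSum_toRight]
  have hl : S.toLeft = Finset.univ := by
    ext w
    simp only [Finset.mem_toLeft, Finset.mem_univ, iff_true]
    exact hinf w
  rw [hl]
  congr 1
  · exact Finset.sum_congr rfl fun w _ => by rw [Real.log_pow, hw]; rfl
  · exact Finset.sum_congr rfl fun v _ => (one_mul _).symm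

/-- the product formula for `S`-units -/
lemma prod_formula (S : Finset (Pl F)) (hinf : ∀ w, Sum.inl w ∈ S) (u : F) (hu0 : u ≠ 0)
    (hu : ∀ v : HeightOneSpectrum (𝓞 F), Sum.inr v ∉ S → av (Sum.inr v : Pl F) u = 1) :
    ∑ p ∈ S, wt p * Real.log (av p u) = 0 := by
  have h := height_eq (n := 1) Nat.one_pos S hinf (fun _ => u) (fun _ => hu0)
    (fun v hv _ => hu v hv)
  rw [logHeight_eq_zero_of_subsingleton] at h
  rw [h]
  refine Finset.sum_congr rfl fun p _ => ?_
  congr 2
  show av p u = ⨆ _j : Fin 1, av p u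
  rw [ciSup_const]

/-- the units of a finitely generated group are `S`-units for some finite `S` -/
lemma exists_S (Γ : Subgroup Fˣ) (hΓ : Γ.FG) : ∃ S : Finset (Pl F), (∀ w, Sum.inl w ∈ S) ∧
    ∀ v : HeightOneSpectrum (𝓞 F), Sum.inr v ∉ S → ∀ u ∈ Γ, av (Sum.inr v : Pl F) (u : F) = 1 := by
  classical
  obtain ⟨G, hG⟩ := hΓ
  have hfin : (⋃ g ∈ G, {v : HeightOneSpectrum (𝓞 F) | av (Sum.inr v : Pl F) (g : F) ≠ 1}).Finite :=
    Set.Finite.biUnion G.finite_toSet fun g _ => fv_support_finite g.ne_zero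
  refine ⟨Finset.univ.disjSum hfin.toFinset, fun w => by simp, fun v hv u hu => ?_⟩
  have hv' : ∀ g ∈ G, av (Sum.inr v : Pl F) (g : F) = 1 := by
    intro g hg
    by_contra hc
    apply hv
    rw [Finset.inr_mem_disjSum, Set.Finite.mem_toFinset]
    exact Set.mem_biUnion (x := g) (by exact_mod_cast hg) hc
  rw [← hG] at hu
  induction hu using Subgroup.closure_induction with
  | mem x hx => exact hv' x (by exact_mod_cast hx)
  | one => rw [Units.val_one, map_one]
  | mul x y _ _ h1 h2 => rw [Units.val_mul, map_mul, h1, h2, one_mul]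
  | inv x _ h => rw [Units.val_inv_eq_inv_val, map_inv₀, h, inv_one]

/-- the linear forms -/
noncomputable def LF {n : ℕ} (a : Fin (n + 1) → F) (i : Fin (n + 1)) : Fin n → F :=
  Fin.cases (fun j => -(a j.succ / a 0)) (fun k => Pi.single k 1) i

lemma LF_zero {n : ℕ} (a : Fin (n + 1) → F) (y : Fin n → F) :
    ∑ j, LF a 0 j * y j = -∑ j, a j.succ / a 0 * y j := by
  rw [← Finset.sum_neg_distrib]
  refine Finset.sum_congr rfl fun j _ => ?_
  show -(a j.succ / a 0) * y j = _
  ring

lemma LF_succ {n : ℕ} (a : Fin (n + 1) → F) (k : Fin n) (y : Fin n → F) :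
    ∑ j, LF a k.succ j * y j = y k := by
  classical
  show ∑ j, (Pi.single k (1 : F) : Fin n → F) j * y j = y k
  rw [Finset.sum_eq_single k]
  · rw [Pi.single_eq_same, one_mul]
  · intro b _ hb
    rw [Pi.single_eq_of_ne hb, zero_mul]
  · intro h
    exact absurd (Finset.mem_univ _) h

lemma LF_rel {n : ℕ} (a : Fin (n + 1) → F) (h0 : a 0 ≠ 0) (y : Fin n → F) :
    ∑ i, a i * ∑ j, LF a i j * y j = 0 := by
  rw [Fin.sum_univ_succ, LF_zero]
  simp only [LF_succ]
  rw [mul_neg, Finset.mul_sum, neg_add_eq_zero]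
  refine Finset.sum_congr rfl fun j _ => ?_
  field_simp

/-- the linear forms other than one of them are independent -/
lemma LF_det {n : ℕ} (a : Fin (n + 1) → F) (ha : ∀ i, a i ≠ 0) (p : Fin (n + 1)) :
    (Matrix.of fun b j => LF a (p.succAbove b) j).det ≠ 0 := by
  intro hdet
  obtain ⟨y, hy, h⟩ := Matrix.exists_mulVec_eq_zero_iff.2 hdet
  apply hy
  have h1 : ∀ b : Fin n, ∑ j, LF a (p.succAbove b) j * y j = 0 := fun b => congrFun h b
  have h2 := LF_rel a (ha 0) y
  rw [Fin.sum_univ_succAbove _ p] at h2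
  have h3 : ∑ b : Fin n, a (p.succAbove b) * ∑ j, LF a (p.succAbove b) j * y j = 0 :=
    Finset.sum_eq_zero fun b _ => by rw [h1, mul_zero]
  rw [h3, add_zero] at h2
  have h4 : ∑ j, LF a p j * y j = 0 := (mul_eq_zero.1 h2).resolve_left (ha p)
  have h5 : ∀ i, ∑ j, LF a i j * y j = 0 := by
    intro i
    rcases eq_or_ne i p with rfl | hi
    · exact h4
    · obtain ⟨b, rfl⟩ := Fin.exists_succAbove_eq hi
      exact h1 b
  funext k
  have h6 := h5 k.succ
  rwa [LF_succ] at h6

/-- the values of the linear forms at a solution of the unit equation -/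
lemma LF_val {n : ℕ} (a : Fin (n + 1) → F) (h0 : a 0 ≠ 0) (u : Fin (n + 1) → F)
    (h : ∑ i, a i * u i = 0) (i : Fin (n + 1)) : ∑ j, LF a i j * u j.succ = u i := by
  refine Fin.cases ?_ (fun k => ?_) i
  · rw [LF_zero]
    rw [Fin.sum_univ_succ] at h
    have h1 : ∑ j : Fin n, a j.succ / a 0 * u j.succ = (∑ j : Fin n, a j.succ * u j.succ) / a 0 := by
      rw [Finset.sum_div]
      exact Finset.sum_congr rfl fun j _ => by ring
    rw [h1]
    field_simp
    linear_combination -h
  · exact LF_succ a k fun j => u j.succ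

/-- in an ultrafilter a function with finitely many values is eventually constant -/
lemma ev_const {α : Type} (𝒰 : Ultrafilter ℕ) (A : Set α) (hA : A.Finite) (f : ℕ → α)
    (h : ∀ᶠ t in (𝒰 : Filter ℕ), f t ∈ A) : ∃ c ∈ A, ∀ᶠ t in (𝒰 : Filter ℕ), f t = c := by
  have h1 : (⋃ c ∈ A, {t | f t = c}) ∈ 𝒰 := by
    refine Filter.mem_of_superset h fun t ht => ?_
    exact Set.mem_biUnion (x := f t) ht rfl
  obtain ⟨c, hc, h2⟩ := (Ultrafilter.finite_biUnion_mem_iff hA).1 h1
  exact ⟨c, hc, h2⟩

/-- the main case: at least three summands, all coefficients nonzero -/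
lemma main [IsGalois ℚ F] (hi : ∃ z : F, z ^ 2 = -1) (Γ : Subgroup Fˣ) (hΓ : Γ.FG)
    (𝒰 : Ultrafilter ℕ) {n : ℕ} (hn : 2 ≤ n) (u : Fin (n + 1) → ℕ → Fˣ)
    (hu : ∀ j t, u j t ∈ Γ)
    (hne : ∀ i j, i ≠ j → ∀ c : F, ¬ ∀ᶠ t in (𝒰 : Filter ℕ), (u i t : F) = c * u j t)
    (a : Fin (n + 1) → F) (ha : ∀ i, a i ≠ 0)
    (hrel : ∀ᶠ t in (𝒰 : Filter ℕ), ∑ j, a j * (u j t : F) = 0)
    (hind : ∀ d : Fin n → F, d ≠ 0 →
      ∀ᶠ t in (𝒰 : Filter ℕ), ∑ j, d j * (u j.succ t : F) ≠ 0) : False := by
  classical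
  obtain ⟨S, hinf, hS⟩ := exists_S Γ hΓ
  set x : ℕ → Fin n → F := fun t j => (u j.succ t : F) with hx
  have hn0 : 0 < n := by omega
  have hxS : ∀ t, logHeight (x t) = ∑ p ∈ S, wt p * Real.log (nrm (av p) (x t)) := fun t =>
    height_eq hn0 S hinf (x t) (fun i => (u i.succ t).ne_zero)
      (fun v hv i => hS v hv _ (hu _ _))
  -- the heights tend to infinity
  have hN : Tendsto (fun t => logHeight (x t)) (𝒰 : Filter ℕ) atTop := by
    rw [Filter.tendsto_atTop]
    intro B
    by_contra hc
    have h1 : ∀ᶠ t in (𝒰 : Filter ℕ), ¬ B ≤ logHeight (x t) := Ultrafilter.eventually_not.2 hc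
    have h2 : ∀ᶠ t in (𝒰 : Filter ℕ), x t ⟨0, hn0⟩ / x t ⟨1, by omega⟩ ∈
        {z : F | logHeight₁ z ≤ B} := by
      filter_upwards [h1] with t ht
      show logHeight₁ (x t ⟨0, hn0⟩ / x t ⟨1, by omega⟩) ≤ B
      rw [logHeight₁_div_eq_logHeight]
      have h3 := logHeight_comp_le (K := F) ![(⟨0, hn0⟩ : Fin n), ⟨1, by omega⟩] (x t)
      have h4 : (x t ∘ ![(⟨0, hn0⟩ : Fin n), ⟨1, by omega⟩]) =
          ![x t ⟨0, hn0⟩, x t ⟨1, by omega⟩] := by
        funext i
        fin_cases i <;> rfl
      rw [h4] at h3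
      linarith [not_le.1 ht]
    obtain ⟨c, -, h5⟩ := ev_const 𝒰 _ (NumberField.finite_setOfPred_logHeight₁_le F B) _ h2
    refine hne (Fin.succ ⟨0, hn0⟩) (Fin.succ ⟨1, by omega⟩) ?_ c ?_
    · intro h
      have := Fin.succ_injective _ h
      simp at this
    · filter_upwards [h5] with t ht
      have h6 : x t ⟨1, by omega⟩ ≠ 0 := (u _ t).ne_zero
      rw [div_eq_iff h6] at ht
      exact ht
  -- the index of the maximal summand
  have hmax : ∀ p : Pl F, ∃ j : Fin (n + 1), ∀ᶠ t in (𝒰 : Filter ℕ),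
      ∀ i, av p (u i t : F) ≤ av p (u j t : F) := by
    intro p
    have h1 : ∀ t, ∃ j : Fin (n + 1), ∀ i, av p (u i t : F) ≤ av p (u j t : F) := fun t =>
      Finite.exists_max fun i => av p (u i t : F)
    choose j hj using h1
    obtain ⟨c, -, hc⟩ := ev_const 𝒰 Set.univ Set.finite_univ j (Filter.Eventually.of_forall
      fun t => Set.mem_univ _)
    refine ⟨c, ?_⟩
    filter_upwards [hc] with t ht
    rw [← ht]
    exact hj t
  choose jm hjm using hmax
  choose f hf using fun v : Pl F => exists_good (k := F) (K := F) v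
  have hfa : ∀ v y, f v y = av v y := fun v y => (hf v).ext y
  have key := schF (k := F) (K := F) hi (𝒰 : Filter ℕ) (n := n) (by omega) S f
    (fun v _ => hf v) (fun v b => LF a ((jm v).succAbove b)) (fun v _ => LF_det a ha (jm v)) x hN
    (by
      intro d hd
      exact hind d hd) (1 / 2) (by norm_num)
  have hall : ∀ᶠ t in (𝒰 : Filter ℕ), ∀ p ∈ S, ∀ i, av p (u i t : F) ≤ av p (u (jm p) t : F) := by
    rw [Finset.eventually_all]
    exact fun p _ => hjm p
  obtain ⟨t, hkey, hmx, hr, hh⟩ :=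
    (key.and (hall.and (hrel.and (hN.eventually_ge_atTop 1)))).exists
  -- the local terms
  have hloc : ∀ v ∈ S, (n + 1 : ℝ) * Real.log (nrm (av v) (x t)) -
      ∑ i, Real.log (av v (u i t : F)) ≤
      ∑ b, (Real.log (nrm (av v) (x t)) -
        Real.log (f v (∑ j, LF a ((jm v).succAbove b) j * algebraMap F F (x t j)))) := by
    intro v hv
    have e1 : ∀ b, f v (∑ j, LF a ((jm v).succAbove b) j * algebraMap F F (x t j)) =
        av v (u ((jm v).succAbove b) t : F) := by
      intro b
      rw [hfa]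
      congr 1
      exact LF_val a (ha 0) (fun i => (u i t : F)) hr _
    simp only [e1]
    rw [Finset.sum_sub_distrib, Finset.sum_const, Finset.card_univ, Fintype.card_fin,
      nsmul_eq_mul, Fin.sum_univ_succAbove _ (jm v)]
    have h1 : nrm (av v) (x t) ≤ av v (u (jm v) t : F) := by
      have : Nonempty (Fin n) := ⟨⟨0, hn0⟩⟩
      exact ciSup_le fun j => hmx v hv j.succ
    have h2 : Real.log (nrm (av v) (x t)) ≤ Real.log (av v (u (jm v) t : F)) := by
      refine Real.log_le_log (nrm_pos _ ?_) h1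
      intro h
      exact (u (Fin.succ ⟨0, hn0⟩) t).ne_zero (congrFun h ⟨0, hn0⟩)
    linarith
  have hwt : ∀ v : Pl F, 0 ≤ wt v := Pool.Agent.W180.OP.wt_nonneg
  have hsum : (n + 1 : ℝ) * logHeight (x t) ≤ (n + 1 / 2) * logHeight (x t) := by
    refine le_trans (le_of_eq ?_) ((Finset.sum_le_sum fun v hv =>
      mul_le_mul_of_nonneg_left (hloc v hv) (hwt v)).trans hkey)
    have e2 : ∑ v ∈ S, wt v * ∑ i, Real.log (av v (u i t : F)) = 0 := by
      simp only [Finset.mul_sum]
      rw [Finset.sum_comm]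
      exact Finset.sum_eq_zero fun i _ => prod_formula S hinf _ (u i t).ne_zero
        fun v hv => hS v hv _ (hu _ _)
    simp only [mul_sub]
    rw [Finset.sum_sub_distrib, e2, sub_zero, hxS t, Finset.mul_sum]
    exact Finset.sum_congr rfl fun v _ => by ring
  have hh' : 1 ≤ logHeight (x t) := hh
  linarith

end U1

open NumberField Filter in
/-- U1 -/
theorem u1 : U1Stm := by
  classical
  intro F _ _ _ hi Γ hΓ 𝒰
  -- strong induction on the number of summands
  have key : ∀ m : ℕ, ∀ (J : Type) [Fintype J], Fintype.card J = m → ∀ (u : J → ℕ → Fˣ),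
      (∀ j t, u j t ∈ Γ) →
      (∀ i j, i ≠ j → ∀ c : F, ¬ ∀ᶠ t in (𝒰 : Filter ℕ), (u i t : F) = c * u j t) →
      ∀ a : J → F, (∀ᶠ t in (𝒰 : Filter ℕ), ∑ j, a j * (u j t : F) = 0) → ∀ j, a j = 0 := by
    intro m
    induction m using Nat.strong_induction_on with
    | _ m ih =>
      intro J _ hJ u hu hne a hrel
      by_contra hc
      push Not at hc
      obtain ⟨j1, hj1⟩ := hc
      -- all coefficients are nonzero
      have hall : ∀ (u' : J → ℕ → Fˣ) (_ : ∀ j t, u' j t ∈ Γ)
          (_ : ∀ i j, i ≠ j → ∀ c : F, ¬ ∀ᶠ t in (𝒰 : Filter ℕ), (u' i t : F) = c * u' j t)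
          (a' : J → F), (∀ᶠ t in (𝒰 : Filter ℕ), ∑ j, a' j * (u' j t : F) = 0) →
          (∃ j, a' j = 0) → ∀ j, a' j = 0 := by
        rintro u' hu' hne' a' hrel' ⟨j0, hj0⟩ j
        by_contra hj
        have hlt : Fintype.card {j : J // a' j ≠ 0} < m := by
          rw [← hJ]
          exact Fintype.card_subtype_lt (x := j0) (by simpa using hj0)
        have h1 := ih _ hlt {j : J // a' j ≠ 0} rfl (fun j t => u' j.1 t) (fun j t => hu' _ _)
          (fun i j hij c => hne' i.1 j.1 (fun h => hij (Subtype.ext h)) c) (fun j => a' j.1)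
          (by
            filter_upwards [hrel'] with t ht
            have h2 := Fintype.sum_subtype_add_sum_subtype (fun j : J => a' j ≠ 0)
              (fun j => a' j * (u' j t : F))
            have h3 : ∑ j : {j : J // ¬ a' j ≠ 0}, a' j.1 * (u' j.1 t : F) = 0 :=
              Finset.sum_eq_zero fun j _ => by rw [not_not.1 j.2, zero_mul]
            rw [h3, add_zero] at h2
            rw [h2]
            exact ht)
        exact hj (h1 ⟨j, hj⟩)
      have ha : ∀ j, a j ≠ 0 := by
        intro j hj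
        exact hj1 (hall u hu hne a hrel ⟨j, hj⟩ j1)
      -- transport to `Fin m`
      set e : J ≃ Fin m := Fintype.equivFinOfCardEq hJ with he
      have hrel2 : ∀ᶠ t in (𝒰 : Filter ℕ),
          ∑ i : Fin m, a (e.symm i) * (u (e.symm i) t : F) = 0 := by
        filter_upwards [hrel] with t ht
        rw [← ht]
        exact Equiv.sum_comp e.symm (fun j => a j * (u j t : F))
      rcases m with _ | m
      · exact (e j1).elim0
      rcases m with _ | m
      · -- one summand
        obtain ⟨t, ht⟩ := hrel2.exists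
        rw [Fin.sum_univ_one] at ht
        rcases mul_eq_zero.1 ht with h | h
        · exact ha _ h
        · exact (u _ t).ne_zero h
      rcases m with _ | m
      · -- two summands
        refine hne (e.symm 0) (e.symm 1) (fun h => by simpa using e.symm.injective h)
          (-(a (e.symm 1) / a (e.symm 0))) ?_
        filter_upwards [hrel2] with t ht
        rw [Fin.sum_univ_two] at ht
        have h0 := ha (e.symm 0)
        field_simp
        linear_combination ht
      · -- the main case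
        refine U1.main hi Γ hΓ 𝒰 (n := m + 2) (by omega) (fun i t => u (e.symm i) t)
          (fun i t => hu _ _) (fun i j hij c => hne _ _ (fun h => hij (e.symm.injective h)) c)
          (fun i => a (e.symm i)) (fun i => ha _) hrel2 ?_
        intro d hd
        rw [Ultrafilter.eventually_not]
        intro hc
        apply hd
        -- a relation with the coefficient `0` at the index `0`
        have h1 := hall u hu hne (fun j => Fin.cases (0 : F) d (e j))
          (by
            filter_upwards [hc] with t ht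
            rw [← Equiv.sum_comp e.symm (fun j => (Fin.cases (0 : F) d (e j) : F) * (u j t : F)),
              Fin.sum_univ_succ]
            simp only [Equiv.apply_symm_apply]
            rw [Fin.cases_zero, zero_mul, zero_add]
            simp only [Fin.cases_succ]
            exact ht)
          ⟨e.symm 0, by simp only [Equiv.apply_symm_apply]; rfl⟩
        funext k
        have h2 := h1 (e.symm k.succ)
        simp only [Equiv.apply_symm_apply] at h2
        exact h2
  intro J _ u hu hne a hrel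
  exact key _ J rfl u hu hne a hrel

end Pool.Agent.NH29.GN
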