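import Pool.Agent.NH29.GN.Stm

/-! U2: the unit equation over algebraic closures of the rational numbers. -/

set_option autoImplicit false

namespace Pool.Agent.NH29.GN

open Module Filter

namespace U2x

/-- a finite normal extension of `ℚ` containing a given finite set -/
lemma exists_F0 (K : Type) [Field K] [CharZero K] [Algebra.IsAlgebraic ℚ K] [IsAlgClosed K]
    (T : Finset K) : ∃ N : IntermediateField ℚ K, FiniteDimensional ℚ N ∧
      @Normal ℚ N _ _ (IntermediateField.algebra' N) ∧ (T : Set K) ⊆ N := by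
  have hF0 : FiniteDimensional ℚ (IntermediateField.adjoin ℚ (T : Set K)) :=
    IntermediateField.finiteDimensional_adjoin fun x _ => (Algebra.IsAlgebraic.isAlgebraic x).isIntegral
  have hc : IsAlgClosure ℚ K := ⟨inferInstance, inferInstance⟩
  have hn : Normal ℚ K := inferInstance
  refine ⟨IntermediateField.normalClosure ℚ (IntermediateField.adjoin ℚ (T : Set K)) K,
    inferInstance, inferInstance, ?_⟩
  exact (IntermediateField.subset_adjoin ℚ (T : Set K)).trans (IntermediateField.le_normalClosure _)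

/-- every finite set of algebraic numbers lies in a number field which is Galois over `ℚ` -/
lemma exists_F1 (K : Type) [Field K] [CharZero K] [Algebra.IsAlgebraic ℚ K] [IsAlgClosed K]
    (T : Finset K) : ∃ (F : Type) (_ : Field F) (_ : NumberField F) (_ : IsGalois ℚ F)
      (φ : F →+* K), ∀ x ∈ T, ∃ y, φ y = x := by
  obtain ⟨N, h1, h3, hT⟩ := exists_F0 K T
  have hN : CharZero N := inferInstance
  have e : ∀ X : Algebra ℚ N, @Normal ℚ N _ _ X := by
    intro X
    rw [Subsingleton.elim X (IntermediateField.algebra' N)]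
    exact h3
  have e2 : ∀ X : Algebra ℚ N, @FiniteDimensional ℚ N _ _ (@Algebra.toModule _ _ _ _ X) := by
    intro X
    rw [Subsingleton.elim X (IntermediateField.algebra' N)]
    exact h1
  have hNF : NumberField N := { to_charZero := hN, to_finiteDimensional := e2 _ }
  have hNo : @Normal ℚ N _ _ DivisionRing.toRatAlgebra := e _
  refine ⟨N, inferInstance, hNF, @IsGalois.mk ℚ _ N _ DivisionRing.toRatAlgebra inferInstance hNo,
    algebraMap N K, ?_⟩
  intro x hx
  exact ⟨⟨x, hT hx⟩, rfl⟩

/-- transport of the unit equation along an embedding whose range contains the generators and the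
coefficients -/
lemma transport {F K : Type} [Field F] [Field K] (φ : F →+* K) (hF : UE F)
    (Γ : Subgroup Kˣ) (S : Finset Kˣ) (hS : Subgroup.closure (S : Set Kˣ) = Γ)
    (hSr : ∀ x ∈ S, ∃ y, φ y = x) (𝒰 : Ultrafilter ℕ) (J : Type) [Fintype J] (u : J → ℕ → Kˣ)
    (hu : ∀ j t, u j t ∈ Γ)
    (hne : ∀ i j, i ≠ j → ∀ c : K, ¬ ∀ᶠ t in (𝒰 : Filter ℕ), (u i t : K) = c * u j t)
    (a : J → K) (ha : ∀ j, ∃ y, φ y = a j)
    (h0 : ∀ᶠ t in (𝒰 : Filter ℕ), ∑ j, a j * (u j t : K) = 0) : ∀ j, a j = 0 := by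
  classical
  -- generators in `F`
  have h1 : ∀ x : Kˣ, x ∈ S → ∃ y : Fˣ, Units.map (φ : F →* K) y = x := by
    intro x hx
    obtain ⟨y, hy⟩ := hSr x hx
    have hy0 : y ≠ 0 := by
      rintro rfl
      rw [map_zero] at hy
      exact x.ne_zero hy.symm
    exact ⟨Units.mk0 y hy0, Units.ext (by simpa using hy)⟩
  choose! g hg using h1
  have h2 : (Subgroup.closure ((S.image g : Finset Fˣ) : Set Fˣ)).map (Units.map (φ : F →* K)) = Γ := by
    rw [MonoidHom.map_closure, ← hS]
    congr 1
    ext x
    simp only [Finset.coe_image, Set.mem_image, Finset.mem_coe, exists_exists_and_eq_and]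
    constructor
    · rintro ⟨y, hy, rfl⟩
      rw [hg y hy]
      exact hy
    · intro hx
      exact ⟨x, hx, hg x hx⟩
  have h3 : ∀ j t, ∃ w ∈ Subgroup.closure ((S.image g : Finset Fˣ) : Set Fˣ),
      Units.map (φ : F →* K) w = u j t := by
    intro j t
    have := hu j t
    rw [← h2] at this
    exact Subgroup.mem_map.1 this
  choose w hw hwu using h3
  choose b hb using ha
  have hwu' : ∀ j t, φ (w j t : F) = (u j t : K) := by
    intro j t
    rw [← hwu j t]
    rfl
  have h4 := hF _ ⟨S.image g, rfl⟩ 𝒰 J w hw (by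
    intro i j hij c hc
    apply hne i j hij (φ c)
    filter_upwards [hc] with t ht
    rw [← hwu', ← hwu', ht, map_mul]) b (by
    filter_upwards [h0] with t ht
    apply φ.injective
    rw [map_zero, map_sum, ← ht]
    apply Finset.sum_congr rfl
    intro j _
    rw [map_mul, hb, hwu'])
  intro j
  rw [← hb j, h4 j, map_zero]

end U2x

open U2x in
theorem u2 (h : U1Stm) : U2Stm := by
  classical
  intro K _ instA hA _ Γ hΓ 𝒰 J _ u hu hne a h0
  have hch : CharZero K := algebraRat.charZero K
  have e : instA = DivisionRing.toRatAlgebra := Subsingleton.elim _ _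
  have hA' : @Algebra.IsAlgebraic ℚ K _ _ DivisionRing.toRatAlgebra := e ▸ hA
  obtain ⟨S, hS⟩ := hΓ
  obtain ⟨z, hz⟩ := IsAlgClosed.exists_pow_nat_eq (-1 : K) (n := 2) (by norm_num)
  obtain ⟨F, _, _, _, φ, hφ⟩ := @exists_F1 K _ _ hA' _ (S.image (fun x : Kˣ => (x : K)) ∪ Finset.univ.image a ∪ {z})
  have hz' : ∃ y : F, y ^ 2 = -1 := by
    obtain ⟨y, hy⟩ := hφ z (by simp)
    refine ⟨y, φ.injective ?_⟩
    rw [map_pow, hy, hz, map_neg, map_one]
  refine transport φ (h F hz') Γ S hS ?_ 𝒰 J u hu hne a ?_ h0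
  · intro x hx
    exact hφ x (by simp only [Finset.mem_union, Finset.mem_image]; exact Or.inl (Or.inl ⟨x, hx, rfl⟩))
  · intro j
    exact hφ (a j) (by simp only [Finset.mem_union, Finset.mem_image]; exact Or.inl (Or.inr ⟨j, Finset.mem_univ j, rfl⟩))

end Pool.Agent.NH29.GN
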