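import Pool.Agent.NH29.GN.Stm
import Pool.Agent.W603.LV.Blk2
import Pool.Agent.Y741.UnitStep

/-! GN-U3 of helper29 (by helper91): the unit equation, induction step on the transcendence degree. -/

set_option autoImplicit false

namespace Pool.Agent.NH29.GN.U3p

open Filter FF Pool.Agent.W603.LV Pool.Agent.W603.PV
open Pool.Agent.NH29.GN

theorem fg_comap {A B : Type} [CommGroup A] [CommGroup B] (f : A →* B)
    (hf : Function.Injective f) {Γ : Subgroup B} (h : Γ.FG) : (Γ.comap f).FG := by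
  have : Group.FG Γ := (Group.fg_iff_subgroup_fg Γ).2 h
  have h1 : Module.Finite ℤ (Additive Γ) := Module.Finite.iff_addGroup_fg.2 inferInstance
  have h2 : IsNoetherian ℤ (Additive Γ) := isNoetherian_of_isNoetherianRing_of_finite ℤ _
  let g : Γ.comap f →* Γ := (f.comp (Γ.comap f).subtype).codRestrict Γ fun x => x.2
  have hg : Function.Injective g := by
    intro x y hxy
    have h3 : f x = f y := congrArg Subtype.val hxy
    exact Subtype.ext (hf h3)
  have h3 : Module.Finite ℤ (Additive (Γ.comap f)) :=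
    Module.Finite.of_injective (AddMonoidHom.toIntLinearMap (MonoidHom.toAdditive g)) hg
  have h4 : AddGroup.FG (Additive (Γ.comap f)) := Module.Finite.iff_addGroup_fg.1 h3
  have h5 : Group.FG (Γ.comap f) := GroupFG.iff_add_fg.2 h4
  exact (Group.fg_iff_subgroup_fg _).1 h5

/-- Reduction to a subfield. -/
theorem ue_range {L K : Type} [Field L] [Field K] (φ : L →+* K) (h : UE L) (G : Finset Kˣ)
    (hG : ∀ g ∈ G, (g : K) ∈ Set.range φ) (𝒰 : Ultrafilter ℕ) (J : Type) [Fintype J]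
    (u : J → ℕ → Kˣ) (hu : ∀ j t, u j t ∈ Subgroup.closure (G : Set Kˣ))
    (hnp : ∀ i j, i ≠ j → ∀ c : K, ¬ ∀ᶠ t in (𝒰 : Filter ℕ), (u i t : K) = c * u j t)
    (a : J → K) (ha : ∀ j, a j ∈ Set.range φ)
    (hsum : ∀ᶠ t in (𝒰 : Filter ℕ), ∑ j, a j * (u j t : K) = 0) : ∀ j, a j = 0 := by
  classical
  have h1 : ∀ g : G, ∃ g' : Lˣ, Units.map (φ : L →* K) g' = g.1 := by
    intro g
    obtain ⟨y, hy⟩ := hG g.1 g.2
    have hy0 : y ≠ 0 := by
      rintro rfl
      rw [map_zero] at hy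
      exact g.1.ne_zero hy.symm
    exact ⟨Units.mk0 y hy0, Units.ext hy⟩
  choose g' hg' using h1
  set G' : Finset Lˣ := Finset.univ.image g' with hG'
  have h2 : (Subgroup.closure (G' : Set Lˣ)).map (Units.map (φ : L →* K)) =
      Subgroup.closure (G : Set Kˣ) := by
    rw [MonoidHom.map_closure]
    congr 1
    ext x
    simp only [hG', Finset.coe_image, Finset.coe_univ, Set.image_univ, Set.mem_image,
      Set.mem_range, Finset.mem_coe]
    constructor
    · rintro ⟨y, ⟨g, rfl⟩, rfl⟩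
      rw [hg']
      exact g.2
    · intro hx
      exact ⟨g' ⟨x, hx⟩, ⟨⟨x, hx⟩, rfl⟩, hg' ⟨x, hx⟩⟩
  have h3 : ∀ j t, ∃ v ∈ Subgroup.closure (G' : Set Lˣ), Units.map (φ : L →* K) v = u j t := by
    intro j t
    have := hu j t
    rw [← h2] at this
    exact this
  choose v hv hvu using h3
  have hvu' : ∀ j t, φ (v j t : L) = u j t := fun j t => congrArg Units.val (hvu j t)
  choose b hb using ha
  have h4 := h (Subgroup.closure (G' : Set Lˣ)) ⟨G', rfl⟩ 𝒰 J v hv (by
    intro i j hij c hc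
    refine hnp i j hij (φ c) ?_
    filter_upwards [hc] with t ht
    rw [← hvu', ← hvu', ht, map_mul]) b (by
    filter_upwards [hsum] with t ht
    apply φ.injective
    rw [map_zero, map_sum, ← ht]
    exact Finset.sum_congr rfl fun j _ => by rw [map_mul, hb, hvu']) 
  intro j
  rw [← hb, h4 j, map_zero]

section ff

variable {κ L : Type} [Field κ] [Field L] [Algebra κ L] [CharZero κ] [IsFF κ L] [IsAlgClosed κ]

/-- the case of function fields, all coefficients different from zero -/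
theorem ff_ne (h : UE κ) {Γ : Subgroup Lˣ} (hΓ : Γ.FG) (𝒰 : Ultrafilter ℕ) {J : Type} [Fintype J]
    (u : J → ℕ → Lˣ) (hu : ∀ j t, u j t ∈ Γ)
    (hnp : ∀ i j, i ≠ j → ∀ c : L, ¬ ∀ᶠ t in (𝒰 : Filter ℕ), (u i t : L) = c * u j t)
    (a : J → L) (ha : ∀ j, a j ≠ 0)
    (hsum : ∀ᶠ t in (𝒰 : Filter ℕ), ∑ j, a j * (u j t : L) = 0) (i0 : J) : False := by
  classical
  obtain ⟨G, hG⟩ := hΓ
  obtain ⟨S1, hS1⟩ := exists_supp (k := κ) (Finset.univ : Finset J) a
  obtain ⟨S2, hS2⟩ := exists_supp (k := κ) G fun g : Lˣ => (g : L)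
  set S := S1 ∪ S2 with hS
  -- orders outside `S`
  have ho : ∀ P : Place κ L, P ∉ S → ∀ g ∈ Γ, P.ord (g : L) = 0 := by
    intro P hP g hg
    rw [← hG] at hg
    induction hg using Subgroup.closure_induction with
    | mem x hx =>
      by_contra hne
      exact hP (Finset.mem_union_right _ (hS2 x hx P hne))
    | one => exact P.ord_one
    | mul x y _ _ hx hy => rw [Units.val_mul, P.ord_mul x.ne_zero y.ne_zero, hx, hy, add_zero]
    | inv x _ hx => rw [Units.val_inv_eq_inv_val, P.ord_inv, hx, neg_zero]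
  have hoa : ∀ P : Place κ L, P ∉ S → ∀ j, P.ord (a j) = 0 := by
    intro P hP j
    by_contra hne
    exact hP (Finset.mem_union_left _ (hS1 j (Finset.mem_univ _) P hne))
  set g : J → ℕ → L := fun j t => a j * (u j t : L) with hg
  have hg0 : ∀ j t, g j t ≠ 0 := fun j t => mul_ne_zero (ha j) (u j t).ne_zero
  have hgo : ∀ P : Place κ L, P ∉ S → ∀ j t, P.ord (g j t) = 0 := by
    intro P hP j t
    show P.ord (a j * (u j t : L)) = 0
    rw [P.ord_mul (ha j) (u j t).ne_zero, hoa P hP j, ho P hP _ (hu j t), add_zero]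
  set s := Fintype.card J with hs
  set N := (s - 1) ^ 2 + 1 with hN
  set B : ℤ := s * (N * tri s * max (canDeg κ L + S.card) 0) with hB
  have hBnn : 0 ≤ B := mul_nonneg (by positivity)
    (mul_nonneg (mul_nonneg (by positivity) (tri_nonneg s)) (le_max_right _ _))
  have h2 : ∀ t, ∃ R : J → J → Prop, (∑ j, g j t = 0) → Equivalence R ∧
      (∀ i j, R i j → hgt κ (g i t / g j t) ≤ B) ∧
      ∀ (j0 : J) (A : Finset J), (∀ j, j ∈ A ↔ R j0 j) → ∑ j ∈ A, g j t = 0 := by
    intro t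
    by_cases ht : ∑ j, g j t = 0
    · obtain ⟨R, hR⟩ := blocks (k := κ) S (le_refl s) (Nat.succ_pos _ : 0 < N) (Nat.le_succ _)
        (fun j => g j t) (fun j => hg0 j t) ht (fun P hP i j => by
          rw [hgo P hP i t, hgo P hP j t, sub_zero]
          exact dvd_zero _)
      exact ⟨R, fun _ => hR⟩
    · exact ⟨fun _ _ => True, fun h => absurd h ht⟩
  choose R hR using h2
  obtain ⟨R0, hR0⟩ := Ultrafilter.eq_pure_of_finite (𝒰.map R)
  have h3 : ∀ᶠ t in (𝒰 : Filter ℕ), R t = R0 := by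
    have h4 : ({R0} : Set (J → J → Prop)) ∈ 𝒰.map R := by
      rw [hR0]
      exact Ultrafilter.mem_pure.2 rfl
    exact h4
  -- the class of `i0`
  set A : Finset J := Finset.univ.filter fun j => R0 i0 j with hA
  have hmem : ∀ j, j ∈ A ↔ R0 i0 j := by
    intro j
    rw [hA, Finset.mem_filter]
    exact ⟨fun h => h.2, fun h => ⟨Finset.mem_univ _, h⟩⟩
  have hgood : ∀ᶠ t in (𝒰 : Filter ℕ), (∑ j ∈ A, g j t = 0) ∧ i0 ∈ A ∧
      ∀ j ∈ A, hgt κ (g j t / g i0 t) ≤ B := by
    filter_upwards [hsum, h3] with t ht1 ht2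
    obtain ⟨r1, r2, r3⟩ := hR t ht1
    rw [ht2] at r1 r2 r3
    refine ⟨r3 i0 A hmem, (hmem i0).2 (r1.refl i0), fun j hj => ?_⟩
    exact r2 j i0 (r1.symm ((hmem j).1 hj))
  -- the orders are constant along the ultrafilter
  let W : ℕ → J → S → Set.Icc (-B) B := fun t j P =>
    if h : P.1.ord (g j t / g i0 t) ∈ Set.Icc (-B) B then ⟨_, h⟩ else ⟨0, by constructor <;> omega⟩
  obtain ⟨W0, hW0⟩ := Ultrafilter.eq_pure_of_finite (𝒰.map W)
  have h5 : ∀ᶠ t in (𝒰 : Filter ℕ), W t = W0 := by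
    have h4 : ({W0} : Set (J → S → Set.Icc (-B) B)) ∈ 𝒰.map W := by
      rw [hW0]
      exact Ultrafilter.mem_pure.2 rfl
    exact h4
  have hord : ∀ᶠ t in (𝒰 : Filter ℕ), ∀ j ∈ A, ∀ P : S,
      P.1.ord (g j t / g i0 t) = (W0 j P : ℤ) := by
    filter_upwards [hgood, h5] with t ht1 ht2 j hj P
    have h6 := Pool.Agent.Y741.abs_ord_le_hgt P.1 (g j t / g i0 t)
    have h7 := ht1.2.2 j hj
    have h8 : P.1.ord (g j t / g i0 t) ∈ Set.Icc (-B) B :=
      ⟨by have := h6.1; omega, by have := h6.2; omega⟩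
    have h9 : W t j P = ⟨_, h8⟩ := dif_pos h8
    rw [← ht2, h9]
  obtain ⟨t0, ht0, ht0'⟩ := (hord.and hgood).exists
  -- the constants
  have hconst : ∀ᶠ t in (𝒰 : Filter ℕ), ∀ j ∈ A, ∃ c : κˣ,
      g j t / g i0 t = algebraMap κ L c * (g j t0 / g i0 t0) := by
    filter_upwards [hord] with t ht j hj
    have hx : g j t / g i0 t ≠ 0 := div_ne_zero (hg0 _ _) (hg0 _ _)
    have hy : g j t0 / g i0 t0 ≠ 0 := div_ne_zero (hg0 _ _) (hg0 _ _)
    obtain ⟨c, hc⟩ := Pool.Agent.Y741.const_ratio (κ := κ) hy (x := g j t / g i0 t) (by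
      intro P
      by_cases hP : P ∈ S
      · rw [ht j hj ⟨P, hP⟩, ht0 j hj ⟨P, hP⟩]
      · rw [P.ord_div (hg0 _ _) (hg0 _ _), P.ord_div (hg0 _ _) (hg0 _ _), hgo P hP, hgo P hP,
          hgo P hP, hgo P hP]) hx
    have hc0 : c ≠ 0 := by
      rintro rfl
      rw [map_zero, zero_mul] at hc
      exact hx hc
    exact ⟨Units.mk0 c hc0, hc⟩
  have hc' : ∀ t (j : A), ∃ c : κˣ, ((∃ c : κˣ,
      g j t / g i0 t = algebraMap κ L c * (g j t0 / g i0 t0)) →
      g j t / g i0 t = algebraMap κ L c * (g j t0 / g i0 t0)) ∧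
      ((¬ ∃ c : κˣ, g j t / g i0 t = algebraMap κ L c * (g j t0 / g i0 t0)) → c = 1) := by
    intro t j
    by_cases hex : ∃ c : κˣ, g j t / g i0 t = algebraMap κ L c * (g j t0 / g i0 t0)
    · obtain ⟨c, hc⟩ := hex
      exact ⟨c, fun _ => hc, fun hn => absurd ⟨c, hc⟩ hn⟩
    · exact ⟨1, fun hn => absurd hn hex, fun _ => rfl⟩
  choose c hc1 hc2 using hc'
  have hcev : ∀ᶠ t in (𝒰 : Filter ℕ), ∀ j : A,
      g j t / g i0 t = algebraMap κ L (c t j) * (g j t0 / g i0 t0) := by
    filter_upwards [hconst] with t ht j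
    exact hc1 t j (ht j.1 j.2)
  -- quotients of the units
  have hquo : ∀ t (j : J), g j t / g i0 t = (a j / a i0) * ((u j t : L) / (u i0 t : L)) := by
    intro t j
    show a j * (u j t : L) / (a i0 * (u i0 t : L)) = _
    rw [mul_div_mul_comm]
  have hcu : ∀ t (j : A), g j t / g i0 t = algebraMap κ L (c t j) * (g j t0 / g i0 t0) →
      (u j t : L) / (u i0 t : L) =
        algebraMap κ L (c t j) * ((u j t0 : L) / (u i0 t0 : L)) := by
    intro t j hh
    rw [hquo, hquo] at hh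
    have haa : a j / a i0 ≠ 0 := div_ne_zero (ha _) (ha _)
    apply mul_left_cancel₀ haa
    rw [hh]
    ring
  set Γ0 : Subgroup κˣ := Γ.comap (Units.map (algebraMap κ L : κ →* L)) with hΓ0
  have hinj : Function.Injective (Units.map (algebraMap κ L : κ →* L)) :=
    Units.map_injective (algebraMap κ L).injective
  have hΓ0fg : Γ0.FG := fg_comap _ hinj ⟨G, hG⟩
  have hcΓ : ∀ (j : A) t, c t j ∈ Γ0 := by
    intro j t
    by_cases hex : ∃ c : κˣ, g j t / g i0 t = algebraMap κ L c * (g j t0 / g i0 t0)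
    · have h6 := hcu t j (hc1 t j hex)
      rw [hΓ0, Subgroup.mem_comap]
      have h7 : Units.map (algebraMap κ L : κ →* L) (c t j) =
          (u j t / u i0 t) / (u j t0 / u i0 t0) := by
        apply Units.ext
        rw [Units.val_div_eq_div_val, Units.val_div_eq_div_val, Units.val_div_eq_div_val]
        show algebraMap κ L (c t j) = _
        rw [h6, mul_div_cancel_right₀]
        exact div_ne_zero (Units.ne_zero _) (Units.ne_zero _)
      rw [h7]
      exact Γ.div_mem (Γ.div_mem (hu _ _) (hu _ _)) (Γ.div_mem (hu _ _) (hu _ _))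
    · rw [hc2 t j hex]
      exact Γ0.one_mem
  -- a linear form
  obtain ⟨f, hf⟩ : ∃ f : Module.Dual κ L, f 1 ≠ 0 := by
    by_contra hcon
    push Not at hcon
    exact one_ne_zero ((Module.forall_dual_apply_eq_zero_iff κ (1 : L)).1 hcon)
  have hfin := h Γ0 hΓ0fg 𝒰 A (fun j t => c t j) hcΓ (by
    intro i j hij d hd
    refine hnp i.1 j.1 (fun h => hij (Subtype.ext h))
      (algebraMap κ L d * (((u i t0 : L) / (u i0 t0 : L)) / ((u j t0 : L) / (u i0 t0 : L)))) ?_
    filter_upwards [hd, hcev] with t ht1 ht2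
    have e1 := hcu t i (ht2 i)
    have e2 := hcu t j (ht2 j)
    rw [ht1, map_mul] at e1
    have n1 : (u i0 t : L) ≠ 0 := Units.ne_zero _
    have n2 : (u j t0 : L) / (u i0 t0 : L) ≠ 0 := div_ne_zero (Units.ne_zero _) (Units.ne_zero _)
    have e3 : (u j t : L) = algebraMap κ L (c t j) * ((u j t0 : L) / (u i0 t0 : L)) * u i0 t := by
      rw [← e2, div_mul_cancel₀ _ n1]
    have e4 : (u i t : L) = algebraMap κ L d * algebraMap κ L (c t j) *
        ((u i t0 : L) / (u i0 t0 : L)) * u i0 t := by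
      rw [← e1, div_mul_cancel₀ _ n1]
    rw [e3, e4]
    field_simp)
    (fun j => f (g j t0 / g i0 t0)) (by
    filter_upwards [hcev, hgood] with t ht1 ht2
    have e1 : ∑ j ∈ A, g j t / g i0 t = 0 := by
      rw [← Finset.sum_div, ht2.1, zero_div]
    rw [← Finset.sum_coe_sort A] at e1
    have e2 : ∑ j : A, ((c t j : κˣ) : κ) • (g j t0 / g i0 t0) = 0 := by
      rw [← e1]
      refine Finset.sum_congr rfl fun j _ => ?_
      rw [ht1 j, Algebra.smul_def]
    have e3 := congrArg f e2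
    rw [map_sum, map_zero] at e3
    rw [← e3]
    refine Finset.sum_congr rfl fun j _ => ?_
    rw [map_smul, smul_eq_mul, mul_comm])
  have hi0 : i0 ∈ A := ht0'.2.1
  have h10 := hfin ⟨i0, hi0⟩
  apply hf
  have h11 : g i0 t0 / g i0 t0 = 1 := div_self (hg0 _ _)
  rw [← h11]
  exact h10

theorem ff_ue (h : UE κ) : UE L := by
  classical
  intro Γ hΓ 𝒰 J _ u hu hnp a hsum j0
  by_contra hne
  refine ff_ne h hΓ 𝒰 (J := {j // a j ≠ 0}) (fun j => u j.1) (fun j t => hu j.1 t)
    (fun i j hij c => hnp i.1 j.1 (fun h => hij (Subtype.ext h)) c) (fun j => a j.1)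
    (fun j => j.2) ?_ ⟨j0, hne⟩
  filter_upwards [hsum] with t ht
  refine Eq.trans ?_ ht
  rw [← Finset.sum_subtype (Finset.univ.filter fun j => a j ≠ 0) (by simp)
    (fun j => a j * (u j t : L)), Finset.sum_filter_of_ne]
  intro j _ hj ha
  exact hj (by rw [ha, zero_mul])

end ff

end Pool.Agent.NH29.GN.U3p

namespace Pool.Agent.NH29.GN

open Filter FF Pool.Agent.W603.LV Pool.Agent.W603.PV
open Pool.Agent.Y735 (trdeg_adjoin_le)

/-- **GN-U3.** -/
theorem u3 : U3Stm := by
  classical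
  intro κ K _ _ _ _ _ htr h Γ hΓ 𝒰 J _ u hu hnp a hsum
  obtain ⟨G, hG⟩ := hΓ
  set T : Finset K := G.image (fun g : Kˣ => (g : K)) ∪ Finset.univ.image a with hT
  obtain ⟨L, hL⟩ : ∃ L, L = IntermediateField.adjoin κ (T : Set K) := ⟨_, rfl⟩
  have hTL : ∀ x ∈ T, x ∈ Set.range L.val.toRingHom := fun x hx =>
    ⟨⟨x, by rw [hL]; exact IntermediateField.subset_adjoin _ _ hx⟩, rfl⟩
  have hUE : UE L := by
    by_cases halg : Algebra.IsAlgebraic κ L
    · have hbij : Function.Bijective (algebraMap κ L) :=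
        IsAlgClosed.algebraMap_bijective_of_isIntegral
      intro Γ' hΓ' 𝒰' J' _ u' hu' hnp' a' hsum'
      obtain ⟨G', hG'⟩ := hΓ'
      exact U3p.ue_range (algebraMap κ L) h G' (fun g _ => hbij.2 g) 𝒰' J' u'
        (fun j t => by rw [hG']; exact hu' j t) hnp' a' (fun j => hbij.2 (a' j)) hsum'
    · have h1 : Algebra.trdeg κ L ≤ 1 :=
        (trdeg_le_of_injective L.val L.val.injective).trans htr
      have h2 : Algebra.trdeg κ L ≠ 0 := fun h => halg (trdeg_eq_zero_iff.1 h)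
      have hff : IsFF κ L := by
        refine ⟨?_, le_antisymm h1 (Cardinal.one_le_iff_ne_zero.2 h2)⟩
        rw [IntermediateField.essFiniteType_iff, hL]
        exact IntermediateField.fg_adjoin_finset T
      exact U3p.ff_ue h
  refine U3p.ue_range L.val.toRingHom hUE G (fun g hg => hTL _ ?_) 𝒰 J u
    (fun j t => by rw [hG]; exact hu j t) hnp a (fun j => hTL _ ?_) hsum
  · exact Finset.mem_union_left _ (Finset.mem_image_of_mem _ hg)
  · exact Finset.mem_union_right _ (Finset.mem_image_of_mem _ (Finset.mem_univ _))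

end Pool.Agent.NH29.GN
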