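import Pool.Agent.NH29.GN.Stm

/-!
# Project GN, U4: the unit equation over all algebraically closed fields
-/

set_option autoImplicit false

namespace Pool.Agent.NH29.GN

open Filter Algebra

namespace U4

theorem trdeg_adjoin_le' {k Ω : Type} [Field k] [Field Ω] [Algebra k Ω] (S : Finset Ω) :
    Algebra.trdeg k (IntermediateField.adjoin k (S : Set Ω)) ≤ S.card := by
  classical
  obtain ⟨L, hL⟩ : ∃ L, L = IntermediateField.adjoin k (S : Set Ω) := ⟨_, rfl⟩
  rw [← hL]
  obtain ⟨s, hs⟩ : ∃ s : Set L, ∀ x : L, x ∈ s ↔ (x : Ω) ∈ S :=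
    ⟨{x : L | (x : Ω) ∈ S}, fun _ => Iff.rfl⟩
  have h2 : IntermediateField.adjoin k s = ⊤ := by
    rw [_root_.eq_top_iff]
    rintro ⟨x, hx⟩ -
    have h2 : (IntermediateField.adjoin k s).map L.val = L := by
      rw [IntermediateField.adjoin_map]
      conv_rhs => rw [hL]
      congr 1
      ext z
      constructor
      · rintro ⟨b, hb, rfl⟩
        exact (hs b).1 hb
      · intro hz
        have hzL : z ∈ L := by rw [hL]; exact IntermediateField.subset_adjoin _ _ hz
        exact ⟨⟨z, hzL⟩, (hs _).2 hz, rfl⟩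
    have h3 : x ∈ (IntermediateField.adjoin k s).map L.val := by rw [h2]; exact hx
    obtain ⟨w, hw, hwx⟩ := h3
    have h4 : w = ⟨x, hx⟩ := Subtype.ext hwx
    rw [← h4]
    exact hw
  have h3 : Algebra.IsAlgebraic (Algebra.adjoin k s) L := by
    rw [← IntermediateField.isAlgebraic_adjoin_iff_top, h2]
    exact ⟨fun x => isAlgebraic_algebraMap (⟨x, trivial⟩ : (⊤ : IntermediateField k L))⟩
  have h4 := Algebra.IsAlgebraic.trdeg_le_cardinalMk k s
  have h6 : Cardinal.mk s ≤ S.card := by
    have h7 : Function.Injective (fun x : s => (⟨(x : L), (hs _).1 x.2⟩ : S)) := by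
      intro a b hab
      have h8 := congrArg Subtype.val hab
      exact Subtype.ext (Subtype.ext h8)
    have h8 := Cardinal.mk_le_of_injective h7
    rwa [Cardinal.mk_coe_finset] at h8
  exact h4.trans h6

/-- the induction -/
theorem exists_base (h3 : U3Stm) {K : Type} [Field K] [CharZero K] [IsAlgClosed K]
    (h0 : UE (algebraicClosure ℚ K)) (T : Finset K) :
    ∃ (κ : Type) (_ : Field κ) (_ : Algebra κ K) (_ : IsAlgClosed κ) (_ : CharZero κ),
      UE κ ∧ (T : Set K) ⊆ Set.range (algebraMap κ K) := by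
  classical
  induction T using Finset.induction_on with
  | empty =>
    refine ⟨algebraicClosure ℚ K, inferInstance, inferInstance,
      (algebraicClosure.isAlgClosure ℚ K).isAlgClosed, inferInstance, h0, ?_⟩
    rw [Finset.coe_empty]
    exact Set.empty_subset _
  | insert t T _ ih =>
    obtain ⟨κ, _, _, _, _, hκ, hT⟩ := ih
    obtain ⟨E, hE⟩ : ∃ E : IntermediateField κ K, E = IntermediateField.adjoin κ {t} := ⟨_, rfl⟩
    have h1 : Algebra.trdeg κ E ≤ 1 := by
      have := trdeg_adjoin_le' (k := κ) ({t} : Finset K)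
      rw [Finset.coe_singleton, ← hE, Finset.card_singleton, Nat.cast_one] at this
      exact this
    have h2 : Algebra.trdeg E (algebraicClosure E K) = 0 :=
      trdeg_eq_zero_iff.2 inferInstance
    have h4 : Algebra.trdeg κ (algebraicClosure E K) ≤ 1 := by
      rw [← trdeg_add_eq κ E (A := algebraicClosure E K), h2, add_zero]
      exact h1
    refine ⟨algebraicClosure E K, inferInstance, inferInstance,
      (algebraicClosure.isAlgClosure E K).isAlgClosed, inferInstance, h3 κ _ h4 hκ, ?_⟩
    rw [Finset.coe_insert, Set.insert_subset_iff]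
    constructor
    · have ht : t ∈ E := by
        rw [hE]
        exact IntermediateField.mem_adjoin_simple_self κ t
      exact ⟨algebraMap E (algebraicClosure E K) ⟨t, ht⟩, rfl⟩
    · intro z hz
      obtain ⟨w, hw⟩ := hT hz
      exact ⟨algebraMap κ (algebraicClosure E K) w, hw⟩

/-- transport along a homomorphism whose range contains generators and coefficients -/
theorem transport {κ K : Type} [Field κ] [Field K] (φ : κ →+* K) (hκ : UE κ)
    (G : Finset Kˣ) (hG : ∀ g ∈ G, (g : K) ∈ Set.range φ) (𝒰 : Ultrafilter ℕ) (J : Type) [Fintype J]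
    (u : J → ℕ → Kˣ) (hu : ∀ j t, u j t ∈ Subgroup.closure (G : Set Kˣ))
    (hne : ∀ i j, i ≠ j → ∀ c : K, ¬ ∀ᶠ t in (𝒰 : Filter ℕ), (u i t : K) = c * u j t)
    (a : J → K) (ha : ∀ j, a j ∈ Set.range φ)
    (hs : ∀ᶠ t in (𝒰 : Filter ℕ), ∑ j, a j * (u j t : K) = 0) : ∀ j, a j = 0 := by
  classical
  have hinj : Function.Injective (Units.map (φ : κ →* K)) := by
    intro x y hxy
    apply Units.ext
    apply φ.injective
    have := congrArg Units.val hxy
    simpa using this
  obtain ⟨G0, hG0⟩ : ∃ G0 : Finset κˣ, G0.image (Units.map (φ : κ →* K)) = G := by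
    refine ⟨G.preimage (Units.map (φ : κ →* K)) hinj.injOn, ?_⟩
    ext z
    rw [Finset.mem_image]
    constructor
    · rintro ⟨w, hw, rfl⟩
      exact Finset.mem_preimage.1 hw
    · intro hz
      obtain ⟨w, hw⟩ := hG z hz
      have hw0 : w ≠ 0 := by
        rintro rfl
        rw [map_zero] at hw
        exact z.ne_zero hw.symm
      have hz' : Units.map (φ : κ →* K) (Units.mk0 w hw0) = z := by
        apply Units.ext
        simpa using hw
      exact ⟨Units.mk0 w hw0, Finset.mem_preimage.2 (by rw [hz']; exact hz), hz'⟩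
  have hmap : (Subgroup.closure (G0 : Set κˣ)).map (Units.map (φ : κ →* K)) =
      Subgroup.closure (G : Set Kˣ) := by
    rw [MonoidHom.map_closure, ← hG0, Finset.coe_image]
  have hv : ∀ j t, ∃ v : κˣ, v ∈ Subgroup.closure (G0 : Set κˣ) ∧
      Units.map (φ : κ →* K) v = u j t := by
    intro j t
    have := hu j t
    rw [← hmap] at this
    obtain ⟨v, hv, hvu⟩ := this
    exact ⟨v, hv, hvu⟩
  choose v hv1 hv2 using hv
  choose b hb using ha
  have hvu : ∀ j t, φ (v j t : κ) = (u j t : K) := by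
    intro j t
    rw [← hv2 j t]
    rfl
  have hb0 : ∀ j, b j = 0 := by
    refine hκ (Subgroup.closure (G0 : Set κˣ)) ⟨G0, rfl⟩ 𝒰 J v hv1 ?_ b ?_
    · intro i j hij c hc
      apply hne i j hij (φ c)
      filter_upwards [hc] with t ht
      rw [← hvu, ← hvu, ht, map_mul]
    · filter_upwards [hs] with t ht
      apply φ.injective
      rw [map_sum, map_zero, ← ht]
      refine Finset.sum_congr rfl fun j _ => ?_
      rw [map_mul, hvu, hb]
  intro j
  rw [← hb j, hb0 j, map_zero]

end U4

theorem u4 (h2 : U2Stm) (h3 : U3Stm) : U4Stm := by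
  classical
  intro K _ _ _ Γ hΓ 𝒰 J _ u hu hne a hs
  obtain ⟨G, rfl⟩ := hΓ
  have h0 : UE (algebraicClosure ℚ K) := by
    have : IsAlgClosed (algebraicClosure ℚ K) := (algebraicClosure.isAlgClosure ℚ K).isAlgClosed
    exact @h2 (algebraicClosure ℚ K) _ _ (algebraicClosure.isAlgebraic ℚ K) this
  obtain ⟨κ, _, _, _, _, hκ, hT⟩ := U4.exists_base h3 h0
    (G.image (fun g : Kˣ => (g : K)) ∪ Finset.univ.image a)
  refine U4.transport (algebraMap κ K) hκ G (fun g hg => hT ?_) 𝒰 J u hu hne a (fun j => hT ?_) hs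
  · rw [Finset.mem_coe, Finset.mem_union]
    exact Or.inl (Finset.mem_image_of_mem _ hg)
  · rw [Finset.mem_coe, Finset.mem_union]
    exact Or.inr (Finset.mem_image_of_mem _ (Finset.mem_univ j))

end Pool.Agent.NH29.GN
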