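import Pool.Agent.NH29.GN.Stm2
import Pool.Agent.NH29.GN.Sta

/-!
# GN-UEU: the unit equation over an ultrapower of a finitely generated group
-/

set_option autoImplicit false

namespace Pool.Agent.NH29.GN

open Filter

namespace UEUP

open STA

/-- the finite combinatorial lemma -/
lemma comb (hF : FineStm) (K : Type) [Field K] (hUE : UE K) (Γ : Subgroup Kˣ) (hΓ : Γ.FG)
    (P : Type) [Fintype P] (P1 : Finset P) :
    ∃ E : Finset K, ∀ w : P → Kˣ, (∀ σ, w σ ∈ Γ) → ∑ σ, (w σ : K) = 0 →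
      ∑ σ ∈ P1, (w σ : K) ≠ 0 → ∃ σ ∈ P1, ∃ σ', σ' ∉ P1 ∧ ∃ e ∈ E, (w σ : K) = e * w σ' := by
  classical
  choose E hE using fun S : Finset P => hF K hUE Γ hΓ S
  refine ⟨Finset.univ.biUnion E, fun w hw h0 h1 => ?_⟩
  obtain ⟨S, hS⟩ := exists_minimal_of_wellFoundedLT
    (fun S : Finset P => ∑ σ ∈ S, (w σ : K) = 0 ∧ ∑ σ ∈ S ∩ P1, (w σ : K) ≠ 0)
    ⟨Finset.univ, h0, by simpa using h1⟩
  have hnd : ∀ T : Finset P, T ⊆ S → T.Nonempty → T ≠ S → ∑ σ ∈ T, (w σ : K) ≠ 0 := by
    intro T hTS hTn hTne hT0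
    have hsplit : ∑ σ ∈ S \ T, (w σ : K) + ∑ σ ∈ T, (w σ : K) = ∑ σ ∈ S, (w σ : K) :=
      Finset.sum_sdiff hTS
    have hc0 : ∑ σ ∈ S \ T, (w σ : K) = 0 := by
      rw [hT0, hS.prop.1, add_zero] at hsplit
      exact hsplit
    have hsplit1 : ∑ σ ∈ (S \ T) ∩ P1, (w σ : K) + ∑ σ ∈ T ∩ P1, (w σ : K) =
        ∑ σ ∈ S ∩ P1, (w σ : K) := by
      rw [← Finset.sum_union]
      · rw [← Finset.union_inter_distrib_right, Finset.sdiff_union_of_subset hTS]
      · exact Finset.disjoint_of_subset_left Finset.inter_subset_left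
          (Finset.disjoint_of_subset_right Finset.inter_subset_left Finset.sdiff_disjoint)
    by_cases hT1 : ∑ σ ∈ T ∩ P1, (w σ : K) = 0
    · have hc1 : ∑ σ ∈ (S \ T) ∩ P1, (w σ : K) ≠ 0 := by
        intro h
        rw [h, hT1, add_zero] at hsplit1
        exact hS.prop.2 hsplit1.symm
      have hle : S ≤ S \ T := hS.2 ⟨hc0, hc1⟩ Finset.sdiff_subset
      obtain ⟨x, hx⟩ := hTn
      exact (Finset.mem_sdiff.1 (hle (hTS hx))).2 hx
    · exact hTne (Finset.Subset.antisymm hTS (hS.2 ⟨hT0, hT1⟩ hTS))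
  have hrat := hE S (fun σ => w σ) (fun σ => hw σ)
    (by rw [Finset.sum_coe_sort S (fun σ => (w σ : K))]; exact hS.prop.1)
    (by
      intro T hTn hTu
      have h := hnd (T.map (Function.Embedding.subtype _))
        (by
          intro x hx
          obtain ⟨y, _, rfl⟩ := Finset.mem_map.1 hx
          exact y.2)
        (hTn.map) (by
          intro h
          refine hTu (Finset.eq_univ_iff_forall.2 fun x => ?_)
          have hx : (x : P) ∈ T.map (Function.Embedding.subtype _) := by rw [h]; exact x.2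
          obtain ⟨y, hy, hyx⟩ := Finset.mem_map.1 hx
          have : y = x := Subtype.ext hyx
          rwa [← this])
      rw [Finset.sum_map] at h
      exact h)
  obtain ⟨σ, hσ, -⟩ := Finset.exists_ne_zero_of_sum_ne_zero hS.prop.2
  obtain ⟨hσS, hσ1⟩ := Finset.mem_inter.1 hσ
  obtain ⟨σ', hσ'S, hσ'1⟩ : ∃ σ' ∈ S, σ' ∉ P1 := by
    by_contra! hcon
    have : S ∩ P1 = S := Finset.inter_eq_left.2 hcon
    have h2 := hS.prop.2
    rw [this] at h2
    exact h2 hS.prop.1
  refine ⟨σ, hσ1, σ', hσ'1, (w σ : K) / w σ', ?_, ?_⟩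
  · exact Finset.mem_biUnion.2 ⟨S, Finset.mem_univ _, hrat ⟨σ, hσS⟩ ⟨σ', hσ'S⟩⟩
  · field_simp

/-- linear algebra: if the vectors `v s`, `s ∈ A`, are not killed by any linear form, then `|J|`
of them suffice -/
lemma choose_pts {F : Type} [Field F] {J : Type} [Fintype J] (v : ℕ → J → F) (A : Set ℕ)
    (hA : ∀ b : J → F, (∀ s ∈ A, ∑ j, b j * v s j = 0) → ∀ j, b j = 0) :
    ∃ sf : J → ℕ, (∀ i, sf i ∈ A) ∧
      ∀ b : J → F, (∀ i, ∑ j, b j * v (sf i) j = 0) → ∀ j, b j = 0 := by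
  classical
  have hspan : Submodule.span F (v '' A) = ⊤ := by
    by_contra hne
    obtain ⟨f, hf0, hf⟩ := Submodule.exists_le_ker_of_lt_top _ (lt_top_iff_ne_top.2 hne)
    apply hf0
    have hfx : ∀ x : J → F, f x = ∑ j, f (Pi.single j 1) * x j := by
      intro x
      rw [LinearMap.pi_apply_eq_sum_univ f x]
      refine Finset.sum_congr rfl fun j _ => ?_
      rw [smul_eq_mul, mul_comm]
      congr 2
      funext i
      by_cases h : j = i
      · subst h; simp
      · simp [h, Pi.single_apply, Ne.symm h]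
    have hb := hA (fun j => f (Pi.single j 1)) (by
      intro s hs
      rw [← hfx]
      exact hf (Submodule.subset_span ⟨s, hs, rfl⟩))
    ext x
    rw [LinearMap.comp_apply]
    simp only [LinearMap.zero_apply, LinearMap.comp_apply]
    exact hb _
  obtain ⟨B, hBs, hBspan, hBli⟩ := exists_linearIndependent F (v '' A)
  have hBt : Submodule.span F B = ⊤ := hBspan.trans hspan
  let e : J ≃ B := (Pi.basisFun F J).indexEquiv
    (Module.Basis.mk hBli (by rw [Subtype.range_coe]; exact hBt.ge))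
  have hsf : ∀ i : J, ∃ s ∈ A, v s = (e i : J → F) := fun i => hBs (e i).2
  choose sf hsfA hsfe using hsf
  refine ⟨sf, hsfA, fun b hb j => ?_⟩
  have hker : Submodule.span F B ≤ LinearMap.ker (∑ j, b j • (LinearMap.proj j : (J → F) →ₗ[F] F)) := by
    rw [Submodule.span_le]
    intro x hx
    have h1 : x = v (sf (e.symm ⟨x, hx⟩)) := by rw [hsfe, Equiv.apply_symm_apply]
    have h2 := hb (e.symm ⟨x, hx⟩)
    rw [← h1] at h2
    simpa [LinearMap.sum_apply] using h2
  have h3 : (Pi.single j 1 : J → F) ∈ LinearMap.ker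
      (∑ j, b j • (LinearMap.proj j : (J → F) →ₗ[F] F)) := hker (by rw [hBt]; trivial)
  simpa [LinearMap.sum_apply, Pi.single_apply] using h3

/-- the step of the induction -/
lemma step (hF : FineStm) (K : Type) [Field K] (hUE : UE K) (Γ : Subgroup Kˣ) (hΓ : Γ.FG)
    (𝒰 : Ultrafilter ℕ) (J : Type) [Fintype J] (u : J → ℕ → ℕ → Kˣ)
    (hu : ∀ j s i, u j s i ∈ Γ)
    (hne : ∀ j j', j ≠ j' → ∀ c : UP K, ¬ ∀ᶠ s in (𝒰 : Filter ℕ),
      UP.mk (fun i => (u j s i : K)) = c * UP.mk (fun i => (u j' s i : K)))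
    (a : J → UP K)
    (ha : ∀ᶠ s in (𝒰 : Filter ℕ), ∑ j, a j * UP.mk (fun i => (u j s i : K)) = 0)
    (j1 : J) (hj1 : a j1 ≠ 0)
    (ih : ∀ b : J → UP K, b j1 = 0 →
      (∀ᶠ s in (𝒰 : Filter ℕ), ∑ j, b j * UP.mk (fun i => (u j s i : K)) = 0) →
      ∀ j, b j = 0) : False := by
  classical
  set v : J → ℕ → UP K := fun j s => mkH K (fun i => (u j s i : K)) with hv
  have hvne : ∀ j s, v j s ≠ 0 := fun j s => mk_ne_zero _ fun i => (u j s i).ne_zero
  set A : Set ℕ := {s | ∑ j, a j * v j s = 0} with hA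
  have hA𝒰 : ∀ᶠ s in (𝒰 : Filter ℕ), s ∈ A := ha
  -- the points
  obtain ⟨sf0, hsf0A, hsf0⟩ := choose_pts (J := {j // j ≠ j1}) (fun s j => v j s) A (by
    intro b hb
    have := ih (fun j => if h : j = j1 then 0 else b ⟨j, h⟩) (by simp) (by
      filter_upwards [hA𝒰] with s hs
      have h1 := hb s hs
      rw [← Fintype.sum_subtype_add_sum_subtype (fun j => j = j1)
        (fun j => (if h : j = j1 then 0 else b ⟨j, h⟩) * UP.mk (fun i => (u j s i : K)))]
      rw [Finset.sum_eq_zero (fun x _ => by rw [dif_pos x.2, zero_mul]), zero_add]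
      rw [← h1]
      refine Finset.sum_congr rfl fun x _ => ?_
      rw [dif_neg x.2]
      rfl)
    intro j
    have h2 := this j
    rwa [dif_neg j.2] at h2)
  set sf : J → ℕ := fun i => if h : i = j1 then 0 else sf0 ⟨i, h⟩ with hsf
  have hsfA : ∀ i, i ≠ j1 → sf i ∈ A := by
    intro i hi
    simp only [hsf, dif_neg hi]
    exact hsf0A _
  have hsfk : ∀ b : J → UP K, b j1 = 0 → (∀ i, i ≠ j1 → ∑ j, b j * v j (sf i) = 0) →
      ∀ j, b j = 0 := by
    intro b hb1 hb j
    by_cases hj : j = j1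
    · rw [hj]; exact hb1
    · refine hsf0 (fun j => b j) (fun i => ?_) ⟨j, hj⟩
      have h1 := hb i i.2
      rw [← Fintype.sum_subtype_add_sum_subtype (fun j => j = j1)] at h1
      rw [Finset.sum_eq_zero (fun x _ => by rw [x.2, hb1, zero_mul]), zero_add] at h1
      simp only [hsf, dif_neg i.2] at h1
      exact h1
  -- the matrices
  let M : ℕ → Matrix J J (UP K) := fun s => Matrix.of fun j i => if i = j1 then v j s else v j (sf i)
  let M' : Matrix J J (UP K) :=
    Matrix.of fun j i => if i = j1 then (if j = j1 then 1 else 0) else v j (sf i)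
  have hdet' : M'.det ≠ 0 := by
    intro h0
    obtain ⟨b, hb0, hb⟩ := Matrix.exists_vecMul_eq_zero_iff.2 h0
    apply hb0
    funext j
    refine hsfk b ?_ ?_ j
    · have := congrFun hb j1
      simpa [Matrix.vecMul, dotProduct, M'] using this
    · intro i hi
      have := congrFun hb i
      simpa [Matrix.vecMul, dotProduct, M', hi] using this
  have hdet : ∀ s ∈ A, (M s).det = 0 := by
    intro s hs
    rw [← Matrix.exists_vecMul_eq_zero_iff]
    refine ⟨a, fun h => hj1 (congrFun h j1), ?_⟩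
    funext i
    by_cases hi : i = j1
    · have h1 : ∑ x, a x * v x s = 0 := hs
      simpa [Matrix.vecMul, dotProduct, M, hi] using h1
    · have h1 : ∑ x, a x * v x (sf i) = 0 := hsfA i hi
      simpa [Matrix.vecMul, dotProduct, M, hi] using h1
  -- the terms
  let g : Equiv.Perm J → ℕ → Kˣ := fun σ i =>
    Units.map (Int.castRingHom K).toMonoidHom (Equiv.Perm.sign σ) *
      ∏ k ∈ Finset.univ.erase j1, u (σ k) (sf k) i
  let w : Equiv.Perm J → ℕ → ℕ → Kˣ := fun σ s i => g σ i * u (σ j1) s i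
  let G : Equiv.Perm J → UP K := fun σ => mkH K (fun i => (g σ i : K))
  have hG : ∀ σ, G σ = ((Equiv.Perm.sign σ : ℤ) : UP K) *
      ∏ k ∈ Finset.univ.erase j1, v (σ k) (sf k) := by
    intro σ
    have h1 : (fun i => (g σ i : K)) = (((Equiv.Perm.sign σ : ℤ) : ℕ → K)) *
        ∏ k ∈ Finset.univ.erase j1, (fun i => (u (σ k) (sf k) i : K)) := by
      funext i
      rw [Pi.mul_apply, Finset.prod_apply]
      simp only [g, Units.val_mul, Units.coe_prod]
      rfl
    simp only [G, h1, map_mul, map_prod, map_intCast, hv]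
  have hGne : ∀ σ, G σ ≠ 0 := fun σ => mk_ne_zero _ fun i => (g σ i).ne_zero
  have hW : ∀ σ s, mkH K (fun i => (w σ s i : K)) = G σ * v (σ j1) s := by
    intro σ s
    have h1 : (fun i => (w σ s i : K)) = (fun i => (g σ i : K)) * (fun i => (u (σ j1) s i : K)) := by
      funext i
      simp [w]
    rw [h1, map_mul]
  have hsum0 : ∀ s ∈ A, ∑ σ, mkH K (fun i => (w σ s i : K)) = 0 := by
    intro s hs
    rw [← hdet s hs, Matrix.det_apply']
    refine Finset.sum_congr rfl fun σ _ => ?_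
    rw [hW, hG, ← Finset.prod_erase_mul Finset.univ _ (Finset.mem_univ j1), mul_assoc]
    congr 2
    · refine Finset.prod_congr rfl fun k hk => ?_
      simp [M, (Finset.mem_erase.1 hk).1]
    · simp [M]
  set P1 : Finset (Equiv.Perm J) := Finset.univ.filter fun σ => σ j1 = j1 with hP1
  have hsum1 : ∀ s, ∑ σ ∈ P1, mkH K (fun i => (w σ s i : K)) ≠ 0 := by
    intro s
    have h1 : ∑ σ ∈ P1, mkH K (fun i => (w σ s i : K)) = M'.det * v j1 s := by
      rw [Matrix.det_apply', Finset.sum_mul, hP1, Finset.sum_filter]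
      refine Finset.sum_congr rfl fun σ _ => ?_
      rw [← Finset.prod_erase_mul Finset.univ _ (Finset.mem_univ j1)]
      by_cases hσ : σ j1 = j1
      · rw [if_pos hσ, hW, hG, hσ]
        have h2 : M' j1 j1 = 1 := by simp [M']
        rw [h2, mul_one]
        congr 2
        refine Finset.prod_congr rfl fun k hk => ?_
        simp [M', (Finset.mem_erase.1 hk).1]
      · rw [if_neg hσ]
        have h2 : M' (σ j1) j1 = 0 := by simp [M', hσ]
        rw [h2]
        ring
    rw [h1]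
    exact mul_ne_zero hdet' (hvne _ _)
  -- the group
  set Γ' : Subgroup Kˣ := Γ ⊔ Subgroup.zpowers (-1) with hΓ'
  have hΓ'fg : Γ'.FG := hΓ.sup ⟨{-1}, by rw [Finset.coe_singleton, Subgroup.zpowers_eq_closure]⟩
  have hwΓ : ∀ σ s i, w σ s i ∈ Γ' := by
    intro σ s i
    refine Subgroup.mul_mem _ (Subgroup.mul_mem _ ?_ ?_) ?_
    · rcases Int.units_eq_one_or (Equiv.Perm.sign σ) with h | h
      · rw [h, map_one]; exact Subgroup.one_mem _
      · rw [h]
        have h3 : (Units.map (Int.castRingHom K).toMonoidHom (-1) : Kˣ) = -1 := by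
          ext; simp
        rw [h3]
        exact Subgroup.mem_sup_right (Subgroup.mem_zpowers _)
    · exact Subgroup.prod_mem _ fun k _ => Subgroup.mem_sup_left (hu _ _ _)
    · exact Subgroup.mem_sup_left (hu _ _ _)
  obtain ⟨E, hE⟩ := comb hF K hUE Γ' hΓ'fg (Equiv.Perm J) P1
  -- the coincidences
  have hfin : (((P1 ×ˢ P1ᶜ) ×ˢ E : Finset _) : Set ((Equiv.Perm J × Equiv.Perm J) × K)).Finite :=
    Finset.finite_toSet _
  have hco : ∀ s ∈ A, ∃ p ∈ (((P1 ×ˢ P1ᶜ) ×ˢ E : Finset _) : Set ((Equiv.Perm J × Equiv.Perm J) × K)),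
      mkH K (fun i => (w p.1.1 s i : K)) = algebraMap K (UP K) p.2 * mkH K (fun i => (w p.1.2 s i : K)) := by
    intro s hs
    have e1 : ∀ᶠ i in ((hyperfilter ℕ : Ultrafilter ℕ) : Filter ℕ), ∑ σ, (w σ s i : K) = 0 := by
      have := hsum0 s hs
      rw [← map_sum, mk_eq_zero] at this
      simpa [Finset.sum_apply] using this
    have e2 : ∀ᶠ i in ((hyperfilter ℕ : Ultrafilter ℕ) : Filter ℕ),
        ∑ σ ∈ P1, (w σ s i : K) ≠ 0 := by
      have := hsum1 s
      rw [← map_sum, Ne, mk_eq_zero, ← Ultrafilter.eventually_not] at this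
      simpa [Finset.sum_apply] using this
    have e3 : ∀ᶠ i in ((hyperfilter ℕ : Ultrafilter ℕ) : Filter ℕ),
        ∃ p ∈ (((P1 ×ˢ P1ᶜ) ×ˢ E : Finset _) : Set ((Equiv.Perm J × Equiv.Perm J) × K)),
          (w p.1.1 s i : K) = p.2 * w p.1.2 s i := by
      filter_upwards [e1, e2] with i h1 h2
      obtain ⟨σ, hσ, σ', hσ', e, he, h⟩ := hE (fun σ => w σ s i) (fun σ => hwΓ σ s i) h1 h2
      refine ⟨⟨⟨σ, σ'⟩, e⟩, ?_, h⟩
      simp only [Finset.mem_coe, Finset.mem_product, Finset.mem_compl]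
      exact ⟨⟨hσ, hσ'⟩, he⟩
    rw [Ultrafilter.eventually_exists_mem_iff hfin] at e3
    obtain ⟨p, hp, hpe⟩ := e3
    refine ⟨p, hp, ?_⟩
    rw [algMap, ← map_mul, mkH_apply, mkH_apply, mk_eq]
    exact hpe
  have hco2 : ∀ᶠ s in (𝒰 : Filter ℕ),
      ∃ p ∈ (((P1 ×ˢ P1ᶜ) ×ˢ E : Finset _) : Set ((Equiv.Perm J × Equiv.Perm J) × K)),
      mkH K (fun i => (w p.1.1 s i : K)) =
        algebraMap K (UP K) p.2 * mkH K (fun i => (w p.1.2 s i : K)) := by
    filter_upwards [hA𝒰] with s hs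
    exact hco s hs
  rw [Ultrafilter.eventually_exists_mem_iff hfin] at hco2
  obtain ⟨⟨⟨σ, σ'⟩, e⟩, hp, hpe⟩ := hco2
  simp only [Finset.mem_coe, Finset.mem_product, Finset.mem_compl, hP1, Finset.mem_filter,
    Finset.mem_univ, true_and] at hp
  obtain ⟨⟨hσ, hσ'⟩, he⟩ := hp
  refine hne j1 (σ' j1) (Ne.symm hσ') ((G σ)⁻¹ * (algebraMap K (UP K) e * G σ')) ?_
  filter_upwards [hpe] with s hs
  simp only [hW, hσ] at hs
  have h5 : v j1 s = (G σ)⁻¹ * (algebraMap K (UP K) e * G σ') * v (σ' j1) s := by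
    field_simp [hGne σ]
    rw [mul_comm (v j1 s), hs]
    ring
  exact h5

end UEUP

open UEUP STA in
/-- UEU: the unit equation over the ultrapower of a finitely generated group -/
theorem ueu (hF : FineStm) : UeuStm := by
  classical
  intro K _ hUE Γ hΓ 𝒰
  suffices h : ∀ (n : ℕ) (J : Type) [Fintype J], Fintype.card J = n → ∀ (u : J → ℕ → ℕ → Kˣ),
      (∀ j s i, u j s i ∈ Γ) →
      (∀ j j', j ≠ j' → ∀ c : UP K, ¬ ∀ᶠ s in (𝒰 : Filter ℕ),
        UP.mk (fun i => (u j s i : K)) = c * UP.mk (fun i => (u j' s i : K))) →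
      ∀ a : J → UP K, (∀ᶠ s in (𝒰 : Filter ℕ), ∑ j, a j * UP.mk (fun i => (u j s i : K)) = 0) →
        ∀ j, a j = 0 by
    intro J _ u hu hne a ha
    exact h _ J rfl u hu hne a ha
  intro n
  induction n with
  | zero =>
    intro J _ hJ u _ _ a _ j
    have := Fintype.card_eq_zero_iff.1 hJ
    exact isEmptyElim j
  | succ n ih =>
    intro J _ hJ u hu hne a ha j1
    by_contra hj1
    refine step hF K hUE Γ hΓ 𝒰 J u hu hne a ha j1 hj1 ?_
    intro b hb1 hb j
    by_cases hj : j = j1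
    · rw [hj]; exact hb1
    have hcard : Fintype.card {j // j ≠ j1} = n := by
      have h1 : Fintype.card {j // j ≠ j1} = Fintype.card J - 1 := Set.card_ne_eq j1
      rw [h1, hJ]
      rfl
    refine ih {j // j ≠ j1} hcard (fun j => u j) (fun j => hu j) ?_ (fun j => b j) ?_ ⟨j, hj⟩
    · intro i i' hii' c
      exact hne i i' (fun h => hii' (Subtype.ext h)) c
    · filter_upwards [hb] with s hs
      rw [← Fintype.sum_subtype_add_sum_subtype (fun j => j = j1)] at hs
      rw [Finset.sum_eq_zero (fun x _ => by rw [x.2, hb1, zero_mul]), zero_add] at hs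
      exact hs

end Pool.Agent.NH29.GN
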