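import Pool.Agent.NH29.GN.Stm

/-!
# Project GN, STB: ultrapower with algebraically independent coefficients
-/

set_option autoImplicit false

namespace Pool.Agent.NH29.GN

open MvPolynomial Module Filter

namespace Stb

section Germs

variable {I : Type} (U : Ultrafilter I)

/-- the class of a family -/
noncomputable def pr (K : Type) [Field K] : (I → K) →+* (U : Filter I).Germ K :=
  Germ.coeRingHom (U : Filter I)

theorem pr_apply (K : Type) [Field K] (f : I → K) :
    pr U K f = (f : (U : Filter I).Germ K) := rfl

theorem pr_eq {K : Type} [Field K] {f g : I → K} :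
    pr U K f = pr U K g ↔ ∀ᶠ i in (U : Filter I), f i = g i := by
  rw [pr_apply, pr_apply, Germ.coe_eq]
  rfl

theorem pr_eq_zero {K : Type} [Field K] {f : I → K} :
    pr U K f = 0 ↔ ∀ᶠ i in (U : Filter I), f i = 0 := by
  rw [← map_zero (pr U K), pr_eq]
  rfl

theorem pr_surj {K : Type} [Field K] (a : (U : Filter I).Germ K) : ∃ f : I → K, a = pr U K f := by
  induction a using Germ.inductionOn with
  | _ f => exact ⟨f, rfl⟩

theorem pr_inv {K : Type} [Field K] (f : I → K) :
    pr U K (fun i => (f i)⁻¹) = (pr U K f)⁻¹ := rfl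

theorem pr_div {K : Type} [Field K] (f g : I → K) :
    pr U K (fun i => f i / g i) = pr U K f / pr U K g := rfl

theorem pr_pow {K : Type} [Field K] (f : I → K) (n : ℕ) :
    pr U K (fun i => f i ^ n) = pr U K f ^ n := map_pow (pr U K) f n

theorem pr_zpow {K : Type} [Field K] (f : I → K) (n : ℤ) :
    pr U K (fun i => f i ^ n) = pr U K f ^ n := by
  cases n with
  | ofNat n =>
    simp only [Int.ofNat_eq_natCast, zpow_natCast]
    exact pr_pow U f n
  | negSucc n =>
    simp only [zpow_negSucc]
    rw [pr_inv U (fun i => f i ^ (n + 1)), pr_pow]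

theorem pr_sum {K : Type} [Field K] {J : Type} (S : Finset J) (f : J → I → K) :
    pr U K (fun i => ∑ j ∈ S, f j i) = ∑ j ∈ S, pr U K (f j) := by
  rw [← map_sum]
  congr 1
  funext i
  rw [Finset.sum_apply]

theorem pr_prod {K : Type} [Field K] {J : Type} (S : Finset J) (f : J → I → K) :
    pr U K (fun i => ∏ j ∈ S, f j i) = ∏ j ∈ S, pr U K (f j) := by
  rw [← map_prod]
  congr 1
  funext i
  rw [Finset.prod_apply]

theorem pr_mul {K : Type} [Field K] (f g : I → K) :
    pr U K (fun i => f i * g i) = pr U K f * pr U K g := map_mul (pr U K) f g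

/-- the map of the ultrapowers -/
noncomputable def gm (K L : Type) [Field K] [Field L] [Algebra K L] :
    (U : Filter I).Germ K →+* (U : Filter I).Germ L where
  toFun := Germ.map (algebraMap K L)
  map_one' := by
    show pr U L (fun _ => algebraMap K L 1) = 1
    rw [← map_one (pr U L)]
    congr 1
    funext i
    rw [map_one]
    rfl
  map_zero' := by
    show pr U L (fun _ => algebraMap K L 0) = 0
    rw [← map_zero (pr U L)]
    congr 1
    funext i
    rw [map_zero]
    rfl
  map_mul' := by
    intro a b
    obtain ⟨f, rfl⟩ := pr_surj U a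
    obtain ⟨g, rfl⟩ := pr_surj U b
    show pr U L (fun i => algebraMap K L (f i * g i)) =
      pr U L (fun i => algebraMap K L (f i)) * pr U L (fun i => algebraMap K L (g i))
    rw [← map_mul]
    congr 1
    funext i
    rw [map_mul]
    rfl
  map_add' := by
    intro a b
    obtain ⟨f, rfl⟩ := pr_surj U a
    obtain ⟨g, rfl⟩ := pr_surj U b
    show pr U L (fun i => algebraMap K L (f i + g i)) =
      pr U L (fun i => algebraMap K L (f i)) + pr U L (fun i => algebraMap K L (g i))
    rw [← map_add]
    congr 1
    funext i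
    rw [map_add]
    rfl

theorem gm_pr {K L : Type} [Field K] [Field L] [Algebra K L] (f : I → K) :
    gm U K L (pr U K f) = pr U L (fun i => algebraMap K L (f i)) := rfl

/-- an ultrapower of an algebraically closed field is algebraically closed -/
theorem closed (K : Type) [Field K] [IsAlgClosed K] : IsAlgClosed ((U : Filter I).Germ K) := by
  apply IsAlgClosed.of_exists_root
  intro p hp hirr
  have hN : 0 < p.natDegree := hirr.natDegree_pos
  set N := p.natDegree with hNdef
  choose c hc using fun j : ℕ => pr_surj U (p.coeff j)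
  have hroot : ∀ i : I, ∃ r : K, r ^ N + ∑ j : Fin N, c j i * r ^ (j : ℕ) = 0 := by
    intro i
    have hd : (∑ j : Fin N, Polynomial.C (c j i) * Polynomial.X ^ (j : ℕ)).degree <
        (N : WithBot ℕ) := Polynomial.degree_sum_fin_lt _
    have hdeg : (Polynomial.X ^ N + ∑ j : Fin N, Polynomial.C (c j i) *
        Polynomial.X ^ (j : ℕ)).degree = (N : WithBot ℕ) := by
      rw [Polynomial.degree_add_eq_left_of_degree_lt, Polynomial.degree_X_pow]
      rw [Polynomial.degree_X_pow]
      exact hd
    obtain ⟨r, hr⟩ := IsAlgClosed.exists_root (Polynomial.X ^ N + ∑ j : Fin N,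
      Polynomial.C (c j i) * Polynomial.X ^ (j : ℕ)) (by
        rw [hdeg]
        exact_mod_cast hN.ne')
    refine ⟨r, ?_⟩
    rw [Polynomial.IsRoot.def, Polynomial.eval_add, Polynomial.eval_pow, Polynomial.eval_X,
      Polynomial.eval_finsetSum] at hr
    simpa using hr
  choose r hr using hroot
  refine ⟨pr U K r, ?_⟩
  rw [Polynomial.eval_eq_sum_range, ← hNdef, Finset.sum_range_succ, hp.coeff_natDegree, one_mul,
    Finset.sum_range]
  have : pr U K (fun i => r i ^ N + ∑ j : Fin N, c j i * r i ^ (j : ℕ)) = 0 := by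
    have : (fun i => r i ^ N + ∑ j : Fin N, c j i * r i ^ (j : ℕ)) = 0 := by
      funext i
      exact hr i
    rw [this, map_zero]
  rw [add_comm, ← this]
  have e : (fun i => r i ^ N + ∑ j : Fin N, c j i * r i ^ (j : ℕ)) =
      (fun i => r i ^ N) + fun i => ∑ j : Fin N, c j i * r i ^ (j : ℕ) := rfl
  rw [e, map_add, pr_pow, pr_sum]
  congr 1
  apply Finset.sum_congr rfl
  intro j _
  rw [pr_mul, pr_pow, hc]

end Germs

end Stb

open Stb

theorem stb : StbStm := by
  classical
  intro k K L _ _ _ _ _ _ _ M q V d C hyp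
  -- the index set
  let I : Type := {Q : MvPolynomial (Idx M d) k // Q ≠ 0}
  let A : I → Set I := fun P => {Q : I | P.1 ∣ Q.1}
  have : Nonempty I := ⟨⟨1, one_ne_zero⟩⟩
  have hdir : Directed (· ≥ ·) (fun P : I => (𝓟 (A P) : Filter I)) := by
    intro P P'
    refine ⟨⟨P.1 * P'.1, mul_ne_zero P.2 P'.2⟩, ?_, ?_⟩
    · show 𝓟 _ ≤ 𝓟 _
      rw [principal_mono]
      intro Q hQ
      exact (Dvd.intro _ rfl).trans hQ
    · show 𝓟 _ ≤ 𝓟 _
      rw [principal_mono]
      intro Q hQ
      exact (Dvd.intro_left _ rfl).trans hQ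
  have : NeBot (⨅ P : I, (𝓟 (A P) : Filter I)) := by
    apply iInf_neBot_of_directed' hdir
    intro P
    rw [principal_neBot_iff]
    exact ⟨P, dvd_refl _⟩
  let U : Ultrafilter I := Ultrafilter.of (⨅ P : I, (𝓟 (A P) : Filter I))
  have hU : ∀ P : I, ∀ᶠ Q in (U : Filter I), P.1 ∣ Q.1 := by
    intro P
    have h1 : A P ∈ (⨅ P : I, (𝓟 (A P) : Filter I)) :=
      mem_iInf_of_mem P (mem_principal_self _)
    exact (Ultrafilter.of_le (⨅ P : I, (𝓟 (A P) : Filter I))) h1
  choose t ht x hx using fun Q : I => hyp Q.1 Q.2
  let _ : Algebra k ((U : Filter I).Germ K) :=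
    ((pr U K).comp (algebraMap k (I → K))).toAlgebra
  let _ : Algebra ((U : Filter I).Germ K) ((U : Filter I).Germ L) := (gm U K L).toAlgebra
  have hal1 : ∀ a : k, algebraMap k ((U : Filter I).Germ K) a =
      pr U K (fun _ => algebraMap k K a) := fun _ => rfl
  have hal2 : ∀ f : I → K, algebraMap ((U : Filter I).Germ K) ((U : Filter I).Germ L) (pr U K f) =
      pr U L (fun i => algebraMap K L (f i)) := fun _ => rfl
  set t' : Idx M d → (U : Filter I).Germ K := fun j => pr U K (fun Q => t Q j) with ht'
  set x' : Fin (M + 1) → (U : Filter I).Germ L := fun j => pr U L (fun Q => x Q j) with hx'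
  have hfv : ∀ i, fv t' x' i = pr U L (fun Q => fv (t Q) (x Q) i) := by
    intro i
    unfold fv
    rw [pr_sum]
    apply Finset.sum_congr rfl
    intro β _
    rw [pr_mul, ← hal2]
    congr 1
    unfold val
    rw [pr_prod]
    apply Finset.prod_congr rfl
    intro j _
    rw [pr_pow]
  have hquo : ∀ b₀ b, quo C t' x' b₀ b = pr U L (fun Q => quo C (t Q) (x Q) b₀ b) := by
    intro b₀ b
    unfold quo
    by_cases hb : b ∈ C
    · simp only [hb, if_true]
      exact (map_one (pr U L)).symm
    · simp only [hb, if_false]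
      rw [pr_div, pr_pow, pr_pow, hfv, hfv]
  refine ⟨(U : Filter I).Germ K, (U : Filter I).Germ L, inferInstance, inferInstance,
    inferInstance, inferInstance, closed U K, t', x', ?_, ?_⟩
  · rw [algebraicIndependent_iff]
    intro P hP
    by_contra hne
    have h1 : ∀ P : MvPolynomial (Idx M d) k, aeval t' P = pr U K (fun Q => aeval (t Q) P) := by
      intro P
      induction P using MvPolynomial.induction_on with
      | C a =>
        simp only [algHom_C]
        exact hal1 a
      | add p p' h h' =>
        simp only [map_add]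
        rw [h, h', ← map_add]
        rfl
      | mul_X p n h =>
        simp only [map_mul, aeval_X]
        rw [h, pr_mul]
    rw [h1, pr_eq_zero] at hP
    obtain ⟨Q, hQ1, hQ2⟩ := (hP.and (hU ⟨P, hne⟩)).exists
    obtain ⟨R, hR⟩ := hQ2
    apply ht Q
    have : Q.1 = P * R := hR
    rw [this, map_mul, hQ1, zero_mul]
  · constructor
    · intro H hH
      have h2 : eval₂ ((algebraMap ((U : Filter I).Germ K) ((U : Filter I).Germ L)).comp
          (algebraMap k ((U : Filter I).Germ K))) x' H =
          pr U L (fun Q => eval₂ ((algebraMap K L).comp (algebraMap k K)) (x Q) H) := by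
        clear hH
        induction H using MvPolynomial.induction_on with
        | C a =>
          simp only [eval₂_C]
          rfl
        | add p p' h h' =>
          simp only [eval₂_add]
          rw [h, h', ← map_add]
          rfl
        | mul_X p n h =>
          simp only [eval₂_mul, eval₂_X]
          rw [h, pr_mul]
      rw [h2, pr_eq_zero]
      exact Eventually.of_forall fun Q => (hx Q).onV H hH
    · intro c hc
      rw [hfv, pr_eq_zero]
      exact Eventually.of_forall fun Q => (hx Q).onC c hc
    · intro b hb h0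
      rw [hfv, pr_eq_zero] at h0
      obtain ⟨Q, hQ⟩ := h0.exists
      exact (hx Q).off b hb hQ
    · intro h0
      have h1 : ∀ᶠ Q in (U : Filter I), ∀ j, x Q j = 0 := by
        rw [eventually_all]
        intro j
        have : x' j = 0 := congrFun h0 j
        rwa [hx', pr_eq_zero] at this
      obtain ⟨Q, hQ⟩ := h1.exists
      exact (hx Q).ne (funext hQ)
    · intro c y h0
      obtain ⟨γ, hγ⟩ := pr_surj U c
      choose η hη using fun j => pr_surj U (y j)
      have h1 : ∀ᶠ Q in (U : Filter I), ∀ j, x Q j = γ Q * algebraMap K L (η j Q) := by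
        rw [eventually_all]
        intro j
        have : x' j = c * algebraMap ((U : Filter I).Germ K) ((U : Filter I).Germ L) (y j) :=
          congrFun h0 j
        rw [hγ, hη j, hal2, ← pr_mul] at this
        exact (pr_eq U).1 this
      obtain ⟨Q, hQ⟩ := h1.exists
      exact (hx Q).noncst (γ Q) (fun j => η j Q) (funext hQ)
    · intro b₀ hb₀ S c hsum hnp
      choose γ hγ using fun m => pr_surj U (c m)
      have hmon : ∀ m : Fin q → ℤ, ∏ b, quo C t' x' b₀ b ^ m b =
          pr U L (fun Q => ∏ b, quo C (t Q) (x Q) b₀ b ^ m b) := by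
        intro m
        rw [pr_prod]
        apply Finset.prod_congr rfl
        intro b _
        rw [pr_zpow, hquo]
      have h1 : ∀ᶠ Q in (U : Filter I), ∑ m ∈ S, algebraMap K L (γ m Q) *
          ∏ b, quo C (t Q) (x Q) b₀ b ^ m b = 0 := by
        rw [← pr_eq_zero, pr_sum, ← hsum]
        apply Finset.sum_congr rfl
        intro m _
        rw [pr_mul, ← hal2, ← hγ, hmon]
      have h2 : ∀ᶠ Q in (U : Filter I), ∀ m ∈ S, ∀ m' ∈ S, m ≠ m' → ∀ a : K,
          ∏ b, quo C (t Q) (x Q) b₀ b ^ m b ≠
            algebraMap K L a * ∏ b, quo C (t Q) (x Q) b₀ b ^ m' b := by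
        rw [Filter.eventually_all_finset]
        intro m hm
        rw [Filter.eventually_all_finset]
        intro m' hm'
        by_cases hmm : m = m'
        · exact Eventually.of_forall fun Q h => absurd hmm h
        · by_contra hcon
          rw [← Ultrafilter.eventually_not] at hcon
          have h3 : ∀ᶠ Q in (U : Filter I), ∃ a : K, ∏ b, quo C (t Q) (x Q) b₀ b ^ m b =
              algebraMap K L a * ∏ b, quo C (t Q) (x Q) b₀ b ^ m' b := by
            filter_upwards [hcon] with Q hQ
            by_contra hno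
            apply hQ
            intro _ a ha
            exact hno ⟨a, ha⟩
          have h4 : ∀ Q : I, ∃ a : K, (∃ a : K, ∏ b, quo C (t Q) (x Q) b₀ b ^ m b =
              algebraMap K L a * ∏ b, quo C (t Q) (x Q) b₀ b ^ m' b) →
              ∏ b, quo C (t Q) (x Q) b₀ b ^ m b =
              algebraMap K L a * ∏ b, quo C (t Q) (x Q) b₀ b ^ m' b := by
            intro Q
            by_cases h : ∃ a : K, ∏ b, quo C (t Q) (x Q) b₀ b ^ m b =
              algebraMap K L a * ∏ b, quo C (t Q) (x Q) b₀ b ^ m' b
            · exact ⟨h.choose, fun _ => h.choose_spec⟩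
            · exact ⟨0, fun h' => absurd h' h⟩
          choose a ha using h4
          refine hnp m hm m' hm' hmm (pr U K a) ?_
          rw [hmon, hmon, hal2, ← pr_mul, pr_eq]
          filter_upwards [h3] with Q hQ
          exact ha Q hQ
      have h5 : ∀ᶠ Q in (U : Filter I), ∀ m ∈ S, γ m Q = 0 := by
        filter_upwards [h1, h2] with Q hQ1 hQ2
        exact (hx Q).ind b₀ hb₀ S (fun m => γ m Q) hQ1 hQ2
      intro m hm
      rw [hγ, pr_eq_zero]
      filter_upwards [h5] with Q hQ
      exact hQ m hm

end Pool.Agent.NH29.GN
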