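import Pool.Agent.NH29.GN.StcD
import Pool.Agent.NH29.GN.Lin2

/-!
# Project GN, STC: there is no bad point for algebraically independent coefficients

(with the refined numerical condition)
-/

set_option autoImplicit false

namespace Pool.Agent.NH29.GN

open MvPolynomial Module

/-- the refined numerical condition -/
def Num2 (n : ℕ) {q : ℕ} (d : Fin q → ℕ) (C : Finset (Fin q)) : Prop :=
  ∃ k₀, k₀ ∉ C ∧ ∀ m, 1 ≤ m → m ≤ n → ∀ B : Finset (Fin q), k₀ ∉ B → q ≤ B.card + m + 1 →
    (m + 1) * (n - m) + q ≤ 1 + C.card + ∑ b ∈ B, (m * d b + 1)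

/-- STC2 -/
def Stc2Stm : Prop :=
  ∀ (k K L : Type) [Field k] [Field K] [Field L] [Algebra k K] [Algebra K L]
    [IsAlgClosed K] [CharZero k] (M n q : ℕ)
    (V : Set (MvPolynomial (Fin (M + 1)) k)), (∀ H ∈ V, ∃ e, H.IsHomogeneous e) →
    ∀ ℓ : Fin (n + 1) → MvPolynomial (Fin (M + 1)) k, (∀ j, (ℓ j).IsHomogeneous 1) →
    NoZero V ℓ → n + 1 ≤ q → ∀ d : Fin q → ℕ, (∀ i, 1 ≤ d i) →
    ∀ C : Finset (Fin q), Num2 n d C → ∀ t : Idx M d → K, AlgebraicIndependent k t →
    ∀ x : Fin (M + 1) → L, ¬ Bad k K L V C t x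

namespace Stc

/-- multiplicative relations, with trivial constants where this is possible -/
theorem exists_rel2 {K L : Type} [Field K] [Field L] [Algebra K L] (hR : RelStm) {q : ℕ}
    (v : Fin q → L) (hv : ∀ b, v b ≠ 0) (hI : Ind K v) :
    ∃ (J : Finset (Fin q)) (N : Fin q → ℕ) (m : Fin q → Fin q → ℤ) (c : Fin q → K),
      AlgebraicIndependent K (fun j : J => v j) ∧ (∀ b, 0 < N b) ∧ (∀ b, c b ≠ 0) ∧
      (∀ b j, j ∉ J → m b j = 0) ∧
      (∀ b, v b ^ N b = algebraMap K L (c b) * ∏ j, v j ^ m b j) ∧ (∀ b ∈ J, c b = 1) ∧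
      ∀ b, v b = 1 → c b = 1 := by
  classical
  obtain ⟨J, hJ, h⟩ := hR K L q v hv hI
  have h1 : ∀ b, ∃ (N : ℕ) (m : Fin q → ℤ) (c : K), 0 < N ∧ c ≠ 0 ∧ (∀ j, j ∉ J → m j = 0) ∧
      v b ^ N = algebraMap K L c * ∏ j, v j ^ m j ∧ (b ∈ J → c = 1) ∧ (v b = 1 → c = 1) := by
    intro b
    by_cases hb : b ∈ J
    · refine ⟨1, Pi.single b 1, 1, one_pos, one_ne_zero, ?_, ?_, fun _ => rfl, fun _ => rfl⟩
      · intro j hj
        have h1 : j ≠ b := by rintro rfl; exact hj hb
        exact Pi.single_eq_of_ne h1 _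
      · rw [map_one, one_mul, pow_one, Finset.prod_eq_single b]
        · rw [Pi.single_eq_same, zpow_one]
        · intro j _ hj
          rw [Pi.single_eq_of_ne hj, zpow_zero]
        · intro h; exact absurd (Finset.mem_univ _) h
    · by_cases hb1 : v b = 1
      · refine ⟨1, 0, 1, one_pos, one_ne_zero, fun _ _ => rfl, ?_, fun _ => rfl, fun _ => rfl⟩
        rw [hb1]
        simp
      · obtain ⟨N, m, c, h1, h2, h3, h4⟩ := h b
        exact ⟨N, m, c, h1, h2, h3, h4, fun h => absurd h hb, fun h => absurd h hb1⟩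
  choose N m c h1 h2 h3 h4 h5 h6 using h1
  exact ⟨J, N, m, c, hJ, h1, h2, h3, h4, h5, h6⟩

theorem small2 {K L : Type} [Field K] [Field L] [Algebra K L] {n r : ℕ} (hr : r ≤ 1)
    (y : Fin r → L) (p : Fin r → Fin (n + 1) → K) (z : Fin (n + 1) → L)
    (hz : ∀ i, z i = ∑ j, algebraMap K L (p j i) * y j) :
    ∃ (c : L) (a : Fin (n + 1) → K), ∀ i, z i = c * algebraMap K L (a i) := by
  interval_cases r
  · exact ⟨0, 0, fun i => by rw [hz i]; simp⟩
  · exact ⟨y 0, p 0, fun i => by rw [hz i]; simp [mul_comm]⟩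

theorem core2 {k K L : Type} [Field k] [Field K] [Field L] [Algebra k K] [Algebra K L]
    [Algebra k L] [IsScalarTower k K L] [IsAlgClosed K] [CharZero k] (hD : DerStm) (hA : AlgStm)
    (hI : IntStm) (hR : RelStm) (hL : Lin2Stm) (hH : HilbStm) {M n q : ℕ}
    {V : Set (MvPolynomial (Fin (M + 1)) k)} (hV : ∀ H ∈ V, ∃ e, H.IsHomogeneous e)
    {ℓ : Fin (n + 1) → MvPolynomial (Fin (M + 1)) k} (hℓ : ∀ j, (ℓ j).IsHomogeneous 1)
    (hN : NoZero V ℓ) (hq : n + 1 ≤ q) {d : Fin q → ℕ} (hd : ∀ i, 1 ≤ d i)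
    {C : Finset (Fin q)} (hNum : Num2 n d C) {t : Idx M d → K}
    (ht : AlgebraicIndependent k t) {x : Fin (M + 1) → L}
    (hx : ∀ H ∈ V, eval₂ (algebraMap k L) x H = 0) (hxC : ∀ c ∈ C, fv t x c = 0)
    (hoff : ∀ b, b ∉ C → fv t x b ≠ 0) (hx0 : x ≠ 0)
    (hncst : ∀ (c : L) (y : Fin (M + 1) → K), x ≠ fun i => c * algebraMap K L (y i))
    (hind : ∀ b₀, b₀ ∉ C → Ind K (quo C t x b₀)) : False := by
  classical
  have hchK : CharZero K := charZero_of_injective_algebraMap (algebraMap k K).injective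
  have hchL : CharZero L := charZero_of_injective_algebraMap (algebraMap k L).injective
  have hkL : (algebraMap K L).comp (algebraMap k K) = algebraMap k L :=
    (IsScalarTower.algebraMap_eq k K L).symm
  -- the quotients
  obtain ⟨b₀, hb₀, hNum⟩ := hNum
  have hC : C ≠ Finset.univ := by
    rintro rfl
    exact hb₀ (Finset.mem_univ _)
  set v : Fin q → L := quo C t x b₀ with hv
  have hvC : ∀ b, b ∈ C → v b = 1 := fun b hb => by rw [hv, quo, if_pos hb]
  have hvb : ∀ b, b ∉ C → v b = fv t x b ^ d b₀ / fv t x b₀ ^ d b :=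
    fun b hb => by rw [hv, quo, if_neg hb]
  have hv0 : ∀ b, v b ≠ 0 := by
    intro b
    by_cases hb : b ∈ C
    · rw [hvC b hb]; exact one_ne_zero
    · rw [hvb b hb]
      exact div_ne_zero (pow_ne_zero _ (hoff b hb)) (pow_ne_zero _ (hoff b₀ hb₀))
  have hv1 : v b₀ = 1 := by
    rw [hvb b₀ hb₀]
    exact div_self (pow_ne_zero _ (hoff b₀ hb₀))
  obtain ⟨J, N, m, c, hJ, hN0, hc0, hmJ, hrel, hcJ, hc1⟩ :=
    exists_rel2 hR v hv0 (hind b₀ hb₀)
  -- there is a nonconstant quotient
  obtain ⟨j₁, hj₁⟩ : J.Nonempty := by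
    by_contra hJ0
    rw [Finset.not_nonempty_iff_eq_empty] at hJ0
    have h1 : ∀ b, ∃ a : K, v b = algebraMap K L a := by
      intro b
      refine mem_of_pow (hN0 b) (c := c b) ?_
      rw [hrel b, Finset.prod_eq_one, mul_one]
      intro j _
      rw [hmJ b j (by rw [hJ0]; exact Finset.notMem_empty j), zpow_zero]
    obtain ⟨c', y', h2⟩ := hI k K L M n q V hV ℓ hℓ hN hq d hd t ht C hC x
      (by intro H hH'; rw [hkL]; exact hx H hH') hxC hoff (by
        intro b b' hb hb'
        obtain ⟨a, ha⟩ := h1 b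
        obtain ⟨a', ha'⟩ := h1 b'
        refine mem_of_pow (hd b₀) (c := a ^ d b' / a' ^ d b) ?_
        rw [map_div₀, map_pow, map_pow, ← ha, ← ha', hvb b hb, hvb b' hb']
        have h3 := hoff b hb
        have h4 := hoff b' hb'
        have h5 := hoff b₀ hb₀
        rw [div_pow, div_pow, div_pow, ← pow_mul, ← pow_mul, ← pow_mul, ← pow_mul, ← pow_mul,
          ← pow_mul, mul_comm (d b₀) (d b'), mul_comm (d b₀) (d b), mul_comm (d b') (d b)]
        field_simp)
    exact hncst c' y' h2
  have hj₁b : j₁ ≠ b₀ := by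
    rintro rfl
    have h1 := hJ.transcendental ⟨j₁, hj₁⟩
    apply h1
    change IsAlgebraic K (v j₁)
    rw [hv1]
    exact isAlgebraic_one
  -- the linear forms
  set z : Fin (n + 1) → L := lin L ℓ x with hz
  obtain ⟨y, p, hp, hzp⟩ := exists_basis (K := K) z
  generalize hrdef : finrank K (Submodule.span K (Set.range z)) = r at y p hp hzp
  have hr2 : 2 ≤ r := by
    by_contra h
    obtain ⟨c', a', h1⟩ := small2 (by omega) y p z hzp
    obtain ⟨c'', y'', h2⟩ := cst_of_lin hA hV hℓ hN hx hx0 c' a' h1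
    exact hncst c'' y'' h2
  have hrn : r ≤ n + 1 := by
    have h1 := hp.fintype_card_le_finrank
    rwa [Fintype.card_fin, finrank_fin_fun] at h1
  obtain ⟨W, hWr, hxW, hWD⟩ := exists_W x ℓ
    (fun D c' h => inj_of_lin hA hV hℓ hN hx hx0 D c' h) y p hzp
  obtain ⟨E, E', hEE, hEt⟩ := exists_E (L := L) hD ht hℓ
  obtain ⟨𝒟, h𝒟, hcodim⟩ := codim E p hp
  -- the multipliers
  let a : Fin q → L := fun b => if b ∈ C then 1 else (fv t x b)⁻¹
  have haC : ∀ b, b ∈ C → a b = 1 := fun b hb => if_pos hb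
  have hab : ∀ b, b ∉ C → a b = (fv t x b)⁻¹ := fun b hb => if_neg hb
  have ha0 : ∀ b, a b ≠ 0 := by
    intro b
    by_cases hb : b ∈ C
    · rw [haC b hb]; exact one_ne_zero
    · rw [hab b hb]; exact inv_ne_zero (hoff b hb)
  let φ : Fin q → (Fin (M + 1) → L) →ₗ[L] L := fun b => a b • dfv t x b
  have hφ : ∀ b w, φ b w = a b * dfv t x b w := fun b w => rfl
  have key : ∀ μ : Fin q → L, (∀ w ∈ W, ∑ b, μ b * φ b w = 0) → ∀ D : Derivation k L L,
      (fun i => D (x i)) ∈ W →
      (d b₀ : L) * ∑ b, μ b * (a b * ∑ β : Mon M (d b), D (algebraMap K L (t ⟨b, β⟩)) *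
        val x β.1) = ∑ b, μ b * ld D (v b) := by
    intro μ hμ D hDx
    have h1 := hμ _ hxW
    have h2 := hμ _ hDx
    have h3 : ∀ b, (d b₀ : L) * (μ b * (a b * ∑ β : Mon M (d b),
        D (algebraMap K L (t ⟨b, β⟩)) * val x β.1)) = μ b * ld D (v b) +
        ld D (fv t x b₀) * (μ b * φ b x) - d b₀ * (μ b * φ b fun i => D (x i)) := by
      intro b
      have h4 := der_fv D t x b
      rw [hφ, hφ, dfv_self]
      by_cases hb : b ∈ C
      · rw [hxC b hb, map_zero] at h4
        rw [haC b hb, hxC b hb, hvC b hb, ld_one]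
        linear_combination (-(d b₀ : L) * μ b) * h4
      · have h5 := hoff b hb
        have h6 : ld D (v b) = d b₀ * ld D (fv t x b) - d b * ld D (fv t x b₀) := by
          rw [hvb b hb, div_eq_mul_inv, ld_mul D (pow_ne_zero _ h5)
            (inv_ne_zero (pow_ne_zero _ (hoff b₀ hb₀))), ld_inv D (pow_ne_zero _ (hoff b₀ hb₀)),
            ld_pow D h5, ld_pow D (hoff b₀ hb₀)]
          ring
        have h7 : ld D (fv t x b) = D (fv t x b) * (fv t x b)⁻¹ := by rw [ld, div_eq_mul_inv]
        rw [hab b hb, h6, h7, h4]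
        field_simp
        ring
    rw [Finset.mul_sum, Finset.sum_congr rfl fun b _ => h3 b, Finset.sum_sub_distrib,
      Finset.sum_add_distrib, ← Finset.mul_sum, ← Finset.mul_sum, h1, h2]
    ring
  -- the combinations of the derivations
  let Δ : (((i : Fin q) × Mon n (d i)) → K) → Derivation k L L := fun g =>
    ∑ s, algebraMap K L (g s) • E' s
  have hΔK : ∀ g b, Δ g (algebraMap K L b) = algebraMap K L (∑ s, g s * E s b) := by
    intro g b
    rw [der_sum_apply, map_sum]
    refine Finset.sum_congr rfl fun s _ => ?_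
    rw [Derivation.smul_apply, hEE, smul_eq_mul, map_mul]
  have hΔt : ∀ g b, ∑ β : Mon M (d b), Δ g (algebraMap K L (t ⟨b, β⟩)) * val x β.1 =
      ∑ β : Mon n (d b), algebraMap K L (g ⟨b, β⟩) * val z β.1 := by
    intro g b
    have h1 : ∀ β : Mon M (d b), Δ g (algebraMap K L (t ⟨b, β⟩)) * val x β.1 =
        ∑ s, algebraMap K L (g s) * (E' s (algebraMap K L (t ⟨b, β⟩)) * val x β.1) := by
      intro β
      rw [der_sum_apply, Finset.sum_mul]
      refine Finset.sum_congr rfl fun s _ => ?_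
      rw [Derivation.smul_apply, smul_eq_mul, mul_assoc]
    rw [Finset.sum_congr rfl fun β _ => h1 β, Finset.sum_comm]
    have h2 : ∀ s : (i : Fin q) × Mon n (d i), ∑ β : Mon M (d b), algebraMap K L (g s) *
        (E' s (algebraMap K L (t ⟨b, β⟩)) * val x β.1) =
        if s.1 = b then algebraMap K L (g s) * val z s.2.1 else 0 := by
      intro s
      rw [← Finset.mul_sum, hEt x s b, mul_ite, mul_zero]
    rw [Finset.sum_congr rfl fun s _ => h2 s, Fintype.sum_sigma, Finset.sum_eq_single b]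
    · simp
    · intro b' _ hb'
      simp [hb']
    · intro h; exact absurd (Finset.mem_univ _) h
  have hΔW : ∀ g ∈ 𝒟, (fun i => Δ g (x i)) ∈ W := by
    intro g hg
    refine hWD (Δ g) fun j => ?_
    have h1 := h𝒟 g hg j
    have h2 : (fun i => Δ g (algebraMap K L (p j i))) =
        fun i => algebraMap K L ((fun i => ∑ s, g s * E s (p j i)) i) := by
      funext i
      exact hΔK g (p j i)
    rw [h2]
    refine Submodule.span_induction (p := fun u _ => (fun i => algebraMap K L (u i)) ∈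
      Submodule.span L (Set.range fun j i => algebraMap K L (p j i))) ?_ ?_ ?_ ?_ h1
    · rintro _ ⟨j, rfl⟩
      exact Submodule.subset_span ⟨j, rfl⟩
    · simp only [Pi.zero_apply, map_zero]
      exact Submodule.zero_mem _
    · intro u w _ _ h3 h4
      have h5 : (fun i => algebraMap K L ((u + w) i)) =
          (fun i => algebraMap K L (u i)) + fun i => algebraMap K L (w i) := by
        funext i; simp
      rw [h5]
      exact Submodule.add_mem _ h3 h4
    · intro e u _ h3
      have h5 : (fun i => algebraMap K L ((e • u) i)) =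
          algebraMap K L e • fun i => algebraMap K L (u i) := by
        funext i; simp
      rw [h5]
      exact Submodule.smul_mem _ _ h3
  -- the derivations over `K`
  have hpar : ∀ μ : Fin q → L, (∀ w ∈ W, ∑ b, μ b * φ b w = 0) → ∀ j ∈ J,
      ∑ b, μ b * ((m b j : L) / N b) = 0 := by
    intro μ hμ j hj
    obtain ⟨D, hD1, hD2⟩ := hD k K L J (fun j : J => v j) hJ 0
      (fun i => if (i : Fin q) = j then v i else 0)
    have h1 : (fun i => D (x i)) ∈ W := by
      refine hWD D fun j => ?_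
      have h2 : (fun i => D (algebraMap K L (p j i))) = 0 := by
        funext i
        rw [hD1, Derivation.zero_apply]; rfl
      rw [h2]
      exact Submodule.zero_mem _
    have h2 := key μ hμ D h1
    have h3 : ∀ b, ld D (v b) = (m b j : L) / N b := by
      intro b
      have h4 := congrArg (ld D) (hrel b)
      rw [ld_pow D (hv0 b), ld_mul D ((map_ne_zero _).2 (hc0 b))
        (Finset.prod_ne_zero_iff.2 fun i _ => zpow_ne_zero _ (hv0 i)),
        ld_prod D _ _ fun i _ => zpow_ne_zero _ (hv0 i)] at h4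
      have h5 : ld D (algebraMap K L (c b)) = 0 := by
        rw [ld, hD1, Derivation.zero_apply, zero_div]
      have h6 : ∑ i, ld D (v i ^ m b i) = m b j := by
        rw [Finset.sum_eq_single j]
        · rw [ld_zpow D (hv0 j), ld, hD2 ⟨j, hj⟩, if_pos rfl]
          rw [div_self (hv0 j), mul_one]
        · intro i _ hi
          rw [ld_zpow D (hv0 i)]
          by_cases hiJ : i ∈ J
          · rw [ld, hD2 ⟨i, hiJ⟩, if_neg hi, zero_div, mul_zero]
          · rw [hmJ b i hiJ, Int.cast_zero, zero_mul]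
        · intro h; exact absurd (Finset.mem_univ _) h
      rw [h5, h6, zero_add] at h4
      have h7 : (N b : L) ≠ 0 := Nat.cast_ne_zero.2 (hN0 b).ne'
      rw [eq_div_iff h7, ← h4]
      ring
    rw [Finset.sum_congr rfl fun b _ => by rw [← h3 b]]
    rw [← h2]
    have h4 : ∀ b, ∑ β : Mon M (d b), D (algebraMap K L (t ⟨b, β⟩)) * val x β.1 = 0 := by
      intro b
      refine Finset.sum_eq_zero fun β _ => ?_
      rw [hD1, Derivation.zero_apply, zero_mul]
    simp [h4]
  -- linear algebra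
  have hlin := hL K L (Fin (M + 1) → L) W q φ (fun b => Mon n (d b)) (fun b β => val z β.1) 𝒟
    {b : Fin q // c b ≠ 1}
    (fun l => ∑ s, (E s (c l.1)) • (LinearMap.proj s : (((i : Fin q) × Mon n (d i)) → K) →ₗ[K] K))
    a ha0
    (by
      intro μ hμ g hg hκ
      have h1 := key μ hμ (Δ g) (hΔW g hg)
      have h2 : ∑ b, μ b * ld (Δ g) (v b) = 0 := by
        have h3 : ∀ b, ld (Δ g) (v b) = ∑ j ∈ J, (m b j : L) / N b * ld (Δ g) (v j) := by
          intro b
          have h4 := congrArg (ld (Δ g)) (hrel b)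
          rw [ld_pow _ (hv0 b), ld_mul _ ((map_ne_zero _).2 (hc0 b))
            (Finset.prod_ne_zero_iff.2 fun i _ => zpow_ne_zero _ (hv0 i)),
            ld_prod _ _ _ fun i _ => zpow_ne_zero _ (hv0 i)] at h4
          have h5 : ld (Δ g) (algebraMap K L (c b)) = 0 := by
            by_cases hcb : c b = 1
            · rw [hcb, map_one, ld_one]
            · have h6 := hκ ⟨b, hcb⟩
              rw [ld, hΔK]
              have h7 : ∑ s, g s * E s (c b) = 0 := by
                rw [← h6, LinearMap.sum_apply]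
                refine Finset.sum_congr rfl fun s _ => ?_
                rw [LinearMap.smul_apply, LinearMap.proj_apply, smul_eq_mul, mul_comm]
              rw [h7, map_zero, zero_div]
          have h6 : ∑ i, ld (Δ g) (v i ^ m b i) = ∑ j ∈ J, (m b j : L) * ld (Δ g) (v j) := by
            rw [← Finset.sum_subset (Finset.subset_univ J)]
            · exact Finset.sum_congr rfl fun i _ => by rw [ld_zpow _ (hv0 i)]
            · intro i _ hi
              rw [hmJ b i hi, zpow_zero, ld_one]
          rw [h5, h6, zero_add] at h4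
          have h7 : (N b : L) ≠ 0 := Nat.cast_ne_zero.2 (hN0 b).ne'
          have h8 : ld (Δ g) (v b) = (∑ j ∈ J, (m b j : L) * ld (Δ g) (v j)) / N b := by
            rw [eq_div_iff h7, ← h4]; ring
          rw [h8, Finset.sum_div]
          refine Finset.sum_congr rfl fun j _ => ?_
          ring
        have h9 : ∀ b, μ b * ld (Δ g) (v b) =
            ∑ j ∈ J, (μ b * ((m b j : L) / N b)) * ld (Δ g) (v j) := by
          intro b
          rw [h3 b, Finset.mul_sum]
          exact Finset.sum_congr rfl fun j _ => by ring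
        rw [Finset.sum_congr rfl fun b _ => h9 b, Finset.sum_comm]
        refine Finset.sum_eq_zero fun j hj => ?_
        rw [← Finset.sum_mul, hpar μ hμ j hj, zero_mul]
      rw [h2] at h1
      have h3 := (mul_eq_zero.1 h1).resolve_left (Nat.cast_ne_zero.2 (by have := hd b₀; omega))
      rw [← h3]
      refine Finset.sum_congr rfl fun b _ => ?_
      rw [hΔt g b])
    (r * (n + 1 - r)) hcodim b₀ ⟨x, hxW, by
      rw [hφ, dfv_self]
      exact mul_ne_zero (ha0 b₀) (mul_ne_zero (Nat.cast_ne_zero.2 (by have := hd b₀; omega))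
        (hoff b₀ hb₀))⟩
  obtain ⟨B, hb₀B, hB1, hB2⟩ := hlin
  -- the numerical contradiction
  have hj₁C : j₁ ∉ C := by
    intro hj₁C
    have h1 := hJ.transcendental ⟨j₁, hj₁⟩
    apply h1
    change IsAlgebraic K (v j₁)
    rw [hvC j₁ hj₁C]
    exact isAlgebraic_one
  have hT : Fintype.card {b : Fin q // c b ≠ 1} + 2 + C.card ≤ q := by
    have h1 : Fintype.card {b : Fin q // c b ≠ 1} = (Finset.univ.filter fun b => c b ≠ 1).card :=
      Fintype.card_subtype _
    have h2 : (Finset.univ.filter fun b => c b ≠ 1) ∪ (C ∪ {b₀, j₁}) ⊆ Finset.univ :=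
      Finset.subset_univ _
    have h3 := Finset.card_le_card h2
    rw [Finset.card_union_of_disjoint, Finset.card_union_of_disjoint, Finset.card_pair hj₁b.symm,
      Finset.card_univ, Fintype.card_fin] at h3
    · omega
    · rw [Finset.disjoint_right]
      intro b hb
      rw [Finset.mem_insert, Finset.mem_singleton] at hb
      rcases hb with rfl | rfl
      · exact hb₀
      · exact hj₁C
    · rw [Finset.disjoint_left]
      intro b hb
      rw [Finset.mem_filter] at hb
      rw [Finset.mem_union, Finset.mem_insert, Finset.mem_singleton]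
      rintro (h4 | rfl | rfl)
      · exact hb.2 (hc1 _ (hvC b h4))
      · exact hb.2 (hc1 _ hv1)
      · exact hb.2 (hcJ _ hj₁)
  have h1 := hNum (r - 1) (by omega) (by omega) B hb₀B (by omega)
  have h2 : ∀ b ∈ B, (r - 1) * d b + 1 ≤
      finrank K (Submodule.span K (Set.range fun β : Mon n (d b) => val z β.1)) := by
    intro b _
    exact hH K L n (r - 1) (d b) z (by omega)
  have h3 := Finset.sum_le_sum h2
  have h4 : (r - 1 + 1) * (n - (r - 1)) = r * (n + 1 - r) := by
    have h5 : r - 1 + 1 = r := by omega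
    have h6 : n - (r - 1) = n + 1 - r := by omega
    rw [h5, h6]
  rw [h4] at h1
  omega

end Stc

/-- STC2 -/
theorem stc2 (hD : DerStm) (hA : AlgStm) (hI : IntStm) (hR : RelStm) (hL : Lin2Stm)
    (hH : HilbStm) : Stc2Stm := by
  intro k K L _ _ _ _ _ _ _ M n q V hV ℓ hℓ hN hq d hd C hNum t ht x hb
  let _ : Algebra k L := ((algebraMap K L).comp (algebraMap k K)).toAlgebra
  have : IsScalarTower k K L := IsScalarTower.of_algebraMap_eq' rfl
  exact Stc.core2 hD hA hI hR hL hH hV hℓ hN hq hd hNum ht hb.onV hb.onC hb.off hb.ne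
    hb.noncst hb.ind

end Pool.Agent.NH29.GN
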