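import Pool.Agent.NH29.GN.Stm6

/-!
# Project GN, CNT: quotients of forms and counting functions (helper58)
-/

set_option autoImplicit false

namespace Pool.Agent.NH29.GN.CntAux

open Height NumberField Pool.Agent.NH29.GN

variable {κ : Type} [Field κ] [NumberField κ]

theorem fin_supp (a : κ) : {v : FinitePlace κ | a ≠ 0 ∧ v a ≠ 1}.Finite := by
  by_cases ha : a = 0
  · refine Set.finite_empty.subset ?_
    rintro v ⟨h, -⟩
    exact absurd ha h
  · refine Set.Finite.subset (FinitePlace.hasFiniteMulSupport ha) ?_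
    rintro v ⟨-, hv⟩
    exact hv

theorem abs_log_eq (y : ℝ) : |Real.log y| = Real.posLog y + Real.posLog y⁻¹ := by
  rw [Real.posLog_apply, Real.posLog_apply, Real.log_inv]
  rcases le_total 0 (Real.log y) with h | h
  · rw [abs_of_nonneg h, max_eq_right h, max_eq_left (by linarith)]
    ring
  · rw [abs_of_nonpos h, max_eq_left h, max_eq_right (by linarith)]
    ring

theorem sum_le_height (a : κ) (Λ : Finset (FinitePlace κ)) :
    ∑ v ∈ Λ, |Real.log (v a)| ≤ 2 * logHeight₁ a := by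
  classical
  by_cases ha : a = 0
  · subst ha
    rw [Finset.sum_eq_zero fun v _ => by rw [map_zero, Real.log_zero, abs_zero]]
    exact mul_nonneg zero_le_two (zero_le_logHeight₁ _)
  have key : ∀ c : κ, c ≠ 0 → ∑ v ∈ Λ, Real.posLog (v c) ≤ logHeight₁ c := by
    intro c hc
    rw [NumberField.logHeight₁_eq]
    have h1 : ∑ v ∈ Λ, Real.posLog (v c) ≤ ∑ᶠ v : FinitePlace κ, Real.posLog (v c) := by
      have hfin : (Function.support fun v : FinitePlace κ => Real.posLog (v c)).Finite := by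
        refine (fin_supp c).subset fun v hv => ⟨hc, fun h => hv ?_⟩
        show Real.posLog (v c) = 0
        rw [h, Real.posLog_one]
      rw [finsum_eq_sum_of_support_subset (s := Λ ∪ hfin.toFinset) _ (by
        intro v hv
        rw [Finset.coe_union]
        exact Or.inr (hfin.mem_toFinset.2 hv))]
      exact Finset.sum_le_sum_of_subset_of_nonneg Finset.subset_union_left
        fun v _ _ => Real.posLog_nonneg
    have h2 : 0 ≤ ∑ v : InfinitePlace κ, (v.mult : ℝ) * Real.posLog (v c) :=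
      Finset.sum_nonneg fun v _ => mul_nonneg (Nat.cast_nonneg _) Real.posLog_nonneg
    linarith
  have h0 : ∑ v ∈ Λ, |Real.log (v a)| =
      ∑ v ∈ Λ, Real.posLog (v a) + ∑ v ∈ Λ, Real.posLog (v a⁻¹) := by
    rw [← Finset.sum_add_distrib]
    exact Finset.sum_congr rfl fun v _ => by rw [abs_log_eq, map_inv₀]
  have h1 := key a ha
  have h2 := key a⁻¹ (inv_ne_zero ha)
  rw [logHeight₁_inv] at h2
  rw [h0]
  linarith

theorem sum_le (v : FinitePlace κ) {ι : Type} (s : Finset ι) (f : ι → κ) {C : ℝ} (hC : 0 ≤ C)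
    (h : ∀ i ∈ s, v (f i) ≤ C) : v (∑ i ∈ s, f i) ≤ C := by
  classical
  induction s using Finset.induction_on with
  | empty => simpa using hC
  | insert a s ha ih =>
    rw [Finset.sum_insert ha]
    exact (FinitePlace.add_le v _ _).trans (max_le (h a (Finset.mem_insert_self _ _))
      (ih fun i hi => h i (Finset.mem_insert_of_mem hi)))

section form

variable {M e : ℕ} (c : Mon M e → κ) (x : Fin (M + 1) → κ) (v : FinitePlace κ)

theorem sup_nonneg {ι : Type} (f : ι → κ) : 0 ≤ ⨆ i, v (f i) :=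
  Real.iSup_nonneg fun _ => apply_nonneg _ _

theorem le_sup {ι : Type} [Finite ι] (f : ι → κ) (i : ι) : v (f i) ≤ ⨆ i, v (f i) :=
  le_ciSup (Set.finite_range fun i => v (f i)).bddAbove i

theorem val_le (β : Mon M e) : v (val x β.1) ≤ (⨆ a, v (x a)) ^ e := by
  have h1 : v (val x β.1) = ∏ i, v (x i) ^ β.1 i := by
    rw [val, map_prod]
    exact Finset.prod_congr rfl fun i _ => map_pow _ _ _
  rw [h1]
  calc ∏ i, v (x i) ^ β.1 i ≤ ∏ i, (⨆ a, v (x a)) ^ β.1 i :=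
        Finset.prod_le_prod (fun i _ => pow_nonneg (apply_nonneg _ _) _) (fun i _ =>
          pow_le_pow_left₀ (apply_nonneg _ _) (le_sup v x i) _)
    _ = (⨆ a, v (x a)) ^ e := by
        rw [Finset.prod_pow_eq_pow_sum]
        congr 1
        rw [← Finsupp.degree_eq_sum]
        exact β.2

/-- the value of the form -/
noncomputable def F : κ := ∑ β, c β * val x β.1

theorem F_le : v (F c x) ≤ (⨆ β, v (c β)) * (⨆ a, v (x a)) ^ e :=
  sum_le v _ _ (mul_nonneg (sup_nonneg v c) (pow_nonneg (sup_nonneg v x) _)) fun β _ => by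
    rw [map_mul]
    exact mul_le_mul (le_sup v c β) (val_le x v β) (apply_nonneg _ _) (sup_nonneg v c)

theorem pos_F (hF : F c x ≠ 0) : 0 < v (F c x) := FinitePlace.pos_iff.2 hF

theorem pos_T (hF : F c x ≠ 0) : 0 < ⨆ β, v (c β) := by
  have h1 := (pos_F c x v hF).trans_le (F_le c x v)
  rcases (sup_nonneg v c).lt_or_eq with h | h
  · exact h
  · rw [← h, zero_mul] at h1
    exact absurd h1 (lt_irrefl _)

theorem pos_X (hF : F c x ≠ 0) : 0 < (⨆ a, v (x a)) ^ e := by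
  have h1 := (pos_F c x v hF).trans_le (F_le c x v)
  exact pos_of_mul_pos_right h1 (sup_nonneg v c)

/-- the local counting function -/
noncomputable def nn : ℝ :=
  Real.log ((⨆ β, v (c β)) * (⨆ a, v (x a)) ^ e / v (F c x))

theorem nn_nonneg (hF : F c x ≠ 0) : 0 ≤ nn c x v :=
  Real.log_nonneg ((one_le_div (pos_F c x v hF)).2 (F_le c x v))

theorem nn_eq (hF : F c x ≠ 0) : nn c x v =
    Real.log (⨆ β, v (c β)) + e * Real.log (⨆ a, v (x a)) - Real.log (v (F c x)) := by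
  rw [nn, Real.log_div (mul_pos (pos_T c x v hF) (pos_X c x v hF)).ne' (pos_F c x v hF).ne',
    Real.log_mul (pos_T c x v hF).ne' (pos_X c x v hF).ne', Real.log_pow]

theorem abs_log_T : |Real.log (⨆ β, v (c β))| ≤ ∑ β, |Real.log (v (c β))| := by
  rcases isEmpty_or_nonempty (Mon M e) with h | h
  · rw [Real.iSup_of_isEmpty, Real.log_zero, abs_zero]
    exact Finset.sum_nonneg fun _ _ => abs_nonneg _
  · obtain ⟨β, hβ⟩ := exists_eq_ciSup_of_finite (f := fun β => v (c β))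
    rw [← hβ]
    exact Finset.single_le_sum (f := fun β => |Real.log (v (c β))|) (fun _ _ => abs_nonneg _)
      (Finset.mem_univ β)

theorem nn_zero (hF : F c x ≠ 0) (h1 : ∀ β, c β ≠ 0 → v (c β) = 1)
    (h2 : ∀ a, x a ≠ 0 → v (x a) = 1) (h3 : v (F c x) = 1) : nn c x v = 0 := by
  have hT : (⨆ β, v (c β)) = 1 := by
    have hpos := pos_T c x v hF
    rcases isEmpty_or_nonempty (Mon M e) with h | h
    · rw [Real.iSup_of_isEmpty] at hpos
      exact absurd hpos (lt_irrefl _)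
    · obtain ⟨β, hβ⟩ := exists_eq_ciSup_of_finite (f := fun β => v (c β))
      rw [← hβ] at hpos ⊢
      exact h1 β (FinitePlace.pos_iff.1 hpos)
  have hX : (⨆ a, v (x a)) ^ e = 1 := by
    have hpos := pos_X c x v hF
    obtain ⟨a, ha⟩ := exists_eq_ciSup_of_finite (f := fun a => v (x a))
    rw [← ha] at hpos ⊢
    by_cases hxa : x a = 0
    · rw [hxa, map_zero] at hpos ⊢
      by_cases he : e = 0
      · rw [he, pow_zero]
      · rw [zero_pow he] at hpos
        exact absurd hpos (lt_irrefl _)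
    · rw [h2 a hxa, one_pow]
  rw [nn, hT, hX, h3, one_mul, div_one, Real.log_one]

end form

end Pool.Agent.NH29.GN.CntAux

namespace Pool.Agent.NH29.GN

open Height NumberField CntAux

theorem cntP : CntStm := by
  classical
  intro κ _ _ S M q d t x b b₀ hb hb₀
  have hF : F (fun β => t ⟨b, β⟩) x ≠ 0 := hb
  have hF₀ : F (fun β => t ⟨b₀, β⟩) x ≠ 0 := hb₀
  set B : Set (FinitePlace κ) := (⋃ s, {v | t s ≠ 0 ∧ v (t s) ≠ 1}) ∪
    (⋃ a, {v | x a ≠ 0 ∧ v (x a) ≠ 1}) ∪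
    ({v | F (fun β => t ⟨b, β⟩) x ≠ 0 ∧ v (F (fun β => t ⟨b, β⟩) x) ≠ 1} ∪
    {v | F (fun β => t ⟨b₀, β⟩) x ≠ 0 ∧ v (F (fun β => t ⟨b₀, β⟩) x) ≠ 1}) with hB
  have hBf : B.Finite := ((Set.finite_iUnion fun s => fin_supp _).union
    (Set.finite_iUnion fun a => fin_supp _)).union ((fin_supp _).union (fin_supp _))
  have hB1 : ∀ v ∉ B, ∀ s, t s ≠ 0 → v (t s) = 1 := by
    intro v hv s hs
    by_contra h
    exact hv (Or.inl (Or.inl (Set.mem_iUnion.2 ⟨s, hs, h⟩)))
  have hB2 : ∀ v ∉ B, ∀ a, x a ≠ 0 → v (x a) = 1 := by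
    intro v hv s hs
    by_contra h
    exact hv (Or.inl (Or.inr (Set.mem_iUnion.2 ⟨s, hs, h⟩)))
  have hB3 : ∀ v ∉ B, v (F (fun β => t ⟨b, β⟩) x) = 1 := by
    intro v hv
    by_contra h
    exact hv (Or.inr (Or.inl ⟨hF, h⟩))
  have hB4 : ∀ v ∉ B, v (F (fun β => t ⟨b₀, β⟩) x) = 1 := by
    intro v hv
    by_contra h
    exact hv (Or.inr (Or.inr ⟨hF₀, h⟩))
  have hΛf : {v : {v : FinitePlace κ // v ∉ S} | v.1 ∈ B}.Finite :=
    hBf.preimage Subtype.val_injective.injOn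
  set Λ : Finset {v : FinitePlace κ // v ∉ S} := hΛf.toFinset with hΛ
  have hnot : ∀ v : {v : FinitePlace κ // v ∉ S}, v ∉ Λ → v.1 ∉ B := by
    intro v hv h
    exact hv (hΛf.mem_toFinset.2 h)
  have hc : cnt S (fun β => t ⟨b, β⟩) x = ∑ v ∈ Λ, nn (fun β => t ⟨b, β⟩) x v.1 := by
    refine finsum_eq_sum_of_support_subset _ ?_
    intro v hv
    by_contra h
    exact hv (nn_zero _ x v.1 hF (fun β => hB1 v.1 (hnot v h) _) (hB2 v.1 (hnot v h))
      (hB3 v.1 (hnot v h)))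
  have hc₀ : cnt S (fun β => t ⟨b₀, β⟩) x = ∑ v ∈ Λ, nn (fun β => t ⟨b₀, β⟩) x v.1 := by
    refine finsum_eq_sum_of_support_subset _ ?_
    intro v hv
    by_contra h
    exact hv (nn_zero _ x v.1 hF₀ (fun β => hB1 v.1 (hnot v h) _) (hB2 v.1 (hnot v h))
      (hB4 v.1 (hnot v h)))
  have hw : ∀ v : FinitePlace κ, Real.log (v (fv (K := κ) (L := κ) t x b ^ d b₀ /
      fv (K := κ) (L := κ) t x b₀ ^ d b)) = d b₀ * Real.log (v (F (fun β => t ⟨b, β⟩) x)) -
        d b * Real.log (v (F (fun β => t ⟨b₀, β⟩) x)) := by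
    intro v
    have e1 : fv (K := κ) (L := κ) t x b = F (fun β => t ⟨b, β⟩) x := rfl
    have e2 : fv (K := κ) (L := κ) t x b₀ = F (fun β => t ⟨b₀, β⟩) x := rfl
    rw [e1, e2, map_div₀, map_pow, map_pow, Real.log_div (pow_pos (pos_F _ x v hF) _).ne'
      (pow_pos (pos_F _ x v hF₀) _).ne', Real.log_pow, Real.log_pow]
  have hsum : (∑ᶠ v : {v : FinitePlace κ // v ∉ S}, |Real.log (v.1 (fv (K := κ) (L := κ) t x b ^ d b₀ /
      fv (K := κ) (L := κ) t x b₀ ^ d b))|) = ∑ v ∈ Λ, |Real.log (v.1 (fv (K := κ) (L := κ) t x b ^ d b₀ /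
      fv (K := κ) (L := κ) t x b₀ ^ d b))| := by
    refine finsum_eq_sum_of_support_subset _ ?_
    intro v hv
    by_contra h
    refine hv ?_
    show |Real.log (v.1 (fv (K := κ) (L := κ) t x b ^ d b₀ /
      fv (K := κ) (L := κ) t x b₀ ^ d b))| = 0
    rw [hw, hB3 v.1 (hnot v h), hB4 v.1 (hnot v h), Real.log_one, mul_zero, mul_zero, sub_zero,
      abs_zero]
  refine ⟨?_, ?_⟩
  · rw [hc]
    exact Finset.sum_nonneg fun v _ => nn_nonneg _ x v.1 hF
  rw [hsum, hc, hc₀]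
  have hpt : ∀ v : {v : FinitePlace κ // v ∉ S}, |Real.log (v.1 (fv (K := κ) (L := κ) t x b ^ d b₀ /
      fv (K := κ) (L := κ) t x b₀ ^ d b))| ≤
      d b₀ * nn (fun β => t ⟨b, β⟩) x v.1 + d b * nn (fun β => t ⟨b₀, β⟩) x v.1 +
        (d b₀ * ∑ β, |Real.log (v.1 (t ⟨b, β⟩))| + d b * ∑ β, |Real.log (v.1 (t ⟨b₀, β⟩))|) := by
    intro v
    rw [hw]
    have e1 := nn_eq (fun β => t ⟨b, β⟩) x v.1 hF
    have e2 := nn_eq (fun β => t ⟨b₀, β⟩) x v.1 hF₀
    have n1 := nn_nonneg (fun β => t ⟨b, β⟩) x v.1 hF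
    have n2 := nn_nonneg (fun β => t ⟨b₀, β⟩) x v.1 hF₀
    have t1 := abs_log_T (fun β => t ⟨b, β⟩) v.1
    have t2 := abs_log_T (fun β => t ⟨b₀, β⟩) v.1
    have d1 : (0 : ℝ) ≤ d b := Nat.cast_nonneg _
    have d2 : (0 : ℝ) ≤ d b₀ := Nat.cast_nonneg _
    have e3 : d b₀ * Real.log (v.1 (F (fun β => t ⟨b, β⟩) x)) -
        d b * Real.log (v.1 (F (fun β => t ⟨b₀, β⟩) x)) =
        (d b₀ * Real.log (⨆ β, v.1 (t ⟨b, β⟩)) - d b * Real.log (⨆ β, v.1 (t ⟨b₀, β⟩))) -
          (d b₀ * nn (fun β => t ⟨b, β⟩) x v.1 - d b * nn (fun β => t ⟨b₀, β⟩) x v.1) := by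
      rw [e1, e2]
      ring
    rw [e3]
    refine (abs_sub _ _).trans ?_
    have a1 := abs_sub ((d b₀ : ℝ) * Real.log (⨆ β, v.1 (t ⟨b, β⟩)))
      (d b * Real.log (⨆ β, v.1 (t ⟨b₀, β⟩)))
    have a2 := abs_sub ((d b₀ : ℝ) * nn (fun β => t ⟨b, β⟩) x v.1)
      (d b * nn (fun β => t ⟨b₀, β⟩) x v.1)
    rw [abs_mul, abs_mul, abs_of_nonneg d1, abs_of_nonneg d2] at a1
    rw [abs_mul, abs_mul, abs_of_nonneg d1, abs_of_nonneg d2, abs_of_nonneg n1,
      abs_of_nonneg n2] at a2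
    have m1 := mul_le_mul_of_nonneg_left t1 d2
    have m2 := mul_le_mul_of_nonneg_left t2 d1
    linarith
  have hheight : ∀ b' : Fin q, ∑ v ∈ Λ, ∑ β, |Real.log (v.1 (t ⟨b', β⟩))| ≤
      2 * ∑ s, logHeight₁ (t s) := by
    intro b'
    rw [Finset.sum_comm]
    have h1 : ∀ β : Mon M (d b'), ∑ v ∈ Λ, |Real.log (v.1 (t ⟨b', β⟩))| ≤
        2 * logHeight₁ (t ⟨b', β⟩) := by
      intro β
      have h2 := sum_le_height (t ⟨b', β⟩) (Λ.map (Function.Embedding.subtype _))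
      rw [Finset.sum_map] at h2
      exact h2
    refine (Finset.sum_le_sum fun β _ => h1 β).trans ?_
    rw [← Finset.mul_sum]
    refine mul_le_mul_of_nonneg_left ?_ zero_le_two
    rw [Fintype.sum_sigma]
    exact Finset.single_le_sum (f := fun b' => ∑ β, logHeight₁ (t ⟨b', β⟩))
      (fun i _ => Finset.sum_nonneg fun _ _ => zero_le_logHeight₁ _) (Finset.mem_univ b')
  refine (Finset.sum_le_sum fun v _ => hpt v).trans ?_
  rw [Finset.sum_add_distrib, Finset.sum_add_distrib, Finset.sum_add_distrib, ← Finset.mul_sum,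
    ← Finset.mul_sum, ← Finset.mul_sum, ← Finset.mul_sum]
  have d1 : (0 : ℝ) ≤ d b := Nat.cast_nonneg _
  have d2 : (0 : ℝ) ≤ d b₀ := Nat.cast_nonneg _
  have m1 := mul_le_mul_of_nonneg_left (hheight b) d2
  have m2 := mul_le_mul_of_nonneg_left (hheight b₀) d1
  linarith

end Pool.Agent.NH29.GN
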