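import Pool.Agent.NH29.GN.Stm6

/-!
# Project GN, part 4: approximation of a number by `S`-units
-/

set_option autoImplicit false

namespace Pool.Agent.NH29.GN

open Height NumberField

namespace SuaPf

open NumberField.Units NumberField.Units.dirichletUnitTheorem Module Submodule

variable (κ : Type) [Field κ] [NumberField κ]

/-- the lattice of the units is relatively dense -/
lemma lat : ∃ c : ℝ, 0 ≤ c ∧ ∀ y : logSpace κ, ∃ u : (𝓞 κ)ˣ, ∀ w : {w : InfinitePlace κ // w ≠ w₀},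
    |y w - w.1.mult * Real.log (w.1 (u : κ))| ≤ c := by
  classical
  let b := (basisUnitLattice κ).ofZLatticeBasis ℝ (unitLattice κ)
  refine ⟨∑ i, ‖b i‖, Finset.sum_nonneg fun _ _ => norm_nonneg _, fun y => ?_⟩
  have h3 : span ℤ (Set.range b) = unitLattice κ :=
    (basisUnitLattice κ).ofZLatticeBasis_span ℝ
  have h1 : ((ZSpan.floor b y : span ℤ (Set.range b)) : logSpace κ) ∈ unitLattice κ :=
    (le_of_eq h3) (ZSpan.floor b y).2
  obtain ⟨u, -, hu⟩ := h1
  refine ⟨u.toMul, fun w => ?_⟩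
  have h4 : ‖ZSpan.fract b y‖ ≤ ∑ i, ‖b i‖ := ZSpan.norm_fract_le b y
  have h5 := (norm_le_pi_norm (ZSpan.fract b y) w).trans h4
  rw [ZSpan.fract_apply, ← hu] at h5
  exact h5

variable {κ}

open IsDedekindDomain in
/-- an element which is not a unit at one given finite place only -/
lemma prime (v : FinitePlace κ) : ∃ π : κˣ, (∀ v' : FinitePlace κ, v' ≠ v → v' (π : κ) = 1) ∧
    v (π : κ) < 1 := by
  classical
  set p : Ideal (𝓞 κ) := v.maximalIdeal.asIdeal with hp
  have hp0 : p ≠ ⊥ := v.maximalIdeal.ne_bot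
  have hpn : p ∈ nonZeroDivisors (Ideal (𝓞 κ)) := mem_nonZeroDivisors_iff_ne_zero.2 hp0
  set h : ℕ := Fintype.card (ClassGroup (𝓞 κ)) with hh
  have hh0 : 0 < h := Fintype.card_pos
  have h1 : (ClassGroup.mk0 ⟨p, hpn⟩) ^ h = 1 := pow_card_eq_one
  have hpn' : p ^ h ∈ nonZeroDivisors (Ideal (𝓞 κ)) := pow_mem hpn h
  have h2 : ClassGroup.mk0 ⟨p ^ h, hpn'⟩ = 1 := by
    rw [← h1, ← map_pow]
    rfl
  have h3 := (ClassGroup.mk0_eq_one_iff hpn').1 h2
  obtain ⟨x, hx⟩ := h3.principal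
  have hx' : p ^ h = Ideal.span {x} := hx
  have hx0 : x ≠ 0 := by
    rintro rfl
    have : p ^ h = ⊥ := by rw [hx', Ideal.span_singleton_eq_bot]
    exact (mem_nonZeroDivisors_iff_ne_zero.1 hpn') this
  have hxk : (x : κ) ≠ 0 := by
    exact (FaithfulSMul.algebraMap_eq_zero_iff (𝓞 κ) κ).not.2 hx0
  refine ⟨Units.mk0 (x : κ) hxk, fun v' hv' => ?_, ?_⟩
  · rw [Units.val_mk0, ← FinitePlace.norm_embedding_eq]
    refine (FinitePlace.norm_eq_one_iff_notMem κ v'.maximalIdeal x).2 fun hmem => ?_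
    have h4 : p ^ h ≤ v'.maximalIdeal.asIdeal := by
      rw [hx', Ideal.span_singleton_le_iff_mem]
      exact hmem
    have h5 : p ≤ v'.maximalIdeal.asIdeal := v'.maximalIdeal.isPrime.le_of_pow_le h4
    have h6 : p = v'.maximalIdeal.asIdeal := v.maximalIdeal.isMaximal.eq_of_le
      v'.maximalIdeal.isPrime.ne_top h5
    refine hv' (FinitePlace.maximalIdeal_injective ?_)
    exact (HeightOneSpectrum.ext h6).symm
  · rw [Units.val_mk0, ← FinitePlace.norm_embedding_eq]
    refine (FinitePlace.norm_lt_one_iff_mem κ v.maximalIdeal x).2 ?_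
    have h4 : x ∈ p ^ h := by
      rw [hx']
      exact Ideal.mem_span_singleton_self x
    exact Ideal.pow_le_self hh0.ne' h4

/-- the value of a unit at a finite place -/
lemma unit_val (v : FinitePlace κ) (u : (𝓞 κ)ˣ) : v ((u : 𝓞 κ) : κ) = 1 := by
  rw [← FinitePlace.norm_embedding_eq]
  refine (FinitePlace.norm_eq_one_iff_notMem κ v.maximalIdeal u).2 fun hmem => ?_
  exact v.maximalIdeal.isPrime.ne_top (Ideal.eq_top_of_isUnit_mem _ hmem u.isUnit)

lemma log_sum (z : κ) (hz : z ≠ 0) (B : Finset (FinitePlace κ))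
    (hB : ∀ v : FinitePlace κ, v z ≠ 1 → v ∈ B) :
    ∑ v : InfinitePlace κ, v.mult * Real.log (v z) + ∑ v ∈ B, Real.log (v z) = 0 := by
  have h := NumberField.prod_abs_eq_one hz
  have h1 : ∏ᶠ w : FinitePlace κ, w z = ∏ w ∈ B, w z :=
    finprod_eq_prod_of_mulSupport_subset _ fun v hv => hB v hv
  rw [h1] at h
  have h2 := congrArg Real.log h
  have hi : ∀ v : InfinitePlace κ, v z ≠ 0 := fun v => (map_ne_zero v).2 hz
  have hf : ∀ v : FinitePlace κ, v z ≠ 0 := fun v => (FinitePlace.pos_iff.2 hz).ne'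
  rw [Real.log_one, Real.log_mul (Finset.prod_ne_zero_iff.2 fun v _ => pow_ne_zero _ (hi v))
    (Finset.prod_ne_zero_iff.2 fun v _ => hf v), Real.log_prod (fun v _ => pow_ne_zero _ (hi v)),
    Real.log_prod (fun v _ => hf v)] at h2
  rw [← h2]
  congr 1
  exact Finset.sum_congr rfl fun v _ => by rw [Real.log_pow]

/-- height of an element with small logarithms at the places different from one -/
lemma height_le (z : κ) (hz : z ≠ 0) (B : Finset (FinitePlace κ))
    (hB : ∀ v : FinitePlace κ, v z ≠ 1 → v ∈ B) (c : ℝ) (hc : 0 ≤ c)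
    (h : ∀ w : {w : InfinitePlace κ // w ≠ w₀}, |w.1.mult * Real.log (w.1 z)| ≤ c) :
    logHeight₁ z ≤ 2 * (Fintype.card (InfinitePlace κ) * c + ∑ v ∈ B, |Real.log (v z)|) := by
  classical
  set T : ℝ := ∑ v ∈ B, |Real.log (v z)| with hT
  have hT0 : 0 ≤ T := Finset.sum_nonneg fun _ _ => abs_nonneg _
  have hposlog : ∀ x : ℝ, Real.posLog x ≤ |Real.log x| := fun x => by
    rw [Real.posLog]
    exact max_le (abs_nonneg _) (le_abs_self _)
  have hfin : ∑ᶠ v : FinitePlace κ, Real.posLog (v z) ≤ T := by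
    have h1 : ∑ᶠ v : FinitePlace κ, Real.posLog (v z) = ∑ v ∈ B, Real.posLog (v z) := by
      refine finsum_eq_sum_of_support_subset _ fun v hv => hB v fun h1 => hv ?_
      show Real.posLog (v z) = 0
      rw [h1, Real.posLog_one]
    rw [h1]
    exact Finset.sum_le_sum fun v _ => hposlog _
  have hsum : ∑ w : {w : InfinitePlace κ // w ≠ w₀}, |w.1.mult * Real.log (w.1 z)| ≤
      Fintype.card (InfinitePlace κ) * c := by
    refine (Finset.sum_le_sum fun w _ => h w).trans ?_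
    rw [Finset.sum_const, nsmul_eq_mul, Finset.card_univ]
    refine mul_le_mul_of_nonneg_right ?_ hc
    exact_mod_cast Fintype.card_subtype_le _
  have hw0 : |(w₀ : InfinitePlace κ).mult * Real.log ((w₀ : InfinitePlace κ) z)| ≤
      Fintype.card (InfinitePlace κ) * c + T := by
    have h1 := log_sum z hz B hB
    rw [Fintype.sum_eq_add_sum_subtype_ne _ (w₀ : InfinitePlace κ)] at h1
    have h2 : (w₀ : InfinitePlace κ).mult * Real.log ((w₀ : InfinitePlace κ) z) =
        -(∑ w : {w : InfinitePlace κ // w ≠ w₀}, w.1.mult * Real.log (w.1 z)) -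
          ∑ v ∈ B, Real.log (v z) := by linarith
    have h3 : |∑ w : {w : InfinitePlace κ // w ≠ w₀}, w.1.mult * Real.log (w.1 z)| ≤
        Fintype.card (InfinitePlace κ) * c := (Finset.abs_sum_le_sum_abs _ _).trans hsum
    have h4 : |∑ v ∈ B, Real.log (v z)| ≤ T := Finset.abs_sum_le_sum_abs _ _
    rw [h2, abs_le]
    constructor <;> linarith [abs_le.1 h3, abs_le.1 h4, (abs_le.1 h3).1, (abs_le.1 h3).2,
      (abs_le.1 h4).1, (abs_le.1 h4).2]
  have hinf : ∑ v : InfinitePlace κ, v.mult * Real.posLog (v z) ≤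
      2 * (Fintype.card (InfinitePlace κ) * c) + T := by
    rw [Fintype.sum_eq_add_sum_subtype_ne _ (w₀ : InfinitePlace κ)]
    have h1 : ∀ v : InfinitePlace κ, v.mult * Real.posLog (v z) ≤ |v.mult * Real.log (v z)| := by
      intro v
      rw [abs_mul, Nat.abs_cast]
      exact mul_le_mul_of_nonneg_left (hposlog _) (Nat.cast_nonneg _)
    have h2 := (h1 w₀).trans hw0
    have h3 := (Finset.sum_le_sum fun (w : {w : InfinitePlace κ // w ≠ w₀}) _ => h1 w.1).trans hsum
    linarith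
  rw [NumberField.logHeight₁_eq]
  linarith

/-- the sum over the places outside of `S` -/
lemma out_sum (S B : Finset (FinitePlace κ)) (w : κ)
    (hB : ∀ v : FinitePlace κ, v w ≠ 1 → v ∈ B) [DecidablePred (· ∉ S)] :
    ∑ᶠ v : {v : FinitePlace κ // v ∉ S}, |Real.log (v.1 w)| =
      ∑ v ∈ B with v ∉ S, |Real.log (v w)| := by
  classical
  have h1 : ∑ᶠ v : {v : FinitePlace κ // v ∉ S}, |Real.log (v.1 w)| =
      ∑ᶠ v ∈ {v : FinitePlace κ | v ∉ S}, |Real.log (v w)| :=
    finsum_set_coe_eq_finsum_mem (f := fun v : FinitePlace κ => |Real.log (v w)|)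
      {v : FinitePlace κ | v ∉ S}
  rw [h1, finsum_mem_def, finsum_eq_sum_of_support_subset (s := B.filter (· ∉ S))]
  · refine Finset.sum_congr rfl fun v hv => ?_
    exact Set.indicator_of_mem (show v ∈ {v : FinitePlace κ | v ∉ S} from (Finset.mem_filter.1 hv).2) _
  · intro v hv
    have h2 : v ∉ S := by
      by_contra h3
      refine hv (Set.indicator_of_notMem ?_ _)
      exact fun h => h h3
    refine Finset.mem_coe.2 (Finset.mem_filter.2 ⟨hB v fun h3 => hv ?_, h2⟩)
    rw [Set.indicator_of_mem (show v ∈ {v : FinitePlace κ | v ∉ S} from h2), h3, Real.log_one,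
      abs_zero]

end SuaPf

open SuaPf in
theorem sua : SuaStm := by
  intro κ _ _ S
  classical
  obtain ⟨c, hc, hlat⟩ := lat κ
  choose π hπ1 hπ2 using fun v : FinitePlace κ => prime v
  set Γ : Subgroup κˣ := (Units.map (algebraMap (𝓞 κ) κ : 𝓞 κ →* κ)).range ⊔
    Subgroup.closure ((S.image π : Finset κˣ) : Set κˣ) with hΓ
  set L : ℝ := ∑ v ∈ S, |Real.log (v (π v : κ))| with hL
  have hL0 : 0 ≤ L := Finset.sum_nonneg fun _ _ => abs_nonneg _
  refine ⟨Γ, 2 * (Fintype.card (InfinitePlace κ) * c + L + 1), ?_, by positivity, fun w => ?_⟩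
  · refine Subgroup.FG.sup ?_ ⟨S.image π, rfl⟩
    have : Group.FG (𝓞 κ)ˣ := Group.fg_iff_monoid_fg.2 inferInstance
    exact (Group.fg_iff_subgroup_fg _).1 inferInstance
  set a : FinitePlace κ → ℤ := fun v => ⌊Real.log (v (w : κ)) / Real.log (v (π v : κ))⌋ with ha
  set g : κˣ := ∏ v ∈ S, π v ^ a v with hg
  have hgΓ : g ∈ Γ := by
    refine Subgroup.prod_mem _ fun v hv => Subgroup.zpow_mem _ ?_ _
    exact Subgroup.mem_sup_right (Subgroup.subset_closure
      (Finset.mem_coe.2 (Finset.mem_image_of_mem π hv)))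
  have hval : ∀ v : FinitePlace κ, v (g : κ) = ∏ v' ∈ S, v (π v' : κ) ^ a v' := by
    intro v
    rw [hg, Units.coe_prod, map_prod]
    exact Finset.prod_congr rfl fun v' _ => by rw [Units.val_zpow_eq_zpow_val, map_zpow₀]
  have hval1 : ∀ v ∉ S, v (g : κ) = 1 := by
    intro v hv
    rw [hval]
    refine Finset.prod_eq_one fun v' hv' => ?_
    rw [hπ1 v' v (fun h => hv (h ▸ hv')), one_zpow]
  have hval2 : ∀ v ∈ S, v (g : κ) = v (π v : κ) ^ a v := by
    intro v hv
    rw [hval]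
    refine Finset.prod_eq_single_of_mem v hv fun v' _ hne => ?_
    rw [hπ1 v' v (Ne.symm hne), one_zpow]
  have hπ0 : ∀ v : FinitePlace κ, 0 < v (π v : κ) := fun v =>
    FinitePlace.pos_iff.2 (Units.ne_zero _)
  set w' : κ := (w : κ) / (g : κ) with hw'
  have hw'0 : w' ≠ 0 := div_ne_zero (Units.ne_zero _) (Units.ne_zero _)
  obtain ⟨u, hu⟩ := hlat fun v => v.1.mult * Real.log (v.1 w')
  set uk : κˣ := Units.map (algebraMap (𝓞 κ) κ : 𝓞 κ →* κ) u with huk
  refine ⟨g * uk, Subgroup.mul_mem _ hgΓ (Subgroup.mem_sup_left ⟨u, rfl⟩), ?_⟩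
  set z : κ := (w : κ) / ((g * uk : κˣ) : κ) with hz
  have huk' : (uk : κ) = ((u : 𝓞 κ) : κ) := rfl
  have hzw : z = w' / ((u : 𝓞 κ) : κ) := by
    rw [hz, hw', Units.val_mul, huk', div_div]
  have hz0 : z ≠ 0 := div_ne_zero (Units.ne_zero _) (Units.ne_zero _)
  have hzf : ∀ v : FinitePlace κ, v z = v (w : κ) / v (g : κ) := by
    intro v
    rw [hzw, map_div₀, unit_val, div_one, hw', map_div₀]
  have hfs : {v : FinitePlace κ | v (w : κ) ≠ 1}.Finite :=
    FinitePlace.hasFiniteMulSupport (Units.ne_zero w)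
  set B : Finset (FinitePlace κ) := hfs.toFinset ∪ S with hB
  have hBw : ∀ v : FinitePlace κ, v (w : κ) ≠ 1 → v ∈ B := fun v hv =>
    Finset.mem_union_left _ (hfs.mem_toFinset.2 hv)
  have hBz : ∀ v : FinitePlace κ, v z ≠ 1 → v ∈ B := by
    intro v hv
    by_contra hvB
    have h1 : v ∉ S := fun h => hvB (Finset.mem_union_right _ h)
    have h2 : v (w : κ) = 1 := by
      by_contra h3
      exact hvB (hBw v h3)
    exact hv (by rw [hzf, hval1 v h1, h2, div_one])
  have hh := height_le z hz0 B hBz c hc fun v => by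
    have h1 := hu v
    have h2 : v.1 ((u : 𝓞 κ) : κ) ≠ 0 := (map_ne_zero v.1).2 (Units.ne_zero uk)
    rw [hzw, map_div₀, Real.log_div ((map_ne_zero v.1).2 hw'0) h2, mul_sub]
    exact h1
  have hsplit : ∑ v ∈ B, |Real.log (v z)| =
      ∑ v ∈ S, |Real.log (v z)| + ∑ v ∈ B with v ∉ S, |Real.log (v z)| := by
    rw [← Finset.sum_filter_add_sum_filter_not B (· ∈ S)]
    congr 1
    refine Finset.sum_congr ?_ fun _ _ => rfl
    ext v
    simp only [Finset.mem_filter]
    exact ⟨fun h => h.2, fun h => ⟨Finset.mem_union_right _ h, h⟩⟩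
  have hS : ∑ v ∈ S, |Real.log (v z)| ≤ L := by
    refine Finset.sum_le_sum fun v hv => ?_
    have h1 : 0 < v (w : κ) := FinitePlace.pos_iff.2 (Units.ne_zero _)
    have h2 : Real.log (v (π v : κ)) < 0 := Real.log_neg (hπ0 v) (hπ2 v)
    rw [hzf, hval2 v hv, Real.log_div h1.ne' (zpow_ne_zero _ (hπ0 v).ne'), Real.log_zpow]
    have h3 : Real.log (v (w : κ)) = Real.log (v (π v : κ)) *
        (Real.log (v (w : κ)) / Real.log (v (π v : κ))) := by
      have h5 := h2.ne
      field_simp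
    have h4 : Real.log (v (w : κ)) - (a v : ℝ) * Real.log (v (π v : κ)) =
        Real.log (v (π v : κ)) * Int.fract (Real.log (v (w : κ)) / Real.log (v (π v : κ))) := by
      rw [Int.fract, mul_sub, ← h3]
      ring
    rw [h4, abs_mul, abs_of_nonneg
      (Int.fract_nonneg (Real.log (v (w : κ)) / Real.log (v (π v : κ))))]
    exact mul_le_of_le_one_right (abs_nonneg _) (Int.fract_lt_one _).le
  have hO : ∑ v ∈ B with v ∉ S, |Real.log (v z)| =
      ∑ᶠ v : {v : FinitePlace κ // v ∉ S}, |Real.log (v.1 (w : κ))| := by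
    rw [out_sum S B (w : κ) hBw]
    refine Finset.sum_congr rfl fun v hv => ?_
    rw [hzf, hval1 v (Finset.mem_filter.1 hv).2, div_one]
  have hO0 : 0 ≤ ∑ᶠ v : {v : FinitePlace κ // v ∉ S}, |Real.log (v.1 (w : κ))| :=
    finsum_nonneg fun _ => abs_nonneg _
  rw [hsplit, hO] at hh
  refine hh.trans ?_
  have hcc : 0 ≤ (Fintype.card (InfinitePlace κ) : ℝ) * c := by positivity
  nlinarith [mul_nonneg hcc hO0, mul_nonneg hL0 hO0]

end Pool.Agent.NH29.GN
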