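import Pool.Agent.NH29.GN.Stm3

/-!
# Project GN, part 3: the height of a number field is a height function
-/

set_option autoImplicit false

namespace Pool.Agent.NH29.GN

namespace HnPf

open Height AdmissibleAbsValues Real Function Finset

/-- the local inequality, from a bound for the sum -/
lemma local_bound {n : ℕ} (t : ℝ) (b : Fin n → ℝ) (C : ℝ)
    (hC : 1 ≤ C) (hn : n ≠ 0)
    (h : 1 ≤ t → t ^ n ≤ C * ((∏ j, max (b j) 1) * t ^ (n - 1))) :
    max t 1 ≤ C * ∏ j, max (b j) 1 := by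
  have hP : 1 ≤ ∏ j, max (b j) 1 := univ.one_le_prod fun _ _ ↦ le_max_right ..
  have hCP : 1 ≤ C * ∏ j, max (b j) 1 := one_le_mul_of_one_le_of_one_le hC hP
  refine max_le ?_ hCP
  rcases le_total t 1 with h1 | h1
  · exact h1.trans hCP
  · have h2 := h h1
    have h3 : 0 < t ^ (n - 1) := pow_pos (by linarith) _
    have h4 : t ^ n = t * t ^ (n - 1) := by
      rw [← pow_succ', Nat.sub_one_add_one hn]
    rw [h4, ← mul_assoc] at h2
    exact le_of_mul_le_mul_right h2 h3

lemma le_prod_max {n : ℕ} (b : Fin n → ℝ) (j : Fin n) : b j ≤ ∏ j, max (b j) 1 :=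
  le_prod_max_one (Finset.mem_univ j) b

lemma local_arch {κ : Type} [Field κ] (v : AbsoluteValue κ ℝ) {n : ℕ} (hn : n ≠ 0) (g : κ)
    (a : Fin n → κ) (h : g ^ n = ∑ j, a j * g ^ (j : ℕ)) :
    max (v g) 1 ≤ n * ∏ j, max (v (a j)) 1 := by
  refine local_bound (v g) (fun j ↦ v (a j)) n
    (by exact_mod_cast Nat.one_le_iff_ne_zero.2 hn) hn fun h1 ↦ ?_
  rw [← map_pow, h]
  refine (v.sum_le univ _).trans ?_
  have h2 : ∀ j ∈ (univ : Finset (Fin n)),
      v (a j * g ^ (j : ℕ)) ≤ (∏ j, max (v (a j)) 1) * v g ^ (n - 1) := by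
    intro j _
    rw [map_mul, map_pow]
    refine mul_le_mul (le_prod_max (fun j ↦ v (a j)) j)
      (pow_le_pow_right₀ h1 (Nat.le_sub_one_of_lt j.2)) (by positivity)
      (le_trans (v.nonneg _) (le_prod_max (fun j ↦ v (a j)) j))
  refine (sum_le_sum h2).trans ?_
  rw [sum_const, card_univ, Fintype.card_fin, nsmul_eq_mul]

lemma local_nonarch {κ : Type} [Field κ] (v : AbsoluteValue κ ℝ) (hv : IsNonarchimedean v)
    {n : ℕ} (hn : n ≠ 0) (g : κ)
    (a : Fin n → κ) (h : g ^ n = ∑ j, a j * g ^ (j : ℕ)) :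
    max (v g) 1 ≤ ∏ j, max (v (a j)) 1 := by
  rw [← one_mul (∏ j, max (v (a j)) 1)]
  refine local_bound (v g) (fun j ↦ v (a j)) 1
    le_rfl hn fun h1 ↦ ?_
  rw [← map_pow, h, one_mul]
  have : NeZero n := ⟨hn⟩
  refine (hv.apply_sum_le_sup univ_nonempty).trans ?_
  refine sup'_le univ_nonempty _ fun j _ ↦ ?_
  rw [map_mul, map_pow]
  exact mul_le_mul (le_prod_max (fun j ↦ v (a j)) j)
    (pow_le_pow_right₀ h1 (Nat.le_sub_one_of_lt j.2)) (by positivity)
    (le_trans (v.nonneg _) (le_prod_max (fun j ↦ v (a j)) j))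

lemma fin_max {κ : Type} [Field κ] [AdmissibleAbsValues κ] (x : κ) :
    (fun v : nonarchAbsVal ↦ v.val x ⊔ 1).HasFiniteMulSupport := by
  rcases eq_or_ne x 0 with rfl | hx
  · simp [HasFiniteMulSupport]
  fun_prop

open Multiset in
lemma mul_root {κ : Type} [Field κ] [AdmissibleAbsValues κ] {n : ℕ} (hn : n ≠ 0) (g : κ)
    (a : Fin n → κ) (h : g ^ n = ∑ j, a j * g ^ (j : ℕ)) :
    mulHeight₁ g ≤ n ^ (totalWeight κ) * ∏ j, mulHeight₁ (a j) := by
  simp only [mulHeight₁_eq, totalWeight]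
  rw [Finset.prod_mul_distrib, ← prod_replicate, ← map_const,
    ← finprod_prod_comm _ _ (fun j _ ↦ fin_max (a j)),
    ← prod_map_prod, ← mul_assoc, ← prod_map_mul]
  simp only [Function.const_apply]
  gcongr
  · exact finprod_nonneg fun _ ↦ by positivity
  · exact prod_map_nonneg fun _ h ↦ by positivity
  · exact prod_map_le_prod_map₀ _ _ (fun _ _ ↦ by positivity) fun v _ ↦ local_arch v hn g a h
  · exact finprod_le_finprod (fin_max g) (fun _ ↦ by grind)
      (HasFiniteMulSupport.prod (fun j ↦ fin_max (a j)) _) <|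
      fun v ↦ local_nonarch v.1 (isNonarchimedean _ v.prop) hn g a h

end HnPf

open Height in
/-- HN -/
theorem hn : HnStm := by
  intro κ _ _
  refine ⟨fun n ↦ if n = 0 then totalWeight κ * Real.log 2 else totalWeight κ * Real.log n,
    ?_, ?_, ?_, ?_, ?_, ?_, ?_⟩
  · intro n
    dsimp only
    split_ifs with h
    · exact mul_nonneg (Nat.cast_nonneg _) (Real.log_nonneg (by norm_num))
    · exact mul_nonneg (Nat.cast_nonneg _) (Real.log_natCast_nonneg _)
  · intro a
    rw [logHeight₁_neg]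
    dsimp only
    rw [if_pos rfl]
    have := mul_nonneg (Nat.cast_nonneg (totalWeight κ)) (Real.log_nonneg (show (1 : ℝ) ≤ 2 by norm_num))
    linarith
  · intro a
    rw [logHeight₁_inv]
    dsimp only
    rw [if_pos rfl]
    have := mul_nonneg (Nat.cast_nonneg (totalWeight κ)) (Real.log_nonneg (show (1 : ℝ) ≤ 2 by norm_num))
    linarith
  · intro a b
    dsimp only
    rw [if_pos rfl]
    have := logHeight₁_add_le a b
    linarith
  · intro a b
    dsimp only
    rw [if_pos rfl]
    have h1 := logHeight₁_mul_le a b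
    have := mul_nonneg (Nat.cast_nonneg (totalWeight κ)) (Real.log_nonneg (show (1 : ℝ) ≤ 2 by norm_num))
    linarith
  · intro n g a h
    rcases Nat.eq_zero_or_pos n with rfl | hn
    · simp at h
    · have hn' : n ≠ 0 := hn.ne'
      dsimp only
      rw [if_neg hn']
      have h1 := HnPf.mul_root hn' g a h
      have h2 := Real.log_le_log (mulHeight₁_pos g) h1
      have h3 : (∏ j, mulHeight₁ (a j)) ≠ 0 :=
        Finset.prod_ne_zero_iff.2 fun j _ ↦ mulHeight₁_ne_zero _
      have h4 : ((n : ℝ) ^ totalWeight κ) ≠ 0 := pow_ne_zero _ (Nat.cast_ne_zero.2 hn')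
      rw [Real.log_mul h4 h3, Real.log_pow, Real.log_prod fun j _ ↦ mulHeight₁_ne_zero _] at h2
      simp only [logHeight₁_eq_log_mulHeight₁]
      linarith
  · intro M x a₀ hx
    classical
    have h1 : logHeight x = logHeight ((x a₀)⁻¹ • x) :=
      (logHeight_smul_eq_logHeight x (inv_ne_zero hx)).symm
    rw [h1]
    set z : Fin (M + 1) → Fin 2 → κ := fun a ↦ ![x a / x a₀, 1] with hz
    have hz0 : ∀ a, z a ≠ 0 := by
      intro a h
      have := congrFun h 1
      simp [hz] at this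
    have h2 := logHeight_fun_prod_eq hz0
    have h3 : (x a₀)⁻¹ • x = (fun I : (a : Fin (M + 1)) → Fin 2 ↦ ∏ a, z a (I a)) ∘
        (fun a b ↦ if b = a then (0 : Fin 2) else 1) := by
      funext a
      rw [Function.comp_apply, Finset.prod_eq_single a]
      · simp [hz, div_eq_inv_mul]
      · intro b _ hb
        simp [hz, hb]
      · intro h
        exact absurd (Finset.mem_univ a) h
    rw [h3]
    refine (logHeight_comp_le _ _).trans ?_
    rw [h2]
    refine Finset.sum_le_sum fun a _ ↦ ?_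
    rw [logHeight₁_eq_logHeight]

end Pool.Agent.NH29.GN
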