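import Pool.Agent.NH29.GN.Stm7
import Mathlib.Combinatorics.Nullstellensatz

/-!
# Scaling forms by small numbers
-/

set_option autoImplicit false
set_option linter.unusedSectionVars false

namespace Pool.Agent.NH29.GN

open MvPolynomial

/-- the polynomial after scaling with the variables `lambda_b` -/
noncomputable def psiP {k : Type} [Field k] {q : ℕ} {σ : Type} (ρ : σ → Fin q)
    (Φ : MvPolynomial σ k) : MvPolynomial (Fin q) (MvPolynomial σ k) :=
  aeval (fun s : σ => (X (ρ s) * C (X s) : MvPolynomial (Fin q) (MvPolynomial σ k))) Φ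

theorem eval_psiP {k : Type} [Field k] {q : ℕ} {σ : Type} (ρ : σ → Fin q)
    (Φ : MvPolynomial σ k) {κ : Type} [CommRing κ] [Algebra k κ] (t : σ → κ) (a : Fin q → κ) :
    eval₂ (aeval t : MvPolynomial σ k →ₐ[k] κ).toRingHom a (psiP ρ Φ) =
      aeval (fun s => a (ρ s) * t s) Φ := by
  unfold psiP
  induction Φ using MvPolynomial.induction_on with
  | C c =>
    rw [algHom_C, algHom_C, IsScalarTower.algebraMap_apply k (MvPolynomial σ k)
      (MvPolynomial (Fin q) (MvPolynomial σ k)), MvPolynomial.algebraMap_eq (R := MvPolynomial σ k),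
      eval₂_C]
    show aeval t (algebraMap k (MvPolynomial σ k) c) = _
    rw [AlgHom.commutes]
  | add p r hp hr => rw [map_add, eval₂_add, hp, hr, map_add]
  | mul_X p s hp =>
    rw [map_mul, eval₂_mul, hp, map_mul, aeval_X, aeval_X, eval₂_mul, eval₂_X, eval₂_C]
    congr 2
    show aeval t (X s : MvPolynomial σ k) = _
    rw [aeval_X]

theorem prj : PrjStm := by
  intro k _ _ M q d Φ hΦ
  classical
  obtain ⟨Ψ, hΨ⟩ : ∃ Ψ : MvPolynomial (Fin q) (MvPolynomial (Idx M d) k),
      Ψ = psiP (fun s : Idx M d => s.1) Φ := ⟨_, rfl⟩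
  have hΨ0 : Ψ ≠ 0 := by
    intro h0
    have h1 := eval_psiP (fun s : Idx M d => s.1) Φ
      (fun s => (X s : MvPolynomial (Idx M d) k)) (fun _ => 1)
    rw [← hΨ, h0] at h1
    simp only [one_mul, eval₂_zero] at h1
    apply hΦ
    rw [h1]
    exact (aeval_X_left_apply Φ).symm
  obtain ⟨e, he⟩ : ∃ e, coeff e Ψ ≠ 0 := by
    by_contra hcon
    push Not at hcon
    exact hΨ0 (MvPolynomial.ext _ _ fun e => by rw [hcon e, coeff_zero])
  have hprod : (∏ s : Idx M d, (X s : MvPolynomial (Idx M d) k)) ≠ 0 :=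
    Finset.prod_ne_zero_iff.2 fun s _ => X_ne_zero s
  refine ⟨coeff e Ψ * ∏ s : Idx M d, X s, Ψ.totalDegree + 1, mul_ne_zero he hprod, ?_⟩
  intro κ _ _ t ht
  rw [map_mul, map_prod] at ht
  have ht1 : aeval t (coeff e Ψ) ≠ 0 := left_ne_zero_of_mul ht
  have ht2 : ∀ s, t s ≠ 0 := by
    intro s
    have h1 := Finset.prod_ne_zero_iff.1 (right_ne_zero_of_mul ht) s (Finset.mem_univ s)
    rwa [aeval_X] at h1
  refine ⟨ht2, fun μ hμ => ?_⟩
  have hchar : CharZero κ := charZero_of_injective_algebraMap (algebraMap k κ).injective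
  obtain ⟨S, hS⟩ : ∃ S : Fin q → Finset κ, S = fun b =>
      (Finset.Icc 1 (Ψ.totalDegree + 1)).image (fun l : ℕ => (l : κ) * μ b) := ⟨_, rfl⟩
  have hcard : ∀ b, (S b).card = Ψ.totalDegree + 1 := by
    intro b
    rw [hS]
    simp only
    rw [Finset.card_image_of_injective, Nat.card_Icc]
    · omega
    · intro l l' h
      have h1 := mul_right_cancel₀ (hμ b) h
      exact_mod_cast h1
  obtain ⟨P, hP⟩ : ∃ P : MvPolynomial (Fin q) κ,
      P = map (aeval t : MvPolynomial (Idx M d) k →ₐ[k] κ).toRingHom Ψ := ⟨_, rfl⟩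
  have hP0 : P ≠ 0 := by
    intro h0
    apply ht1
    have h1 : coeff e P = aeval t (coeff e Ψ) := by
      rw [hP, coeff_map]
      rfl
    rw [← h1, h0, coeff_zero]
  have hdeg : P.totalDegree ≤ Ψ.totalDegree := by
    rw [hP]
    refine Finset.sup_mono fun m hm => ?_
    rw [mem_support_iff, coeff_map] at hm
    rw [mem_support_iff]
    intro h0
    exact hm (by rw [h0, map_zero])
  by_contra hcon
  push Not at hcon
  apply hP0
  refine eq_zero_of_eval_zero_at_prod_finset P S (fun b => ?_) (fun x hx => ?_)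
  · rw [hcard]
    have := degreeOf_le_totalDegree P b
    omega
  · have hx' : ∀ b, ∃ l : ℕ, (1 ≤ l ∧ l ≤ Ψ.totalDegree + 1) ∧ (l : κ) * μ b = x b := by
      intro b
      have h1 := hx b
      rw [hS] at h1
      obtain ⟨l, hl, hlx⟩ := Finset.mem_image.1 h1
      exact ⟨l, Finset.mem_Icc.1 hl, hlx⟩
    choose l hl hlx using hx'
    have h1 := hcon l hl
    rw [hP, eval_map, hΨ, eval_psiP, ← h1]
    congr 1
    congr 1
    funext s
    rw [← hlx]

end Pool.Agent.NH29.GN
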