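import Pool.Agent.NH29.GN.Stm7

/-!
# Project GN, part 4: SCL, heights and counting functions of scaled families
-/

set_option autoImplicit false

namespace Pool.Agent.NH29.GN

open Height NumberField

namespace SclPf

variable {κ : Type} [Field κ] [NumberField κ]

theorem ht (ι : Type) [Fintype ι] (x : ι → κ) (a a₀ : ι) (l : ℕ) :
    logHeight₁ ((l : κ) * (x a₀)⁻¹ * x a) ≤ logHeight x + logHeight₁ (l : κ) := by
  have e : (l : κ) * (x a₀)⁻¹ * x a = (l : κ) * (x a / x a₀) := by
    rw [div_eq_mul_inv]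
    ring
  have h1 : logHeight ![x a, x a₀] ≤ logHeight x := by
    have h2 := logHeight_comp_le ![a, a₀] x
    have h3 : x ∘ ![a, a₀] = ![x a, x a₀] := by
      funext i
      fin_cases i <;> rfl
    rwa [h3] at h2
  rw [e]
  refine (logHeight₁_mul_le _ _).trans ?_
  rw [logHeight₁_div_eq_logHeight]
  linarith

theorem cn (S : Finset (FinitePlace κ)) (M e : ℕ) (t : Mon M e → κ) (x : Fin (M + 1) → κ) (μ : κ)
    (hμ : μ ≠ 0) : cnt S (fun β => μ * t β) x = cnt S t x := by
  unfold cnt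
  refine finsum_congr fun v => ?_
  have h0 : v.1 μ ≠ 0 := by
    rw [Ne, map_eq_zero]
    exact hμ
  have h1 : (⨆ β, v.1 (μ * t β)) = v.1 μ * ⨆ β, v.1 (t β) := by
    rw [Real.mul_iSup_of_nonneg (apply_nonneg v.1 μ)]
    simp only [map_mul]
  have h2 : v.1 (∑ β, μ * t β * val x β.1) = v.1 μ * v.1 (∑ β, t β * val x β.1) := by
    rw [← map_mul, Finset.mul_sum]
    simp only [mul_assoc]
  rw [h1, h2, mul_assoc, mul_div_mul_left _ _ h0]

end SclPf

theorem scl : SclStm := by
  intro κ _ _ D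
  refine ⟨∑ l ∈ Finset.range (D + 1), logHeight₁ (l : κ),
    Finset.sum_nonneg fun l _ => zero_le_logHeight₁ _, ?_, SclPf.cn⟩
  intro ι _ x a a₀ l _ hl _
  refine (SclPf.ht ι x a a₀ l).trans ?_
  have h1 : logHeight₁ (l : κ) ≤ ∑ l ∈ Finset.range (D + 1), logHeight₁ (l : κ) :=
    Finset.single_le_sum (f := fun l : ℕ => logHeight₁ (l : κ))
      (fun l _ => zero_le_logHeight₁ _) (Finset.mem_range.2 (by omega))
  linarith

end Pool.Agent.NH29.GN
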