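import Pool.Agent.NH29.GN.Hi2
import Pool.Agent.NH29.GN.Sua
import Pool.Agent.NH29.GN.Cnt
import Pool.Agent.NH29.GN.Prj
import Pool.Agent.NH29.GN.Scl

/-!
# Heights and counting functions on Zariski-general complements, projectively invariant form
-/

set_option autoImplicit false

namespace Pool.Agent.NH29.GN

open MvPolynomial Filter Height NumberField

namespace Hi

/-- a monomial -/
noncomputable def mon0 (M e : ℕ) : Mon M e := ⟨Finsupp.single 0 e, by simp [Finsupp.degree_single]⟩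

theorem fv_scale {κ : Type} [Field κ] {M q : ℕ} {d : Fin q → ℕ} (t : Idx M d → κ)
    (c : Fin q → κ) (x : Fin (M + 1) → κ) (b : Fin q) :
    fv (K := κ) (L := κ) (fun s : Idx M d => c s.1 * t s) x b = c b * fv t x b := by
  unfold fv
  rw [Finset.mul_sum]
  refine Finset.sum_congr rfl fun β _ => ?_
  rw [map_mul, Algebra.algebraMap_self, RingHom.id_apply, mul_assoc]

/-- the height inequality -/
theorem hi3 {k : Type} [Field k] [CharZero k] {M n q : ℕ}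
    {V : Set (MvPolynomial (Fin (M + 1)) k)} (hV : ∀ H ∈ V, ∃ e, H.IsHomogeneous e)
    {ℓ : Fin (n + 1) → MvPolynomial (Fin (M + 1)) k} (hℓ : ∀ j, (ℓ j).IsHomogeneous 1)
    (hN : NoZero V ℓ) (hq : n + 1 ≤ q) {d : Fin q → ℕ} (hd : ∀ i, 1 ≤ d i)
    (hNum : ∀ C : Finset (Fin q), C ≠ Finset.univ → Num2 n d C) :
    ∃ Φ : MvPolynomial (Idx M d) k, Φ ≠ 0 ∧
      ∀ (κ : Type) [Field κ] [NumberField κ] [Algebra k κ] (S : Finset (FinitePlace κ)),
      ∃ A : ℝ, ∀ t : Idx M d → κ, aeval t Φ ≠ 0 → ∀ C : Finset (Fin q), C ≠ Finset.univ →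
        ∀ x : Fin (M + 1) → κ, Pt2 V C t x → logHeight x ≤
          A * (1 + ∑ b, logHeight (fun β : Mon M (d b) => t ⟨b, β⟩) +
            ∑ b ∈ Cᶜ, cnt S (fun β => t ⟨b, β⟩) x) := by
  classical
  obtain ⟨Φ₀, h0, h1⟩ := hi2 sua cntP hV hℓ hN hq hd hNum
  obtain ⟨Φ, D, h2, h3⟩ := prj k M q d Φ₀ h0
  refine ⟨Φ, h2, fun κ _ _ _ S => ?_⟩
  obtain ⟨A, hA⟩ := h1 κ S
  obtain ⟨c, hc0, hc1, hc2⟩ := scl κ D
  set N : ℝ := ((Fintype.card (Idx M d) : ℕ) : ℝ) with hNdef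
  have hN0 : 0 ≤ N := Nat.cast_nonneg _
  refine ⟨|A| * (1 + N * (1 + c)), fun t ht C hC x hx => ?_⟩
  obtain ⟨ht0, ht1⟩ := h3 κ t ht
  obtain ⟨l, hl, hl0⟩ := ht1 (fun b => (t ⟨b, mon0 M (d b)⟩)⁻¹) fun b => inv_ne_zero (ht0 _)
  obtain ⟨e, he⟩ : ∃ e : Fin q → κ, e = fun b => (l b : κ) * (t ⟨b, mon0 M (d b)⟩)⁻¹ := ⟨_, rfl⟩
  have hlne : ∀ b, (l b : κ) ≠ 0 := fun b => by
    have := (hl b).1
    exact_mod_cast (by omega : l b ≠ 0)
  have he0 : ∀ b, e b ≠ 0 := fun b => by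
    rw [he]
    exact mul_ne_zero (hlne b) (inv_ne_zero (ht0 _))
  obtain ⟨t', ht'⟩ : ∃ t' : Idx M d → κ, t' = fun s => e s.1 * t s := ⟨_, rfl⟩
  have hΦ0 : aeval t' Φ₀ ≠ 0 := by
    rw [ht', he]
    exact hl0
  have hfv : ∀ b, fv (K := κ) (L := κ) t' x b = e b * fv t x b := fun b => by
    rw [ht']
    exact fv_scale t e x b
  have hx' : Pt2 V C t' x := by
    refine ⟨hx.ne, hx.onV, fun b hb => ?_, fun b hb => ?_⟩
    · rw [hfv, hx.onC b hb, mul_zero]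
    · rw [hfv]
      exact mul_ne_zero (he0 b) (hx.off b hb)
  have hcnt : ∀ b, cnt S (fun β => t' ⟨b, β⟩) x = cnt S (fun β => t ⟨b, β⟩) x := by
    intro b
    rw [ht']
    exact hc2 S M (d b) (fun β => t ⟨b, β⟩) x (e b) (he0 b)
  have hY : ∀ b, 0 ≤ logHeight (fun β : Mon M (d b) => t ⟨b, β⟩) := fun b => logHeight_nonneg _
  have hYs : 0 ≤ ∑ b, logHeight (fun β : Mon M (d b) => t ⟨b, β⟩) :=
    Finset.sum_nonneg fun b _ => hY b
  have hh : ∀ s, logHeight₁ (t' s) ≤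
      ∑ b, logHeight (fun β : Mon M (d b) => t ⟨b, β⟩) + c := by
    rintro ⟨b, β⟩
    have h4 := hc1 (Mon M (d b)) (fun β => t ⟨b, β⟩) β (mon0 M (d b)) (l b) (hl b).1 (hl b).2
      (ht0 _)
    have h5 := Finset.single_le_sum
      (f := fun b => logHeight (fun β : Mon M (d b) => t ⟨b, β⟩)) (fun b _ => hY b)
      (Finset.mem_univ b)
    rw [ht', he]
    have h6 : logHeight (fun β : Mon M (d b) => t ⟨b, β⟩) ≤
      ∑ b, logHeight (fun β : Mon M (d b) => t ⟨b, β⟩) := h5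
    exact h4.trans (by linarith)
  have hcn : 0 ≤ ∑ b ∈ Cᶜ, cnt S (fun β => t ⟨b, β⟩) x :=
    Finset.sum_nonneg fun b hb =>
      (cntP κ S M q d t x b b (hx.off b (by simpa using hb)) (hx.off b (by simpa using hb))).1
  have hr : rhs S C t' x ≤ (1 + N * (1 + c)) *
      (1 + ∑ b, logHeight (fun β : Mon M (d b) => t ⟨b, β⟩) +
            ∑ b ∈ Cᶜ, cnt S (fun β => t ⟨b, β⟩) x) := by
    unfold rhs
    rw [Finset.sum_congr rfl fun b _ => hcnt b]
    have h7 : ∑ s, logHeight₁ (t' s) ≤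
        N * (∑ b, logHeight (fun β : Mon M (d b) => t ⟨b, β⟩) + c) := by
      refine (Finset.sum_le_sum fun s _ => hh s).trans (le_of_eq ?_)
      rw [Finset.sum_const, Finset.card_univ, nsmul_eq_mul]
    nlinarith [mul_nonneg hN0 hYs, mul_nonneg hN0 hcn, mul_nonneg hN0 hc0,
      mul_nonneg (mul_nonneg hN0 hc0) hYs, mul_nonneg (mul_nonneg hN0 hc0) hcn]
  have hr0 : 0 ≤ rhs S C t' x := by
    unfold rhs
    rw [Finset.sum_congr rfl fun b _ => hcnt b]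
    have h8 : 0 ≤ ∑ s, logHeight₁ (t' s) := Finset.sum_nonneg fun s _ => zero_le_logHeight₁ _
    linarith
  calc logHeight x ≤ A * rhs S C t' x := hA t' hΦ0 C hC x hx'
    _ ≤ |A| * rhs S C t' x := mul_le_mul_of_nonneg_right (le_abs_self A) hr0
    _ ≤ _ := by
      rw [mul_assoc]
      exact mul_le_mul_of_nonneg_left hr (abs_nonneg A)

end Hi

end Pool.Agent.NH29.GN
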