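import Pool.Agent.NH29.GN.Stm3

/-!
# Project GN, part 4: statements about the counting functions over number fields
-/

set_option autoImplicit false

namespace Pool.Agent.NH29.GN

open Height NumberField

/-- The counting function of the hypersurface `F = 0` at the point `x`, outside of the finite set
`S` of finite places; `t` is the family of the coefficients of the form `F` of degree `e`. -/
noncomputable def cnt {κ : Type} [Field κ] [NumberField κ] (S : Finset (FinitePlace κ)) {M e : ℕ}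
    (t : Mon M e → κ) (x : Fin (M + 1) → κ) : ℝ :=
  ∑ᶠ v : {v : FinitePlace κ // v ∉ S},
    Real.log ((⨆ β, v.1 (t β)) * (⨆ a, v.1 (x a)) ^ e / v.1 (∑ β, t β * val x β.1))

/-- SUA: approximation by `S`-units -/
def SuaStm : Prop :=
  ∀ (κ : Type) [Field κ] [NumberField κ] (S : Finset (FinitePlace κ)),
    ∃ (Γ : Subgroup κˣ) (A : ℝ), Γ.FG ∧ 0 ≤ A ∧ ∀ w : κˣ, ∃ γ ∈ Γ,
      logHeight₁ ((w : κ) / (γ : κˣ)) ≤
        A * (1 + ∑ᶠ v : {v : FinitePlace κ // v ∉ S}, |Real.log (v.1 (w : κ))|)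

/-- CNT: the quotients of the forms and the counting functions -/
def CntStm : Prop :=
  ∀ (κ : Type) [Field κ] [NumberField κ] (S : Finset (FinitePlace κ)) (M q : ℕ) (d : Fin q → ℕ)
    (t : Idx M d → κ) (x : Fin (M + 1) → κ) (b b₀ : Fin q),
    fv (K := κ) (L := κ) t x b ≠ 0 → fv (K := κ) (L := κ) t x b₀ ≠ 0 →
    0 ≤ cnt S (fun β => t ⟨b, β⟩) x ∧
    ∑ᶠ v : {v : FinitePlace κ // v ∉ S},
      |Real.log (v.1 (fv (K := κ) (L := κ) t x b ^ d b₀ / fv (K := κ) (L := κ) t x b₀ ^ d b))| ≤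
      d b₀ * cnt S (fun β => t ⟨b, β⟩) x + d b * cnt S (fun β => t ⟨b₀, β⟩) x +
        2 * (d b + d b₀) * ∑ s, logHeight₁ (t s)

end Pool.Agent.NH29.GN
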