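import Pool.Agent.NH29.GN.Hi
import Pool.Agent.NH29.GN.Stm6

/-!
# Heights and counting functions on Zariski-general complements
-/

set_option autoImplicit false

namespace Pool.Agent.NH29.GN

open MvPolynomial Filter Height NumberField

namespace Hi

section Sm

variable {I : Type} {𝒰 : Ultrafilter I} {E : I → Type} [∀ i, Field (E i)] {T : HFam 𝒰 E}

theorem sm_mul {f g : ∀ i, E i} (hf : Sm T f) (hg : Sm T g) : Sm T fun i => f i * g i :=
  Sml68.sm_three T hf hg fun i => T.mul i _ _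

theorem sm_inv {f : ∀ i, E i} (hf : Sm T f) : Sm T fun i => (f i)⁻¹ :=
  Sml68.sm_one T hf fun i => T.inv i _

theorem sm_cst : Sm T fun _ => 1 :=
  Sml68.sm_const T fun i => T.one i

theorem sm_pow {f : ∀ i, E i} (hf : Sm T f) (n : ℕ) : Sm T fun i => f i ^ n := by
  induction n with
  | zero => simpa using sm_cst
  | succ n ih =>
    have := sm_mul ih hf
    simpa [pow_succ] using this

theorem sm_zpow {f : ∀ i, E i} (hf : Sm T f) (n : ℤ) : Sm T fun i => f i ^ n := by
  cases n with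
  | ofNat n => simpa using sm_pow hf n
  | negSucc n =>
    have := sm_inv (sm_pow hf (n + 1))
    simpa [zpow_negSucc] using this

theorem sm_prod {J : Type} [DecidableEq J] (s : Finset J) {f : J → ∀ i, E i}
    (hf : ∀ j ∈ s, Sm T (f j)) : Sm T fun i => ∏ j ∈ s, f j i := by
  induction s using Finset.induction_on with
  | empty => simpa using sm_cst
  | insert a s ha ih =>
    have h1 := sm_mul (hf a (Finset.mem_insert_self a s))
      (ih fun j hj => hf j (Finset.mem_insert_of_mem hj))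
    simpa [Finset.prod_insert ha] using h1

end Sm

/-- the points of the stratum `C` of the complement -/
structure Pt2 {k κ : Type} [Field k] [Field κ] [Algebra k κ] {M q : ℕ}
    (V : Set (MvPolynomial (Fin (M + 1)) k)) {d : Fin q → ℕ} (C : Finset (Fin q))
    (t : Idx M d → κ) (x : Fin (M + 1) → κ) : Prop where
  ne : x ≠ 0
  onV : ∀ H ∈ V, aeval x H = 0
  onC : ∀ c ∈ C, fv t x c = 0
  off : ∀ b, b ∉ C → fv t x b ≠ 0

/-- the right hand side of the inequality -/
noncomputable def rhs {κ : Type} [Field κ] [NumberField κ] (S : Finset (FinitePlace κ)) {M q : ℕ}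
    {d : Fin q → ℕ} (C : Finset (Fin q)) (t : Idx M d → κ) (x : Fin (M + 1) → κ) : ℝ :=
  1 + ∑ s, logHeight₁ (t s) + ∑ b ∈ Cᶜ, cnt S (fun β => t ⟨b, β⟩) x

/-- the quotients are close to `Γ` -/
theorem exists_near (sua : SuaStm) (cntP : CntStm) {κ : Type} [Field κ] [NumberField κ]
    (S : Finset (FinitePlace κ)) {M q : ℕ} (d : Fin q → ℕ) (C : Finset (Fin q)) :
    ∃ (Γ : Subgroup κˣ) (A : ℝ), Γ.FG ∧ 0 ≤ A ∧ ∀ (t : Idx M d → κ) (x : Fin (M + 1) → κ),
      (∀ b, b ∉ C → fv t x b ≠ 0) → 1 ≤ rhs S C t x ∧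
      ∀ b₀, b₀ ∉ C → ∀ b, ∃ γ ∈ Γ, logHeight₁ (quo C t x b₀ b / ((γ : κˣ) : κ)) ≤
        A * rhs S C t x := by
  classical
  obtain ⟨Γ, A, hΓ, hA, h⟩ := sua κ S
  set D : ℝ := ∑ b, (d b : ℝ) with hD
  have hD0 : 0 ≤ D := Finset.sum_nonneg fun b _ => Nat.cast_nonneg _
  have hdD : ∀ b, (d b : ℝ) ≤ D := fun b =>
    Finset.single_le_sum (f := fun b => (d b : ℝ)) (fun b _ => Nat.cast_nonneg _)
      (Finset.mem_univ b)
  refine ⟨Γ, A * (1 + 4 * D), hΓ, by positivity, fun t x hx => ?_⟩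
  have hY : 0 ≤ ∑ s, logHeight₁ (t s) := Finset.sum_nonneg fun i _ => zero_le_logHeight₁ _
  have hc0 : ∀ b, b ∉ C → 0 ≤ cnt S (fun β => t ⟨b, β⟩) x := fun b hb =>
    (cntP κ S M q d t x b b (hx b hb) (hx b hb)).1
  have hZ : 0 ≤ ∑ b ∈ Cᶜ, cnt S (fun β => t ⟨b, β⟩) x :=
    Finset.sum_nonneg fun b hb => hc0 b (by simpa using hb)
  have h1 : 1 ≤ rhs S C t x := by
    unfold rhs
    linarith
  refine ⟨h1, fun b₀ hb₀ b => ?_⟩
  have hcl : ∀ b, b ∉ C → cnt S (fun β => t ⟨b, β⟩) x ≤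
      ∑ b ∈ Cᶜ, cnt S (fun β => t ⟨b, β⟩) x := fun b hb =>
    Finset.single_le_sum (f := fun b => cnt S (fun β => t ⟨b, β⟩) x)
      (fun b hb => hc0 b (by simpa using hb)) (by simpa using hb)
  have hq0 : quo C t x b₀ b ≠ 0 := by
    unfold quo
    split_ifs with hb
    · exact one_ne_zero
    · exact div_ne_zero (pow_ne_zero _ (hx b hb)) (pow_ne_zero _ (hx b₀ hb₀))
  obtain ⟨γ, hγ, hle⟩ := h (Units.mk0 _ hq0)
  refine ⟨γ, hγ, hle.trans ?_⟩
  rw [mul_assoc]
  refine mul_le_mul_of_nonneg_left ?_ hA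
  have h2 : ∑ᶠ v : {v : FinitePlace κ // v ∉ S},
      |Real.log (v.1 ((Units.mk0 _ hq0 : κˣ) : κ))| ≤ 4 * D * rhs S C t x := by
    rw [Units.val_mk0]
    by_cases hb : b ∈ C
    · have h3 : quo C t x b₀ b = 1 := by
        unfold quo
        rw [if_pos hb]
      rw [h3]
      simp only [map_one, Real.log_one, abs_zero, finsum_zero]
      positivity
    · have h3 : quo C t x b₀ b = fv t x b ^ d b₀ / fv t x b₀ ^ d b := by
        unfold quo
        rw [if_neg hb]
      rw [h3]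
      refine (cntP κ S M q d t x b b₀ (hx b hb) (hx b₀ hb₀)).2.trans ?_
      have e1 : (d b₀ : ℝ) * cnt S (fun β => t ⟨b, β⟩) x ≤
          D * ∑ b ∈ Cᶜ, cnt S (fun β => t ⟨b, β⟩) x :=
        mul_le_mul (hdD b₀) (hcl b hb) (hc0 b hb) hD0
      have e2 : (d b : ℝ) * cnt S (fun β => t ⟨b₀, β⟩) x ≤
          D * ∑ b ∈ Cᶜ, cnt S (fun β => t ⟨b, β⟩) x :=
        mul_le_mul (hdD b) (hcl b₀ hb₀) (hc0 b₀ hb₀) hD0
      have e3 : 2 * ((d b : ℝ) + d b₀) * ∑ s, logHeight₁ (t s) ≤
          4 * D * ∑ s, logHeight₁ (t s) :=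
        mul_le_mul_of_nonneg_right (by linarith [hdD b, hdD b₀]) hY
      unfold rhs
      nlinarith [mul_nonneg hD0 hZ]
  nlinarith

/-- one stratum -/
theorem hi2_one (sua : SuaStm) (cntP : CntStm) {k : Type} [Field k] [CharZero k] {M n q : ℕ}
    {V : Set (MvPolynomial (Fin (M + 1)) k)} (hV : ∀ H ∈ V, ∃ e, H.IsHomogeneous e)
    {ℓ : Fin (n + 1) → MvPolynomial (Fin (M + 1)) k} (hℓ : ∀ j, (ℓ j).IsHomogeneous 1)
    (hN : NoZero V ℓ) (hq : n + 1 ≤ q) {d : Fin q → ℕ} (hd : ∀ i, 1 ≤ d i)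
    (C : Finset (Fin q)) (hNum : Num2 n d C) :
    ∃ Φ : MvPolynomial (Idx M d) k, Φ ≠ 0 ∧
      ∀ (κ : Type) [Field κ] [NumberField κ] [Algebra k κ] (S : Finset (FinitePlace κ)),
      ∃ A : ℝ, ∀ t : Idx M d → κ, aeval t Φ ≠ 0 → ∀ x : Fin (M + 1) → κ, Pt2 V C t x →
        logHeight x ≤ A * rhs S C t x := by
  classical
  by_contra hcon
  push Not at hcon
  obtain ⟨K', L', _, _, _, _, _, t', x', ht', hx'⟩ := stb2 k M q V d C (by
    intro Q hQ
    obtain ⟨κ, iκ, iN, iA, S, hA⟩ := hcon Q hQ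
    choose t ht x hx hlt using fun s : ℕ => hA s
    obtain ⟨Γ, A₀, hΓ, hA₀, hnear⟩ := exists_near sua cntP S d C
    obtain ⟨c, hc0, hneg, hinv, hadd, hmul, hroot, hpt⟩ := hn κ
    obtain ⟨𝒰, h𝒰⟩ : ∃ 𝒰 : Ultrafilter ℕ, 𝒰 = hyperfilter ℕ := ⟨_, rfl⟩
    have hcof : ∀ R : ℝ, ∀ᶠ s : ℕ in (𝒰 : Filter ℕ), R ≤ s := by
      intro R
      have h1 : ∀ᶠ s : ℕ in (cofinite : Filter ℕ), R ≤ s := by
        rw [Nat.cofinite_eq_atTop]
        filter_upwards [eventually_ge_atTop ⌈R⌉₊] with n hn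
        exact (Nat.le_ceil R).trans (by exact_mod_cast hn)
      rw [h𝒰]
      exact hyperfilter_le_cofinite h1
    have h0 : ∀ a : κ, 0 ≤ logHeight₁ a := fun a => zero_le_logHeight₁ a
    have hR : ∀ s, 1 ≤ rhs S C (t s) (x s) := fun s => (hnear (t s) (x s) (hx s).off).1
    have hHs : ∀ s : ℕ, (s : ℝ) ≤ logHeight (x s) := by
      intro s
      have h1 : (s : ℝ) * 1 ≤ s * rhs S C (t s) (x s) :=
        mul_le_mul_of_nonneg_left (hR s) (Nat.cast_nonneg s)
      linarith [hlt s]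
    have hHt : ∀ B : ℝ, ∀ᶠ s in (𝒰 : Filter ℕ), B ≤ logHeight (x s) := fun B =>
      (hcof B).mono fun s hs => hs.trans (hHs s)
    let T : HFam 𝒰 (fun _ : ℕ => κ) :=
      { h := fun _ a => logHeight₁ a
        H := fun s => logHeight (x s)
        c := c
        nonneg := fun _ a => h0 a
        zero := fun _ => by
          rw [logHeight₁_zero]
          exact hc0 0
        one := fun _ => by
          rw [logHeight₁_one]
          exact hc0 0
        neg := fun _ a => hneg a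
        inv := fun _ a => hinv a
        add := fun _ a b => hadd a b
        mul := fun _ a b => hmul a b
        root := fun n _ g a h => hroot n g a h
        small := fun n N => hHt _ }
    have hsmall : ∀ (B : ℝ) (f : ℕ → κ), 0 ≤ B →
        (∀ s, logHeight₁ (f s) ≤ B * rhs S C (t s) (x s)) → Sm T f := by
      intro B f hB hf N
      refine (hcof (N * B)).mono fun s hs => ?_
      change (N : ℝ) * logHeight₁ (f s) ≤ logHeight (x s)
      calc (N : ℝ) * logHeight₁ (f s) ≤ N * (B * rhs S C (t s) (x s)) :=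
            mul_le_mul_of_nonneg_left (hf s) (Nat.cast_nonneg N)
        _ = N * B * rhs S C (t s) (x s) := by ring
        _ ≤ s * rhs S C (t s) (x s) :=
            mul_le_mul_of_nonneg_right hs (le_trans zero_le_one (hR s))
        _ ≤ logHeight (x s) := (hlt s).le
    have htS : ∀ i, Sm T fun s => t s i := by
      intro i
      refine hsmall 1 _ zero_le_one fun s => ?_
      have h2 := Finset.single_le_sum (f := fun i => logHeight₁ (t s i)) (fun i _ => h0 _)
        (Finset.mem_univ i)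
      have h3 : 0 ≤ ∑ b ∈ Cᶜ, cnt S (fun β => t s ⟨b, β⟩) (x s) :=
        Finset.sum_nonneg fun b hb =>
          (cntP κ S M q d (t s) (x s) b b ((hx s).off b (by simpa using hb))
            ((hx s).off b (by simpa using hb))).1
      have h4 : logHeight₁ (t s i) ≤ ∑ i, logHeight₁ (t s i) := h2
      unfold rhs
      linarith
    obtain ⟨K', L', i1, i2, i3, i4, i5, t', x', h1, h2⟩ := abs sml ld k ℕ 𝒰 (fun _ => κ) T M q V
      d C t x Q (fun a N => hHt (N * logHeight₁ (algebraMap k κ a))) htS ht (fun s H hH => (hx s).onV H hH)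
      (fun s c hc => (hx s).onC c hc) (fun s b hb => (hx s).off b hb) (fun s => (hx s).ne)
      (by
        intro a₀ ha₀
        by_contra hall
        push Not at hall
        have h1 : ∀ᶠ s in (𝒰 : Filter ℕ), ∀ a, ((2 * (M + 1) : ℕ) : ℝ) *
            logHeight₁ (x s a / x s a₀) ≤ logHeight (x s) :=
          eventually_all.2 fun a => hall a (2 * (M + 1))
        obtain ⟨s, ⟨hs1, hs2⟩, hs3⟩ := ((h1.and ha₀).and (hHt 1)).exists
        have h2 : logHeight (x s) ≤ ∑ a, logHeight₁ (x s a / x s a₀) := hpt M (x s) a₀ hs2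
        have h3 : ((2 * (M + 1) : ℕ) : ℝ) * ∑ a, logHeight₁ (x s a / x s a₀) ≤
            (M + 1) * logHeight (x s) := by
          rw [Finset.mul_sum]
          refine (Finset.sum_le_sum fun a _ => hs1 a).trans (le_of_eq ?_)
          rw [Finset.sum_const, Finset.card_univ, Fintype.card_fin, nsmul_eq_mul]
          push_cast
          ring
        have h5 : (0 : ℝ) < (M : ℝ) + 1 := by positivity
        have h6 := mul_le_mul_of_nonneg_left h2 (by positivity : (0 : ℝ) ≤ ((2 * (M + 1) : ℕ) : ℝ))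
        push_cast at h3 h6
        nlinarith [mul_pos h5 (by linarith : 0 < logHeight (x s))])
      (by
        intro b₀ hb₀ S' hS' c' hcS hc0' hrel
        have hneS : Nonempty {m // m ∈ S'} := hS'.to_subtype
        have hq0 : ∀ s b, quo C (t s) (x s) b₀ b ≠ 0 := by
          intro s b
          unfold quo
          split_ifs with hb
          · exact one_ne_zero
          · exact div_ne_zero (pow_ne_zero _ ((hx s).off b hb)) (pow_ne_zero _ ((hx s).off b₀ hb₀))
        choose γ hγ hγe using fun s b => (hnear (t s) (x s) (hx s).off).2 b₀ hb₀ b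
        have hcs : ∀ b, Sm T fun s => quo C (t s) (x s) b₀ b / ((γ s b : κˣ) : κ) := fun b =>
          hsmall A₀ _ hA₀ fun s => hγe s b
        have hcm : ∀ m : Fin q → ℤ, Sm T fun s =>
            ∏ b, (quo C (t s) (x s) b₀ b / ((γ s b : κˣ) : κ)) ^ m b := fun m =>
          sm_prod Finset.univ fun b _ => sm_zpow (hcs b) (m b)
        have hprod : ∀ (m : Fin q → ℤ) (s : ℕ), ∏ b, quo C (t s) (x s) b₀ b ^ m b =
            (∏ b, (quo C (t s) (x s) b₀ b / ((γ s b : κˣ) : κ)) ^ m b) *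
              ((∏ b, γ s b ^ m b : κˣ) : κ) := by
          intro m s
          push_cast
          rw [← Finset.prod_mul_distrib]
          refine Finset.prod_congr rfl fun b _ => ?_
          rw [← mul_zpow, div_mul_cancel₀ _ (Units.ne_zero _)]
        obtain ⟨i, j, hij, hsm⟩ := mue (mov (movs gal) movd) hn κ Γ hΓ 𝒰
          (fun s => logHeight (x s)) hHt {m // m ∈ S'} (fun m s => ∏ b, γ s b ^ m.1 b)
          (fun m s => c' m.1 s * ∏ b, (quo C (t s) (x s) b₀ b / ((γ s b : κˣ) : κ)) ^ m.1 b)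
          (fun m s => Γ.prod_mem fun b _ => Γ.zpow_mem (hγ s b) _)
          (fun m => by
            filter_upwards [hc0' m.1 m.2] with s hs
            refine mul_ne_zero hs (Finset.prod_ne_zero_iff.2 fun b _ => zpow_ne_zero _ ?_)
            exact div_ne_zero (hq0 s b) (Units.ne_zero _))
          (fun m => sm_mul (T := T) (hcS m.1 m.2) (hcm m.1)) (by
            filter_upwards [hrel] with s hs
            rw [← hs, ← Finset.sum_coe_sort S']
            refine Finset.sum_congr rfl fun m _ => ?_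
            rw [mul_assoc, hprod])
        refine ⟨i.1, i.2, j.1, j.2, fun h => hij (Subtype.ext h), ?_⟩
        have h3 : Sm T fun s => ((∏ b, γ s b ^ i.1 b : κˣ) : κ) / ((∏ b, γ s b ^ j.1 b : κˣ) : κ) :=
          hsm
        have h4 := sm_mul (sm_mul (hcm i.1) (sm_inv (hcm j.1))) h3
        refine Sml68.sm_congr T (Eventually.of_forall fun s => ?_) h4
        rw [hprod, hprod, div_eq_mul_inv, div_eq_mul_inv, mul_inv]
        ring)
    exact ⟨K', L', i1, i2, i3, i4, i5, t', x', h1, h2⟩)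
  exact stcP k K' L' M n q V hV ℓ hℓ hN hq d hd C hNum t' ht' x' hx'

/-- all strata -/
theorem hi2 (sua : SuaStm) (cntP : CntStm) {k : Type} [Field k] [CharZero k] {M n q : ℕ}
    {V : Set (MvPolynomial (Fin (M + 1)) k)} (hV : ∀ H ∈ V, ∃ e, H.IsHomogeneous e)
    {ℓ : Fin (n + 1) → MvPolynomial (Fin (M + 1)) k} (hℓ : ∀ j, (ℓ j).IsHomogeneous 1)
    (hN : NoZero V ℓ) (hq : n + 1 ≤ q) {d : Fin q → ℕ} (hd : ∀ i, 1 ≤ d i)
    (hNum : ∀ C : Finset (Fin q), C ≠ Finset.univ → Num2 n d C) :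
    ∃ Φ : MvPolynomial (Idx M d) k, Φ ≠ 0 ∧
      ∀ (κ : Type) [Field κ] [NumberField κ] [Algebra k κ] (S : Finset (FinitePlace κ)),
      ∃ A : ℝ, ∀ t : Idx M d → κ, aeval t Φ ≠ 0 → ∀ C : Finset (Fin q), C ≠ Finset.univ →
        ∀ x : Fin (M + 1) → κ, Pt2 V C t x → logHeight x ≤ A * rhs S C t x := by
  classical
  have h1 : ∀ C : Finset (Fin q), ∃ Φ : MvPolynomial (Idx M d) k, Φ ≠ 0 ∧
      (C ≠ Finset.univ →
      ∀ (κ : Type) [Field κ] [NumberField κ] [Algebra k κ] (S : Finset (FinitePlace κ)),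
      ∃ A : ℝ, ∀ t : Idx M d → κ, aeval t Φ ≠ 0 → ∀ x : Fin (M + 1) → κ, Pt2 V C t x →
        logHeight x ≤ A * rhs S C t x) := by
    intro C
    by_cases hCu : C = Finset.univ
    · exact ⟨1, one_ne_zero, fun h => absurd hCu h⟩
    · obtain ⟨Φ, h1, h2⟩ := hi2_one sua cntP hV hℓ hN hq hd C (hNum C hCu)
      exact ⟨Φ, h1, fun _ => h2⟩
  choose Φ h1 h2 using h1
  refine ⟨∏ C, Φ C, Finset.prod_ne_zero_iff.2 fun C _ => h1 C, fun κ _ _ _ S => ?_⟩
  have h3 : ∀ C : Finset (Fin q), ∃ A : ℝ, C ≠ Finset.univ → ∀ t : Idx M d → κ,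
      aeval t (Φ C) ≠ 0 → ∀ x : Fin (M + 1) → κ, Pt2 V C t x →
        logHeight x ≤ A * rhs S C t x := by
    intro C
    by_cases hCu : C = Finset.univ
    · exact ⟨0, fun h => absurd hCu h⟩
    · obtain ⟨A, hA⟩ := h2 C hCu κ S
      exact ⟨A, fun _ => hA⟩
  choose A hA using h3
  refine ⟨∑ C, |A C|, fun t ht C hCu x hx => ?_⟩
  rw [map_prod, Finset.prod_ne_zero_iff] at ht
  refine (hA C hCu t (ht C (Finset.mem_univ _)) x hx).trans
    (mul_le_mul_of_nonneg_right ?_ ?_)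
  · exact (le_abs_self _).trans (Finset.single_le_sum (f := fun C => |A C|)
      (fun _ _ => abs_nonneg _) (Finset.mem_univ C))
  · obtain ⟨_, _, _, _, h5⟩ := exists_near sua cntP S d C
    exact le_trans zero_le_one (h5 t x hx.off).1

end Hi

end Pool.Agent.NH29.GN
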