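import Pool.Agent.NH29.GN.Stm4

/-!
# The unit equation over function fields, with coefficients
-/

set_option autoImplicit false

namespace Pool.Agent.NH29.GN

open FF Pool.Agent.W603.LV Pool.Agent.W603.PV

namespace Blk

variable {K E : Type} [Field K] [Field E] [Algebra K E] [IsAlgClosed K] [CharZero K] [IsFF K E]

/-- the places where one of finitely many functions has a zero or a pole -/
theorem supp {J : Type} [Fintype J] (c : J → E) :
    ∃ T : Finset (Place K E), (∀ P ∉ T, ∀ j, P.ord (c j) = 0) ∧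
      (T.card : ℤ) ≤ 2 * ∑ j, hgt K (c j) := by
  classical
  obtain ⟨T', hT'⟩ := exists_supp (k := K) (Finset.univ : Finset J) c
  refine ⟨T'.filter fun P => ∃ j, P.ord (c j) ≠ 0, ?_, ?_⟩
  · intro P hP j
    by_contra h
    exact hP (Finset.mem_filter.2 ⟨hT' j (Finset.mem_univ _) P h, j, h⟩)
  · have h1 := card_poles (k := K) (Finset.univ : Finset (J ⊕ J))
      (Sum.elim c fun j => (c j)⁻¹) (T'.filter fun P => ∃ j, P.ord (c j) ≠ 0) (by
        intro P hP
        obtain ⟨j, hj⟩ := (Finset.mem_filter.1 hP).2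
        rcases lt_or_gt_of_ne hj with h | h
        · exact ⟨Sum.inl j, Finset.mem_univ _, h⟩
        · refine ⟨Sum.inr j, Finset.mem_univ _, ?_⟩
          show P.ord (c j)⁻¹ < 0
          rw [P.ord_inv]
          omega)
    refine h1.trans (le_of_eq ?_)
    rw [Fintype.sum_sum_type, two_mul]
    congr 1
    refine Finset.sum_congr rfl fun j _ => ?_
    exact hgt_inv (c j)

end Blk

open Blk in
theorem blk : BlkStm := by
  classical
  refine ⟨fun n => 2 * (n * ((max 1 ((n - 1) ^ 2) : ℕ) * tri n)) + 2, ?_, ?_⟩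
  · intro n
    have h1 := tri_nonneg n
    positivity
  intro K E _ _ _ _ _ _ S J _ _ c u hc hu hS hrel
  obtain ⟨T, hT, hTc⟩ := supp (K := K) c
  obtain ⟨s, hs⟩ : ∃ s, s = Fintype.card J := ⟨_, rfl⟩
  obtain ⟨N, hN⟩ : ∃ N : ℕ, N = max 1 ((s - 1) ^ 2) := ⟨_, rfl⟩
  obtain ⟨R, hR, hRh, hRs⟩ := blocks (k := K) (S ∪ T) (N := N) (s := s) (le_of_eq hs.symm)
    (by rw [hN]; exact lt_of_lt_of_le one_pos (le_max_left _ _))
    (by rw [hN]; exact le_max_right _ _) (fun j => c j * u j)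
    (fun j => mul_ne_zero (hc j) (hu j)) hrel (by
      intro P hP i j
      have h1 : ∀ j, P.ord (c j * u j) = 0 := by
        intro j
        rw [P.ord_mul (hc j) (hu j), hT P (fun h => hP (Finset.mem_union_right _ h)) j,
          hS P (fun h => hP (Finset.mem_union_left _ h)) j, add_zero]
      rw [h1, h1, sub_zero]
      exact dvd_zero _)
  obtain ⟨j0⟩ := (inferInstance : Nonempty J)
  obtain ⟨j, hj, hne⟩ : ∃ j, R j0 j ∧ j0 ≠ j := by
    by_contra hcon
    push Not at hcon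
    have h1 := hRs j0 {j0} (by
      intro j
      rw [Finset.mem_singleton]
      constructor
      · rintro rfl
        exact hR.refl _
      · intro h
        exact (hcon j h).symm)
    rw [Finset.sum_singleton] at h1
    exact mul_ne_zero (hc j0) (hu j0) h1
  refine ⟨j0, j, hne, ?_⟩
  have h1 := hRh j0 j hj
  obtain ⟨H, hH⟩ : ∃ H, H = ∑ j, hgt K (c j) := ⟨_, rfl⟩
  obtain ⟨χ, hχ⟩ : ∃ χ, χ = max (canDeg K E + (S.card : ℤ)) 0 := ⟨_, rfl⟩
  have hχ0 : 0 ≤ χ := by rw [hχ]; exact le_max_right _ _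
  have hle : ∀ i, hgt K (c i) ≤ H := by
    intro i
    rw [hH]
    exact Finset.single_le_sum (f := fun j => hgt K (c j)) (fun j _ => hgt_nonneg _)
      (Finset.mem_univ i)
  have hH0 : 0 ≤ H := (hgt_nonneg _).trans (hle j0)
  have h2 : max (canDeg K E + ((S ∪ T).card : ℤ)) 0 ≤ χ + 2 * H := by
    have h3 : ((S ∪ T).card : ℤ) ≤ S.card + T.card := by exact_mod_cast Finset.card_union_le S T
    have h4 : canDeg K E + (S.card : ℤ) ≤ χ := by rw [hχ]; exact le_max_left _ _
    rw [← hH] at hTc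
    refine max_le ?_ ?_
    · linarith
    · linarith
  have h3 : hgt K (u j0 / u j) ≤ hgt K (c j0 * u j0 / (c j * u j)) + (hgt K (c j) + hgt K (c j0)) := by
    have e : u j0 / u j = (c j0 * u j0 / (c j * u j)) * (c j * (c j0)⁻¹) := by
      have a1 := hc j0
      have a2 := hc j
      have a3 := hu j
      field_simp
    rw [e]
    have b1 := hgt_mul (k := K) (div_ne_zero (mul_ne_zero (hc j0) (hu j0))
      (mul_ne_zero (hc j) (hu j))) (mul_ne_zero (hc j) (inv_ne_zero (hc j0)))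
    have b2 := hgt_mul (k := K) (hc j) (inv_ne_zero (hc j0))
    rw [hgt_inv] at b2
    linarith
  rw [← hs, ← hH, ← hχ]
  show hgt K (u j0 / u j) ≤ (2 * ((s : ℤ) * (((max 1 ((s - 1) ^ 2) : ℕ) : ℤ) * tri s)) + 2) * (χ + H)
  rw [← hN]
  have htri := tri_nonneg s
  obtain ⟨C, hC⟩ : ∃ C : ℤ, C = s * (N * tri s) := ⟨_, rfl⟩
  have hC0 : 0 ≤ C := by rw [hC]; positivity
  rw [← hC]
  have h4 : (s : ℤ) * (N * tri s * max (canDeg K E + ((S ∪ T).card : ℤ)) 0) ≤ C * (χ + 2 * H) := by
    have e : (s : ℤ) * (N * tri s * max (canDeg K E + ((S ∪ T).card : ℤ)) 0) =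
      C * max (canDeg K E + ((S ∪ T).card : ℤ)) 0 := by rw [hC]; ring
    rw [e]
    exact mul_le_mul_of_nonneg_left h2 hC0
  have h5 := hle j0
  have h6 := hle j
  have h7 : C * χ ≤ 2 * C * χ := by nlinarith
  have h8 : C * (χ + 2 * H) + (H + H) ≤ (2 * C + 2) * (χ + H) := by nlinarith
  linarith

end Pool.Agent.NH29.GN
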