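import Pool.Agent.NH29.GN.Stm4

/-!
# Project GN: the height of a function field is a height function
-/

set_option autoImplicit false

namespace Pool.Agent.NH29.GN

open FF Pool.Agent.W603.LV Pool.Agent.W603.PV

namespace HG

variable {k K : Type} [Field k] [Field K] [Algebra k K] [CharZero k] [IsFF k K]

theorem add_le (a b : K) : hgt k (a + b) ≤ hgt k a + hgt k b := by
  have h := hgt_mvpoly (k := k) (K := K) (ρ := Fin 2) ![a, b]
    (MvPolynomial.X 0 + MvPolynomial.X 1)
  simp only [map_add, MvPolynomial.aeval_X, Matrix.cons_val_zero, Matrix.cons_val_one,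
    Fin.sum_univ_two] at h
  have h1 : ((MvPolynomial.X 0 + MvPolynomial.X 1 : MvPolynomial (Fin 2) k)).totalDegree ≤ 1 := by
    refine (MvPolynomial.totalDegree_add _ _).trans ?_
    rw [MvPolynomial.totalDegree_X, MvPolynomial.totalDegree_X, max_self]
  have h2 : (((MvPolynomial.X 0 + MvPolynomial.X 1 : MvPolynomial (Fin 2) k)).totalDegree : ℤ) ≤ 1 :=
    by exact_mod_cast h1
  have h3 : 0 ≤ hgt k a + hgt k b := add_nonneg (hgt_nonneg a) (hgt_nonneg b)
  nlinarith

theorem mul_le (a b : K) : hgt k (a * b) ≤ hgt k a + hgt k b := by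
  by_cases ha : a = 0
  · rw [ha, zero_mul, hgt_zero]
    exact add_nonneg le_rfl (hgt_nonneg b)
  by_cases hb : b = 0
  · rw [hb, mul_zero, hgt_zero]
    exact add_nonneg (hgt_nonneg a) le_rfl
  exact hgt_mul ha hb

omit [CharZero k] [IsFF k K] in
theorem neg_eq (a : K) : hgt k (-a) = hgt k a := by
  unfold hgt
  refine finsum_congr fun P => ?_
  rw [P.ord_neg]

theorem root_le [IsAlgClosed k] (n : ℕ) (g : K) (a : Fin n → K)
    (h : g ^ n = ∑ j, a j * g ^ (j : ℕ)) : hgt k g ≤ ∑ j, hgt k (a j) := by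
  classical
  set e : ℕ → K := fun d => if hd : d < n then -a ⟨d, hd⟩ else 1 with he
  have e1 : e n = 1 := by simp only [he]; rw [dif_neg (lt_irrefl n)]
  have e2 : ∀ j : Fin n, e j = -a j := by
    intro j
    simp only [he]
    rw [dif_pos j.2]
  have h1 := hgt_root (k := k) (D := n) e (by rw [e1]; exact one_ne_zero) g (by
    rw [Finset.sum_range_succ, e1, one_mul, h, Finset.sum_range, ← Finset.sum_add_distrib]
    refine Finset.sum_eq_zero fun j _ => ?_
    rw [e2]
    ring)
  rw [e1, hgt_one, zero_add, Finset.sum_range] at h1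
  refine h1.trans (le_of_eq (Finset.sum_congr rfl fun j _ => ?_))
  rw [e2, neg_eq]

end HG

/-- HG -/
theorem hg : HgStm := by
  intro K E _ _ _ _ _ _
  refine ⟨hgt_zero, HG.add_le, HG.mul_le, fun a => (HG.neg_eq a).le, HG.root_le, ?_⟩
  intro M x a₀ h
  exact pht_le x h

end Pool.Agent.NH29.GN
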