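import Pool.Agent.NH29.GN.Stm3

/-!
# Project GN, part LD: linear disjointness over an algebraically closed subfield
-/

set_option autoImplicit false

namespace Pool.Agent.NH29.GN

open Polynomial

namespace LD

/-- the minimal polynomial over `L` has coefficients in `A` if `A` is algebraically closed in `L` -/
theorem lift_minpoly {Ω : Type} [Field Ω] {A : Subfield Ω} (L : IntermediateField A Ω)
    (hcl : ∀ y : L, IsAlgebraic A (y : Ω) → ∃ a : A, (a : Ω) = y) (θ : Ω) (hθ : IsIntegral A θ) :
    (minpoly A θ).natDegree ≤ (minpoly L θ).natDegree := by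
  have hθL : IsIntegral L θ := hθ.tower_top
  have hdvd : minpoly L θ ∣ (minpoly A θ).map (algebraMap A L) :=
    minpoly.dvd_map_of_isScalarTower A L θ
  have hlift := integralClosure.mem_lifts_of_monic_of_dvd_map (R := A) L (minpoly.monic hθ)
    (minpoly.monic hθL) hdvd
  have hcoef : ∀ n, ∃ a : A, algebraMap A L a = (minpoly L θ).coeff n := by
    intro n
    rw [Polynomial.lifts_iff_coeff_lifts] at hlift
    obtain ⟨y, hy⟩ := hlift n
    have h1 : IsIntegral A ((minpoly L θ).coeff n) := by
      rw [← hy]; exact y.2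
    have h2 : IsAlgebraic A (((minpoly L θ).coeff n : L) : Ω) := by
      have h3 : IsIntegral A (algebraMap L Ω ((minpoly L θ).coeff n)) := h1.algebraMap
      exact h3.isAlgebraic
    obtain ⟨a, ha⟩ := hcl _ h2
    exact ⟨a, Subtype.ext ha⟩
  have hl : minpoly L θ ∈ Polynomial.lifts (algebraMap A L) := by
    rw [Polynomial.lifts_iff_coeff_lifts]
    intro n
    obtain ⟨a, ha⟩ := hcoef n
    exact ⟨a, ha⟩
  obtain ⟨p, hp1, hp2⟩ := Polynomial.lifts_and_natDegree_eq_and_monic hl (minpoly.monic hθL)
  obtain ⟨hp2, hp3⟩ := hp2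
  rw [← hp2]
  apply Polynomial.natDegree_le_natDegree
  apply minpoly.min A θ hp3
  have h4 : aeval θ (p.map (algebraMap A L)) = 0 := by
    rw [hp1]; exact minpoly.aeval L θ
  rwa [aeval_map_algebraMap] at h4

end LD

open LD in
/-- LD: linear disjointness -/
theorem ld : LdStm := by
  intro Ω _ _ A L hAL hcl J _ u hu hind c hc hsum
  have hchar : CharZero A := (algebraMap A Ω).charZero
  set L' : IntermediateField A Ω := L.toIntermediateField (fun a => hAL a.2) with hL'
  have hcl' : ∀ y : L', IsAlgebraic A (y : Ω) → ∃ a : A, (a : Ω) = y := by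
    intro y hy
    have hyL : (y : Ω) ∈ L := y.2
    exact ⟨⟨y, hcl y hyL hy⟩, rfl⟩
  -- the primitive element
  have hfd : FiniteDimensional A (IntermediateField.adjoin A (Set.range c)) :=
    IntermediateField.finiteDimensional_adjoin (by
      rintro x ⟨j, rfl⟩
      exact (hc j).isIntegral)
  obtain ⟨α, hα⟩ := Field.exists_primitive_element A (IntermediateField.adjoin A (Set.range c))
  have hαi : IsIntegral A α := IsIntegral.of_finite A α
  set θ : Ω := (α : Ω) with hθ
  have hθi : IsIntegral A θ := hαi.algebraMap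
  have hpoly : ∀ j, ∃ p : A[X], aeval θ p = c j ∧ p.degree < (minpoly A θ).degree := by
    intro j
    have h1 : (⟨c j, IntermediateField.subset_adjoin A _ ⟨j, rfl⟩⟩ :
        IntermediateField.adjoin A (Set.range c)) ∈ (⊤ : IntermediateField A
          (IntermediateField.adjoin A (Set.range c))) := IntermediateField.mem_top
    rw [← hα] at h1
    have h2 : (⟨c j, IntermediateField.subset_adjoin A _ ⟨j, rfl⟩⟩ :
        IntermediateField.adjoin A (Set.range c)) ∈
          (IntermediateField.adjoin A {α}).toSubalgebra := h1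
    rw [IntermediateField.adjoin_simple_toSubalgebra_of_isAlgebraic hαi.isAlgebraic,
      Algebra.adjoin_singleton_eq_range_aeval] at h2
    obtain ⟨p, hp⟩ := h2
    have h3 : aeval θ p = c j := by
      have h4 : algebraMap (IntermediateField.adjoin A (Set.range c)) Ω (aeval α p) = c j := by
        have h5 : aeval α p = (⟨c j, IntermediateField.subset_adjoin A _ ⟨j, rfl⟩⟩ :
          IntermediateField.adjoin A (Set.range c)) := hp
        rw [h5]; rfl
      rw [← h4, ← aeval_algebraMap_apply]
      rfl
    refine ⟨p %ₘ minpoly A θ, ?_, Polynomial.degree_modByMonic_lt p (minpoly.monic hθi)⟩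
    rw [← h3]
    exact Polynomial.aeval_modByMonic_eq_self_of_root (minpoly.aeval A θ)
  choose p hp1 hp2 using hpoly
  -- the relation over `L`
  set q : L'[X] := ∑ j, C (⟨u j, hu j⟩ : L') * (p j).map (algebraMap A L') with hq
  have hq0 : aeval θ q = 0 := by
    rw [hq, map_sum, ← hsum]
    refine Finset.sum_congr rfl fun j _ => ?_
    rw [map_mul, aeval_C, aeval_map_algebraMap, hp1, mul_comm]
    rfl
  have hdeg : (minpoly A θ).degree ≤ (minpoly L' θ).degree := by
    rw [Polynomial.degree_eq_natDegree (minpoly.ne_zero hθi),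
      Polynomial.degree_eq_natDegree (minpoly.ne_zero (hθi.tower_top : IsIntegral L' θ))]
    exact_mod_cast lift_minpoly L' hcl' θ hθi
  have hqd : q.degree < (minpoly L' θ).degree := by
    refine lt_of_lt_of_le ?_ hdeg
    rw [hq]
    have hbot : (⊥ : WithBot ℕ) < (minpoly A θ).degree := by
      rw [bot_lt_iff_ne_bot, Ne, Polynomial.degree_eq_bot]
      exact minpoly.ne_zero hθi
    refine lt_of_le_of_lt (Polynomial.degree_sum_le _ _) ?_
    rw [Finset.sup_lt_iff hbot]
    intro j _
    refine lt_of_le_of_lt (Polynomial.degree_mul_le _ _) ?_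
    refine lt_of_le_of_lt (add_le_add Polynomial.degree_C_le (Polynomial.degree_map_le)) ?_
    rw [zero_add]
    exact hp2 j
  have hqz : q = 0 := by
    by_contra hne
    exact absurd (minpoly.degree_le_of_ne_zero L' θ hne hq0) (not_le.2 hqd)
  have hcoef : ∀ i j, (p j).coeff i = 0 := by
    intro i
    have h1 : ∑ j, ((p j).coeff i : Ω) * u j = 0 := by
      have h2 := congrArg (fun r : L'[X] => ((r.coeff i : L') : Ω)) hqz
      simp only [hq, Polynomial.finsetSum_coeff, Polynomial.coeff_C_mul, Polynomial.coeff_map,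
        Polynomial.coeff_zero] at h2
      rw [← h2.trans (by simp : (((0 : L') : Ω)) = 0)]
      rw [AddSubmonoidClass.coe_finsetSum]
      refine Finset.sum_congr rfl fun j _ => ?_
      rw [mul_comm]
      rfl
    have h2 := hind (fun j => ((p j).coeff i : Ω)) (fun j => ((p j).coeff i).2) h1
    intro j
    exact Subtype.ext (h2 j)
  intro j
  rw [← hp1 j]
  have : p j = 0 := by
    ext i
    rw [hcoef i j, Polynomial.coeff_zero]
  rw [this, map_zero]

end Pool.Agent.NH29.GN
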