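import Pool.Agent.NH29.GN.Stm3

/-!
# Project GN, part 3: the small elements of an ultraproduct are an algebraically closed subfield
-/

set_option autoImplicit false

namespace Pool.Agent.NH29.GN

open MvPolynomial Module Filter

namespace Sml68

variable {I : Type} {𝒰 : Ultrafilter I} {E : I → Type} [∀ i, Field (E i)] (T : HFam 𝒰 E)

lemma sm_congr {f g : ∀ i, E i} (h : ∀ᶠ i in (𝒰 : Filter I), f i = g i) (hf : Sm T f) :
    Sm T g := by
  intro N
  filter_upwards [h, hf N] with i h1 h2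
  rwa [← h1]

lemma sm_three {f g k : ∀ i, E i} (hf : Sm T f) (hg : Sm T g)
    (h : ∀ i, T.h i (k i) ≤ T.h i (f i) + T.h i (g i) + T.c 0) : Sm T k := by
  intro N
  filter_upwards [hf (3 * N), hg (3 * N), T.small 0 (3 * N)] with i h1 h2 h3
  push_cast at h1 h2 h3
  have h4 : (N : ℝ) * T.h i (k i) ≤ N * (T.h i (f i) + T.h i (g i) + T.c 0) :=
    mul_le_mul_of_nonneg_left (h i) (Nat.cast_nonneg N)
  linarith

lemma sm_one {f k : ∀ i, E i} (hf : Sm T f)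
    (h : ∀ i, T.h i (k i) ≤ T.h i (f i) + T.c 0) : Sm T k := by
  refine sm_three T hf hf fun i => (h i).trans ?_
  have := T.nonneg i (f i)
  linarith

lemma sm_const {k : ∀ i, E i} (h : ∀ i, T.h i (k i) ≤ T.c 0) : Sm T k := by
  intro N
  filter_upwards [T.small 0 N] with i h1
  exact (mul_le_mul_of_nonneg_left (h i) (Nat.cast_nonneg N)).trans h1

lemma mk_inv (f : ∀ i, E i) :
    UPr.mk 𝒰 E (fun i => (f i)⁻¹) = (UPr.mk 𝒰 E f)⁻¹ := by
  by_cases h0 : UPr.mk 𝒰 E f = 0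
  · rw [h0, inv_zero]
    have h1 : UPr.mk 𝒰 E f = UPr.mk 𝒰 E 0 := by rw [h0, map_zero]
    rw [UPr.mk_eq] at h1
    have h2 : UPr.mk 𝒰 E (fun i => (f i)⁻¹) = UPr.mk 𝒰 E 0 := by
      rw [UPr.mk_eq]
      filter_upwards [h1] with i hi
      rw [hi]
      exact inv_zero
    rw [h2, map_zero]
  · have h1 : ∀ᶠ i in (𝒰 : Filter I), ¬ f i = 0 := by
      rw [Ultrafilter.eventually_not]
      intro h2
      apply h0
      have h3 : UPr.mk 𝒰 E f = UPr.mk 𝒰 E 0 := UPr.mk_eq 𝒰 E |>.2 h2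
      rw [h3, map_zero]
    have h2 : UPr.mk 𝒰 E (f * fun i => (f i)⁻¹) = UPr.mk 𝒰 E 1 := by
      rw [UPr.mk_eq]
      filter_upwards [h1] with i hi
      exact mul_inv_cancel₀ hi
    rw [map_mul, map_one] at h2
    exact eq_inv_of_mul_eq_one_right h2

/-- the subfield of the small elements -/
noncomputable def AA : Subfield (UPr 𝒰 E) where
  carrier := {y | ∃ f, UPr.mk 𝒰 E f = y ∧ Sm T f}
  mul_mem' := by
    rintro _ _ ⟨f, rfl, hf⟩ ⟨g, rfl, hg⟩
    exact ⟨f * g, map_mul _ _ _, sm_three T hf hg fun i => T.mul i _ _⟩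
  one_mem' := ⟨1, map_one _, sm_const T fun i => T.one i⟩
  add_mem' := by
    rintro _ _ ⟨f, rfl, hf⟩ ⟨g, rfl, hg⟩
    exact ⟨f + g, map_add _ _ _, sm_three T hf hg fun i => T.add i _ _⟩
  zero_mem' := ⟨0, map_zero _, sm_const T fun i => T.zero i⟩
  neg_mem' := by
    rintro _ ⟨f, rfl, hf⟩
    exact ⟨-f, map_neg _ _, sm_one T hf fun i => T.neg i _⟩
  inv_mem' := by
    rintro _ ⟨f, rfl, hf⟩
    exact ⟨fun i => (f i)⁻¹, mk_inv f, sm_one T hf fun i => T.inv i _⟩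

lemma mem_AA (y : UPr 𝒰 E) : y ∈ AA T ↔ ∃ f, UPr.mk 𝒰 E f = y ∧ Sm T f := Iff.rfl

lemma mem_AA' (f : ∀ i, E i) : UPr.mk 𝒰 E f ∈ AA T ↔ Sm T f := by
  rw [mem_AA]
  constructor
  · rintro ⟨g, h1, h2⟩
    exact sm_congr T ((UPr.mk_eq 𝒰 E).1 h1) h2
  · intro h
    exact ⟨f, rfl, h⟩

lemma root_mem (f : ∀ i, E i) (n : ℕ) (α : Fin n → ∀ i, E i) (hα : ∀ j, Sm T (α j))
    (h : ∀ᶠ i in (𝒰 : Filter I), f i ^ n = ∑ j, α j i * f i ^ (j : ℕ)) : Sm T f := by
  intro N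
  have h1 : ∀ᶠ i in (𝒰 : Filter I), ∀ j, (((n + 1) * N : ℕ) : ℝ) * T.h i (α j i) ≤ T.H i :=
    eventually_all.2 fun j => hα j _
  filter_upwards [h, h1, T.small n ((n + 1) * N)] with i k1 k2 k3
  have k4 := T.root n i (f i) (fun j => α j i) k1
  have hn : (0 : ℝ) < (n : ℝ) + 1 := by positivity
  have k5 : ((n : ℝ) + 1) * (N * T.h i (f i)) ≤ ((n : ℝ) + 1) * T.H i := by
    calc ((n : ℝ) + 1) * (N * T.h i (f i))
        ≤ ((n : ℝ) + 1) * (N * (∑ j, T.h i (α j i) + T.c n)) := by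
          apply mul_le_mul_of_nonneg_left _ hn.le
          exact mul_le_mul_of_nonneg_left k4 (Nat.cast_nonneg N)
      _ = ∑ j, (((n + 1) * N : ℕ) : ℝ) * T.h i (α j i) + (((n + 1) * N : ℕ) : ℝ) * T.c n := by
          rw [← Finset.mul_sum]
          push_cast
          ring
      _ ≤ ∑ _j : Fin n, T.H i + T.H i := by
          apply add_le_add _ k3
          exact Finset.sum_le_sum fun j _ => k2 j
      _ = ((n : ℝ) + 1) * T.H i := by
          rw [Finset.sum_const, Finset.card_univ, Fintype.card_fin, nsmul_eq_mul]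
          ring
  exact le_of_mul_le_mul_left k5 hn

end Sml68

open Sml68 in
theorem sml : SmlStm := by
  intro I 𝒰 E _ T
  refine ⟨AA T, mem_AA' T, ?_⟩
  intro y hy
  obtain ⟨f, rfl⟩ := UPr.mk_surj 𝒰 E y
  rw [mem_AA']
  have hint : IsIntegral (AA T) (UPr.mk 𝒰 E f) := hy.isIntegral
  obtain ⟨n, hn⟩ : ∃ n, n = (minpoly (AA T) (UPr.mk 𝒰 E f)).natDegree := ⟨_, rfl⟩
  have hmon := minpoly.monic hint
  have h0 := minpoly.aeval (AA T) (UPr.mk 𝒰 E f)
  rw [Polynomial.aeval_eq_sum_range, Finset.sum_range_succ, Polynomial.Monic.coeff_natDegree hmon,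
    one_smul, ← hn] at h0
  have hα : ∀ j : Fin n, ∃ α : ∀ i, E i,
      UPr.mk 𝒰 E α = ((-((minpoly (AA T) (UPr.mk 𝒰 E f)).coeff j) : AA T) : UPr 𝒰 E) ∧
        Sm T α := by
    intro j
    exact (mem_AA T _).1 (-((minpoly (AA T) (UPr.mk 𝒰 E f)).coeff j)).2
  choose α hα1 hα2 using hα
  apply root_mem T f n α hα2
  have h1 : UPr.mk 𝒰 E (f ^ n) = UPr.mk 𝒰 E (∑ j : Fin n, α j * f ^ (j : ℕ)) := by
    rw [map_pow, map_sum]
    have h2 : ∑ j : Fin n, UPr.mk 𝒰 E (α j * f ^ (j : ℕ)) +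
        ∑ j ∈ Finset.range n, (minpoly (AA T) (UPr.mk 𝒰 E f)).coeff j •
          (UPr.mk 𝒰 E f) ^ j = 0 := by
      rw [Finset.sum_range, ← Finset.sum_add_distrib]
      refine Finset.sum_eq_zero fun j _ => ?_
      rw [map_mul, map_pow, hα1, Subfield.smul_def, smul_eq_mul, ← add_mul]
      rw [← Subfield.coe_add, neg_add_cancel, Subfield.coe_zero, zero_mul]
    linear_combination h0 - h2
  rw [UPr.mk_eq] at h1
  filter_upwards [h1] with i hi
  rw [Pi.pow_apply, Finset.sum_apply] at hi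
  rw [hi]
  rfl

end Pool.Agent.NH29.GN
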