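import Pool.Agent.NH29.GN.Stc

/-!
# Project GN: assembly
-/

set_option autoImplicit false

namespace Pool.Agent.NH29.GN

open MvPolynomial Module Stc
open scoped LinearAlgebra.Projectivization

namespace Fn

/-! ## The exceptional set is contained in a proper closed subset -/

theorem exists_poly_one (hB : StbStm) (hC : StcStm) {k K : Type} [Field k] [Field K]
    [Algebra k K] [IsAlgClosed K] [CharZero k] {M n q : ℕ}
    {V : Set (MvPolynomial (Fin (M + 1)) k)} (hV : ∀ H ∈ V, ∃ e, H.IsHomogeneous e)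
    {ℓ : Fin (n + 1) → MvPolynomial (Fin (M + 1)) k} (hℓ : ∀ j, (ℓ j).IsHomogeneous 1)
    (hN : NoZero V ℓ) (hq : n + 1 ≤ q) {d : Fin q → ℕ} (hd : ∀ i, 1 ≤ d i) (hNum : Num n d)
    (C : Finset (Fin q)) (hCu : C ≠ Finset.univ) :
    ∃ Φ : MvPolynomial (Idx M d) k, Φ ≠ 0 ∧ ∀ t : Idx M d → K, aeval t Φ ≠ 0 →
      ∀ x : Fin (M + 1) → UP K, ¬ Bad k K (UP K) V C t x := by
  by_contra h
  push Not at h
  obtain ⟨K', L', _, _, _, _, _, t, x, ht, hx⟩ := hB k K (UP K) M q V d C (by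
    intro Q hQ
    obtain ⟨t, h1, x, h2⟩ := h Q hQ
    exact ⟨t, h1, x, h2⟩)
  exact hC k K' L' M n q V hV ℓ hℓ hN hq d hd hNum C hCu t ht x hx

theorem exists_poly (hB : StbStm) (hC : StcStm) {k K : Type} [Field k] [Field K]
    [Algebra k K] [IsAlgClosed K] [CharZero k] {M n q : ℕ}
    {V : Set (MvPolynomial (Fin (M + 1)) k)} (hV : ∀ H ∈ V, ∃ e, H.IsHomogeneous e)
    {ℓ : Fin (n + 1) → MvPolynomial (Fin (M + 1)) k} (hℓ : ∀ j, (ℓ j).IsHomogeneous 1)
    (hN : NoZero V ℓ) (hq : n + 1 ≤ q) {d : Fin q → ℕ} (hd : ∀ i, 1 ≤ d i) (hNum : Num n d) :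
    ∃ Φ : MvPolynomial (Idx M d) k, Φ ≠ 0 ∧ ∀ t : Idx M d → K, aeval t Φ ≠ 0 →
      ∀ C : Finset (Fin q), C ≠ Finset.univ →
      ∀ x : Fin (M + 1) → UP K, ¬ Bad k K (UP K) V C t x := by
  classical
  have h1 : ∀ C : Finset (Fin q), ∃ Φ : MvPolynomial (Idx M d) k, Φ ≠ 0 ∧
      (C ≠ Finset.univ → ∀ t : Idx M d → K, aeval t Φ ≠ 0 →
      ∀ x : Fin (M + 1) → UP K, ¬ Bad k K (UP K) V C t x) := by
    intro C
    by_cases hCu : C = Finset.univ
    · exact ⟨1, one_ne_zero, fun h => absurd hCu h⟩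
    · obtain ⟨Φ, h1, h2⟩ := exists_poly_one (K := K) hB hC hV hℓ hN hq hd hNum C hCu
      exact ⟨Φ, h1, fun _ => h2⟩
  choose Φ h1 h2 using h1
  refine ⟨∏ C, Φ C, Finset.prod_ne_zero_iff.2 fun C _ => h1 C, fun t ht C hCu x => ?_⟩
  rw [map_prod, Finset.prod_ne_zero_iff] at ht
  exact h2 C hCu t (ht C (Finset.mem_univ _)) x

/-! ## Forms -/

theorem fv_eq {K : Type} [Field K] {M q : ℕ} {d : Fin q → ℕ}
    {F : Fin q → MvPolynomial (Fin (M + 1)) K} (hF : ∀ i, (F i).IsHomogeneous (d i))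
    (x : Fin (M + 1) → K) (i : Fin q) :
    fv (K := K) (L := K) (d := d) (fun s : Idx M d => coeff s.2.1 (F s.1)) x i =
      eval x (F i) := by
  rw [eval, coe_eval₂Hom, eval₂_form (RingHom.id K) x (hF i)]
  rfl

/-! ## Integral points -/

section R

variable {K : Type} [Field K] {M : ℕ}

theorem exists_sub (α : Fin (M + 1) →₀ ℕ) (e : ℕ) (h : e ≤ α.degree) :
    ∃ α' ≤ α, α'.degree = e := by
  classical
  induction e with
  | zero => exact ⟨0, by simp, by simp⟩
  | succ e ih =>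
    obtain ⟨α', h1, h2⟩ := ih (by omega)
    have h3 : ∃ i, α' i < α i := by
      by_contra h4
      push Not at h4
      have h5 : α' = α := le_antisymm h1 h4
      rw [h5] at h2
      omega
    obtain ⟨i, hi⟩ := h3
    refine ⟨α' + Finsupp.single i 1, ?_, ?_⟩
    · intro j
      rw [Finsupp.add_apply]
      by_cases hj : j = i
      · subst hj
        rw [Finsupp.single_eq_same]
        exact hi
      · rw [Finsupp.single_eq_of_ne hj, add_zero]
        exact h1 j
    · rw [map_add, h2, Finsupp.degree_single]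

/-- the values of the forms of degree `e` -/
def A (R : Subring K) (x : Fin (M + 1) → K) (e : ℕ) : Submodule R K :=
  Submodule.span R (Set.range fun β : Mon M e => val x β.1)

variable {R : Subring K} {x : Fin (M + 1) → K}

theorem A_mul {e e' : ℕ} {y y' : K} (hy : y ∈ A R x e) (hy' : y' ∈ A R x e') :
    y * y' ∈ A R x (e + e') := by
  have h1 : A R x e * A R x e' ≤ A R x (e + e') := by
    rw [A, A, Submodule.span_mul_span, Submodule.span_le]
    rintro _ ⟨_, ⟨β, rfl⟩, _, ⟨γ, rfl⟩, rfl⟩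
    refine Submodule.subset_span ⟨⟨β.1 + γ.1, by rw [map_add, β.2, γ.2]⟩, ?_⟩
    exact val_add x _ _
  exact h1 (Submodule.mul_mem_mul hy hy')

theorem A_one : (1 : K) ∈ A R x 0 :=
  Submodule.subset_span ⟨⟨0, by simp⟩, by simp [val]⟩

theorem A_pow {e : ℕ} {y : K} (hy : y ∈ A R x e) (N : ℕ) : y ^ N ∈ A R x (N * e) := by
  induction N with
  | zero => rw [pow_zero, zero_mul]; exact A_one
  | succ N ih =>
    rw [pow_succ, Nat.succ_mul]
    exact A_mul ih hy

theorem A_prod {ι : Type} [DecidableEq ι] (s : Finset ι) (e : ι → ℕ) (y : ι → K)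
    (hy : ∀ i ∈ s, y i ∈ A R x (e i)) : ∏ i ∈ s, y i ∈ A R x (∑ i ∈ s, e i) := by
  induction s using Finset.induction_on with
  | empty => rw [Finset.prod_empty, Finset.sum_empty]; exact A_one
  | insert i s hi ih =>
    rw [Finset.prod_insert hi, Finset.sum_insert hi]
    exact A_mul (hy i (Finset.mem_insert_self i s))
      (ih fun j hj => hy j (Finset.mem_insert_of_mem hj))

theorem A_form {e : ℕ} {G : MvPolynomial (Fin (M + 1)) K} (hG : G.IsHomogeneous e)
    (hR : ∀ β, coeff β G ∈ R) : eval x G ∈ A R x e := by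
  rw [eval, coe_eval₂Hom, eval₂_form (RingHom.id K) x hG]
  refine Submodule.sum_mem _ fun β _ => ?_
  have h1 : (RingHom.id K) (coeff β.1 G) * val x β.1 = (⟨coeff β.1 G, hR _⟩ : R) • val x β.1 := rfl
  rw [h1]
  exact Submodule.smul_mem _ _ (Submodule.subset_span ⟨β, rfl⟩)

theorem A_div {s : ℕ} {f : K} (h : ∀ α : Fin (M + 1) →₀ ℕ, α.degree = s → val x α / f ∈ R)
    (N : ℕ) {y : K} (hy : y ∈ A R x (N * s)) : y / f ^ N ∈ R := by
  have h1 : ∀ (N : ℕ) (α : Fin (M + 1) →₀ ℕ), α.degree = N * s → val x α / f ^ N ∈ R := by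
    intro N
    induction N with
    | zero =>
      intro α hα
      rw [zero_mul] at hα
      have h2 : α = 0 := by
        ext i
        have h3 := Finsupp.le_degree i α
        rw [hα] at h3
        simpa using h3
      rw [h2]
      simp [val, R.one_mem]
    | succ N ih =>
      intro α hα
      obtain ⟨α', h2, h3⟩ := exists_sub α s (by rw [hα, Nat.succ_mul]; omega)
      have h4 : α = (α - α') + α' := (tsub_add_cancel_of_le h2).symm
      have h5 : (α - α').degree = N * s := by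
        have h6 := congrArg Finsupp.degree h4
        rw [map_add, hα, h3, Nat.succ_mul] at h6
        omega
      rw [h4, val_add, pow_succ, mul_div_mul_comm]
      exact R.mul_mem (ih _ h5) (h _ h3)
  refine Submodule.span_induction (p := fun y _ => y / f ^ N ∈ R) ?_ ?_ ?_ ?_ hy
  · rintro _ ⟨β, rfl⟩
    exact h1 N β.1 β.2
  · rw [zero_div]; exact R.zero_mem
  · intro u v _ _ hu hv
    rw [add_div]; exact R.add_mem hu hv
  · intro a u _ hu
    have h2 : a • u / f ^ N = (a : K) * (u / f ^ N) := by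
      change (a : K) * u / f ^ N = _
      rw [mul_div_assoc]
    rw [h2]
    exact R.mul_mem a.2 hu

theorem quot_mem {q : ℕ} {d : Fin q → ℕ} {F : Fin q → MvPolynomial (Fin (M + 1)) K}
    (hF : ∀ i, (F i).IsHomogeneous (d i)) (hR : ∀ i β, coeff β (F i) ∈ R) (S : Finset (Fin q))
    (h0 : ∀ b ∈ S, eval x (F b) ≠ 0)
    (h : ∀ α : Fin (M + 1) →₀ ℕ, α.degree = ∑ b ∈ S, d b →
      val x α / ∏ b ∈ S, eval x (F b) ∈ R) (b b' : Fin q) (hb' : b' ∈ S) :
    eval x (F b) ^ d b' / eval x (F b') ^ d b ∈ R := by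
  classical
  have h1 : eval x (F b) ^ d b' * (∏ c ∈ S.erase b', eval x (F c)) ^ d b ∈
      A R x (d b * ∑ c ∈ S, d c) := by
    have h2 := A_mul (A_pow (A_form (x := x) (hF b) (hR b)) (d b'))
      (A_pow (A_prod (S.erase b') d (fun c => eval x (F c))
        fun c _ => A_form (x := x) (hF c) (hR c)) (d b))
    have h3 : d b' * d b + d b * ∑ c ∈ S.erase b', d c = d b * ∑ c ∈ S, d c := by
      rw [← Finset.add_sum_erase S d hb']
      ring
    rw [h3] at h2
    exact h2
  have h2 := A_div h (d b) h1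
  have h3 : eval x (F b) ^ d b' * (∏ c ∈ S.erase b', eval x (F c)) ^ d b /
      (∏ b ∈ S, eval x (F b)) ^ d b = eval x (F b) ^ d b' / eval x (F b') ^ d b := by
    rw [← Finset.mul_prod_erase S (fun c => eval x (F c)) hb', mul_pow]
    have h4 : (∏ c ∈ S.erase b', eval x (F c)) ^ d b ≠ 0 :=
      pow_ne_zero _ (Finset.prod_ne_zero_iff.2 fun c hc => h0 c (Finset.mem_of_mem_erase hc))
    exact mul_div_mul_right _ _ h4
  rw [h3] at h2
  exact h2

end R

end Fn

end Pool.Agent.NH29.GN
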