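import Pool.Agent.NH29.GN.Stm

/-!
# Project GN, uniformity: statements

Uniform bounds for the number of points, for all coefficients off the exceptional set.
-/

set_option autoImplicit false

namespace Pool.Agent.NH29.GN

open MvPolynomial Module Filter
open scoped LinearAlgebra.Projectivization

/-- FINE: the nondegenerate solutions of the unit equation have finitely many ratios -/
def FineStm : Prop :=
  ∀ (K : Type) [Field K], UE K → ∀ Γ : Subgroup Kˣ, Γ.FG → ∀ (J : Type) [Fintype J],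
    ∃ E : Finset K, ∀ w : J → Kˣ, (∀ j, w j ∈ Γ) → ∑ j, (w j : K) = 0 →
      (∀ S : Finset J, S.Nonempty → S ≠ Finset.univ → ∑ j ∈ S, (w j : K) ≠ 0) →
      ∀ i j, (w i : K) / w j ∈ E

/-- the unit equation for the ultrapower of a finitely generated group, with coefficients in the
ultrapower of the field -/
def UEU (K : Type) [Field K] : Prop :=
  ∀ Γ : Subgroup Kˣ, Γ.FG → ∀ (𝒰 : Ultrafilter ℕ) (J : Type) [Fintype J] (u : J → ℕ → ℕ → Kˣ),
    (∀ j s i, u j s i ∈ Γ) →
    (∀ j j', j ≠ j' → ∀ c : UP K, ¬ ∀ᶠ s in (𝒰 : Filter ℕ),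
      UP.mk (fun i => (u j s i : K)) = c * UP.mk (fun i => (u j' s i : K))) →
    ∀ a : J → UP K, (∀ᶠ s in (𝒰 : Filter ℕ), ∑ j, a j * UP.mk (fun i => (u j s i : K)) = 0) →
      ∀ j, a j = 0

/-- UEU -/
def UeuStm : Prop := ∀ (K : Type) [Field K], UE K → UEU K

/-- STU: more and more points with quotients in a fixed finitely generated group, for varying
coefficients, have a nonconstant limit -/
def StuStm : Prop :=
  ∀ (k K : Type) [Field k] [Field K] [Algebra k K] [IsAlgClosed K] [CharZero k], UEU K →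
    ∀ (M q : ℕ) (V : Set (MvPolynomial (Fin (M + 1)) k)),
    (∀ H ∈ V, ∃ e, H.IsHomogeneous e) → ∀ (d : Fin q → ℕ) (C : Finset (Fin q))
    (t : ℕ → Idx M d → K) (Γ : Subgroup Kˣ), Γ.FG →
    (∀ N : ℕ, ∃ P : Fin N → ℙ K (Fin (M + 1) → K), Function.Injective P ∧ ∀ j,
      (∀ H ∈ V, aeval (P j).rep H = 0) ∧ (∀ c ∈ C, fv (t N) (P j).rep c = 0) ∧
      (∀ b, b ∉ C → fv (t N) (P j).rep b ≠ 0) ∧ ∀ b b', b ∉ C → b' ∉ C → ∃ γ ∈ Γ,
        fv (t N) (P j).rep b ^ d b' / fv (t N) (P j).rep b' ^ d b = (γ : K)) →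
    letI : Algebra k (UP K) := ((algebraMap K (UP K)).comp (algebraMap k K)).toAlgebra
    ∃ x : Fin (M + 1) → UP (UP K),
      Bad k (UP K) (UP (UP K)) V C (fun i => UP.mk fun N => t N i) x

end Pool.Agent.NH29.GN
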