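import Pool.Agent.NH29.GN.Fin
import Pool.Agent.NH29.GN.Stc2
import Pool.Agent.NH29.GN.Stm2
import Pool.Agent.NH29.GN.Sta
import Pool.Agent.NH29.GN.Stb

/-!
# Project GN: uniform assembly
-/

set_option autoImplicit false

namespace Pool.Agent.NH29.GN

open MvPolynomial Module Filter
open scoped LinearAlgebra.Projectivization

namespace Fn

instance closed_UP (K : Type) [Field K] [IsAlgClosed K] : IsAlgClosed (UP K) :=
  Stb.closed (hyperfilter ℕ) K

/-- the points with quotients in `Γ` -/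
def Good {k K : Type} [Field k] [Field K] [Algebra k K] {M q : ℕ}
    (V : Set (MvPolynomial (Fin (M + 1)) k)) {d : Fin q → ℕ} (C : Finset (Fin q))
    (t : Idx M d → K) (Γ : Subgroup Kˣ) (P : ℙ K (Fin (M + 1) → K)) : Prop :=
  (∀ H ∈ V, aeval P.rep H = 0) ∧ (∀ c ∈ C, fv t P.rep c = 0) ∧
    (∀ b, b ∉ C → fv t P.rep b ≠ 0) ∧ ∀ b b', b ∉ C → b' ∉ C → ∃ γ ∈ Γ,
      fv t P.rep b ^ d b' / fv t P.rep b' ^ d b = (γ : K)

theorem mk_aeval {k K : Type} [Field k] [Field K] [Algebra k K] {σ : Type} (t : ℕ → σ → K)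
    (Q : MvPolynomial σ k) :
    letI : Algebra k (UP K) := ((algebraMap K (UP K)).comp (algebraMap k K)).toAlgebra
    aeval (fun i => (UP.mk fun N => t N i : UP K)) Q = UP.mk (fun N => aeval (t N) Q) := by
  let _ : Algebra k (UP K) := ((algebraMap K (UP K)).comp (algebraMap k K)).toAlgebra
  change aeval (fun i => (UP.mk fun N => t N i : UP K)) Q = STA.mkH K (fun N => aeval (t N) Q)
  induction Q using MvPolynomial.induction_on with
  | C a =>
    rw [aeval_C]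
    simp only [aeval_C]
    rfl
  | add f g hf hg =>
    have h1 : (fun N => aeval (t N) (f + g)) = (fun N => aeval (t N) f) +
        (fun N => aeval (t N) g) := by
      funext N; simp
    rw [h1, map_add, map_add, hf, hg]
  | mul_X f i hf =>
    have h1 : (fun N => aeval (t N) (f * X i)) = (fun N => aeval (t N) f) *
        (fun N => t N i) := by
      funext N; simp
    rw [h1, map_mul, map_mul, hf, aeval_X]
    rfl

theorem unif_one (hB : StbStm) (hC : Stc2Stm) (hU : StuStm) {k K : Type} [Field k] [Field K]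
    [Algebra k K] [IsAlgClosed K] [CharZero k] (hUEU : UEU K) {M n q : ℕ}
    {V : Set (MvPolynomial (Fin (M + 1)) k)} (hV : ∀ H ∈ V, ∃ e, H.IsHomogeneous e)
    {ℓ : Fin (n + 1) → MvPolynomial (Fin (M + 1)) k} (hℓ : ∀ j, (ℓ j).IsHomogeneous 1)
    (hN : NoZero V ℓ) (hq : n + 1 ≤ q) {d : Fin q → ℕ} (hd : ∀ i, 1 ≤ d i)
    (C : Finset (Fin q)) (hNum : Num2 n d C) :
    ∃ Φ : MvPolynomial (Idx M d) k, Φ ≠ 0 ∧ ∀ Γ : Subgroup Kˣ, Γ.FG → ∃ N : ℕ,
      ∀ t : Idx M d → K, aeval t Φ ≠ 0 → ∀ P : Fin N → ℙ K (Fin (M + 1) → K),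
        Function.Injective P → ¬ ∀ j, Good V C t Γ (P j) := by
  by_contra h
  push Not at h
  let _ : Algebra k (UP K) := ((algebraMap K (UP K)).comp (algebraMap k K)).toAlgebra
  obtain ⟨K', L', _, _, _, _, _, t, x, ht, hx⟩ := hB k (UP K) (UP (UP K)) M q V d C (by
    intro Q hQ
    obtain ⟨Γ, hΓ, h1⟩ := h Q hQ
    choose t h2 P h3 h4 using h1
    refine ⟨fun i => UP.mk fun N => t N i, ?_, ?_⟩
    · rw [mk_aeval]
      exact STA.mk_ne_zero _ h2
    · exact hU k K hUEU M q V hV d C t Γ hΓ fun N => ⟨P N, h3 N, h4 N⟩)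
  exact hC k K' L' M n q V hV ℓ hℓ hN hq d hd C hNum t ht x hx

theorem unif (hB : StbStm) (hC : Stc2Stm) (hU : StuStm) {k K : Type} [Field k] [Field K]
    [Algebra k K] [IsAlgClosed K] [CharZero k] (hUEU : UEU K) {M n q : ℕ}
    {V : Set (MvPolynomial (Fin (M + 1)) k)} (hV : ∀ H ∈ V, ∃ e, H.IsHomogeneous e)
    {ℓ : Fin (n + 1) → MvPolynomial (Fin (M + 1)) k} (hℓ : ∀ j, (ℓ j).IsHomogeneous 1)
    (hN : NoZero V ℓ) (hq : n + 1 ≤ q) {d : Fin q → ℕ} (hd : ∀ i, 1 ≤ d i)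
    (hNum : ∀ C : Finset (Fin q), C ≠ Finset.univ → Num2 n d C) :
    ∃ Φ : MvPolynomial (Idx M d) k, Φ ≠ 0 ∧ ∀ Γ : Subgroup Kˣ, Γ.FG → ∃ N : ℕ,
      ∀ t : Idx M d → K, aeval t Φ ≠ 0 → ∀ C : Finset (Fin q), C ≠ Finset.univ →
        {P | Good V C t Γ P}.encard ≤ N := by
  classical
  have h1 : ∀ C : Finset (Fin q), ∃ Φ : MvPolynomial (Idx M d) k, Φ ≠ 0 ∧
      (C ≠ Finset.univ → ∀ Γ : Subgroup Kˣ, Γ.FG → ∃ N : ℕ,
      ∀ t : Idx M d → K, aeval t Φ ≠ 0 → ∀ P : Fin N → ℙ K (Fin (M + 1) → K),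
        Function.Injective P → ¬ ∀ j, Good V C t Γ (P j)) := by
    intro C
    by_cases hCu : C = Finset.univ
    · exact ⟨1, one_ne_zero, fun h => absurd hCu h⟩
    · obtain ⟨Φ, h1, h2⟩ := unif_one (K := K) hB hC hU hUEU hV hℓ hN hq hd C (hNum C hCu)
      exact ⟨Φ, h1, fun _ => h2⟩
  choose Φ h1 h2 using h1
  refine ⟨∏ C, Φ C, Finset.prod_ne_zero_iff.2 fun C _ => h1 C, fun Γ hΓ => ?_⟩
  have h3 : ∀ C : Finset (Fin q), ∃ N : ℕ, C ≠ Finset.univ → ∀ t : Idx M d → K,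
      aeval t (Φ C) ≠ 0 → {P | Good V C t Γ P}.encard ≤ N := by
    intro C
    by_cases hCu : C = Finset.univ
    · exact ⟨0, fun h => absurd hCu h⟩
    · obtain ⟨N, hN⟩ := h2 C hCu Γ hΓ
      refine ⟨N, fun _ t ht => ?_⟩
      by_contra h4
      push Not at h4
      obtain ⟨S, hS1, hS2⟩ := Set.exists_subset_encard_eq h4.le
      have hSf : S.Finite := Set.finite_of_encard_eq_coe hS2
      have hcard : hSf.toFinset.card = N := by
        rw [hSf.encard_eq_coe_toFinset_card] at hS2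
        exact_mod_cast hS2
      let e : Fin N ≃ hSf.toFinset := (Fin.castOrderIso hcard.symm).toEquiv.trans
        hSf.toFinset.equivFin.symm
      exact hN t ht (fun j => (e j : ℙ K (Fin (M + 1) → K)))
        (Subtype.val_injective.comp e.injective)
        (fun j => hS1 ((Set.Finite.mem_toFinset hSf).1 (e j).2))
  choose N hN3 using h3
  refine ⟨∑ C, N C, fun t ht C hCu => ?_⟩
  rw [map_prod, Finset.prod_ne_zero_iff] at ht
  refine (hN3 C hCu t (ht C (Finset.mem_univ _))).trans ?_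
  exact_mod_cast Finset.single_le_sum (fun _ _ => Nat.zero_le _) (Finset.mem_univ C)

end Fn

end Pool.Agent.NH29.GN
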