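import Pool.Agent.NH29.GN.Stm5

/-!
# Number fields are contained in Galois ones containing a square root of `-1`
-/

set_option autoImplicit false

namespace Pool.Agent.NH29.GN

open IntermediateField in
theorem gal : GalStm := by
  intro κ _ _
  haveI : Algebra.IsAlgebraic ℚ (AlgebraicClosure κ) :=
    Algebra.IsAlgebraic.trans ℚ κ (AlgebraicClosure κ)
  haveI : IsAlgClosure ℚ (AlgebraicClosure κ) := ⟨inferInstance, inferInstance⟩
  haveI : Normal ℚ (AlgebraicClosure κ) := IsAlgClosure.normal ℚ (AlgebraicClosure κ)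
  obtain ⟨i, hi⟩ : ∃ i : AlgebraicClosure κ, i ^ 2 = -1 :=
    IsAlgClosed.exists_pow_nat_eq (-1) (by norm_num : 0 < 2)
  let f : κ →ₐ[ℚ] AlgebraicClosure κ := IsScalarTower.toAlgHom ℚ κ (AlgebraicClosure κ)
  haveI h1 : FiniteDimensional ℚ f.fieldRange :=
    (AlgEquiv.ofInjectiveField f).toLinearEquiv.finiteDimensional
  haveI h2 : FiniteDimensional ℚ ℚ⟮i⟯ :=
    adjoin.finiteDimensional (Algebra.IsIntegral.isIntegral i)
  let F : IntermediateField ℚ (AlgebraicClosure κ) := f.fieldRange ⊔ ℚ⟮i⟯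
  haveI h3 : FiniteDimensional ℚ F := finiteDimensional_sup _ _
  let K : IntermediateField ℚ (AlgebraicClosure κ) := normalClosure ℚ F (AlgebraicClosure κ)
  have hFK : F ≤ K := le_normalClosure F
  haveI h4 : FiniteDimensional ℚ K := normalClosure.is_finiteDimensional ℚ F (AlgebraicClosure κ)
  haveI h5 : Normal ℚ K := normalClosure.normal ℚ F (AlgebraicClosure κ)
  haveI h6 : NumberField K := ⟨⟩
  let g : κ →ₐ[ℚ] K.toSubalgebra := f.codRestrict K.toSubalgebra fun x =>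
    hFK ((le_sup_left : f.fieldRange ≤ F) ⟨x, rfl⟩)
  refine ⟨K, inferInstance, inferInstance, (g : κ →+* K).toAlgebra, ⟨⟩, ⟨⟨i, ?_⟩, ?_⟩⟩
  · exact hFK ((le_sup_right : ℚ⟮i⟯ ≤ F) (mem_adjoin_simple_self ℚ i))
  · exact Subtype.ext hi

end Pool.Agent.NH29.GN
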