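import Pool.Agent.NH29.GN.Stm5

/-!
MOV: the unit equation with moving coefficients, nondegenerate case.
-/

set_option autoImplicit false

namespace Pool.Agent.NH29.GN

open Filter Height
open Pool.Agent.W180.OP (Pl av wt)

/-- MOV -/
theorem mov (hS : MovSStm) (hD : MovDStm) : MovStm := by
  intro κ _ _ Γ hΓ 𝒰 J _ j₀ N π m hπ hm u a₀ a hu ha0 ha hrel hind
  obtain ⟨S, C, hC, hSC⟩ := hD κ Γ hΓ J j₀ N π m hπ hm
  set X : ℕ → Fin (N + 1) → κ := fun s p => a p s * (u (π p) s : κ) with hX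
  set A : ℕ → ℝ := fun s => 1 + logHeight₁ (a₀ s) + ∑ p, logHeight₁ (a p s) with hA
  set U : ℕ → ℝ := fun s => logHeight (fun j => (u j s : κ)) with hU
  have hA1 : ∀ s, 1 ≤ A s := fun s => by
    have h1 : 0 ≤ logHeight₁ (a₀ s) := zero_le_logHeight₁ _
    have h2 : 0 ≤ ∑ p, logHeight₁ (a p s) := Finset.sum_nonneg fun p _ => zero_le_logHeight₁ _
    simp only [hA]
    linarith
  have hall : ∀ᶠ s in (𝒰 : Filter ℕ), ∀ p, a p s ≠ 0 := by
    rw [Filter.eventually_all]
    exact ha
  -- the inequalities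
  have hmain : ∀ᶠ s in (𝒰 : Filter ℕ), U s ≤ logHeight (X s) + C * A s ∧
      logHeight (X s) ≤ U s + C * A s ∧
      ∃ r : Pl κ → Option (Fin (N + 1)), (∀ v p, r v = some p → m p ≠ 0) ∧
        (N + 1) * logHeight (X s) + U s - C * A s ≤
          ∑ v ∈ S, wt v * ∑ q ∈ Finset.univ.erase (r v),
            (Real.log (⨆ p, av v (X s p)) - Real.log (av v (ext m (X s) q))) := by
    filter_upwards [ha0, hall, hrel] with s h1 h2 h3
    exact hSC (fun j => u j s) (a₀ s) (fun p => a p s) (fun j => hu j s) h1 h2 h3 (X s)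
      (C * A s) rfl rfl
  -- the bound for `U`
  have hbd : ∃ C' : ℝ, ∀ᶠ s in (𝒰 : Filter ℕ), U s ≤ C' * A s := by
    by_cases hT : Tendsto (fun s => logHeight (X s)) (𝒰 : Filter ℕ) atTop
    · refine ⟨3 * C, ?_⟩
      filter_upwards [hmain, hS κ 𝒰 S N m X hT hind (1 / 2) (by norm_num)] with s h1 h2
      obtain ⟨h3, h4, r, hr, h5⟩ := h1
      have h6 := h5.trans (h2 r hr)
      nlinarith
    · rw [tendsto_atTop, not_forall] at hT
      obtain ⟨B, hB⟩ := hT
      have hB' : ∀ᶠ s in (𝒰 : Filter ℕ), logHeight (X s) < B := by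
        have := Ultrafilter.eventually_not.2 hB
        filter_upwards [this] with s hs
        exact not_le.1 hs
      refine ⟨max B 0 + C, ?_⟩
      filter_upwards [hmain, hB'] with s h1 h2
      have h3 := h1.1
      have h4 := hA1 s
      have h5 : B ≤ max B 0 * A s := by
        calc B ≤ max B 0 := le_max_left _ _
          _ = max B 0 * 1 := (mul_one _).symm
          _ ≤ max B 0 * A s := mul_le_mul_of_nonneg_left h4 (le_max_right _ _)
      rw [add_mul]
      linarith
  obtain ⟨C', hC'⟩ := hbd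
  refine ⟨C', ?_⟩
  filter_upwards [hC'] with s hs i j
  refine le_trans ?_ hs
  rw [logHeight₁_div_eq_logHeight]
  have h3 := logHeight_comp_le (K := κ) ![i, j] (fun j => (u j s : κ))
  have h4 : ((fun j => (u j s : κ)) ∘ ![i, j]) = ![(u i s : κ), (u j s : κ)] := by
    funext l
    fin_cases l <;> rfl
  rw [h4] at h3
  exact h3

end Pool.Agent.NH29.GN
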