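import Pool.Agent.NH29.GN.Stm5
import Pool.Agent.NH29.GN.U1

/-!
# Project GN: local inequalities for unit equations with coefficients
-/

set_option autoImplicit false
set_option linter.unusedSectionVars false

namespace Pool.Agent.NH29.GN

namespace MovD

open NumberField IsDedekindDomain Height Filter Finset
open Pool.Agent.W180.OP (Pl av wt fv_support_finite wt_nonneg)

variable {F : Type} [Field F] [NumberField F]

/-- the size of a vector at a place -/
noncomputable def sz {ι : Type} (p : Pl F) (x : ι → F) : ℝ := ⨆ i, av p (x i)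

lemma le_sz {ι : Type} [Finite ι] (p : Pl F) (x : ι → F) (i : ι) : av p (x i) ≤ sz p x :=
  le_ciSup (f := fun i => av p (x i)) (Set.finite_range _).bddAbove i

lemma sz_pos {ι : Type} [Finite ι] (p : Pl F) (x : ι → F) (i : ι) (h : x i ≠ 0) : 0 < sz p x :=
  ((av p).pos h).trans_le (le_sz p x i)

lemma exists_sz {ι : Type} [Finite ι] [Nonempty ι] (p : Pl F) (x : ι → F) :
    ∃ i, av p (x i) = sz p x := by
  obtain ⟨j, hj⟩ := exists_eq_ciSup_of_finite (f := fun j => av p (x j))
  exact ⟨j, hj⟩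

/-- the height as a finite sum -/
lemma hgt {ι : Type} [Finite ι] [Nonempty ι] (S : Finset (Pl F)) (hinf : ∀ w, Sum.inl w ∈ S)
    (x : ι → F) (hx : ∀ i, x i ≠ 0)
    (hu : ∀ v : HeightOneSpectrum (𝓞 F), Sum.inr v ∉ S → sz (Sum.inr v) x = 1) :
    logHeight x = ∑ p ∈ S, wt p * Real.log (sz p x) := by
  classical
  obtain ⟨i0⟩ : Nonempty ι := inferInstance
  have hx0 : x ≠ 0 := fun h => hx i0 (congrFun h _)
  set g : HeightOneSpectrum (𝓞 F) → ℝ := fun v => sz (Sum.inr v) x with hg
  have hpos : ∀ p : Pl F, 0 < sz p x := fun p => sz_pos _ _ i0 (hx i0)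
  have hsub : Function.mulSupport g ⊆ (S.toRight : Set (HeightOneSpectrum (𝓞 F))) := by
    intro v hv
    by_contra hc
    apply hv
    have hvS : Sum.inr v ∉ S := fun h => hc (Finset.mem_coe.2 (Finset.mem_toRight.2 h))
    exact hu v hvS
  have e : ∏ᶠ v : FinitePlace F, ⨆ i, v (x i) = ∏ᶠ v : HeightOneSpectrum (𝓞 F), g v := by
    rw [← finprod_comp_equiv (FinitePlace.equivHeightOneSpectrum (K := F)).symm]
    rfl
  have e2 : ∏ᶠ v : HeightOneSpectrum (𝓞 F), g v = ∏ v ∈ S.toRight, g v :=
    finprod_eq_prod_of_mulSupport_subset _ hsub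
  have hw : ∀ w : InfinitePlace F, (⨆ i, w (x i)) = sz (Sum.inl w : Pl F) x := fun w => rfl
  have h4 : 0 < ∏ w : InfinitePlace F, (⨆ i, w (x i)) ^ w.mult :=
    Finset.prod_pos fun w _ => pow_pos (by rw [hw]; exact hpos _) _
  have h5 : 0 < ∏ v ∈ S.toRight, g v := Finset.prod_pos fun v _ => hpos _
  rw [logHeight_eq_log_mulHeight, NumberField.mulHeight_eq hx0, e, e2,
    Real.log_mul h4.ne' h5.ne', Real.log_prod fun w _ => (pow_pos (by rw [hw]; exact hpos _) _).ne',
    Real.log_prod fun v _ => (hpos (Sum.inr v)).ne', ← Finset.toLeft_disjSum_toRight (u := S),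
    Finset.sum_disjSum]
  rw [Finset.toLeft_disjSum_toRight]
  have hl : S.toLeft = Finset.univ := by
    ext w
    simp only [Finset.mem_toLeft, Finset.mem_univ, iff_true]
    exact hinf w
  rw [hl]
  congr 1
  · exact Finset.sum_congr rfl fun w _ => by rw [Real.log_pow, hw]; rfl
  · exact Finset.sum_congr rfl fun v _ => (one_mul _).symm

lemma sz_one {ι : Type} [Nonempty ι] (p : Pl F) (x : ι → F) (h : ∀ i, av p (x i) = 1) :
    sz p x = 1 := by
  unfold sz
  simp only [h]
  exact ciSup_const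

lemma sz_pair (p : Pl F) (a : F) : sz p ![a, 1] = max (av p a) 1 := by
  apply le_antisymm
  · refine ciSup_le fun i => ?_
    fin_cases i
    · exact le_max_left _ _
    · show av p 1 ≤ _
      rw [map_one]
      exact le_max_right _ _
  · refine max_le (le_sz p ![a, 1] 0) ?_
    have := le_sz p ![a, 1] 1
    rwa [show (![a, 1] : Fin 2 → F) 1 = 1 from rfl, map_one] at this

/-- the height of an element -/
lemma hgt1 (S : Finset (Pl F)) (hinf : ∀ w, Sum.inl w ∈ S) (a : F) (ha : a ≠ 0)
    (hu : ∀ v : HeightOneSpectrum (𝓞 F), Sum.inr v ∉ S → av (Sum.inr v : Pl F) a = 1) :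
    logHeight₁ a = ∑ p ∈ S, wt p * Real.log (max (av p a) 1) := by
  rw [logHeight₁_eq_logHeight, hgt S hinf ![a, 1]]
  · exact Finset.sum_congr rfl fun p _ => by rw [sz_pair]
  · intro i
    fin_cases i
    · exact ha
    · exact one_ne_zero
  · intro v hv
    rw [sz_pair, hu v hv, max_self]

lemma abs_log {t : ℝ} (ht : 0 < t) : |Real.log t| = Real.log (max t 1) + Real.log (max t⁻¹ 1) := by
  rcases le_total t 1 with h | h
  · rw [max_eq_right h, Real.log_one, zero_add, max_eq_left ((one_le_inv₀ ht).2 h), Real.log_inv,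
      abs_of_nonpos (Real.log_nonpos ht.le h)]
  · rw [max_eq_left h, max_eq_right (inv_le_one_of_one_le₀ h), Real.log_one, add_zero,
      abs_of_nonneg (Real.log_nonneg h)]

/-- the sum of the absolute values of the local terms -/
lemma sum_abs (S : Finset (Pl F)) (hinf : ∀ w, Sum.inl w ∈ S) (a : F) (ha : a ≠ 0)
    (hu : ∀ v : HeightOneSpectrum (𝓞 F), Sum.inr v ∉ S → av (Sum.inr v : Pl F) a = 1) :
    ∑ p ∈ S, wt p * |Real.log (av p a)| = 2 * logHeight₁ a := by
  have h1 := hgt1 S hinf a ha hu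
  have h2 := hgt1 S hinf a⁻¹ (inv_ne_zero ha) (fun v hv => by rw [map_inv₀, hu v hv, inv_one])
  rw [logHeight₁_inv] at h2
  rw [two_mul]
  nth_rewrite 1 [h1]
  rw [h2, ← Finset.sum_add_distrib]
  refine Finset.sum_congr rfl fun p _ => ?_
  rw [abs_log ((av p).pos ha), map_inv₀]
  ring

end MovD

open MovD

open NumberField IsDedekindDomain Height Filter Finset in
open Pool.Agent.W180.OP (Pl av wt fv_support_finite wt_nonneg) in
/-- MOVD -/
theorem movd : MovDStm := by
  classical
  intro κ _ _ Γ hΓ J _ j₀ N π m hπ hm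
  have hJ : Nonempty J := ⟨j₀⟩
  obtain ⟨S, hinf, hS⟩ := U1.exists_S Γ hΓ
  set c : Pl κ → ℝ := fun v => Real.log (max 1 (∑ p, av v (m p))) with hc
  have hc0 : ∀ v, 0 ≤ c v := fun v => Real.log_nonneg (le_max_left _ _)
  have hcs : 0 ≤ ∑ v ∈ S, wt v * c v :=
    Finset.sum_nonneg fun v _ => mul_nonneg (wt_nonneg v) (hc0 v)
  refine ⟨S, 2 * (N + 3) + ∑ v ∈ S, wt v * c v, by positivity, ?_⟩
  intro u a₀ a hu ha₀ ha hrel X E hX hE
  -- the large set of places
  obtain ⟨S', hSS', hS'⟩ : ∃ S' : Finset (Pl κ), S ⊆ S' ∧ ∀ v : HeightOneSpectrum (𝓞 κ),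
      Sum.inr v ∉ S' → av (Sum.inr v : Pl κ) a₀ = 1 ∧ ∀ p, av (Sum.inr v : Pl κ) (a p) = 1 := by
    have hf0 := fv_support_finite ha₀
    have hf1 := fun p => fv_support_finite (ha p)
    refine ⟨S ∪ hf0.toFinset.map ⟨Sum.inr, Sum.inr_injective⟩ ∪
      Finset.univ.biUnion fun p => (hf1 p).toFinset.map ⟨Sum.inr, Sum.inr_injective⟩, ?_, ?_⟩
    · intro v hv
      exact Finset.mem_union_left _ (Finset.mem_union_left _ hv)
    · intro v hv
      rw [Finset.mem_union, Finset.mem_union, not_or, not_or] at hv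
      obtain ⟨⟨-, h1⟩, h2⟩ := hv
      constructor
      · by_contra hcon
        exact h1 (Finset.mem_map.2 ⟨v, hf0.mem_toFinset.2 hcon, rfl⟩)
      · intro p
        by_contra hcon
        exact h2 (Finset.mem_biUnion.2 ⟨p, Finset.mem_univ _, Finset.mem_map.2
          ⟨v, (hf1 p).mem_toFinset.2 hcon, rfl⟩⟩)
  have hinf' : ∀ w, Sum.inl w ∈ S' := fun w => hSS' (hinf w)
  have hu1 : ∀ v : Pl κ, v ∉ S → ∀ j, av v (u j : κ) = 1 := by
    intro v hv j
    cases v with
    | inl w => exact absurd (hinf w) hv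
    | inr v => exact hS v hv _ (hu j)
  have hXp : ∀ p, X p = a p * (u (π p) : κ) := fun p => by rw [hX]
  have hX0 : ∀ p, X p ≠ 0 := fun p => by
    rw [hXp]
    exact mul_ne_zero (ha p) (u _).ne_zero
  -- abbreviations
  obtain ⟨x, hx⟩ : ∃ x : Pl κ → ℝ, x = fun v => Real.log (sz v X) := ⟨_, rfl⟩
  obtain ⟨M, hM⟩ : ∃ M : Pl κ → ℝ, M = fun v => Real.log (sz v fun j => (u j : κ)) := ⟨_, rfl⟩
  obtain ⟨A, hA⟩ : ∃ A : Pl κ → ℝ, A = fun v => |Real.log (av v a₀)| +
    ∑ p, |Real.log (av v (a p))| := ⟨_, rfl⟩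
  have hA0 : ∀ v, 0 ≤ A v := fun v => by
    rw [hA]
    exact add_nonneg (abs_nonneg _) (Finset.sum_nonneg fun _ _ => abs_nonneg _)
  have hAa0 : ∀ v, |Real.log (av v a₀)| ≤ A v := fun v => by
    rw [hA]
    exact le_add_of_nonneg_right (Finset.sum_nonneg fun _ _ => abs_nonneg _)
  have hAp : ∀ v p, |Real.log (av v (a p))| ≤ A v := fun v p => by
    rw [hA]
    refine le_trans ?_ (le_add_of_nonneg_left (abs_nonneg _))
    exact Finset.single_le_sum (f := fun p => |Real.log (av v (a p))|) (fun _ _ => abs_nonneg _)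
      (Finset.mem_univ p)
  have hAT : ∀ v, ∑ p, |Real.log (av v (a p))| ≤ A v := fun v => by
    rw [hA]
    exact le_add_of_nonneg_left (abs_nonneg _)
  have hT : ∑ v ∈ S', wt v * A v = 2 * (logHeight₁ a₀ + ∑ p, logHeight₁ (a p)) := by
    rw [hA]
    simp only [mul_add, Finset.mul_sum, Finset.sum_add_distrib]
    rw [sum_abs S' hinf' a₀ ha₀ (fun v hv => (hS' v hv).1), Finset.sum_comm]
    congr 1
    exact Finset.sum_congr rfl fun p _ => sum_abs S' hinf' (a p) (ha p) fun v hv => (hS' v hv).2 p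
  obtain ⟨T, hTT⟩ : ∃ T, T = logHeight₁ a₀ + ∑ p, logHeight₁ (a p) := ⟨_, rfl⟩
  have hT0 : 0 ≤ T := by
    have : 0 ≤ ∑ v ∈ S', wt v * A v :=
      Finset.sum_nonneg fun v _ => mul_nonneg (wt_nonneg v) (hA0 v)
    rw [hT, ← hTT] at this
    linarith
  rw [← hTT] at hT
  have hM1 : ∀ v, v ∉ S → M v = 0 := fun v hv => by
    rw [hM]
    show Real.log (sz v fun j => (u j : κ)) = 0
    rw [sz_one v _ (hu1 v hv), Real.log_one]
  have hU : logHeight (fun j => (u j : κ)) = ∑ v ∈ S, wt v * M v := by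
    rw [hM]
    exact hgt S hinf _ (fun j => (u j).ne_zero) fun v hv => sz_one _ _ (hu1 _ hv)
  have hU' : logHeight (fun j => (u j : κ)) = ∑ v ∈ S', wt v * M v := by
    rw [hU]
    exact Finset.sum_subset hSS' fun v _ hv => by rw [hM1 v hv, mul_zero]
  have hXh : logHeight X = ∑ v ∈ S', wt v * x v := by
    rw [hx]
    refine hgt S' hinf' _ hX0 fun v hv => sz_one _ _ fun p => ?_
    rw [hXp, map_mul, (hS' v hv).2 p, hu1 _ (fun h => hv (hSS' h)), one_mul]
  have hlogX : ∀ v p, Real.log (av v (X p)) = Real.log (av v (a p)) +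
      Real.log (av v (u (π p) : κ)) := fun v p => by
    rw [hXp, map_mul, Real.log_mul ((av v).pos (ha p)).ne' ((av v).pos (u _).ne_zero).ne']
  have hxle : ∀ v p, Real.log (av v (X p)) ≤ x v := fun v p => by
    rw [hx]
    exact Real.log_le_log ((av v).pos (hX0 p)) (le_sz v X p)
  have hMle : ∀ v j, Real.log (av v (u j : κ)) ≤ M v := fun v j => by
    rw [hM]
    exact Real.log_le_log ((av v).pos (u j).ne_zero) (le_sz v (fun j => (u j : κ)) j)
  -- (b)
  have hb : ∀ v, x v ≤ A v + M v := by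
    intro v
    obtain ⟨p, hp⟩ := exists_sz v X
    have h1 : x v = Real.log (av v (X p)) := by rw [hx, hp]
    rw [h1, hlogX]
    exact add_le_add ((le_abs_self _).trans (hAp v p)) (hMle v _)
  -- the relation
  have hext0 : ext m X none = a₀ * u j₀ := by
    show ∑ p, m p * X p = _
    rw [hrel]
    exact Finset.sum_congr rfl fun p _ => by rw [hXp]
  -- the choice of the dropped form
  have hr : ∀ v : Pl κ, ∃ o : Option (Fin (N + 1)), (∀ p, o = some p → m p ≠ 0) ∧
      M v - A v ≤ Real.log (av v (ext m X o)) ∧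
      Real.log (av v (ext m X o)) ≤ x v + c v := by
    intro v
    obtain ⟨j, hj⟩ := exists_sz v fun j => (u j : κ)
    have h1 : M v = Real.log (av v (u j : κ)) := by
      rw [hM]
      exact congrArg Real.log hj.symm
    by_cases hjj : j = j₀
    · refine ⟨none, fun p h => (Option.some_ne_none p h.symm).elim, ?_, ?_⟩
      · rw [hext0, map_mul, Real.log_mul ((av v).pos ha₀).ne' ((av v).pos (u _).ne_zero).ne', h1,
          hjj]
        have h2 := neg_abs_le (Real.log (av v a₀))
        have h3 := hAa0 v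
        linarith
      · have h2 : av v (ext m X none) ≤ (max 1 (∑ p, av v (m p))) * sz v X := by
          show av v (∑ p, m p * X p) ≤ _
          refine ((av v).sum_le _ _).trans ?_
          refine le_trans ?_ (mul_le_mul_of_nonneg_right (le_max_right _ _)
            (sz_pos v X 0 (hX0 0)).le)
          rw [Finset.sum_mul]
          refine Finset.sum_le_sum fun p _ => ?_
          rw [map_mul]
          exact mul_le_mul_of_nonneg_left (le_sz v X p) ((av v).nonneg _)
        have h3 : 0 < av v (ext m X none) := by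
          rw [hext0]
          exact (av v).pos (mul_ne_zero ha₀ (u _).ne_zero)
        have h4 := Real.log_le_log h3 h2
        rw [Real.log_mul (by positivity) (sz_pos v X 0 (hX0 0)).ne'] at h4
        rw [hx, hc]
        linarith
    · obtain ⟨p, hp1, hp2⟩ := hm j hjj
      refine ⟨some p, fun q h => by rw [← Option.some_injective _ h]; exact hp2, ?_, ?_⟩
      · show _ ≤ Real.log (av v (X p))
        rw [hlogX, h1, hp1]
        have h2 := neg_abs_le (Real.log (av v (a p)))
        have h3 := hAp v p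
        linarith
      · show Real.log (av v (X p)) ≤ _
        exact (hxle v p).trans (le_add_of_nonneg_right (hc0 v))
  choose r hr1 hr2 hr3 using hr
  have hw : ∀ v : Pl κ, 0 ≤ wt v := wt_nonneg
  have hE2 : E = (2 * (N + 3) + ∑ v ∈ S, wt v * c v) * (1 + T) := by rw [hE, hTT, add_assoc]
  have hE3 : ∑ v ∈ S, wt v * c v + 2 * (N + 3) * T ≤ E := by
    rw [hE2]
    have h1 : 0 ≤ (∑ v ∈ S, wt v * c v) * T := mul_nonneg hcs hT0
    have h2 : (0 : ℝ) ≤ N := Nat.cast_nonneg N
    nlinarith
  have hNT : 2 * T ≤ 2 * (N + 3) * T := by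
    have h2 : (0 : ℝ) ≤ N * T := mul_nonneg (Nat.cast_nonneg N) hT0
    nlinarith
  refine ⟨?_, ?_, r, hr1, ?_⟩
  · -- the first inequality
    have h1 : ∑ v ∈ S', wt v * M v ≤ ∑ v ∈ S', (wt v * x v + wt v * A v) +
        ∑ v ∈ S, wt v * c v := by
      have h2 : ∑ v ∈ S, wt v * c v = ∑ v ∈ S', if v ∈ S then wt v * c v else 0 := by
        rw [Finset.sum_ite_mem, Finset.inter_eq_right.2 hSS']
      rw [h2, ← Finset.sum_add_distrib]
      refine Finset.sum_le_sum fun v _ => ?_
      by_cases hv : v ∈ S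
      · rw [if_pos hv, ← mul_add, ← mul_add]
        refine mul_le_mul_of_nonneg_left ?_ (hw v)
        have h3 := hr2 v
        have h4 := hr3 v
        linarith
      · rw [if_neg hv, add_zero, ← mul_add]
        refine mul_le_mul_of_nonneg_left ?_ (hw v)
        have h3 := hxle v 0
        rw [hlogX, hu1 v hv, Real.log_one, add_zero] at h3
        have h4 := neg_abs_le (Real.log (av v (a 0)))
        have h5 := hAp v 0
        rw [hM1 v hv]
        linarith
    rw [Finset.sum_add_distrib, hT, ← hXh, ← hU'] at h1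
    linarith
  · have h1 : ∑ v ∈ S', wt v * x v ≤ ∑ v ∈ S', (wt v * A v + wt v * M v) := by
      refine Finset.sum_le_sum fun v _ => ?_
      rw [← mul_add]
      exact mul_le_mul_of_nonneg_left (hb v) (hw v)
    rw [Finset.sum_add_distrib, hT, ← hXh, ← hU'] at h1
    linarith
  · -- the last inequality
    have hl : ∀ v, ∑ q ∈ Finset.univ.erase (r v), (Real.log (⨆ p, av v (X p)) -
        Real.log (av v (ext m X q))) = (N + 1) * x v - ∑ q, Real.log (av v (ext m X q)) +
          Real.log (av v (ext m X (r v))) := by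
      intro v
      have h1 := Finset.sum_erase_eq_sub (f := fun q => Real.log (⨆ p, av v (X p)) -
        Real.log (av v (ext m X q))) (Finset.mem_univ (r v))
      rw [h1, Finset.sum_sub_distrib, Finset.sum_const, Finset.card_univ, Fintype.card_option,
        Fintype.card_fin, nsmul_eq_mul, hx]
      show _ = (N + 1 : ℝ) * Real.log (⨆ p, av v (X p)) - _ + _
      push_cast
      ring
    have hq : ∀ q : Option (Fin (N + 1)), ∑ v ∈ S, wt v * Real.log (av v (ext m X q)) =
        ∑ v ∈ S, wt v * Real.log (av v (q.elim a₀ a)) := by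
      intro q
      obtain ⟨j, hj⟩ : ∃ j, ext m X q = q.elim a₀ a * (u j : κ) := by
        cases q with
        | none => exact ⟨j₀, hext0⟩
        | some p => exact ⟨π p, hXp p⟩
      have h0 : q.elim a₀ a ≠ 0 := by
        cases q with
        | none => exact ha₀
        | some p => exact ha p
      have h1 := U1.prod_formula S hinf (u j : κ) (u j).ne_zero fun v hv => hS v hv _ (hu j)
      rw [← add_zero (∑ v ∈ S, wt v * Real.log (av v (q.elim a₀ a))), ← h1,
        ← Finset.sum_add_distrib]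
      refine Finset.sum_congr rfl fun v _ => ?_
      rw [hj, map_mul, Real.log_mul ((av v).pos h0).ne' ((av v).pos (u j).ne_zero).ne', mul_add]
    have hq2 : ∑ v ∈ S, wt v * ∑ q, Real.log (av v (ext m X q)) ≤ ∑ v ∈ S, wt v * A v := by
      have e1 : ∑ v ∈ S, wt v * ∑ q, Real.log (av v (ext m X q)) =
          ∑ v ∈ S, wt v * ∑ q : Option (Fin (N + 1)), Real.log (av v (q.elim a₀ a)) := by
        simp only [Finset.mul_sum]
        rw [Finset.sum_comm, Finset.sum_comm (s := S)]
        exact Finset.sum_congr rfl fun q _ => hq q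
      rw [e1]
      refine Finset.sum_le_sum fun v _ => mul_le_mul_of_nonneg_left ?_ (hw v)
      rw [Fintype.sum_option, hA]
      exact add_le_add (le_abs_self _) (Finset.sum_le_sum fun p _ => le_abs_self _)
    have hSA : ∑ v ∈ S, wt v * A v ≤ 2 * T := by
      rw [← hT]
      exact Finset.sum_le_sum_of_subset_of_nonneg hSS' fun v _ _ => mul_nonneg (hw v) (hA0 v)
    have hxS : logHeight X - 2 * T ≤ ∑ v ∈ S, wt v * x v := by
      have h1 : ∑ v ∈ S', wt v * x v ≤ ∑ v ∈ S, wt v * x v + ∑ v ∈ S' \ S, wt v * A v := by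
        rw [← Finset.sum_sdiff hSS', add_comm]
        refine add_le_add le_rfl (Finset.sum_le_sum fun v hv => ?_)
        refine mul_le_mul_of_nonneg_left ?_ (hw v)
        have := hb v
        rwa [hM1 v (Finset.mem_sdiff.1 hv).2, add_zero] at this
      have h2 : ∑ v ∈ S' \ S, wt v * A v ≤ 2 * T := by
        rw [← hT]
        exact Finset.sum_le_sum_of_subset_of_nonneg Finset.sdiff_subset
          fun v _ _ => mul_nonneg (hw v) (hA0 v)
      rw [← hXh] at h1
      linarith
    have hrS : logHeight (fun j => (u j : κ)) - 2 * T ≤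
        ∑ v ∈ S, wt v * Real.log (av v (ext m X (r v))) := by
      have h1 : ∑ v ∈ S, (wt v * M v - wt v * A v) ≤
          ∑ v ∈ S, wt v * Real.log (av v (ext m X (r v))) := by
        refine Finset.sum_le_sum fun v _ => ?_
        rw [← mul_sub]
        exact mul_le_mul_of_nonneg_left (hr2 v) (hw v)
      rw [Finset.sum_sub_distrib, ← hU] at h1
      linarith
    have e2 : ∑ v ∈ S, wt v * ∑ q ∈ Finset.univ.erase (r v),
        (Real.log (⨆ p, av v (X p)) - Real.log (av v (ext m X q))) =
        (N + 1) * ∑ v ∈ S, wt v * x v - ∑ v ∈ S, wt v * ∑ q, Real.log (av v (ext m X q)) +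
          ∑ v ∈ S, wt v * Real.log (av v (ext m X (r v))) := by
      rw [Finset.mul_sum, ← Finset.sum_sub_distrib, ← Finset.sum_add_distrib]
      refine Finset.sum_congr rfl fun v _ => ?_
      rw [hl v]
      ring
    rw [e2]
    have h5 : (0 : ℝ) ≤ N := Nat.cast_nonneg N
    have h6 : ((N : ℝ) + 1) * (logHeight X - 2 * T) ≤ (N + 1) * ∑ v ∈ S, wt v * x v :=
      mul_le_mul_of_nonneg_left hxS (by positivity)
    nlinarith

end Pool.Agent.NH29.GN
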