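import Pool.Agent.NH29.GN.Stm5

/-!
MOVS: the subspace theorem for the coordinates and one more linear form.
-/

set_option autoImplicit false

namespace Pool.Agent.NH29.GN

namespace MovS

open NumberField IsDedekindDomain Height Filter
open Pool.Agent.W180.OP (Pl av wt nrm)
open Pool.Agent.R405 (Good exists_good schF)

section forms

variable {κ : Type} [Field κ] {N : ℕ}

/-- the matrix of the linear forms -/
noncomputable def Mat (m : Fin (N + 1) → κ) (r : Option (Fin (N + 1))) :
    Fin (N + 1) → Fin (N + 1) → κ :=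
  fun a j => if r = some a then m j else if a = j then 1 else 0

theorem Mat_val (m : Fin (N + 1) → κ) (r : Option (Fin (N + 1))) (X : Fin (N + 1) → κ)
    (a : Fin (N + 1)) :
    ∑ j, Mat m r a j * X j = ext m X (if r = some a then none else some a) := by
  unfold Mat
  by_cases h : r = some a
  · simp only [if_pos h]
    rfl
  · simp only [if_neg h]
    rw [Finset.sum_eq_single a]
    · rw [if_pos rfl, one_mul]
      rfl
    · intro j _ hj
      rw [if_neg (Ne.symm hj), zero_mul]
    · intro h'
      exact absurd (Finset.mem_univ _) h'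

theorem Mat_det (m : Fin (N + 1) → κ) (r : Option (Fin (N + 1)))
    (hr : ∀ p, r = some p → m p ≠ 0) : (Matrix.of (Mat m r)).det ≠ 0 := by
  intro hdet
  obtain ⟨y, hy, h⟩ := Matrix.exists_mulVec_eq_zero_iff.2 hdet
  apply hy
  have h1 : ∀ a, ∑ j, Mat m r a j * y j = 0 := fun a => congrFun h a
  have h2 : ∀ a, r ≠ some a → y a = 0 := by
    intro a ha
    have h3 := h1 a
    rw [Mat_val, if_neg ha] at h3
    exact h3
  funext a
  by_cases ha : r = some a
  · have h3 := h1 a
    rw [Mat_val, if_pos ha] at h3
    have h4 : ∑ j, m j * y j = 0 := h3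
    rw [Finset.sum_eq_single a] at h4
    · exact (mul_eq_zero.1 h4).resolve_left (hr a ha)
    · intro j _ hj
      rw [h2 j (fun h' => hj (Option.some_injective _ (h'.symm.trans ha))), mul_zero]
    · intro h'
      exact absurd (Finset.mem_univ _) h'
  · exact h2 a ha

theorem sum_forms (g : Option (Fin (N + 1)) → ℝ) (r : Option (Fin (N + 1))) :
    ∑ q ∈ Finset.univ.erase r, g q = ∑ a, g (if r = some a then none else some a) := by
  rw [Finset.sum_erase_eq_sub (Finset.mem_univ r), Fintype.sum_option]
  rcases r with _ | p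
  · have h : ∀ a : Fin (N + 1), (none : Option (Fin (N + 1))) ≠ some a := fun a => by simp
    simp only [if_neg (h _)]
    ring
  · have h : ∑ a, (g (if (some p : Option (Fin (N + 1))) = some a then none else some a) -
        g (some a)) = g none - g (some p) := by
      rw [Finset.sum_eq_single p]
      · rw [if_pos rfl]
      · intro a _ ha
        rw [if_neg (fun h' => ha (Option.some_injective _ h'.symm)), sub_self]
      · intro h'
        exact absurd (Finset.mem_univ _) h'
    rw [Finset.sum_sub_distrib] at h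
    linarith

end forms

theorem fixed {κ : Type} [Field κ] [NumberField κ] {K : Type} [Field K] [NumberField K]
    [Algebra κ K] [IsGalois ℚ K] (hi : ∃ z : K, z ^ 2 = -1) (𝒰 : Ultrafilter ℕ)
    (S : Finset (Pl κ)) {N : ℕ} (m : Fin (N + 1) → κ) (X : ℕ → Fin (N + 1) → κ)
    (hN : Tendsto (fun s => logHeight (X s)) (𝒰 : Filter ℕ) atTop)
    (hind : ∀ d : Fin (N + 1) → κ, d ≠ 0 → ∀ᶠ s in (𝒰 : Filter ℕ), ∑ p, d p * X s p ≠ 0)
    (ε : ℝ) (hε : 0 < ε) (R : Pl κ → Option (Fin (N + 1)))
    (hR : ∀ v p, R v = some p → m p ≠ 0) :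
    ∀ᶠ s in (𝒰 : Filter ℕ), ∑ v ∈ S, wt v * ∑ q ∈ Finset.univ.erase (R v),
      (Real.log (⨆ p, av v (X s p)) - Real.log (av v (ext m (X s) q))) ≤
      (N + 1 + ε) * logHeight (X s) := by
  choose f hf using fun v : Pl κ => exists_good (k := κ) (K := K) v
  have key := schF (k := κ) (K := K) hi (𝒰 : Filter ℕ) (n := N + 1) (by omega) S f
    (fun v _ => hf v) (fun v a j => algebraMap κ K (Mat m (R v) a j))
    (by
      intro v _
      have h1 : (Matrix.of fun a j => algebraMap κ K (Mat m (R v) a j)) =
          (Matrix.of (Mat m (R v))).map (algebraMap κ K) := rfl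
      rw [h1]
      have h2 : ((Matrix.of (Mat m (R v))).map (algebraMap κ K)).det =
          algebraMap κ K (Matrix.of (Mat m (R v))).det := (RingHom.map_det _ _).symm
      rw [h2]
      exact (map_ne_zero _).2 (Mat_det m (R v) (hR v))) X hN
    (by
      intro d hd
      obtain ⟨j0, hj0⟩ := Function.ne_iff.1 hd
      obtain ⟨φ, hφ⟩ : ∃ φ : Module.Dual κ K, φ (d j0) ≠ 0 := by
        by_contra hc
        push Not at hc
        exact hj0 ((Module.forall_dual_apply_eq_zero_iff κ (d j0)).1 hc)
      have h1 := hind (fun j => φ (d j)) (fun h => hφ (congrFun h j0))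
      filter_upwards [h1] with s hs h0
      apply hs
      have h2 := congrArg φ h0
      rw [map_sum, map_zero] at h2
      rw [← h2]
      refine Finset.sum_congr rfl fun j _ => ?_
      rw [mul_comm (d j), ← Algebra.smul_def, map_smul, smul_eq_mul, mul_comm]) ε hε
  filter_upwards [key] with s hs
  refine le_trans (le_of_eq ?_) (hs.trans (le_of_eq ?_))
  · refine Finset.sum_congr rfl fun v _ => ?_
    congr 1
    rw [sum_forms]
    refine Finset.sum_congr rfl fun a _ => ?_
    congr 2
    have h1 : ∑ j, algebraMap κ K (Mat m (R v) a j) * algebraMap κ K (X s j) =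
        algebraMap κ K (∑ j, Mat m (R v) a j * X s j) := by
      rw [map_sum]
      exact Finset.sum_congr rfl fun j _ => (map_mul _ _ _).symm
    rw [h1, (hf v).ext, Mat_val]
  · push_cast
    rfl

end MovS

open MovS Height Filter in
/-- MOVS -/
theorem movs (h : GalStm) : MovSStm := by
  intro κ _ _ 𝒰 S N m X hN hind ε hε
  obtain ⟨K, _, _, _, hG, hi⟩ := h κ
  classical
  have key : ∀ᶠ s in (𝒰 : Filter ℕ), ∀ r' : (↥S → Option (Fin (N + 1))),
      (∀ v p, (if hv : v ∈ S then r' ⟨v, hv⟩ else none) = some p → m p ≠ 0) →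
      ∑ v ∈ S, Pool.Agent.W180.OP.wt v *
        ∑ q ∈ Finset.univ.erase (if hv : v ∈ S then r' ⟨v, hv⟩ else none),
        (Real.log (⨆ p, Pool.Agent.W180.OP.av v (X s p)) -
          Real.log (Pool.Agent.W180.OP.av v (ext m (X s) q))) ≤
      (N + 1 + ε) * logHeight (X s) := by
    rw [Filter.eventually_all]
    intro r'
    by_cases hc : ∀ v p, (if hv : v ∈ S then r' ⟨v, hv⟩ else none) = some p → m p ≠ 0
    · filter_upwards [fixed hi 𝒰 S m X hN hind ε hε _ hc] with s hs _
      convert hs
    · exact Eventually.of_forall fun s h' => absurd h' hc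
  filter_upwards [key] with s hs r hr
  have h1 := hs (fun v => r v.1) (by
    intro v p hp
    by_cases hv : v ∈ S
    · rw [dif_pos hv] at hp
      exact hr v p hp
    · rw [dif_neg hv] at hp
      exact absurd hp (by simp))
  refine le_trans (le_of_eq ?_) h1
  refine Finset.sum_congr rfl fun v hv => ?_
  rw [dif_pos hv]

end Pool.Agent.NH29.GN
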