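import Pool.Agent.NH29.GN.Stm5

/-!
# MUE: the unit equation with small coefficients
-/

set_option autoImplicit false

namespace Pool.Agent.NH29.GN

namespace MUE

open Filter Height

/-- small sequences of real numbers -/
def SR (𝒰 : Ultrafilter ℕ) (H : ℕ → ℝ) (g : ℕ → ℝ) : Prop :=
  ∀ N : ℕ, ∀ᶠ s in (𝒰 : Filter ℕ), N * g s ≤ H s

section

variable {𝒰 : Ultrafilter ℕ} {H : ℕ → ℝ}

lemma SR.add {f g : ℕ → ℝ} (hf : SR 𝒰 H f) (hg : SR 𝒰 H g) : SR 𝒰 H fun s => f s + g s := by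
  intro N
  filter_upwards [hf (2 * N), hg (2 * N)] with s h1 h2
  push_cast at h1 h2
  linarith

lemma SR.mono {f g : ℕ → ℝ} (h : ∀ᶠ s in (𝒰 : Filter ℕ), g s ≤ f s) (hf : SR 𝒰 H f) :
    SR 𝒰 H g := by
  intro N
  filter_upwards [h, hf N] with s h1 h2
  exact (mul_le_mul_of_nonneg_left h1 (Nat.cast_nonneg N)).trans h2

lemma SR.nat_mul {f : ℕ → ℝ} (A : ℕ) (hf : SR 𝒰 H f) : SR 𝒰 H fun s => A * f s := by
  intro N
  filter_upwards [hf (N * A)] with s h
  push_cast at h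
  rw [← mul_assoc]
  exact h

lemma SR.const (hH : ∀ B : ℝ, ∀ᶠ s in (𝒰 : Filter ℕ), B ≤ H s) (b : ℝ) : SR 𝒰 H fun _ => b :=
  fun N => hH (N * b)

lemma SR.sum (hH : ∀ B : ℝ, ∀ᶠ s in (𝒰 : Filter ℕ), B ≤ H s) {ι : Type} (t : Finset ι)
    {f : ι → ℕ → ℝ} (hf : ∀ i, SR 𝒰 H (f i)) : SR 𝒰 H fun s => ∑ i ∈ t, f i s := by
  classical
  induction t using Finset.induction_on with
  | empty => simpa using SR.const hH 0
  | insert a t ha ih =>
    have : (fun s => ∑ i ∈ insert a t, f i s) = fun s => f a s + ∑ i ∈ t, f i s := by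
      funext s
      rw [Finset.sum_insert ha]
    rw [this]
    exact (hf a).add ih

variable {κ : Type} [Field κ] [NumberField κ]

lemma sm_const (hH : ∀ B : ℝ, ∀ᶠ s in (𝒰 : Filter ℕ), B ≤ H s) (b : κ) :
    SmN 𝒰 H fun _ => b := SR.const hH (logHeight₁ b)

lemma sm_add (hH : ∀ B : ℝ, ∀ᶠ s in (𝒰 : Filter ℕ), B ≤ H s) {K : ℝ}
    (hadd : ∀ a b : κ, logHeight₁ (a + b) ≤ logHeight₁ a + logHeight₁ b + K) {f g : ℕ → κ}
    (hf : SmN 𝒰 H f) (hg : SmN 𝒰 H g) : SmN 𝒰 H fun s => f s + g s :=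
  SR.mono (Eventually.of_forall fun s => hadd (f s) (g s))
    (SR.add (SR.add (f := fun s => logHeight₁ (f s)) (g := fun s => logHeight₁ (g s)) hf hg)
      (SR.const hH K))

lemma sm_mul (hH : ∀ B : ℝ, ∀ᶠ s in (𝒰 : Filter ℕ), B ≤ H s) {K : ℝ}
    (hmul : ∀ a b : κ, logHeight₁ (a * b) ≤ logHeight₁ a + logHeight₁ b + K) {f g : ℕ → κ}
    (hf : SmN 𝒰 H f) (hg : SmN 𝒰 H g) : SmN 𝒰 H fun s => f s * g s :=
  SR.mono (Eventually.of_forall fun s => hmul (f s) (g s))
    (SR.add (SR.add (f := fun s => logHeight₁ (f s)) (g := fun s => logHeight₁ (g s)) hf hg)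
      (SR.const hH K))

lemma sm_sum (hH : ∀ B : ℝ, ∀ᶠ s in (𝒰 : Filter ℕ), B ≤ H s) {K : ℝ}
    (hadd : ∀ a b : κ, logHeight₁ (a + b) ≤ logHeight₁ a + logHeight₁ b + K) {ι : Type}
    (t : Finset ι) {f : ι → ℕ → κ} (hf : ∀ i, SmN 𝒰 H (f i)) :
    SmN 𝒰 H fun s => ∑ i ∈ t, f i s := by
  classical
  induction t using Finset.induction_on with
  | empty => simpa using sm_const hH (0 : κ)
  | insert a t ha ih =>
    have : (fun s => ∑ i ∈ insert a t, f i s) = fun s => f a s + ∑ i ∈ t, f i s := by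
      funext s
      rw [Finset.sum_insert ha]
    rw [this]
    exact sm_add hH hadd (hf a) ih

end

/-- the sequences which vanish almost everywhere -/
def Zs (𝒰 : Ultrafilter ℕ) (κ : Type) [Field κ] : Submodule κ (ℕ → κ) where
  carrier := {f | ∀ᶠ s in (𝒰 : Filter ℕ), f s = 0}
  add_mem' := by
    intro f g hf hg
    filter_upwards [hf, hg] with i h1 h2
    rw [Pi.add_apply, h1, h2, add_zero]
  zero_mem' := Eventually.of_forall fun _ => rfl
  smul_mem' := by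
    intro c f hf
    filter_upwards [hf] with i h1
    rw [Pi.smul_apply, h1, smul_zero]

lemma mk_zero {𝒰 : Ultrafilter ℕ} {κ : Type} [Field κ] {f : ℕ → κ} :
    (Zs 𝒰 κ).mkQ f = 0 ↔ ∀ᶠ s in (𝒰 : Filter ℕ), f s = 0 := by
  rw [Submodule.mkQ_apply, Submodule.Quotient.mk_eq_zero]
  exact Iff.rfl

lemma comb {𝒰 : Ultrafilter ℕ} {κ : Type} [Field κ] {ι : Type} [Fintype ι] (d : ι → κ)
    (f : ι → ℕ → κ) :
    ∑ k, d k • (Zs 𝒰 κ).mkQ (f k) = (Zs 𝒰 κ).mkQ (fun s => ∑ k, d k * f k s) := by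
  have : (fun s => ∑ k, d k * f k s) = ∑ k, d k • f k := by
    funext s
    rw [Finset.sum_apply]
    rfl
  rw [this, map_sum]
  exact Finset.sum_congr rfl fun k _ => (map_smul _ _ _).symm

/-- the inductive statement -/
theorem main (h : MovStm) {κ : Type} [Field κ] [NumberField κ] {K : ℝ}
    (hadd : ∀ a b : κ, logHeight₁ (a + b) ≤ logHeight₁ a + logHeight₁ b + K)
    (hmul : ∀ a b : κ, logHeight₁ (a * b) ≤ logHeight₁ a + logHeight₁ b + K)
    (Γ : Subgroup κˣ) (hΓ : Γ.FG) (𝒰 : Ultrafilter ℕ) (H : ℕ → ℝ)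
    (hH : ∀ B : ℝ, ∀ᶠ s in (𝒰 : Filter ℕ), B ≤ H s) (n : ℕ) :
    ∀ (J : Type) [Fintype J] [Nonempty J] (u : J → ℕ → κˣ) (c : J → ℕ → κ),
    Fintype.card J = n →
    (∀ j s, u j s ∈ Γ) → (∀ j, ∀ᶠ s in (𝒰 : Filter ℕ), c j s ≠ 0) → (∀ j, SmN 𝒰 H (c j)) →
    (∀ᶠ s in (𝒰 : Filter ℕ), ∑ j, c j s * (u j s : κ) = 0) →
    ∃ i j, i ≠ j ∧ SmN 𝒰 H fun s => (u i s : κ) / u j s := by
  classical
  induction n using Nat.strong_induction_on with
  | _ n ih =>
  intro J _ _ u c hcard hu hc hs hrel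
  obtain ⟨j₀⟩ : Nonempty J := inferInstance
  -- splitting off `j₀`
  have hsplit : ∀ g : J → κ, ∑ j, g j = g j₀ + ∑ j : {j // j ≠ j₀}, g j := by
    intro g
    rw [← Finset.add_sum_erase _ _ (Finset.mem_univ j₀)]
    congr 1
    symm
    refine Finset.sum_subtype (Finset.univ.erase j₀) (fun x => ?_) g |>.symm
    simp
  by_cases hne : Nonempty {j // j ≠ j₀}
  swap
  · exfalso
    have he : IsEmpty {j // j ≠ j₀} := not_nonempty_iff.1 hne
    obtain ⟨s, h1, h2⟩ := (hrel.and (hc j₀)).exists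
    rw [hsplit, Finset.univ_eq_empty, Finset.sum_empty, add_zero] at h1
    exact (mul_ne_zero h2 (u j₀ s).ne_zero) h1
  obtain ⟨j₁⟩ := hne
  -- a basis of the coefficients
  obtain ⟨ι, b, hb, hspan, hli⟩ := exists_linearIndependent' κ (fun j : J => (Zs 𝒰 κ).mkQ (c j))
  have hfin : Fintype ι := Fintype.ofInjective b hb
  have hM : ∀ j : J, ∃ M : ι → κ, ∑ k, M k • (Zs 𝒰 κ).mkQ (c (b k)) = (Zs 𝒰 κ).mkQ (c j) := by
    intro j
    have h1 : (Zs 𝒰 κ).mkQ (c j) ∈
        Submodule.span κ (Set.range ((fun j : J => (Zs 𝒰 κ).mkQ (c j)) ∘ b)) := by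
      rw [hspan]
      exact Submodule.subset_span ⟨j, rfl⟩
    exact (Submodule.mem_span_range_iff_exists_fun κ).1 h1
  choose M hM using hM
  have hv : ∀ j, (Zs 𝒰 κ).mkQ (c j) ≠ 0 := by
    intro j h0
    obtain ⟨s, h1, h2⟩ := ((mk_zero.1 h0).and (hc j)).exists
    exact h2 h1
  have hMne : ∀ j, ∃ k, M j k ≠ 0 := by
    intro j
    by_contra hcon
    push Not at hcon
    apply hv j
    rw [← hM j]
    exact Finset.sum_eq_zero fun k _ => by rw [hcon k, zero_smul]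
  have hMe : ∀ j, ∀ᶠ s in (𝒰 : Filter ℕ), c j s = ∑ k, M j k * c (b k) s := by
    intro j
    have h1 := hM j
    rw [comb, ← sub_eq_zero, ← map_sub] at h1
    filter_upwards [mk_zero.1 h1] with s h2
    rw [Pi.sub_apply, sub_eq_zero] at h2
    exact h2.symm
  obtain ⟨k₀, -⟩ := hMne j₀
  have hnon : Nonempty (ι × {j // j ≠ j₀}) := ⟨(k₀, j₁)⟩
  obtain ⟨N, hN⟩ : ∃ N, Fintype.card (ι × {j // j ≠ j₀}) = N + 1 :=
    Nat.exists_eq_succ_of_ne_zero Fintype.card_ne_zero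
  let e : Fin (N + 1) ≃ ι × {j // j ≠ j₀} := (Fintype.equivFinOfCardEq hN).symm
  -- sums over the index set
  have hsum : ∀ g : ι → {j // j ≠ j₀} → κ,
      ∑ p, g (e p).1 (e p).2 = ∑ j : {j // j ≠ j₀}, ∑ k, g k j := by
    intro g
    rw [Equiv.sum_comp e (fun q => g q.1 q.2), Fintype.sum_prod_type, Finset.sum_comm]
  have key := h κ Γ hΓ 𝒰 J j₀ N (fun p => (e p).2.1) (fun p => -M (e p).2.1 (e p).1)
    (fun p => (e p).2.2) (by
      intro j hj
      obtain ⟨k, hk⟩ := hMne j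
      refine ⟨e.symm (k, ⟨j, hj⟩), ?_, ?_⟩
      · simp
      · simpa using hk)
    u (c j₀) (fun p => c (b (e p).1)) hu (hc j₀) (fun p => hc _) (by
      filter_upwards [hrel, Filter.eventually_all.2 fun j => hMe j] with s h1 h2
      rw [hsplit] at h1
      rw [hsum fun k j => -M j.1 k * (c (b k) s * (u j.1 s : κ))]
      rw [eq_neg_of_add_eq_zero_left h1, ← Finset.sum_neg_distrib]
      refine Finset.sum_congr rfl fun j _ => ?_
      rw [h2 j.1, Finset.sum_mul, ← Finset.sum_neg_distrib]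
      refine Finset.sum_congr rfl fun k _ => ?_
      ring)
  by_cases hnd : ∀ d : Fin (N + 1) → κ, d ≠ 0 →
      ∀ᶠ s in (𝒰 : Filter ℕ), ∑ p, d p * (c (b (e p).1) s * (u (e p).2.1 s : κ)) ≠ 0
  · -- nondegenerate
    obtain ⟨C, hC⟩ := key hnd
    obtain ⟨A, hA⟩ := exists_nat_ge C
    refine ⟨j₁.1, j₀, j₁.2, ?_⟩
    have h1 : SR 𝒰 H fun s => (A : ℝ) * (1 + logHeight₁ (c j₀ s) +
        ∑ p, logHeight₁ (c (b (e p).1) s)) :=
      SR.nat_mul A (SR.add (SR.add (SR.const hH 1) (hs j₀))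
        (SR.sum hH Finset.univ fun p => hs (b (e p).1)))
    refine SR.mono ?_ h1
    filter_upwards [hC] with s h2
    refine (h2 j₁.1 j₀).trans (mul_le_mul_of_nonneg_right hA ?_)
    have h3 := zero_le_logHeight₁ (c j₀ s)
    have h4 : 0 ≤ ∑ p, logHeight₁ (c (b (e p).1) s) :=
      Finset.sum_nonneg fun p _ => zero_le_logHeight₁ _
    linarith
  · -- degenerate
    push Not at hnd
    obtain ⟨d, hd, hd0⟩ := hnd
    have hd1 : ∀ᶠ s in (𝒰 : Filter ℕ),
        ∑ p, d p * (c (b (e p).1) s * (u (e p).2.1 s : κ)) = 0 := hd0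
    let c' : {j // j ≠ j₀} → ℕ → κ := fun j s => ∑ k, d (e.symm (k, j)) * c (b k) s
    have hrel' : ∀ᶠ s in (𝒰 : Filter ℕ), ∑ j, c' j s * (u j.1 s : κ) = 0 := by
      filter_upwards [hd1] with s h1
      rw [← h1]
      have h2 := hsum fun k j => d (e.symm (k, j)) * (c (b k) s * (u j.1 s : κ))
      have h3 : ∀ p, e.symm ((e p).1, (e p).2) = p := fun p => e.symm_apply_apply p
      simp only [h3] at h2
      rw [h2]
      refine Finset.sum_congr rfl fun j _ => ?_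
      rw [Finset.sum_mul]
      exact Finset.sum_congr rfl fun k _ => mul_assoc _ _ _
    have hsm : ∀ j, SmN 𝒰 H (c' j) := fun j =>
      sm_sum hH hadd Finset.univ fun k => sm_mul hH hmul (sm_const hH _) (hs (b k))
    let J' := {j : {j // j ≠ j₀} // ∀ᶠ s in (𝒰 : Filter ℕ), c' j s ≠ 0}
    have hJ' : Nonempty J' := by
      obtain ⟨p, hp⟩ := Function.ne_iff.1 hd
      refine ⟨⟨(e p).2, ?_⟩⟩
      by_contra hcon
      have h1 : ∀ᶠ s in (𝒰 : Filter ℕ), c' (e p).2 s = 0 := by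
        have := Ultrafilter.eventually_not.2 hcon
        simpa using this
      have h2 := mk_zero.2 h1
      rw [← comb] at h2
      have h3 := Fintype.linearIndependent_iff.1 hli (fun k => d (e.symm (k, (e p).2))) h2 (e p).1
      apply hp
      have h4 : e.symm ((e p).1, (e p).2) = p := e.symm_apply_apply p
      rw [h4] at h3
      exact h3
    have hlt : Fintype.card J' < n := by
      rw [← hcard]
      have h1 : Fintype.card J' ≤ Fintype.card {j // j ≠ j₀} :=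
        Fintype.card_le_of_injective _ Subtype.val_injective
      have h2 : Fintype.card {j // j ≠ j₀} < Fintype.card J :=
        Fintype.card_subtype_lt (x := j₀) (by simp)
      omega
    obtain ⟨i, j, hij, hsm'⟩ := ih _ hlt J' (fun j => u j.1.1) (fun j => c' j.1) rfl
      (fun j s => hu _ s) (fun j => j.2) (fun j => hsm j.1) (by
        have hz : ∀ᶠ s in (𝒰 : Filter ℕ), ∀ j : {j // j ≠ j₀},
            ¬ (∀ᶠ s in (𝒰 : Filter ℕ), c' j s ≠ 0) → c' j s = 0 := by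
          rw [Filter.eventually_all]
          intro j
          by_cases hj : ∀ᶠ s in (𝒰 : Filter ℕ), c' j s ≠ 0
          · exact Eventually.of_forall fun s h0 => absurd hj h0
          · have := Ultrafilter.eventually_not.2 hj
            filter_upwards [this] with s h1 _
            exact not_not.1 h1
        filter_upwards [hrel', hz] with s h1 h2
        refine Eq.trans ?_ h1
        have h3 : ∑ j : {j // j ≠ j₀}, c' j s * (u j.1 s : κ) =
            ∑ j ∈ Finset.univ.filter (fun j : {j // j ≠ j₀} =>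
              ∀ᶠ s in (𝒰 : Filter ℕ), c' j s ≠ 0), c' j s * (u j.1 s : κ) := by
          symm
          refine Finset.sum_subset (Finset.subset_univ _) fun j _ hj => ?_
          rw [h2 j (by simpa using hj), zero_mul]
        rw [h3]
        exact (Finset.sum_subtype _ (by simp) (fun j => c' j s * (u j.1 s : κ))).symm)
    exact ⟨i.1.1, j.1.1, fun h => hij (Subtype.ext (Subtype.ext h)), hsm'⟩

end MUE

/-- **MUE** -/
theorem mue (h : MovStm) (hn : HnStm) : MueStm := by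
  intro κ _ _ Γ hΓ 𝒰 H hH J _ _ u c hu hc hs hrel
  obtain ⟨k, -, -, -, hadd, hmul, -⟩ := hn κ
  exact MUE.main h hadd hmul Γ hΓ 𝒰 H hH _ J u c rfl hu hc hs hrel

end Pool.Agent.NH29.GN
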