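import Pool.Agent.NH29.GN.Sml
import Pool.Agent.NH29.GN.Ld
import Pool.Agent.NH29.GN.Abs
import Pool.Agent.NH29.GN.Stb2
import Pool.Agent.NH29.GN.Mue
import Pool.Agent.NH29.GN.Hn
import Pool.Agent.NH29.GN.Gal
import Pool.Agent.NH29.GN.Mov
import Pool.Agent.NH29.GN.MovS
import Pool.Agent.NH29.GN.MovD
import Pool.Agent.NH29.GN.Fin3
import Pool.Agent.NH29.GN.Der
import Pool.Agent.NH29.GN.Alg
import Pool.Agent.NH29.GN.Int
import Pool.Agent.NH29.GN.Rel
import Pool.Agent.NH29.GN.Hilb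
import Pool.Agent.NH29.GN.Ncz

/-!
# Heights of the integral points on Zariski-general complements
-/

set_option autoImplicit false

namespace Pool.Agent.NH29.GN

open MvPolynomial Filter Height

namespace Hi

/-- no bad point for algebraically independent coefficients -/
theorem stcP : Stc2Stm := stc2 der alg (int (ncz alg) alg) rel lin2 hilb

/-- the points with quotients in `Γ` -/
structure Pt {k κ : Type} [Field k] [Field κ] [Algebra k κ] {M q : ℕ}
    (V : Set (MvPolynomial (Fin (M + 1)) k)) {d : Fin q → ℕ} (C : Finset (Fin q))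
    (t : Idx M d → κ) (Γ : Subgroup κˣ) (x : Fin (M + 1) → κ) : Prop where
  ne : x ≠ 0
  onV : ∀ H ∈ V, aeval x H = 0
  onC : ∀ c ∈ C, fv t x c = 0
  off : ∀ b, b ∉ C → fv t x b ≠ 0
  quot : ∀ b b', b ∉ C → b' ∉ C → ∃ γ ∈ Γ, fv t x b ^ d b' / fv t x b' ^ d b = ((γ : κˣ) : κ)

/-- one stratum -/
theorem hi_one {k : Type} [Field k] [CharZero k] {M n q : ℕ}
    {V : Set (MvPolynomial (Fin (M + 1)) k)} (hV : ∀ H ∈ V, ∃ e, H.IsHomogeneous e)
    {ℓ : Fin (n + 1) → MvPolynomial (Fin (M + 1)) k} (hℓ : ∀ j, (ℓ j).IsHomogeneous 1)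
    (hN : NoZero V ℓ) (hq : n + 1 ≤ q) {d : Fin q → ℕ} (hd : ∀ i, 1 ≤ d i)
    (C : Finset (Fin q)) (hNum : Num2 n d C) :
    ∃ Φ : MvPolynomial (Idx M d) k, Φ ≠ 0 ∧
      ∀ (κ : Type) [Field κ] [NumberField κ] [Algebra k κ] (Γ : Subgroup κˣ), Γ.FG →
      ∃ A : ℝ, ∀ t : Idx M d → κ, aeval t Φ ≠ 0 → ∀ x : Fin (M + 1) → κ, Pt V C t Γ x →
        logHeight x ≤ A * (1 + ∑ s, logHeight₁ (t s)) := by
  classical
  by_contra hcon
  push Not at hcon
  obtain ⟨K', L', _, _, _, _, _, t', x', ht', hx'⟩ := stb2 k M q V d C (by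
    intro Q hQ
    obtain ⟨κ, iκ, iN, iA, Γ, hΓ, hA⟩ := hcon Q hQ
    choose t ht x hx hlt using fun s : ℕ => hA s
    obtain ⟨c, hc0, hneg, hinv, hadd, hmul, hroot, hpt⟩ := hn κ
    obtain ⟨𝒰, h𝒰⟩ : ∃ 𝒰 : Ultrafilter ℕ, 𝒰 = hyperfilter ℕ := ⟨_, rfl⟩
    have hcof : ∀ R : ℝ, ∀ᶠ s : ℕ in (𝒰 : Filter ℕ), R ≤ s := by
      intro R
      have h1 : ∀ᶠ s : ℕ in (cofinite : Filter ℕ), R ≤ s := by
        rw [Nat.cofinite_eq_atTop]
        filter_upwards [eventually_ge_atTop ⌈R⌉₊] with n hn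
        exact (Nat.le_ceil R).trans (by exact_mod_cast hn)
      rw [h𝒰]
      exact hyperfilter_le_cofinite h1
    have h0 : ∀ a : κ, 0 ≤ logHeight₁ a := fun a => zero_le_logHeight₁ a
    have hY : ∀ s, 0 ≤ ∑ i, logHeight₁ (t s i) := fun s => Finset.sum_nonneg fun i _ => h0 _
    have hHs : ∀ s : ℕ, (s : ℝ) ≤ logHeight (x s) := by
      intro s
      have h1 : (s : ℝ) * 1 ≤ s * (1 + ∑ i, logHeight₁ (t s i)) :=
        mul_le_mul_of_nonneg_left (by linarith [hY s]) (Nat.cast_nonneg s)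
      linarith [hlt s]
    have hHt : ∀ B : ℝ, ∀ᶠ s in (𝒰 : Filter ℕ), B ≤ logHeight (x s) := fun B =>
      (hcof B).mono fun s hs => hs.trans (hHs s)
    let T : HFam 𝒰 (fun _ : ℕ => κ) :=
      { h := fun _ a => logHeight₁ a
        H := fun s => logHeight (x s)
        c := c
        nonneg := fun _ a => h0 a
        zero := fun _ => by
          rw [logHeight₁_zero]
          exact hc0 0
        one := fun _ => by
          rw [logHeight₁_one]
          exact hc0 0
        neg := fun _ a => hneg a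
        inv := fun _ a => hinv a
        add := fun _ a b => hadd a b
        mul := fun _ a b => hmul a b
        root := fun n _ g a h => hroot n g a h
        small := fun n N => hHt _ }
    have htS : ∀ i, Sm T fun s => t s i := by
      intro i N
      refine (hcof N).mono fun s hs => ?_
      change (N : ℝ) * logHeight₁ (t s i) ≤ logHeight (x s)
      have h1 : logHeight₁ (t s i) ≤ 1 + ∑ i, logHeight₁ (t s i) := by
        have h2 := Finset.single_le_sum (f := fun i => logHeight₁ (t s i)) (fun i _ => h0 _)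
          (Finset.mem_univ i)
        linarith
      calc (N : ℝ) * logHeight₁ (t s i) ≤ s * (1 + ∑ i, logHeight₁ (t s i)) :=
            mul_le_mul hs h1 (h0 _) (Nat.cast_nonneg s)
        _ ≤ logHeight (x s) := (hlt s).le
    obtain ⟨K', L', i1, i2, i3, i4, i5, t', x', h1, h2⟩ := abs sml ld k ℕ 𝒰 (fun _ => κ) T M q V
      d C t x Q (fun a N => hHt (N * logHeight₁ (algebraMap k κ a))) htS ht (fun s H hH => (hx s).onV H hH)
      (fun s c hc => (hx s).onC c hc) (fun s b hb => (hx s).off b hb) (fun s => (hx s).ne)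
      (by
        intro a₀ ha₀
        by_contra hall
        push Not at hall
        have h1 : ∀ᶠ s in (𝒰 : Filter ℕ), ∀ a, ((2 * (M + 1) : ℕ) : ℝ) *
            logHeight₁ (x s a / x s a₀) ≤ logHeight (x s) :=
          eventually_all.2 fun a => hall a (2 * (M + 1))
        obtain ⟨s, ⟨hs1, hs2⟩, hs3⟩ := ((h1.and ha₀).and (hHt 1)).exists
        have h2 : logHeight (x s) ≤ ∑ a, logHeight₁ (x s a / x s a₀) := hpt M (x s) a₀ hs2
        have h3 : ((2 * (M + 1) : ℕ) : ℝ) * ∑ a, logHeight₁ (x s a / x s a₀) ≤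
            (M + 1) * logHeight (x s) := by
          rw [Finset.mul_sum]
          refine (Finset.sum_le_sum fun a _ => hs1 a).trans (le_of_eq ?_)
          rw [Finset.sum_const, Finset.card_univ, Fintype.card_fin, nsmul_eq_mul]
          push_cast
          ring
        have h5 : (0 : ℝ) < (M : ℝ) + 1 := by positivity
        have h6 := mul_le_mul_of_nonneg_left h2 (by positivity : (0 : ℝ) ≤ ((2 * (M + 1) : ℕ) : ℝ))
        push_cast at h3 h6
        nlinarith [mul_pos h5 (by linarith : 0 < logHeight (x s))])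
      (by
        intro b₀ hb₀ S' hS' c' hcS hc0' hrel
        have hneS : Nonempty {m // m ∈ S'} := hS'.to_subtype
        have hqΓ : ∀ s b, ∃ γ ∈ Γ, quo C (t s) (x s) b₀ b = ((γ : κˣ) : κ) := by
          intro s b
          unfold quo
          split_ifs with hb
          · exact ⟨1, Γ.one_mem, by simp⟩
          · exact (hx s).quot b b₀ hb hb₀
        choose γ hγ hγe using hqΓ
        obtain ⟨i, j, hij, hsm⟩ := mue (mov (movs gal) movd) hn κ Γ hΓ 𝒰
          (fun s => logHeight (x s)) hHt {m // m ∈ S'} (fun m s => ∏ b, γ s b ^ m.1 b)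
          (fun m => c' m.1) (fun m s => Γ.prod_mem fun b _ => Γ.zpow_mem (hγ s b) _)
          (fun m => hc0' m.1 m.2) (fun m => hcS m.1 m.2) (by
            filter_upwards [hrel] with s hs
            rw [← hs, ← Finset.sum_coe_sort S']
            refine Finset.sum_congr rfl fun m _ => ?_
            push_cast
            congr 1
            refine Finset.prod_congr rfl fun b _ => ?_
            rw [← hγe])
        refine ⟨i.1, i.2, j.1, j.2, fun h => hij (Subtype.ext h), fun N => ?_⟩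
        filter_upwards [hsm N] with s hs
        have h1 : ∀ m : Fin q → ℤ, ∏ b, quo C (t s) (x s) b₀ b ^ m b =
            ((∏ b, γ s b ^ m b : κˣ) : κ) := by
          intro m
          push_cast
          refine Finset.prod_congr rfl fun b _ => ?_
          rw [← hγe]
        rw [h1, h1]
        exact hs)
    exact ⟨K', L', i1, i2, i3, i4, i5, t', x', h1, h2⟩)
  exact stcP k K' L' M n q V hV ℓ hℓ hN hq d hd C hNum t' ht' x' hx'

/-- all strata -/
theorem hi {k : Type} [Field k] [CharZero k] {M n q : ℕ}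
    {V : Set (MvPolynomial (Fin (M + 1)) k)} (hV : ∀ H ∈ V, ∃ e, H.IsHomogeneous e)
    {ℓ : Fin (n + 1) → MvPolynomial (Fin (M + 1)) k} (hℓ : ∀ j, (ℓ j).IsHomogeneous 1)
    (hN : NoZero V ℓ) (hq : n + 1 ≤ q) {d : Fin q → ℕ} (hd : ∀ i, 1 ≤ d i)
    (hNum : ∀ C : Finset (Fin q), C ≠ Finset.univ → Num2 n d C) :
    ∃ Φ : MvPolynomial (Idx M d) k, Φ ≠ 0 ∧
      ∀ (κ : Type) [Field κ] [NumberField κ] [Algebra k κ] (Γ : Subgroup κˣ), Γ.FG →
      ∃ A : ℝ, ∀ t : Idx M d → κ, aeval t Φ ≠ 0 → ∀ C : Finset (Fin q), C ≠ Finset.univ →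
        ∀ x : Fin (M + 1) → κ, Pt V C t Γ x →
        logHeight x ≤ A * (1 + ∑ s, logHeight₁ (t s)) := by
  classical
  have h1 : ∀ C : Finset (Fin q), ∃ Φ : MvPolynomial (Idx M d) k, Φ ≠ 0 ∧
      (C ≠ Finset.univ →
      ∀ (κ : Type) [Field κ] [NumberField κ] [Algebra k κ] (Γ : Subgroup κˣ), Γ.FG →
      ∃ A : ℝ, ∀ t : Idx M d → κ, aeval t Φ ≠ 0 → ∀ x : Fin (M + 1) → κ, Pt V C t Γ x →
        logHeight x ≤ A * (1 + ∑ s, logHeight₁ (t s))) := by
    intro C
    by_cases hCu : C = Finset.univ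
    · exact ⟨1, one_ne_zero, fun h => absurd hCu h⟩
    · obtain ⟨Φ, h1, h2⟩ := hi_one hV hℓ hN hq hd C (hNum C hCu)
      exact ⟨Φ, h1, fun _ => h2⟩
  choose Φ h1 h2 using h1
  refine ⟨∏ C, Φ C, Finset.prod_ne_zero_iff.2 fun C _ => h1 C, fun κ _ _ _ Γ hΓ => ?_⟩
  have h3 : ∀ C : Finset (Fin q), ∃ A : ℝ, C ≠ Finset.univ → ∀ t : Idx M d → κ,
      aeval t (Φ C) ≠ 0 → ∀ x : Fin (M + 1) → κ, Pt V C t Γ x →
        logHeight x ≤ A * (1 + ∑ s, logHeight₁ (t s)) := by
    intro C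
    by_cases hCu : C = Finset.univ
    · exact ⟨0, fun h => absurd hCu h⟩
    · obtain ⟨A, hA⟩ := h2 C hCu κ Γ hΓ
      exact ⟨A, fun _ => hA⟩
  choose A hA using h3
  refine ⟨∑ C, |A C|, fun t ht C hCu x hx => ?_⟩
  rw [map_prod, Finset.prod_ne_zero_iff] at ht
  refine (hA C hCu t (ht C (Finset.mem_univ _)) x hx).trans
    (mul_le_mul_of_nonneg_right ?_ ?_)
  · exact (le_abs_self _).trans (Finset.single_le_sum (f := fun C => |A C|)
      (fun _ _ => abs_nonneg _) (Finset.mem_univ C))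
  · have h4 : 0 ≤ ∑ s, logHeight₁ (t s) := Finset.sum_nonneg fun i _ => zero_le_logHeight₁ _
    linarith

end Hi

end Pool.Agent.NH29.GN
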