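import Pool.Agent.H39R3.Tor.SUnit

/-!
# Units of finitely generated rings: group theory, transport, number fields
-/

set_option autoImplicit false

namespace Pool.Agent.NH29.GN.RU

open IsDedekindDomain NumberField

/-! ### Finitely generated groups -/

lemma fg_sub {G : Type} [CommGroup G] (P : Subgroup G) :
    P.FG ↔ (AddSubgroup.toIntSubmodule (Subgroup.toAddSubgroup P)).FG := by
  rw [Subgroup.fg_iff_add_fg, Submodule.fg_iff_addSubgroup_fg]
  rfl

lemma sub_fg {M : Type} [AddCommGroup M] {P Q : Submodule ℤ M} (h : P ≤ Q) (hQ : Q.FG) : P.FG := by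
  have h1 : Module.Finite ℤ Q := Module.Finite.iff_fg.2 hQ
  have h2 : IsNoetherian ℤ Q := isNoetherian_of_isNoetherianRing_of_finite _ _
  exact (isNoetherian_submodule.1 h2) _ h

lemma fg_of_le {G : Type} [CommGroup G] {P Q : Subgroup G} (h : P ≤ Q) (hQ : Q.FG) : P.FG := by
  rw [fg_sub] at hQ ⊢
  exact sub_fg (fun x hx => h hx) hQ

lemma ext_fg {G : Type} [CommGroup G] (U V : Subgroup G) (hV : V.FG) {S : Type} [Finite S]
    (f : S → G →* Multiplicative ℤ) (h : ∀ u ∈ U, (∀ s, f s u = 1) → u ∈ V) : U.FG := by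
  let ψ : Additive G →+ (S → ℤ) :=
    { toFun := fun x s => Multiplicative.toAdd (f s (Additive.toMul x))
      map_zero' := by
        funext s
        simp
      map_add' := by
        intro x y
        funext s
        simp }
  rw [fg_sub] at hV ⊢
  refine Submodule.fg_of_fg_map_of_fg_inf_ker ψ.toIntLinearMap ?_ (sub_fg ?_ hV)
  · exact IsNoetherian.noetherian _
  · rintro x ⟨hx, hx2⟩
    refine h (Additive.toMul x) hx fun s => ?_
    have h1 : ψ x = 0 := hx2
    exact congrFun h1 s

/-! ### The units of a subring -/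

/-- the units of the subring `R` of a field -/
def Uof {K : Type} [Field K] (R : Subring K) : Subgroup Kˣ where
  carrier := {u | (u : K) ∈ R ∧ ((u⁻¹ : Kˣ) : K) ∈ R}
  mul_mem' := by
    rintro a b ⟨h1, h2⟩ ⟨h3, h4⟩
    refine ⟨?_, ?_⟩
    · rw [Units.val_mul]
      exact R.mul_mem h1 h3
    · rw [mul_inv, Units.val_mul]
      exact R.mul_mem h2 h4
  one_mem' := by
    refine ⟨?_, ?_⟩
    · rw [Units.val_one]
      exact R.one_mem
    · rw [inv_one, Units.val_one]
      exact R.one_mem
  inv_mem' := by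
    rintro a ⟨h1, h2⟩
    refine ⟨h2, ?_⟩
    rw [inv_inv]
    exact h1

/-- the units of the finitely generated subrings of `K` are finitely generated groups -/
def RUF (K : Type) [Field K] : Prop := ∀ T : Finset K, (Uof (Subring.closure (T : Set K))).FG

lemma Uof_map {K K' : Type} [Field K] [Field K'] (φ : K →+* K') (R : Subring K) :
    Uof (R.map φ) = (Uof R).map (Units.map (φ : K →* K')) := by
  ext u
  constructor
  · rintro ⟨⟨a, ha, hau⟩, ⟨b, hb, hbu⟩⟩
    have hab : a * b = 1 := by
      apply φ.injective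
      rw [map_mul, map_one]
      have h1 : φ a = u := hau
      have h2 : φ b = ((u⁻¹ : K'ˣ) : K') := hbu
      rw [h1, h2, Units.mul_inv]
    refine ⟨⟨a, b, hab, by rw [mul_comm]; exact hab⟩, ⟨ha, hb⟩, ?_⟩
    apply Units.ext
    exact hau
  · rintro ⟨w, ⟨h1, h2⟩, rfl⟩
    refine ⟨⟨w, h1, rfl⟩, ⟨((w⁻¹ : Kˣ) : K), h2, ?_⟩⟩
    rw [← map_inv]
    rfl

/-- reduction to a subfield -/
theorem fg_of_range {K K' : Type} [Field K] [Field K'] (φ : K →+* K') {T : Finset K'}
    (hT : (T : Set K') ⊆ Set.range φ) (h : RUF K) : (Uof (Subring.closure (T : Set K'))).FG := by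
  classical
  obtain ⟨T', hT'⟩ : ∃ T' : Finset K, T'.image φ = T := by
    refine ⟨T.preimage φ φ.injective.injOn, ?_⟩
    ext z
    rw [Finset.mem_image]
    constructor
    · rintro ⟨w, hw, rfl⟩
      exact Finset.mem_preimage.1 hw
    · intro hz
      obtain ⟨w, hw⟩ := hT hz
      exact ⟨w, Finset.mem_preimage.2 (by rw [hw]; exact hz), hw⟩
  have h1 : Subring.closure (T : Set K') = (Subring.closure (T' : Set K)).map φ := by
    rw [RingHom.map_closure, ← hT', Finset.coe_image]
  rw [h1, Uof_map]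
  obtain ⟨S, hS⟩ := h T'
  refine ⟨S.image (Units.map (φ : K →* K')), ?_⟩
  rw [Finset.coe_image, ← MonoidHom.map_closure, hS]

/-! ### Number fields -/

theorem ruf_nf (F : Type) [Field F] [NumberField F] : RUF F := by
  intro T
  let S : Set (HeightOneSpectrum (𝓞 F)) := ⋃ t ∈ T, HeightOneSpectrum.Support (𝓞 F) t
  have hS : S.Finite := Set.Finite.biUnion T.finite_toSet
    fun t _ => HeightOneSpectrum.Support.finite (𝓞 F) t
  refine fg_of_le ?_ (Pool.Agent.H39R3.Tor.sunit_fg F S hS)
  rintro u ⟨h1, h2⟩ v hv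
  have hle : Subring.closure (T : Set F) ≤ (v.valuation F).integer := by
    rw [Subring.closure_le]
    intro t ht
    show v.valuation F t ≤ 1
    by_contra hc
    apply hv
    rw [Set.mem_iUnion₂]
    exact ⟨t, ht, not_le.1 hc⟩
  have h3 : v.valuation F (u : F) ≤ 1 := hle h1
  have h4 : v.valuation F ((u⁻¹ : Fˣ) : F) ≤ 1 := hle h2
  have h5 : v.valuation F (u : F) * v.valuation F ((u⁻¹ : Fˣ) : F) = 1 := by
    rw [← map_mul, Units.mul_inv, map_one]
  refine le_antisymm h3 ?_
  rw [← h5]
  exact mul_le_of_le_one_right' h4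

theorem ruf_alg (K : Type) [Field K] [CharZero K] (h : Algebra.IsAlgebraic ℚ K) : RUF K := by
  intro T
  have hfd : FiniteDimensional ℚ (IntermediateField.adjoin ℚ (T : Set K)) :=
    IntermediateField.finiteDimensional_adjoin fun x _ => (h.isAlgebraic x).isIntegral
  have hnf : NumberField (IntermediateField.adjoin ℚ (T : Set K)) := ⟨⟩
  refine fg_of_range (K := IntermediateField.adjoin ℚ (T : Set K))
    (IntermediateField.adjoin ℚ (T : Set K)).val.toRingHom (fun t ht => ?_) (ruf_nf _)
  exact ⟨⟨t, IntermediateField.subset_adjoin _ _ ht⟩, rfl⟩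

end Pool.Agent.NH29.GN.RU
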