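import Mathlib

/-!
# Units of finitely generated rings: one transcendental

`L` is a finite extension of `κ (z)`, `κ` algebraically closed of characteristic `0`. An element of `L`
which is integral over `κ [z⁻¹]` and whose orders at the places above `z = 0` are `0` is constant.
-/

set_option autoImplicit false

namespace Pool.Agent.NH29.GN.RU

open IsDedekindDomain Polynomial
open scoped IntermediateField IntermediateField.algebraAdjoinAdjoin

variable {κ L : Type} [Field κ] [Field L] [Algebra κ L]

lemma pir (w : L) : IsPrincipalIdealRing (Algebra.adjoin κ ({w} : Set L)) := by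
  have h1 : IsPrincipalIdealRing (aeval (R := κ) w).range :=
    IsPrincipalIdealRing.of_surjective (aeval (R := κ) w).rangeRestrict
      (aeval (R := κ) w).rangeRestrict_surjective
  rw [Algebra.adjoin_singleton_eq_range_aeval]
  exact h1

lemma mem_adj {w x : L} : x ∈ Algebra.adjoin κ ({w} : Set L) ↔ ∃ p : κ[X], aeval w p = x := by
  rw [Algebra.adjoin_singleton_eq_range_aeval]
  rfl

/-- the coefficients of the minimal polynomial of an integral element -/
lemma coef (w u : L) (E : IntermediateField κ L) (hE : E = IntermediateField.adjoin κ {w})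
    (hu : IsIntegral (Algebra.adjoin κ ({w} : Set L)) u) (i : ℕ) :
    ((minpoly E u).coeff i : L) ∈ Algebra.adjoin κ ({w} : Set L) := by
  subst hE
  have hp := pir (κ := κ) w
  rw [minpoly.isIntegrallyClosed_eq_field_fractions' (IntermediateField.adjoin κ {w}) hu, coeff_map]
  exact ((minpoly (Algebra.adjoin κ ({w} : Set L)) u).coeff i).2

/-- `κ [z⁻¹] ∩ κ [z]_(z) = κ` -/
lemma rat_const {z : L} (hz : Transcendental κ z) (p q g : κ[X]) (m : ℕ) (hg : g.eval 0 ≠ 0)
    (h : aeval z⁻¹ p * aeval z g ^ m = aeval z q) : p.natDegree = 0 := by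
  by_contra hd
  have hz0 : z ≠ 0 := by
    rintro rfl
    exact hz (isAlgebraic_zero)
  have hp0 : p ≠ 0 := by
    rintro rfl
    exact hd natDegree_zero
  let hinv : Invertible (z⁻¹) := invertibleOfNonzero (inv_ne_zero hz0)
  have h1 := eval₂_reverse_mul_pow (algebraMap κ L) z⁻¹ p
  have h2 : ⅟(z⁻¹) = z := by rw [invOf_eq_inv, inv_inv]
  rw [h2] at h1
  have h3 : aeval z (reverse p * g ^ m) = aeval z (X ^ p.natDegree * q) := by
    rw [map_mul, map_mul, map_pow, map_pow, aeval_X, ← h, aeval_def (x := z⁻¹), ← h1, ← aeval_def,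
      inv_pow]
    field_simp
  have h4 := (transcendental_iff_injective.1 hz) h3
  have h5 := congrArg (eval 0) h4
  rw [eval_mul, eval_mul, eval_pow, eval_pow, eval_X, zero_pow hd, zero_mul, ← coeff_zero_eq_eval_zero,
    coeff_zero_reverse] at h5
  exact mul_ne_zero (leadingCoeff_ne_zero.2 hp0) (pow_ne_zero _ hg) h5

/-- an element with constant coefficients -/
lemma const_of_coef [IsAlgClosed κ] (E : IntermediateField κ L) {u : L} (hu : IsIntegral E u)
    (h : ∀ i, ((minpoly E u).coeff i : L) ∈ Set.range (algebraMap κ L)) :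
    u ∈ Set.range (algebraMap κ L) := by
  have h1 : minpoly E u ∈ lifts (algebraMap κ E) := by
    rw [lifts_iff_coeff_lifts]
    intro i
    obtain ⟨c, hc⟩ := h i
    refine ⟨c, ?_⟩
    apply (algebraMap E L).injective
    rw [← IsScalarTower.algebraMap_apply, hc]
    rfl
  obtain ⟨P, hP⟩ := (mem_lifts _).1 h1
  have hP0 : P ≠ 0 := by
    rintro rfl
    rw [Polynomial.map_zero] at hP
    exact minpoly.ne_zero hu hP.symm
  have h2 : aeval u P = 0 := by
    have h3 := minpoly.aeval E u
    rw [← hP, aeval_map_algebraMap] at h3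
    exact h3
  have h3 : IsIntegral κ u := (IsAlgebraic.isIntegral ⟨P, hP0, h2⟩)
  have h4 := minpoly.mem_range_of_degree_eq_one κ u
    (IsAlgClosed.degree_eq_one_of_irreducible κ (minpoly.irreducible h3))
  exact h4

theorem const_of [IsAlgClosed κ] {z u : L} (hz : Transcendental κ z)
    (hu : IsIntegral (Algebra.adjoin κ ({z⁻¹} : Set L)) u) (g : κ[X]) (hg : g.eval 0 ≠ 0)
    (hgu : IsIntegral (Algebra.adjoin κ ({z} : Set L)) (aeval z g * u)) :
    u ∈ Set.range (algebraMap κ L) := by
  have hz0 : z ≠ 0 := by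
    rintro rfl
    exact hz (isAlgebraic_zero)
  have hEE : IntermediateField.adjoin κ ({z} : Set L) = IntermediateField.adjoin κ {z⁻¹} := by
    refine le_antisymm ?_ ?_
    · rw [IntermediateField.adjoin_simple_le_iff]
      have := (IntermediateField.adjoin κ ({z⁻¹} : Set L)).inv_mem
        (IntermediateField.mem_adjoin_simple_self κ z⁻¹)
      rwa [inv_inv] at this
    · rw [IntermediateField.adjoin_simple_le_iff]
      exact (IntermediateField.adjoin κ ({z} : Set L)).inv_mem
        (IntermediateField.mem_adjoin_simple_self κ z)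
  obtain ⟨E, hE⟩ : ∃ E : IntermediateField κ L, E = IntermediateField.adjoin κ {z} := ⟨_, rfl⟩
  have hzE : z ∈ E := by
    rw [hE]
    exact IntermediateField.mem_adjoin_simple_self κ z
  have hgE : aeval z g ∈ E := by
    have : aeval z g ∈ Algebra.adjoin κ ({z} : Set L) := mem_adj.2 ⟨g, rfl⟩
    rw [hE]
    exact IntermediateField.algebra_adjoin_le_adjoin κ _ this
  have hg0 : aeval z g ≠ 0 := by
    intro h0
    have h1 : aeval z g = aeval z (0 : κ[X]) := by rw [h0, map_zero]
    have h2 := (transcendental_iff_injective.1 hz) h1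
    rw [h2, eval_zero] at hg
    exact hg rfl
  have huE : IsIntegral E u := by
    obtain ⟨P, hP, hPu⟩ := hu
    rw [hE, hEE]
    refine ⟨P.map (algebraMap (Algebra.adjoin κ ({z⁻¹} : Set L)) (IntermediateField.adjoin κ {z⁻¹})),
      hP.map _, ?_⟩
    rw [eval₂_map]
    exact hPu
  refine const_of_coef E huE fun i => ?_
  obtain ⟨p, hp⟩ := mem_adj.1 (coef z⁻¹ u E (by rw [hE, hEE]) hu i)
  have h1 := coef z (aeval z g * u) E hE hgu i
  have h2 : aeval z g * u = (⟨aeval z g, hgE⟩ : E) • u := rfl
  rw [h2, IsIntegrallyClosed.minpoly_smul (R := E) (S := L) (r := ⟨aeval z g, hgE⟩) (by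
    intro h
    exact hg0 (congrArg Subtype.val h)) huE, coeff_scaleRoots] at h1
  obtain ⟨q, hq⟩ := mem_adj.1 h1
  have h3 := rat_const hz p q g _ hg (by
    rw [hp, hq]
    rfl)
  rw [← hp, eq_C_of_natDegree_eq_zero h3, aeval_C]
  exact ⟨_, rfl⟩

/-- the orders at the places above `z = 0` -/
theorem exists_vals [CharZero κ] {z : L} (hz : Transcendental κ z)
    (hfd : FiniteDimensional (IntermediateField.adjoin κ ({z} : Set L)) L) :
    ∃ (S : Type) (_ : Finite S) (f : S → Lˣ →* Multiplicative ℤ), ∀ u : Lˣ, (∀ s, f s u = 1) →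
      ∃ g : κ[X], g.eval 0 ≠ 0 ∧ IsIntegral (Algebra.adjoin κ ({z} : Set L)) (aeval z g * u) := by
  have hz0 : z ≠ 0 := by
    rintro rfl
    exact hz (isAlgebraic_zero)
  have hp := pir (κ := κ) z
  have hchar : CharZero (IntermediateField.adjoin κ ({z} : Set L)) :=
    charZero_of_injective_algebraMap (algebraMap κ _).injective
  have hD : IsDedekindDomain (integralClosure (Algebra.adjoin κ ({z} : Set L)) L) :=
    integralClosure.isDedekindDomain (Algebra.adjoin κ ({z} : Set L))
      (IntermediateField.adjoin κ ({z} : Set L)) L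
  have hF : IsFractionRing (integralClosure (Algebra.adjoin κ ({z} : Set L)) L) L :=
    IsIntegralClosure.isFractionRing_of_finite_extension (Algebra.adjoin κ ({z} : Set L))
      (IntermediateField.adjoin κ ({z} : Set L)) L _
  have hin : ∀ p : κ[X], aeval z p ∈ integralClosure (Algebra.adjoin κ ({z} : Set L)) L := fun p =>
    (integralClosure (Algebra.adjoin κ ({z} : Set L)) L).algebraMap_mem
      (⟨aeval z p, mem_adj.2 ⟨p, rfl⟩⟩ : Algebra.adjoin κ ({z} : Set L))
  have hzin : z ∈ integralClosure (Algebra.adjoin κ ({z} : Set L)) L := by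
    have := hin X
    rwa [aeval_X] at this
  obtain ⟨C, hC⟩ : ∃ C, C = integralClosure (Algebra.adjoin κ ({z} : Set L)) L := ⟨_, rfl⟩
  rw [← hC] at hD hF hin hzin
  have hfin : {v : HeightOneSpectrum C | (⟨z, hzin⟩ : C) ∈ v.asIdeal}.Finite := by
    have h1 := Ideal.finite_factors (R := C) (I := Ideal.span {(⟨z, hzin⟩ : C)}) (by
      rw [Ne, Ideal.zero_eq_bot, Ideal.span_singleton_eq_bot]
      intro h
      exact hz0 (congrArg Subtype.val h))
    refine h1.subset ?_
    intro v hv
    exact Ideal.dvd_span_singleton.2 hv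
  refine ⟨{v : HeightOneSpectrum C | (⟨z, hzin⟩ : C) ∈ v.asIdeal}, hfin.to_subtype,
    fun v => v.1.valuationOfNeZero, ?_⟩
  intro u hu
  -- a denominator
  have halg : IsAlgebraic (Algebra.adjoin κ ({z} : Set L)) (u : L) := by
    have h1 := Algebra.IsAlgebraic.trans (Algebra.adjoin κ ({z} : Set L))
      (IntermediateField.adjoin κ ({z} : Set L)) L
    exact h1.isAlgebraic _
  obtain ⟨a, ha0, ha⟩ := IsAlgebraic.exists_integral_multiple halg
  obtain ⟨h, hh⟩ := mem_adj.1 a.2
  have hh0 : h ≠ 0 := by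
    rintro rfl
    rw [map_zero] at hh
    exact ha0 (Subtype.ext hh.symm)
  obtain ⟨g, hg1, hg2⟩ := exists_eq_pow_rootMultiplicity_mul_and_not_dvd h hh0 0
  rw [dvd_iff_isRoot] at hg2
  refine ⟨g, hg2, ?_⟩
  have e1 : (a : L) = z ^ h.rootMultiplicity 0 * aeval z g := by
    rw [← hh]
    conv_lhs => rw [hg1]
    rw [map_mul, map_pow, map_sub, aeval_X, C_0, map_zero, sub_zero]
  have hmem : (a : L) * u ∈ C := by
    rw [hC]
    exact ha
  suffices hs : aeval z g * (u : L) ∈ (algebraMap C L).range by
    obtain ⟨c, hc⟩ := hs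
    have h9 : ∀ x ∈ C, IsIntegral (Algebra.adjoin κ ({z} : Set L)) x := by
      rw [hC]
      exact fun x hx => hx
    rw [← hc]
    exact h9 _ c.2
  refine HeightOneSpectrum.mem_integers_of_valuation_le_one (R := C) L _ fun v => ?_
  by_cases hv : (⟨z, hzin⟩ : C) ∈ v.asIdeal
  · have h1 : v.valuation L (u : L) = 1 := by
      have := hu ⟨v, hv⟩
      rw [← HeightOneSpectrum.valuationOfNeZero_eq]
      rw [this]
      rfl
    rw [map_mul, h1, mul_one]
    exact v.valuation_le_one (⟨aeval z g, hin g⟩ : C)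
  · have h1 : v.valuation L z = 1 := by
      have := (HeightOneSpectrum.valuation_eq_one_iff_notMem (K := L) v (r := (⟨z, hzin⟩ : C))).2 hv
      exact this
    have h2 : v.valuation L ((a : L) * u) ≤ 1 := v.valuation_le_one (⟨(a : L) * u, hmem⟩ : C)
    rw [e1, mul_assoc, map_mul, map_pow, h1, one_pow, one_mul] at h2
    exact h2

end Pool.Agent.NH29.GN.RU
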