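import Pool.Agent.NH29.GN.Stm
import Pool.Agent.NH29.GN.RUA
import Pool.Agent.NH29.GN.RUB

/-!
# The units of a finitely generated ring form a finitely generated group
-/

set_option autoImplicit false

namespace Pool.Agent.NH29.GN

namespace RU

open Polynomial Algebra
open scoped IntermediateField IntermediateField.algebraAdjoinAdjoin

/-- the constants -/
lemma consts {κ L : Type} [Field κ] [Field L] [Algebra κ L] [IsAlgClosed κ] (h : RUF κ)
    (T : Finset L) : ∃ V : Subgroup Lˣ, V.FG ∧ ∀ u ∈ Uof (Subring.closure (T : Set L)),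
      (u : L) ∈ Set.range (algebraMap κ L) → u ∈ V := by
  classical
  obtain ⟨B, hB⟩ : ∃ B : Subalgebra κ L, B = Algebra.adjoin κ (T : Set L) := ⟨_, rfl⟩
  have hTB : ∀ t ∈ T, t ∈ B := by
    intro t ht
    rw [hB]
    exact Algebra.subset_adjoin ht
  have hft : Algebra.FiniteType κ B := by
    rw [hB]
    exact (Subalgebra.fg_iff_finiteType _).1 ⟨T, rfl⟩
  -- a point
  obtain ⟨ρ⟩ : Nonempty (B →ₐ[κ] κ) := by
    obtain ⟨m, hm⟩ := Ideal.exists_maximal B
    let _ : Field (B ⧸ m) := Ideal.Quotient.field m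
    have h1 : Algebra.FiniteType κ (B ⧸ m) := Algebra.FiniteType.of_surjective
      (Ideal.Quotient.mkₐ κ m) (Ideal.Quotient.mkₐ_surjective κ m)
    have h2 : Module.Finite κ (B ⧸ m) := finite_of_finite_type_of_isJacobsonRing κ (B ⧸ m)
    have h3 : Function.Bijective (algebraMap κ (B ⧸ m)) :=
      IsAlgClosed.algebraMap_bijective_of_isIntegral
    exact ⟨(AlgEquiv.ofBijective (Algebra.ofId κ (B ⧸ m)) h3).symm.toAlgHom.comp
      (Ideal.Quotient.mkₐ κ m)⟩
  obtain ⟨T', hT'⟩ : ∃ T' : Finset κ, ∀ t (ht : t ∈ T), ρ ⟨t, hTB t ht⟩ ∈ T' :=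
    ⟨T.attach.image fun t => ρ ⟨t.1, hTB t.1 t.2⟩, fun t ht =>
      Finset.mem_image.2 ⟨⟨t, ht⟩, Finset.mem_attach _ _, rfl⟩⟩
  obtain ⟨s, hs⟩ := h T'
  refine ⟨(Uof (Subring.closure (T' : Set κ))).map (Units.map (algebraMap κ L : κ →* L)),
    ⟨s.image (Units.map (algebraMap κ L : κ →* L)), ?_⟩, ?_⟩
  · rw [Finset.coe_image, ← MonoidHom.map_closure, hs]
  have hle : Subring.closure (T : Set L) ≤
      ((Subring.closure (T' : Set κ)).comap ρ.toRingHom).map B.val.toRingHom := by
    rw [Subring.closure_le]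
    intro t ht
    exact ⟨⟨t, hTB t ht⟩, Subring.subset_closure (hT' t ht), rfl⟩
  have key : ∀ c : κ, algebraMap κ L c ∈ Subring.closure (T : Set L) →
      c ∈ Subring.closure (T' : Set κ) := by
    intro c hc
    obtain ⟨b, hb, hbc⟩ := hle hc
    have h1 : b = algebraMap κ B c := Subtype.ext hbc
    have h2 : ρ b ∈ Subring.closure (T' : Set κ) := hb
    rw [h1, AlgHom.commutes] at h2
    exact h2
  rintro u ⟨h1, h2⟩ ⟨c, hc⟩
  have hc0 : c ≠ 0 := by
    rintro rfl
    rw [map_zero] at hc
    exact u.ne_zero hc.symm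
  refine ⟨Units.mk0 c hc0, ⟨key c (by rw [hc]; exact h1), ?_⟩, Units.ext hc⟩
  refine key _ ?_
  have h3 : algebraMap κ L (((Units.mk0 c hc0)⁻¹ : κˣ) : κ) = ((u⁻¹ : Lˣ) : L) := by
    rw [Units.val_inv_eq_inv_val, Units.val_mk0, map_inv₀, hc, Units.val_inv_eq_inv_val]
  rw [h3]
  exact h2

/-- Noether normalization -/
lemma noether {κ L : Type} [Field κ] [Field L] [Algebra κ L] (htr : Algebra.trdeg κ L ≤ 1)
    (hna : ¬ Algebra.IsAlgebraic κ L) (T : Finset L) :
    ∃ y : L, Transcendental κ y ∧ ∀ b ∈ Algebra.adjoin κ (T : Set L),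
      IsIntegral (Algebra.adjoin κ ({y} : Set L)) b := by
  obtain ⟨B, hB⟩ : ∃ B : Subalgebra κ L, B = Algebra.adjoin κ (T : Set L) := ⟨_, rfl⟩
  have hft : Algebra.FiniteType κ B := by
    rw [hB]
    exact (Subalgebra.fg_iff_finiteType _).1 ⟨T, rfl⟩
  obtain ⟨s, g, hg, hgi⟩ := exists_integral_inj_algHom_of_fg κ B
  -- the elements are algebraically independent
  have hind : AlgebraicIndependent κ fun i => (g (MvPolynomial.X i) : L) := by
    have h1 : (MvPolynomial.aeval fun i => (g (MvPolynomial.X i) : L)) = B.val.comp g := by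
      ext i
      simp
    rw [algebraicIndependent_iff_injective_aeval, h1]
    exact Subtype.val_injective.comp hg
  have hs : s ≤ 1 := by
    have h1 := hind.cardinalMk_le_trdeg.trans htr
    rw [Cardinal.mk_fin] at h1
    exact_mod_cast h1
  obtain ⟨y, hy, hyg⟩ : ∃ y : L, Transcendental κ y ∧
      ∀ P : MvPolynomial (Fin s) κ, (g P : L) ∈ Algebra.adjoin κ ({y} : Set L) := by
    rcases Nat.lt_or_ge 0 s with h0 | h0
    · obtain rfl : s = 1 := by omega
      refine ⟨g (MvPolynomial.X 0), hind.transcendental 0, fun P => ?_⟩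
      induction P using MvPolynomial.induction_on with
      | C c =>
        rw [← MvPolynomial.algebraMap_eq, AlgHom.commutes]
        exact Subalgebra.algebraMap_mem _ c
      | add p q hp hq =>
        rw [map_add]
        exact Subalgebra.add_mem _ hp hq
      | mul_X p i hp =>
        rw [map_mul]
        refine Subalgebra.mul_mem _ hp ?_
        obtain rfl : i = 0 := Subsingleton.elim _ _
        exact Algebra.self_mem_adjoin_singleton κ _
    · obtain rfl : s = 0 := by omega
      obtain ⟨y, hy⟩ : ∃ y : L, Transcendental κ y := by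
        by_contra hc
        apply hna
        refine ⟨fun x => ?_⟩
        by_contra hx
        exact hc ⟨x, hx⟩
      refine ⟨y, hy, fun P => ?_⟩
      rw [MvPolynomial.eq_C_of_isEmpty P, ← MvPolynomial.algebraMap_eq, AlgHom.commutes]
      exact Subalgebra.algebraMap_mem _ _
  refine ⟨y, hy, fun b hb => ?_⟩
  rw [← hB] at hb
  obtain ⟨P, hPm, hP⟩ := hgi ⟨b, hb⟩
  let ψ : MvPolynomial (Fin s) κ →+* Algebra.adjoin κ ({y} : Set L) :=
    { toFun := fun Q => ⟨g Q, hyg Q⟩
      map_one' := Subtype.ext (by simp)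
      map_mul' := fun a b => Subtype.ext (by simp)
      map_zero' := Subtype.ext (by simp)
      map_add' := fun a b => Subtype.ext (by simp) }
  refine ⟨P.map ψ, hPm.map ψ, ?_⟩
  rw [eval₂_map]
  have h1 := congrArg (B.val.toRingHom) hP
  rw [map_zero, hom_eval₂] at h1
  exact h1

/-- one step of the induction -/
theorem ruf_step {κ K : Type} [Field κ] [Field K] [Algebra κ K] [IsAlgClosed κ] [CharZero κ]
    (htr : Algebra.trdeg κ K ≤ 1) (h : RUF κ) : RUF K := by
  classical
  intro T
  obtain ⟨L, hL⟩ : ∃ L, L = IntermediateField.adjoin κ (T : Set K) := ⟨_, rfl⟩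
  refine fg_of_range (K := L) L.val.toRingHom (T := T) (fun t ht => ?_) fun T' => ?_
  · exact ⟨⟨t, by rw [hL]; exact IntermediateField.subset_adjoin _ _ ht⟩, rfl⟩
  obtain ⟨V, hV, hVc⟩ := consts (L := L) h T'
  by_cases halg : Algebra.IsAlgebraic κ L
  · refine fg_of_le (fun u hu => hVc u hu ?_) hV
    have hbij : Function.Bijective (algebraMap κ L) :=
      IsAlgClosed.algebraMap_bijective_of_isIntegral
    exact hbij.2 _
  have h1 : Algebra.trdeg κ L ≤ 1 := (trdeg_le_of_injective L.val L.val.injective).trans htr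
  have hess : Algebra.EssFiniteType κ L := by
    rw [IntermediateField.essFiniteType_iff, hL]
    exact IntermediateField.fg_adjoin_finset T
  obtain ⟨y, hy, hyB⟩ := noether h1 halg T'
  have hy0 : y ≠ 0 := by
    rintro rfl
    exact hy (isAlgebraic_zero)
  have hz : Transcendental κ y⁻¹ := by
    intro hc
    exact hy (by rw [← inv_inv y]; exact hc.inv)
  -- `L` is algebraic over `κ (z)`
  have hbas : IsTranscendenceBasis κ (fun _ : Unit => y⁻¹) := by
    refine AlgebraicIndependent.isTranscendenceBasis_of_trdeg_le_of_finite ?_ ?_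
    · rw [algebraicIndependent_unique_type_iff]
      exact hz
    · simpa using h1
  have hal : Algebra.IsAlgebraic (IntermediateField.adjoin κ ({y⁻¹} : Set L)) L := by
    have h2 := hbas.isAlgebraic_field
    rw [Set.range_const] at h2
    exact h2
  have hfd : FiniteDimensional (IntermediateField.adjoin κ ({y⁻¹} : Set L)) L := by
    have h3 : Algebra.EssFiniteType (IntermediateField.adjoin κ ({y⁻¹} : Set L)) L :=
      Algebra.EssFiniteType.of_comp κ _ L
    exact Algebra.finite_of_essFiniteType_of_isAlgebraic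
  obtain ⟨S, hS, f, hf⟩ := exists_vals hz hfd
  refine ext_fg _ V hV f fun u hu hu1 => hVc u hu ?_
  obtain ⟨g, hg, hgu⟩ := hf u hu1
  refine const_of hz ?_ g hg hgu
  rw [inv_inv]
  refine hyB _ ?_
  have h4 : Subring.closure (T' : Set L) ≤ (Algebra.adjoin κ (T' : Set L)).toSubring := by
    rw [Subring.closure_le]
    exact Algebra.subset_adjoin
  exact h4 hu.1

theorem trdeg_adjoin_le {k Ω : Type} [Field k] [Field Ω] [Algebra k Ω] (t : Ω) :
    Algebra.trdeg k (IntermediateField.adjoin k ({t} : Set Ω)) ≤ 1 := by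
  have h1 := Algebra.IsAlgebraic.trdeg_le_cardinalMk k
    ({IntermediateField.AdjoinSimple.gen k t} : Set (IntermediateField.adjoin k ({t} : Set Ω)))
    (alg := by
      refine ⟨fun x => ?_⟩
      obtain ⟨a, b, hb, hab⟩ := IsFractionRing.div_surjective (A := Algebra.adjoin k ({t} : Set Ω)) x
      have hmem : ∀ a : Algebra.adjoin k ({t} : Set Ω),
          algebraMap _ (IntermediateField.adjoin k ({t} : Set Ω)) a ∈
            Algebra.adjoin k ({IntermediateField.AdjoinSimple.gen k t} :
              Set (IntermediateField.adjoin k ({t} : Set Ω))) := by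
        rintro ⟨a, ha⟩
        obtain ⟨p, rfl⟩ := mem_adj.1 ha
        refine mem_adj.2 ⟨p, ?_⟩
        apply Subtype.ext
        exact IntermediateField.AdjoinSimple.coe_aeval_gen_apply _ _ p
      rw [← hab, div_eq_mul_inv]
      refine (isAlgebraic_algebraMap (⟨_, hmem a⟩ : Algebra.adjoin k
        ({IntermediateField.AdjoinSimple.gen k t} : Set _))).mul
        (isAlgebraic_algebraMap (⟨_, hmem b⟩ : Algebra.adjoin k
        ({IntermediateField.AdjoinSimple.gen k t} : Set _))).inv)
  rwa [Cardinal.mk_singleton] at h1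

/-- the induction -/
theorem exists_ruf {K : Type} [Field K] [CharZero K] [IsAlgClosed K] (T : Finset K) :
    ∃ (κ : Type) (_ : Field κ) (_ : Algebra κ K) (_ : IsAlgClosed κ) (_ : CharZero κ),
      RUF κ ∧ (T : Set K) ⊆ Set.range (algebraMap κ K) := by
  classical
  induction T using Finset.induction_on with
  | empty =>
    refine ⟨algebraicClosure ℚ K, inferInstance, inferInstance,
      (algebraicClosure.isAlgClosure ℚ K).isAlgClosed, inferInstance,
      ruf_alg _ ?_, ?_⟩
    · have h := (algebraicClosure.isAlgebraic ℚ K)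
      convert h
      · rfl
      · exact Subsingleton.elim _ _
    rw [Finset.coe_empty]
    exact Set.empty_subset _
  | insert t T _ ih =>
    obtain ⟨κ, _, _, _, _, hκ, hT⟩ := ih
    obtain ⟨E, hE⟩ : ∃ E : IntermediateField κ K, E = IntermediateField.adjoin κ {t} := ⟨_, rfl⟩
    have h1 : Algebra.trdeg κ E ≤ 1 := by
      rw [hE]
      exact trdeg_adjoin_le t
    have h2 : Algebra.trdeg E (algebraicClosure E K) = 0 :=
      trdeg_eq_zero_iff.2 inferInstance
    have h3 : Algebra.trdeg κ (algebraicClosure E K) ≤ 1 := by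
      rw [← trdeg_add_eq κ E (A := algebraicClosure E K), h2, add_zero]
      exact h1
    refine ⟨algebraicClosure E K, inferInstance, inferInstance,
      (algebraicClosure.isAlgClosure E K).isAlgClosed, inferInstance, ruf_step h3 hκ, ?_⟩
    rw [Finset.coe_insert, Set.insert_subset_iff]
    constructor
    · have ht : t ∈ E := by
        rw [hE]
        exact IntermediateField.mem_adjoin_simple_self κ t
      exact ⟨algebraMap E (algebraicClosure E K) ⟨t, ht⟩, rfl⟩
    · intro z hz
      obtain ⟨w, hw⟩ := hT hz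
      exact ⟨algebraMap κ (algebraicClosure E K) w, hw⟩

end RU

theorem ru : RUStm := by
  intro K _ _ _ T
  obtain ⟨κ, _, _, _, _, hκ, hT⟩ := RU.exists_ruf T
  refine ⟨RU.Uof (Subring.closure (T : Set K)), RU.fg_of_range (algebraMap κ K) hT hκ, ?_⟩
  intro u h1 h2
  exact ⟨h1, h2⟩

end Pool.Agent.NH29.GN
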