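import Pool.Agent.NH29.GN.Stm

/-!
# Project GN, STC, part A: differentials of forms
-/

set_option autoImplicit false

namespace Pool.Agent.NH29.GN.Stc

open MvPolynomial Module

/-! ## Products and monomials -/

section A

variable {k L : Type} [Field k] [Field L] [Algebra k L] {M : ℕ}

theorem der_prod (D : Derivation k L L) {ι : Type} [DecidableEq ι] (s : Finset ι) (f : ι → L) :
    D (∏ i ∈ s, f i) = ∑ i ∈ s, (∏ j ∈ s.erase i, f j) * D (f i) := by
  induction s using Finset.induction_on with
  | empty => simp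
  | insert a s ha ih =>
    rw [Finset.prod_insert ha, D.leibniz, ih, Finset.sum_insert ha, Finset.erase_insert ha]
    rw [smul_eq_mul, smul_eq_mul, Finset.mul_sum, add_comm]
    congr 1
    refine Finset.sum_congr rfl fun i hi => ?_
    have h1 : a ≠ i := by rintro rfl; exact ha hi
    rw [Finset.erase_insert_of_ne h1, Finset.prod_insert (fun h => ha (Finset.mem_of_mem_erase h)),
      mul_assoc]

/-- the differential of a monomial -/
noncomputable def dval (x : Fin (M + 1) → L) (β : Fin (M + 1) →₀ ℕ) :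
    (Fin (M + 1) → L) →ₗ[L] L :=
  ∑ i, ((∏ j ∈ Finset.univ.erase i, x j ^ β j) * ((β i : L) * x i ^ (β i - 1))) •
    LinearMap.proj i

theorem dval_apply (x : Fin (M + 1) → L) (β : Fin (M + 1) →₀ ℕ) (y : Fin (M + 1) → L) :
    dval x β y = ∑ i, (∏ j ∈ Finset.univ.erase i, x j ^ β j) *
      ((β i : L) * x i ^ (β i - 1)) * y i := by
  simp [dval]

theorem der_val (D : Derivation k L L) (x : Fin (M + 1) → L) (β : Fin (M + 1) →₀ ℕ) :
    D (val x β) = dval x β fun i => D (x i) := by
  rw [dval_apply, val, der_prod]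
  refine Finset.sum_congr rfl fun i _ => ?_
  rw [D.leibniz_pow, nsmul_eq_mul, smul_eq_mul]
  ring

theorem dval_self (x : Fin (M + 1) → L) (β : Fin (M + 1) →₀ ℕ) :
    dval x β x = (β.degree : L) * val x β := by
  have h1 : ∀ i, (∏ j ∈ Finset.univ.erase i, x j ^ β j) * ((β i : L) * x i ^ (β i - 1)) * x i =
      (β i : L) * val x β := by
    intro i
    rw [val, ← Finset.mul_prod_erase Finset.univ (fun j => x j ^ β j) (Finset.mem_univ i)]
    rcases Nat.eq_zero_or_pos (β i) with h | h
    · simp [h]
    · have h2 : x i ^ β i = x i ^ (β i - 1) * x i := by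
        rw [← pow_succ, Nat.sub_add_cancel h]
      rw [h2]; ring
  rw [dval_apply, Finset.sum_congr rfl fun i _ => h1 i, ← Finset.sum_mul]
  congr 1
  rw [Finsupp.degree_eq_sum]
  push_cast
  rfl

end A

/-! ## Forms -/

section F

variable {k K L : Type} [Field k] [Field K] [Field L] [Algebra k L] [Algebra K L] {M q : ℕ}
  {d : Fin q → ℕ}

/-- the differential of a form -/
noncomputable def dfv (t : Idx M d → K) (x : Fin (M + 1) → L) (i : Fin q) :
    (Fin (M + 1) → L) →ₗ[L] L :=
  ∑ β : Mon M (d i), algebraMap K L (t ⟨i, β⟩) • dval x β.1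

theorem dfv_apply (t : Idx M d → K) (x : Fin (M + 1) → L) (i : Fin q) (y : Fin (M + 1) → L) :
    dfv t x i y = ∑ β : Mon M (d i), algebraMap K L (t ⟨i, β⟩) * dval x β.1 y := by
  simp [dfv, Algebra.smul_def]

theorem der_fv (D : Derivation k L L) (t : Idx M d → K) (x : Fin (M + 1) → L) (i : Fin q) :
    D (fv t x i) = (∑ β : Mon M (d i), D (algebraMap K L (t ⟨i, β⟩)) * val x β.1) +
      dfv t x i fun a => D (x a) := by
  rw [fv, map_sum, dfv_apply, ← Finset.sum_add_distrib]
  refine Finset.sum_congr rfl fun β _ => ?_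
  rw [D.leibniz, der_val, smul_eq_mul, smul_eq_mul]
  ring

theorem dfv_self (t : Idx M d → K) (x : Fin (M + 1) → L) (i : Fin q) :
    dfv t x i x = (d i : L) * fv t x i := by
  rw [dfv_apply, fv, Finset.mul_sum]
  refine Finset.sum_congr rfl fun β _ => ?_
  rw [dval_self, β.2]
  ring

end F

/-! ## Homogeneous polynomials -/

section H

variable {k L : Type} [Field k] [Field L] {M : ℕ}

/-- the value of a homogeneous polynomial -/
theorem eval₂_form (f : k →+* L) (x : Fin (M + 1) → L) {e : ℕ}
    {P : MvPolynomial (Fin (M + 1)) k} (hP : P.IsHomogeneous e) :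
    eval₂ f x P = ∑ β : Mon M e, f (coeff β.1 P) * val x β.1 := by
  classical
  rw [eval₂_eq']
  have h1 : P.support ⊆ Finset.univ.image fun β : Mon M e => β.1 := by
    intro β hβ
    rw [MvPolynomial.mem_support_iff] at hβ
    have h2 : β.degree = e := by rw [Finsupp.degree_eq_weight_one]; exact hP hβ
    exact Finset.mem_image.2 ⟨⟨β, h2⟩, Finset.mem_univ _, rfl⟩
  rw [Finset.sum_subset h1, Finset.sum_image fun β _ γ _ h => Subtype.ext h]
  · rfl
  · intro β _ hβ
    rw [MvPolynomial.notMem_support_iff] at hβ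
    simp [hβ]

theorem val_add (x : Fin (M + 1) → L) (β γ : Fin (M + 1) →₀ ℕ) :
    val x (β + γ) = val x β * val x γ := by
  rw [val, val, val, ← Finset.prod_mul_distrib]
  exact Finset.prod_congr rfl fun i _ => by rw [Finsupp.add_apply, pow_add]

end H

end Pool.Agent.NH29.GN.Stc
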