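import Pool.Agent.NH29.GN.StcA

/-!
# Project GN, STC, part B: linear forms and constants of derivations
-/

set_option autoImplicit false

namespace Pool.Agent.NH29.GN.Stc

open MvPolynomial Module

section B

variable {k L : Type} [Field k] [Field L] [Algebra k L] {M n : ℕ}

theorem val_smul (c : L) (x : Fin (M + 1) → L) (β : Fin (M + 1) →₀ ℕ) :
    val (fun i => c * x i) β = c ^ β.degree * val x β := by
  rw [val, val, Finsupp.degree_eq_sum, ← Finset.prod_pow_eq_pow_sum, ← Finset.prod_mul_distrib]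
  exact Finset.prod_congr rfl fun i _ => by rw [mul_pow]

omit [Algebra k L] in
theorem eval₂_smul {e : ℕ} {P : MvPolynomial (Fin (M + 1)) k} (hP : P.IsHomogeneous e)
    (f : k →+* L) (c : L) (x : Fin (M + 1) → L) :
    eval₂ f (fun i => c * x i) P = c ^ e * eval₂ f x P := by
  rw [eval₂_form f _ hP, eval₂_form f _ hP, Finset.mul_sum]
  refine Finset.sum_congr rfl fun β _ => ?_
  rw [val_smul, β.2]
  ring

variable (L) in
/-- the values of linear forms -/
noncomputable def lin (ℓ : Fin (n + 1) → MvPolynomial (Fin (M + 1)) k) :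
    (Fin (M + 1) → L) →ₗ[L] (Fin (n + 1) → L) :=
  LinearMap.pi fun j => ∑ i, algebraMap k L (coeff (Finsupp.single i 1) (ℓ j)) •
    LinearMap.proj i

theorem lin_apply (ℓ : Fin (n + 1) → MvPolynomial (Fin (M + 1)) k) (w : Fin (M + 1) → L)
    (j : Fin (n + 1)) :
    lin L ℓ w j = ∑ i, algebraMap k L (coeff (Finsupp.single i 1) (ℓ j)) * w i := by
  simp [lin, LinearMap.sum_apply, LinearMap.smul_apply, Algebra.smul_def]

theorem eval₂_lin {ℓ : Fin (n + 1) → MvPolynomial (Fin (M + 1)) k} {j : Fin (n + 1)}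
    (h : (ℓ j).IsHomogeneous 1) (w : Fin (M + 1) → L) :
    eval₂ (algebraMap k L) w (ℓ j) = lin L ℓ w j := by
  classical
  have h1 : ℓ j ∈ Submodule.span k
      (Set.range (X : Fin (M + 1) → MvPolynomial (Fin (M + 1)) k)) := by
    rw [← homogeneousSubmodule_one_eq_span_X]; exact h
  obtain ⟨c, hc⟩ := (Submodule.mem_span_range_iff_exists_fun k).1 h1
  have h2 : ∀ i, coeff (Finsupp.single i 1) (ℓ j) = c i := by
    intro i
    rw [← hc, coeff_sum, Finset.sum_eq_single i]
    · simp
    · intro b _ hb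
      rw [coeff_smul, coeff_X, if_neg, smul_zero]
      intro h
      exact hb (Finsupp.single_left_injective one_ne_zero h)
    · simp
  rw [lin_apply, Finset.sum_congr rfl fun i _ => by rw [h2 i], ← hc, eval₂_sum]
  refine Finset.sum_congr rfl fun i _ => ?_
  rw [smul_eq_C_mul, eval₂_mul, eval₂_C, eval₂_X]

theorem der_lin (D : Derivation k L L) (ℓ : Fin (n + 1) → MvPolynomial (Fin (M + 1)) k)
    (x : Fin (M + 1) → L) (j : Fin (n + 1)) :
    D (lin L ℓ x j) = lin L ℓ (fun i => D (x i)) j := by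
  rw [lin_apply, lin_apply, map_sum]
  refine Finset.sum_congr rfl fun i _ => ?_
  rw [D.leibniz, D.map_algebraMap, smul_zero, add_zero, smul_eq_mul]

theorem radical_map {E J : Type} [Field E] (f : k →+* E) (V : Set (MvPolynomial (Fin (M + 1)) k))
    (G : J → MvPolynomial (Fin (M + 1)) k) (a : Fin (M + 1))
    (h : X a ∈ (Ideal.span (V ∪ Set.range G)).radical) :
    X a ∈ (Ideal.span (((map f : MvPolynomial (Fin (M + 1)) k → _) '' V) ∪
      Set.range fun j => map f (G j))).radical := by
  obtain ⟨N, hN⟩ := h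
  refine ⟨N, ?_⟩
  have h1 := Ideal.mem_map_of_mem (map f : MvPolynomial (Fin (M + 1)) k →+* _) hN
  rw [Ideal.map_span, Set.image_union, map_pow, map_X, ← Set.range_comp] at h1
  exact h1

theorem eq_zero_of_lin {V : Set (MvPolynomial (Fin (M + 1)) k)}
    {ℓ : Fin (n + 1) → MvPolynomial (Fin (M + 1)) k} (hℓ : ∀ j, (ℓ j).IsHomogeneous 1)
    (hN : NoZero V ℓ) {x : Fin (M + 1) → L} (hx : ∀ H ∈ V, eval₂ (algebraMap k L) x H = 0)
    (h : ∀ j, lin L ℓ x j = 0) : x = 0 := by
  funext a
  obtain ⟨N, hN'⟩ := hN a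
  have h1 : Ideal.span (V ∪ Set.range ℓ) ≤ RingHom.ker (eval₂Hom (algebraMap k L) x) := by
    rw [Ideal.span_le]
    rintro P (hP | ⟨j, rfl⟩)
    · exact hx P hP
    · rw [SetLike.mem_coe, RingHom.mem_ker, coe_eval₂Hom, eval₂_lin (hℓ j), h j]
  have h2 := h1 hN'
  rw [RingHom.mem_ker, map_pow, coe_eval₂Hom, eval₂_X] at h2
  exact pow_eq_zero_iff_of_pos_or h2
where
  pow_eq_zero_iff_of_pos_or {a : L} {N : ℕ} (h : a ^ N = 0) : a = 0 := by
    by_contra h1
    exact pow_ne_zero N h1 h

/-- the constants of a derivation -/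
def cst (D : Derivation k L L) : Subfield L where
  carrier := {a | D a = 0}
  mul_mem' := by
    intro a b (ha : D a = 0) (hb : D b = 0)
    change D (a * b) = 0
    rw [D.leibniz, ha, hb, smul_zero, smul_zero, add_zero]
  one_mem' := D.map_one_eq_zero
  add_mem' := by
    intro a b (ha : D a = 0) (hb : D b = 0)
    change D (a + b) = 0
    rw [map_add, ha, hb, add_zero]
  zero_mem' := map_zero D
  neg_mem' := by
    intro a (ha : D a = 0)
    change D (-a) = 0
    rw [map_neg, ha, neg_zero]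
  inv_mem' := by
    intro a (ha : D a = 0)
    change D a⁻¹ = 0
    rw [D.leibniz_inv, ha, smul_zero]

/-- a derivation as a derivation over its field of constants -/
def dcst (D : Derivation k L L) : Derivation (cst D) L L :=
  Derivation.mk'
    { toFun := D
      map_add' := map_add D
      map_smul' := by
        intro c a
        have hc : D (c : L) = 0 := c.2
        change D ((c : L) * a) = (c : L) * D a
        rw [D.leibniz, hc, smul_zero, add_zero, smul_eq_mul] }
    (fun a b => D.leibniz a b)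

theorem der_eq_zero [CharZero k] (D : Derivation k L L) {y : L} (hy : IsAlgebraic (cst D) y) :
    D y = 0 := by
  have : CharZero L := charZero_of_injective_algebraMap (algebraMap k L).injective
  have : CharZero (cst D) := ⟨fun m n h => by
    have := congrArg (Subtype.val) h
    simpa using this⟩
  have h1 := (dcst D).map_aeval (minpoly (cst D) y) y
  rw [minpoly.aeval, map_zero] at h1
  have h2 : Polynomial.aeval y (Polynomial.derivative (minpoly (cst D) y)) ≠ 0 :=
    (minpoly.irreducible hy.isIntegral).separable.aeval_derivative_ne_zero (minpoly.aeval _ _)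
  have h3 : (dcst D) y = D y := rfl
  rw [h3, smul_eq_mul] at h1
  exact (mul_eq_zero.1 h1.symm).resolve_left h2

variable [CharZero k] {V : Set (MvPolynomial (Fin (M + 1)) k)}
  {ℓ : Fin (n + 1) → MvPolynomial (Fin (M + 1)) k}

/-- the linear forms are injective on the vectors `D x + c x` -/
theorem inj_of_lin (hA : AlgStm) (hV : ∀ H ∈ V, ∃ e, H.IsHomogeneous e)
    (hℓ : ∀ j, (ℓ j).IsHomogeneous 1) (hN : NoZero V ℓ) {x : Fin (M + 1) → L}
    (hx : ∀ H ∈ V, eval₂ (algebraMap k L) x H = 0) (hx0 : x ≠ 0) (D : Derivation k L L) (c : L)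
    (h : ∀ j, lin L ℓ (fun i => D (x i) + c * x i) j = 0) : ∀ i, D (x i) + c * x i = 0 := by
  have h1 : ∃ j, lin L ℓ x j ≠ 0 := by
    by_contra h2
    push Not at h2
    exact hx0 (eq_zero_of_lin hℓ hN hx h2)
  obtain ⟨j₀, hj₀⟩ := h1
  have h2 : ∀ j, D (lin L ℓ x j) = - c * lin L ℓ x j := by
    intro j
    have h3 := h j
    have h4 : (fun i => D (x i) + c * x i) = (fun i => D (x i)) + c • x := by
      funext i; simp
    rw [h4, map_add, map_smul, Pi.add_apply, Pi.smul_apply, ← der_lin, smul_eq_mul] at h3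
    linear_combination h3
  set z : L := lin L ℓ x j₀ with hz
  set y : Fin (M + 1) → L := fun i => z⁻¹ * x i with hy
  let f : k →+* cst D := (algebraMap k L).codRestrict (cst D) (fun a => D.map_algebraMap a)
  have hf : (algebraMap (cst D) L).comp f = algebraMap k L := by
    ext a; rfl
  have h3 := hA (cst D) L M ((map f : MvPolynomial (Fin (M + 1)) k → _) '' V)
    (by
      rintro _ ⟨H, hH, rfl⟩
      obtain ⟨e, he⟩ := hV H hH
      exact ⟨e, he.map f⟩)
    (Fin (n + 1)) (fun j => map f (ℓ j)) (fun _ => 1) (fun _ => le_rfl) (fun j => (hℓ j).map f)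
    (fun a => radical_map f V ℓ a (hN a)) y
    (by
      rintro _ ⟨H, hH, rfl⟩
      obtain ⟨e, he⟩ := hV H hH
      rw [aeval_def, eval₂_map, hf, hy, eval₂_smul he, hx H hH, mul_zero])
    (by
      intro j
      refine ⟨⟨z⁻¹ * lin L ℓ x j, ?_⟩, ?_⟩
      · change D (z⁻¹ * lin L ℓ x j) = 0
        rw [D.leibniz, D.leibniz_inv, h2 j, hz, h2 j₀]
        simp only [smul_eq_mul]
        field_simp
        ring
      · rw [aeval_def, eval₂_map, hf, hy, eval₂_smul (hℓ j), eval₂_lin (hℓ j), pow_one]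
        rfl)
  intro i
  have h4 : D (y i) = 0 := der_eq_zero D (h3 i)
  have h5 : x i = z * y i := by
    rw [hy]; field_simp
  rw [h5, D.leibniz, h4, hz, h2 j₀]
  simp only [smul_eq_mul]
  ring

omit [CharZero k] in
/-- a point with constant linear forms is constant -/
theorem cst_of_lin {K : Type} [Field K] [Algebra k K] [Algebra K L] [IsScalarTower k K L]
    [IsAlgClosed K] (hA : AlgStm) (hV : ∀ H ∈ V, ∃ e, H.IsHomogeneous e)
    (hℓ : ∀ j, (ℓ j).IsHomogeneous 1) (hN : NoZero V ℓ) {x : Fin (M + 1) → L}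
    (hx : ∀ H ∈ V, eval₂ (algebraMap k L) x H = 0) (hx0 : x ≠ 0) (c : L) (a : Fin (n + 1) → K)
    (h : ∀ j, lin L ℓ x j = c * algebraMap K L (a j)) :
    ∃ (c : L) (y : Fin (M + 1) → K), x = fun i => c * algebraMap K L (y i) := by
  have hc : c ≠ 0 := by
    rintro rfl
    exact hx0 (eq_zero_of_lin hℓ hN hx fun j => by rw [h j, zero_mul])
  set y : Fin (M + 1) → L := fun i => c⁻¹ * x i with hy
  have hf : (algebraMap K L).comp (algebraMap k K) = algebraMap k L :=
    (IsScalarTower.algebraMap_eq k K L).symm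
  have h3 := hA K L M ((map (algebraMap k K) : MvPolynomial (Fin (M + 1)) k → _) '' V)
    (by
      rintro _ ⟨H, hH, rfl⟩
      obtain ⟨e, he⟩ := hV H hH
      exact ⟨e, he.map _⟩)
    (Fin (n + 1)) (fun j => map (algebraMap k K) (ℓ j)) (fun _ => 1) (fun _ => le_rfl)
    (fun j => (hℓ j).map _)
    (fun a => radical_map (algebraMap k K) V ℓ a (hN a)) y
    (by
      rintro _ ⟨H, hH, rfl⟩
      obtain ⟨e, he⟩ := hV H hH
      rw [aeval_def, eval₂_map, hf, hy, eval₂_smul he, hx H hH, mul_zero])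
    (by
      intro j
      refine ⟨a j, ?_⟩
      rw [aeval_def, eval₂_map, hf, hy, eval₂_smul (hℓ j), eval₂_lin (hℓ j), pow_one, h j,
        inv_mul_cancel_left₀ hc])
  have h4 : ∀ i, ∃ b : K, algebraMap K L b = y i := by
    intro i
    exact minpoly.mem_range_of_degree_eq_one K (y i)
      (IsAlgClosed.degree_eq_one_of_irreducible K (minpoly.irreducible (h3 i).isIntegral))
  choose b hb using h4
  refine ⟨c, b, ?_⟩
  funext i
  rw [hb i, hy, mul_inv_cancel_left₀ hc]

end B

end Pool.Agent.NH29.GN.Stc
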