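import Pool.Agent.NH29.GN.StcB

/-!
# Project GN, STC, part C: derivations and logarithmic derivatives
-/

set_option autoImplicit false

namespace Pool.Agent.NH29.GN.Stc

open MvPolynomial Module

section C

variable {k K L : Type} [Field k] [Field K] [Field L] [Algebra k K] [Algebra K L] [Algebra k L]
  [IsScalarTower k K L] {M n q : ℕ} {d : Fin q → ℕ}

theorem der_sum_apply {A : Type} [Field A] [Algebra k A] {ι : Type} (s : Finset ι)
    (f : ι → Derivation k A A) (a : A) : (∑ i ∈ s, f i) a = ∑ i ∈ s, f i a := by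
  classical
  induction s using Finset.induction_on with
  | empty => simp
  | insert i s hi ih => rw [Finset.sum_insert hi, Finset.sum_insert hi, Derivation.add_apply, ih]

theorem exists_D (hD : DerStm) [CharZero k] {t : Idx M d → K} (ht : AlgebraicIndependent k t) :
    ∃ (e : Idx M d → Derivation k K K) (D : Idx M d → Derivation k L L),
      (∀ p, e p (t p) = 1) ∧ (∀ p p', p' ≠ p → e p (t p') = 0) ∧
      ∀ p a, D p (algebraMap K L a) = algebraMap K L (e p a) := by
  classical
  have h1 : ∀ p : Idx M d, ∃ e : Derivation k K K, e (t p) = 1 ∧ ∀ p', p' ≠ p → e (t p') = 0 := by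
    intro p
    obtain ⟨e, -, he⟩ := hD k k K (Idx M d) t ht 0 (fun p' => if p' = p then 1 else 0)
    refine ⟨e, ?_, ?_⟩
    · rw [he]; simp
    · intro p' hp'
      rw [he]; simp [hp']
  choose e he1 he2 using h1
  have h2 : ∀ p : Idx M d, ∃ D : Derivation k L L,
      ∀ a, D (algebraMap K L a) = algebraMap K L (e p a) := by
    intro p
    obtain ⟨D, hD', -⟩ := hD k K L Empty Empty.elim
      ((algebraicIndependent_empty_type_iff).2 (algebraMap K L).injective)
      ((Algebra.linearMap K L).compDer (e p)) Empty.elim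
    exact ⟨D, fun a => by rw [hD' a]; rfl⟩
  choose D hD' using h2
  exact ⟨e, D, he1, he2, hD'⟩

theorem exists_E (hD : DerStm) [CharZero k] {t : Idx M d → K} (ht : AlgebraicIndependent k t)
    {ℓ : Fin (n + 1) → MvPolynomial (Fin (M + 1)) k} (hℓ : ∀ j, (ℓ j).IsHomogeneous 1) :
    ∃ (E : ((i : Fin q) × Mon n (d i)) → Derivation k K K)
      (E' : ((i : Fin q) × Mon n (d i)) → Derivation k L L),
      (∀ s a, E' s (algebraMap K L a) = algebraMap K L (E s a)) ∧
      ∀ (x : Fin (M + 1) → L) s i,
        ∑ β : Mon M (d i), E' s (algebraMap K L (t ⟨i, β⟩)) * val x β.1 =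
          if s.1 = i then val (lin L ℓ x) s.2.1 else 0 := by
  classical
  obtain ⟨e, D, he1, he2, hDe⟩ := exists_D (L := L) hD ht
  let a : (s : (i : Fin q) × Mon n (d i)) → Mon M (d s.1) → k := fun s β =>
    coeff β.1 (∏ j, ℓ j ^ s.2.1 j)
  refine ⟨fun s => ∑ β : Mon M (d s.1), algebraMap k K (a s β) • e ⟨s.1, β⟩,
    fun s => ∑ β : Mon M (d s.1), algebraMap k L (a s β) • D ⟨s.1, β⟩, ?_, ?_⟩
  · intro s b
    rw [der_sum_apply, der_sum_apply, map_sum]
    refine Finset.sum_congr rfl fun β _ => ?_
    rw [Derivation.smul_apply, Derivation.smul_apply, hDe, smul_eq_mul, smul_eq_mul, map_mul,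
      ← IsScalarTower.algebraMap_apply]
  · intro x s i
    have h1 : ∀ β : Mon M (d i), (∑ γ : Mon M (d s.1), algebraMap k L (a s γ) • D ⟨s.1, γ⟩)
        (algebraMap K L (t ⟨i, β⟩)) = if s.1 = i then
          algebraMap k L (coeff β.1 (∏ j, ℓ j ^ s.2.1 j)) else 0 := by
      intro β
      rw [der_sum_apply]
      by_cases h : s.1 = i
      · subst h
        rw [if_pos rfl, Finset.sum_eq_single β]
        · rw [Derivation.smul_apply, hDe, he1, map_one, smul_eq_mul, mul_one]
        · intro γ _ hγ
          rw [Derivation.smul_apply, hDe, he2, map_zero, smul_zero]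
          intro h
          apply hγ
          simpa using h.symm
        · intro h; exact absurd (Finset.mem_univ _) h
      · rw [if_neg h]
        refine Finset.sum_eq_zero fun γ _ => ?_
        rw [Derivation.smul_apply, hDe, he2, map_zero, smul_zero]
        intro h'
        apply h
        exact (congrArg Sigma.fst h').symm
    simp only [h1]
    by_cases h : s.1 = i
    · subst h
      simp only [if_true]
      have h2 : (∏ j, ℓ j ^ s.2.1 j : MvPolynomial (Fin (M + 1)) k).IsHomogeneous (d s.1) := by
        have h3 := IsHomogeneous.prod Finset.univ (fun j => ℓ j ^ s.2.1 j)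
          (fun j => 1 * s.2.1 j) (fun j _ => (hℓ j).pow _)
        have h4 : ∑ j, 1 * s.2.1 j = d s.1 := by
          have h5 := s.2.2
          rw [Finsupp.degree_eq_sum] at h5
          simpa using h5
        rw [h4] at h3
        exact h3
      rw [← eval₂_form (algebraMap k L) x h2, val, eval₂_prod]
      refine Finset.prod_congr rfl fun j _ => ?_
      rw [eval₂_pow, eval₂_lin (hℓ j)]
    · simp [h]

/-! ## Logarithmic derivatives -/

/-- the logarithmic derivative -/
noncomputable def ld (D : Derivation k L L) (a : L) : L := D a / a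

variable (D : Derivation k L L)

theorem ld_one : ld D (1 : L) = 0 := by simp [ld]

theorem ld_mul {a b : L} (ha : a ≠ 0) (hb : b ≠ 0) : ld D (a * b) = ld D a + ld D b := by
  rw [ld, ld, ld, D.leibniz, smul_eq_mul, smul_eq_mul]
  field_simp
  ring

theorem ld_pow {a : L} (ha : a ≠ 0) (N : ℕ) : ld D (a ^ N) = N * ld D a := by
  induction N with
  | zero => simp [ld_one]
  | succ N ih =>
    rw [pow_succ, ld_mul D (pow_ne_zero _ ha) ha, ih]
    push_cast
    ring

theorem ld_inv {a : L} (ha : a ≠ 0) : ld D a⁻¹ = - ld D a := by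
  have h := ld_mul D ha (inv_ne_zero ha)
  rw [mul_inv_cancel₀ ha, ld_one] at h
  linear_combination -h

theorem ld_zpow {a : L} (ha : a ≠ 0) (N : ℤ) : ld D (a ^ N) = N * ld D a := by
  rcases Int.eq_nat_or_neg N with ⟨m, rfl | rfl⟩
  · rw [zpow_natCast, ld_pow D ha]; push_cast; ring
  · rw [zpow_neg, ld_inv D (zpow_ne_zero _ ha), zpow_natCast, ld_pow D ha]; push_cast; ring

theorem ld_prod {ι : Type} (s : Finset ι) (f : ι → L) (hf : ∀ i ∈ s, f i ≠ 0) :
    ld D (∏ i ∈ s, f i) = ∑ i ∈ s, ld D (f i) := by
  classical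
  induction s using Finset.induction_on with
  | empty => simp [ld_one]
  | insert i s hi ih =>
    rw [Finset.prod_insert hi, Finset.sum_insert hi, ld_mul D (hf i (Finset.mem_insert_self i s))
      (Finset.prod_ne_zero_iff.2 fun j hj => hf j (Finset.mem_insert_of_mem hj)),
      ih fun j hj => hf j (Finset.mem_insert_of_mem hj)]

/-- an element with a power in `K` lies in `K` -/
theorem mem_of_pow [IsAlgClosed K] {v : L} {N : ℕ} (hN : 0 < N) {c : K}
    (h : v ^ N = algebraMap K L c) : ∃ a : K, v = algebraMap K L a := by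
  have h1 : IsIntegral K v := by
    refine IsIntegral.of_pow hN ?_
    rw [h]
    exact isIntegral_algebraMap
  obtain ⟨a, ha⟩ := minpoly.mem_range_of_degree_eq_one K v
    (IsAlgClosed.degree_eq_one_of_irreducible K (minpoly.irreducible h1))
  exact ⟨a, ha.symm⟩

end C

end Pool.Agent.NH29.GN.Stc
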