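import Pool.Agent.NH29.GN.StcC

/-!
# Project GN, STC, part D: linear algebra
-/

set_option autoImplicit false

namespace Pool.Agent.NH29.GN.Stc

open MvPolynomial Module

section D

variable {k K L : Type} [Field k] [Field K] [Field L] [Algebra k K] [Algebra K L] [Algebra k L]
  [IsScalarTower k K L] {M n q : ℕ}

/-- coordinates of a vector over `K` -/
theorem exists_basis (z : Fin (n + 1) → L) :
    ∃ (y : Fin (finrank K (Submodule.span K (Set.range z))) → L)
      (p : Fin (finrank K (Submodule.span K (Set.range z))) → Fin (n + 1) → K),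
      LinearIndependent K p ∧ ∀ i, z i = ∑ j, algebraMap K L (p j i) * y j := by
  classical
  set Z : Submodule K L := Submodule.span K (Set.range z) with hZ
  have : FiniteDimensional K Z := FiniteDimensional.span_of_finite K (Set.finite_range z)
  let b := finBasis K Z
  have hz : ∀ i, z i ∈ Z := fun i => Submodule.subset_span ⟨i, rfl⟩
  refine ⟨fun j => (b j : L), fun j i => b.repr ⟨z i, hz i⟩ j, ?_, ?_⟩
  · rw [Fintype.linearIndependent_iff]
    intro a ha
    let A : Z →ₗ[K] K := b.constr K a
    have h1 : ∀ i, A ⟨z i, hz i⟩ = 0 := by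
      intro i
      have h2 : (⟨z i, hz i⟩ : Z) = ∑ j, b.repr ⟨z i, hz i⟩ j • b j := (b.sum_repr _).symm
      rw [h2, map_sum]
      have h3 := congrFun ha i
      rw [Finset.sum_apply, Pi.zero_apply] at h3
      rw [← h3]
      refine Finset.sum_congr rfl fun j _ => ?_
      rw [map_smul, Basis.constr_basis, Pi.smul_apply, smul_eq_mul, smul_eq_mul, mul_comm]
    have h2 : ∀ w (hw : w ∈ Z), A ⟨w, hw⟩ = 0 := by
      intro w hw
      refine Submodule.span_induction (p := fun w hw => A ⟨w, hw⟩ = 0) ?_ ?_ ?_ ?_ hw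
      · rintro _ ⟨i, rfl⟩
        exact h1 i
      · exact map_zero A
      · intro u v hu hv h3 h4
        have h5 : (⟨u + v, Submodule.add_mem _ hu hv⟩ : Z) = ⟨u, hu⟩ + ⟨v, hv⟩ := rfl
        rw [h5, map_add, h3, h4, add_zero]
      · intro c u hu h3
        have h5 : (⟨c • u, Submodule.smul_mem _ c hu⟩ : Z) = c • ⟨u, hu⟩ := rfl
        rw [h5, map_smul, h3, smul_zero]
    intro j
    have h3 : A (b j) = a j := b.constr_basis K a j
    rw [← h3]
    exact h2 (b j : L) (b j).2
  · intro i
    have h2 : (⟨z i, hz i⟩ : Z) = ∑ j, b.repr ⟨z i, hz i⟩ j • b j := (b.sum_repr _).symm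
    have h3 := congrArg (Submodule.subtype Z) h2
    rw [map_sum] at h3
    simp only [Submodule.subtype_apply, map_smul, Algebra.smul_def] at h3
    exact h3

/-- the directions which preserve a subspace -/
theorem codim {S : Type} [Fintype S] (E : S → Derivation k K K) {r : ℕ}
    (p : Fin r → Fin (n + 1) → K) (hp : LinearIndependent K p) :
    ∃ 𝒟 : Submodule K (S → K),
      (∀ g ∈ 𝒟, ∀ j, (fun i => ∑ s, g s * E s (p j i)) ∈ Submodule.span K (Set.range p)) ∧
      finrank K (S → K) ≤ finrank K 𝒟 + r * (n + 1 - r) := by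
  classical
  set P : Submodule K (Fin (n + 1) → K) := Submodule.span K (Set.range p) with hP
  let Ψ : (S → K) →ₗ[K] (Fin r → ((Fin (n + 1) → K) ⧸ P)) :=
    LinearMap.pi fun j => P.mkQ ∘ₗ (LinearMap.pi fun i => ∑ s, (E s (p j i)) • LinearMap.proj s)
  have hΨ : ∀ g j, Ψ g j = P.mkQ (fun i => ∑ s, g s * E s (p j i)) := by
    intro g j
    simp only [Ψ, LinearMap.pi_apply, LinearMap.comp_apply]
    congr 1
    funext i
    simp [mul_comm]
  refine ⟨LinearMap.ker Ψ, ?_, ?_⟩
  · intro g hg j
    rw [LinearMap.mem_ker] at hg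
    have h1 := hΨ g j
    rw [hg, Pi.zero_apply] at h1
    exact (Submodule.Quotient.mk_eq_zero P).1 h1.symm
  · have h1 := Ψ.finrank_range_add_finrank_ker
    have h2 : finrank K (LinearMap.range Ψ) ≤ r * (n + 1 - r) := by
      refine (Submodule.finrank_le _).trans ?_
      rw [finrank_pi_fintype]
      have h3 := P.finrank_quotient_add_finrank
      have h4 : finrank K P = r := by
        rw [hP, finrank_span_eq_card hp, Fintype.card_fin]
      rw [h4, finrank_fin_fun] at h3
      have h5 : finrank K ((Fin (n + 1) → K) ⧸ P) = n + 1 - r := by omega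
      simp [h5]
    omega

/-- the tangent directions -/
theorem exists_W (x : Fin (M + 1) → L) (ℓ : Fin (n + 1) → MvPolynomial (Fin (M + 1)) k)
    (hinj : ∀ (D : Derivation k L L) (c : L),
      (∀ j, lin L ℓ (fun i => D (x i) + c * x i) j = 0) → ∀ i, D (x i) + c * x i = 0)
    {r : ℕ} (y : Fin r → L) (p : Fin r → Fin (n + 1) → K)
    (hz : ∀ i, lin L ℓ x i = ∑ j, algebraMap K L (p j i) * y j) :
    ∃ W : Submodule L (Fin (M + 1) → L), finrank L W ≤ r ∧ x ∈ W ∧
      (∀ D : Derivation k L L,
        (∀ j, (fun i => D (algebraMap K L (p j i))) ∈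
          Submodule.span L (Set.range fun j i => algebraMap K L (p j i))) →
        (fun i => D (x i)) ∈ W) := by
  classical
  set P : Submodule L (Fin (n + 1) → L) :=
    Submodule.span L (Set.range fun j i => algebraMap K L (p j i)) with hP
  let Θ : (Derivation k L L × L) →ₗ[L] (Fin (M + 1) → L) :=
    { toFun := fun u i => u.1 (x i) + u.2 * x i
      map_add' := by
        intro u v
        funext i
        simp only [Prod.fst_add, Prod.snd_add, Derivation.add_apply, Pi.add_apply]
        ring
      map_smul' := by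
        intro c u
        funext i
        simp only [Prod.smul_fst, Prod.smul_snd, Derivation.smul_apply, Pi.smul_apply,
          smul_eq_mul, RingHom.id_apply]
        ring }
  have hzP : lin L ℓ x ∈ P := by
    have h1 : lin L ℓ x = ∑ j, y j • (fun i => algebraMap K L (p j i)) := by
      funext i
      rw [hz i, Finset.sum_apply]
      exact Finset.sum_congr rfl fun j _ => by rw [Pi.smul_apply, smul_eq_mul, mul_comm]
    rw [h1]
    exact Submodule.sum_mem _ fun j _ => Submodule.smul_mem _ _ (Submodule.subset_span ⟨j, rfl⟩)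
  refine ⟨LinearMap.range Θ ⊓ Submodule.comap (lin L ℓ) P, ?_, ⟨⟨(0, 1), ?_⟩, hzP⟩, ?_⟩
  · set W := LinearMap.range Θ ⊓ Submodule.comap (lin L ℓ) P with hW
    have h1 : finrank L P ≤ r := by
      have h2 := finrank_range_le_card (R := L) (fun (j : Fin r) i => algebraMap K L (p j i))
      rwa [Fintype.card_fin] at h2
    refine le_trans ?_ h1
    let g : W →ₗ[L] P := LinearMap.restrict (lin L ℓ) (fun w hw => hw.2)
    refine LinearMap.finrank_le_finrank_of_injective (f := g) ?_
    rw [← LinearMap.ker_eq_bot, LinearMap.ker_eq_bot']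
    rintro ⟨w, hw⟩ h
    obtain ⟨⟨D, c⟩, hDc⟩ := hw.1
    have h2 : lin L ℓ w = 0 := congrArg Subtype.val h
    have h3 := hinj D c (by
      intro j
      have h4 : (fun i => D (x i) + c * x i) = w := hDc
      rw [h4, h2]; rfl)
    refine Subtype.ext ?_
    change w = 0
    rw [← hDc]
    funext i
    exact h3 i
  · funext i
    change (0 : Derivation k L L) (x i) + 1 * x i = x i
    simp
  · intro D hDp
    refine ⟨⟨(D, 0), ?_⟩, ?_⟩
    · funext i
      change D (x i) + 0 * x i = D (x i)
      rw [zero_mul, add_zero]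
    · change lin L ℓ (fun i => D (x i)) ∈ P
      have h1 : lin L ℓ (fun i => D (x i)) = (∑ j, D (y j) • (fun i => algebraMap K L (p j i))) +
          ∑ j, y j • (fun i => D (algebraMap K L (p j i))) := by
        funext i
        rw [← der_lin, hz i, map_sum, Pi.add_apply, Finset.sum_apply, Finset.sum_apply,
          ← Finset.sum_add_distrib]
        refine Finset.sum_congr rfl fun j _ => ?_
        rw [D.leibniz, Pi.smul_apply, Pi.smul_apply]
        simp only [smul_eq_mul]
        ring
      rw [h1]
      exact Submodule.add_mem _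
        (Submodule.sum_mem _ fun j _ => Submodule.smul_mem _ _ (Submodule.subset_span ⟨j, rfl⟩))
        (Submodule.sum_mem _ fun j _ => Submodule.smul_mem _ _ (hDp j))

end D

end Pool.Agent.NH29.GN.Stc
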