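import Mathlib

/-!
# Project GN: Zariski-general complements with `n + 2` components (MP_26d9ad_nt)

Definitions and statements of the tasks.
-/

set_option autoImplicit false

namespace Pool.Agent.NH29.GN

open MvPolynomial Module Filter
open scoped LinearAlgebra.Projectivization

/-! ## Forms and their coefficients -/

/-- the exponents of degree `e` in `M + 1` variables -/
abbrev Mon (M e : ℕ) : Type := {β : Fin (M + 1) →₀ ℕ // β.degree = e}

instance finite_mon (M e : ℕ) : Finite (Mon M e) := by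
  refine Set.Finite.to_subtype ((Set.finite_Iic
    (Finsupp.equivFunOnFinite.symm fun _ : Fin (M + 1) => e)).subset ?_)
  intro β hβ
  rw [Set.mem_Iic]
  intro i
  have h1 : β i ≤ β.degree := Finsupp.le_degree i β
  have h2 : β.degree = e := hβ
  simpa [h2] using h1

noncomputable instance fintype_mon (M e : ℕ) : Fintype (Mon M e) := Fintype.ofFinite _

/-- the indices of the coefficients of `q` forms of degrees `d i` -/
abbrev Idx (M : ℕ) {q : ℕ} (d : Fin q → ℕ) : Type := (i : Fin q) × Mon M (d i)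

/-- the value of a monomial -/
def val {L : Type} [Field L] {M : ℕ} (x : Fin (M + 1) → L) (β : Fin (M + 1) →₀ ℕ) : L :=
  ∏ i, x i ^ β i

/-- the value at `x` of the `i`-th form with the coefficients `t` -/
noncomputable def fv {K L : Type} [Field K] [Field L] [Algebra K L] {M q : ℕ} {d : Fin q → ℕ}
    (t : Idx M d → K) (x : Fin (M + 1) → L) (i : Fin q) : L :=
  ∑ β : Mon M (d i), algebraMap K L (t ⟨i, β⟩) * val x β.1

/-- the monomials `∏ v_b ^ (m b)` which are pairwise not proportional over `K` are linearly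
independent over `K` -/
def Ind (K : Type) {L : Type} [Field K] [Field L] [Algebra K L] {q : ℕ} (v : Fin q → L) : Prop :=
  ∀ (S : Finset (Fin q → ℤ)) (c : (Fin q → ℤ) → K),
    ∑ m ∈ S, algebraMap K L (c m) * ∏ b, v b ^ m b = 0 →
    (∀ m ∈ S, ∀ m' ∈ S, m ≠ m' → ∀ a : K, ∏ b, v b ^ m b ≠ algebraMap K L a * ∏ b, v b ^ m' b) →
    ∀ m ∈ S, c m = 0

/-- the quotients `F_b ^ (d b₀) / F_{b₀} ^ (d b)` for `b ∉ C`, and `1` for `b ∈ C` -/
noncomputable def quo {K L : Type} [Field K] [Field L] [Algebra K L] {M q : ℕ} {d : Fin q → ℕ}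
    (C : Finset (Fin q)) (t : Idx M d → K) (x : Fin (M + 1) → L) (b₀ b : Fin q) : L :=
  if b ∈ C then 1 else fv t x b ^ d b₀ / fv t x b₀ ^ d b

/-- a nonconstant point of `V ∩ {F_c = 0, c ∈ C}` off `F_b = 0`, `b ∉ C`, over an extension `L` of
`K` at which the quotients of the forms behave like units -/
structure Bad (k K L : Type) [Field k] [Field K] [Field L] [Algebra k K] [Algebra K L] {M q : ℕ}
    (V : Set (MvPolynomial (Fin (M + 1)) k)) {d : Fin q → ℕ} (C : Finset (Fin q))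
    (t : Idx M d → K) (x : Fin (M + 1) → L) : Prop where
  onV : ∀ H ∈ V, eval₂ ((algebraMap K L).comp (algebraMap k K)) x H = 0
  onC : ∀ c ∈ C, fv t x c = 0
  off : ∀ b, b ∉ C → fv t x b ≠ 0
  ne : x ≠ 0
  noncst : ∀ (c : L) (y : Fin (M + 1) → K), x ≠ fun i => c * algebraMap K L (y i)
  ind : ∀ b₀, b₀ ∉ C → Ind K (quo C t x b₀)

/-- `V` has dimension at most `n`: some linear forms `ℓ 0, …, ℓ n` have no common zero on it -/
def NoZero {k : Type} [Field k] {M n : ℕ} (V : Set (MvPolynomial (Fin (M + 1)) k))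
    (ℓ : Fin (n + 1) → MvPolynomial (Fin (M + 1)) k) : Prop :=
  ∀ a, X a ∈ (Ideal.span (V ∪ Set.range ℓ)).radical

/-- the numerical condition -/
def Num (n : ℕ) {q : ℕ} (d : Fin q → ℕ) : Prop :=
  ∀ m, 1 ≤ m → m ≤ n → ∀ B : Finset (Fin q), q ≤ B.card + m + 1 →
    (m + 1) * (n - m) + q ≤ 1 + ∑ b ∈ B, (m * d b + 1)

/-- NUM -/
def NumStm : Prop :=
  ∀ (n q : ℕ) (d : Fin q → ℕ), n + 2 ≤ q → (∀ i, 2 ≤ d i) → Num n d

/-! ## The unit equation -/

/-- the unit equation in the form of linear independence, along ultrafilters -/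
def UE (K : Type) [Field K] : Prop :=
  ∀ (Γ : Subgroup Kˣ), Γ.FG → ∀ (𝒰 : Ultrafilter ℕ) (J : Type) [Fintype J] (u : J → ℕ → Kˣ),
    (∀ j t, u j t ∈ Γ) →
    (∀ i j, i ≠ j → ∀ c : K, ¬ ∀ᶠ t in (𝒰 : Filter ℕ), (u i t : K) = c * u j t) →
    ∀ a : J → K, (∀ᶠ t in (𝒰 : Filter ℕ), ∑ j, a j * (u j t : K) = 0) → ∀ j, a j = 0

/-- U1: number fields which are Galois over `ℚ` and contain a square root of `-1` -/
def U1Stm : Prop :=
  ∀ (F : Type) [Field F] [NumberField F] [IsGalois ℚ F], (∃ z : F, z ^ 2 = -1) → UE F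

/-- U2: algebraic closures of `ℚ` -/
def U2Stm : Prop :=
  ∀ (K : Type) [Field K] [Algebra ℚ K] [Algebra.IsAlgebraic ℚ K] [IsAlgClosed K], UE K

/-- U3: one transcendental -/
def U3Stm : Prop :=
  ∀ (κ K : Type) [Field κ] [Field K] [Algebra κ K] [IsAlgClosed κ] [CharZero κ],
    Algebra.trdeg κ K ≤ 1 → UE κ → UE K

/-- U4: all algebraically closed fields -/
def U4Stm : Prop :=
  ∀ (K : Type) [Field K] [IsAlgClosed K] [CharZero K], UE K

/-- RU: the group of the units of a finitely generated ring -/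
def RUStm : Prop :=
  ∀ (K : Type) [Field K] [IsAlgClosed K] [CharZero K] (T : Finset K),
    ∃ Γ : Subgroup Kˣ, Γ.FG ∧ ∀ u : Kˣ, (u : K) ∈ Subring.closure (T : Set K) →
      ((u⁻¹ : Kˣ) : K) ∈ Subring.closure (T : Set K) → u ∈ Γ

/-! ## Algebra -/

/-- HILB: the Hilbert function of a nonconstant point -/
def HilbStm : Prop :=
  ∀ (K L : Type) [Field K] [Field L] [Algebra K L] [IsAlgClosed K] (n m e : ℕ)
    (z : Fin (n + 1) → L), m + 1 ≤ finrank K (Submodule.span K (Set.range z)) →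
    m * e + 1 ≤ finrank K (Submodule.span K (Set.range fun β : Mon n e => val z β.1))

/-- DER: derivations with given restriction to a subfield and given values at algebraically
independent elements -/
def DerStm : Prop :=
  ∀ (k K L : Type) [Field k] [Field K] [Field L] [Algebra k K] [Algebra K L] [Algebra k L]
    [IsScalarTower k K L] [CharZero k] (J : Type) (v : J → L), AlgebraicIndependent K v →
    ∀ (D₀ : Derivation k K L) (w : J → L),
      ∃ D : Derivation k L L, (∀ a : K, D (algebraMap K L a) = D₀ a) ∧ ∀ j, D (v j) = w j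

/-- ALG: coordinates of a point at which forms without common zero on `V` have values in `E` -/
def AlgStm : Prop :=
  ∀ (E Ω : Type) [Field E] [Field Ω] [Algebra E Ω] (M : ℕ)
    (V : Set (MvPolynomial (Fin (M + 1)) E)), (∀ H ∈ V, ∃ e, H.IsHomogeneous e) →
    ∀ (J : Type) (G : J → MvPolynomial (Fin (M + 1)) E) (g : J → ℕ),
      (∀ j, 1 ≤ g j) → (∀ j, (G j).IsHomogeneous (g j)) →
      (∀ a, X a ∈ (Ideal.span (V ∪ Set.range G)).radical) →
      ∀ y : Fin (M + 1) → Ω, (∀ H ∈ V, aeval y H = 0) →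
        (∀ j, ∃ b : E, aeval y (G j) = algebraMap E Ω b) → ∀ a, IsAlgebraic E (y a)

/-- NCZ: general forms have no common zero on `V` -/
def NczStm : Prop :=
  ∀ (k K : Type) [Field k] [Field K] [Algebra k K] [IsAlgClosed K] [CharZero k] (M n q : ℕ)
    (V : Set (MvPolynomial (Fin (M + 1)) k)), (∀ H ∈ V, ∃ e, H.IsHomogeneous e) →
    ∀ ℓ : Fin (n + 1) → MvPolynomial (Fin (M + 1)) k, (∀ j, (ℓ j).IsHomogeneous 1) →
      NoZero V ℓ → n + 1 ≤ q → ∀ d : Fin q → ℕ, (∀ i, 1 ≤ d i) → ∀ t : Idx M d → K,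
      AlgebraicIndependent k t → ∀ y : Fin (M + 1) → K, (∀ H ∈ V, aeval y H = 0) →
        (∀ i, fv t y i = 0) → y = 0

/-- INT: a point at which the quotients of general forms are constant is constant -/
def IntStm : Prop :=
  ∀ (k K L : Type) [Field k] [Field K] [Field L] [Algebra k K] [Algebra K L] [IsAlgClosed K]
    [CharZero k] (M n q : ℕ) (V : Set (MvPolynomial (Fin (M + 1)) k)),
    (∀ H ∈ V, ∃ e, H.IsHomogeneous e) →
    ∀ ℓ : Fin (n + 1) → MvPolynomial (Fin (M + 1)) k, (∀ j, (ℓ j).IsHomogeneous 1) →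
      NoZero V ℓ → n + 1 ≤ q → ∀ d : Fin q → ℕ, (∀ i, 1 ≤ d i) → ∀ t : Idx M d → K,
      AlgebraicIndependent k t → ∀ C : Finset (Fin q), C ≠ Finset.univ →
      ∀ x : Fin (M + 1) → L, (∀ H ∈ V, eval₂ ((algebraMap K L).comp (algebraMap k K)) x H = 0) →
        (∀ c ∈ C, fv t x c = 0) → (∀ b, b ∉ C → fv t x b ≠ 0) →
        (∀ b b', b ∉ C → b' ∉ C → ∃ a : K, fv t x b ^ d b' / fv t x b' ^ d b =
          algebraMap K L a) →
        ∃ (c : L) (y : Fin (M + 1) → K), x = fun i => c * algebraMap K L (y i)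

/-- REL: a maximal multiplicatively independent subset is algebraically independent -/
def RelStm : Prop :=
  ∀ (K L : Type) [Field K] [Field L] [Algebra K L] (q : ℕ) (v : Fin q → L), (∀ b, v b ≠ 0) →
    Ind K v → ∃ J : Finset (Fin q), AlgebraicIndependent K (fun j : J => v j) ∧
      ∀ b, ∃ (N : ℕ) (m : Fin q → ℤ) (c : K), 0 < N ∧ c ≠ 0 ∧ (∀ j, j ∉ J → m j = 0) ∧
        v b ^ N = algebraMap K L c * ∏ j, v j ^ m j

/-- LIN: linear algebra -/
def LinStm : Prop :=
  ∀ (K L : Type) [Field K] [Field L] [Algebra K L] (E : Type) [AddCommGroup E] [Module L E]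
    (W : Submodule L E) [FiniteDimensional L W] (q : ℕ) (φ : Fin q → E →ₗ[L] L)
    (σ : Fin q → Type) [∀ k, Fintype (σ k)] (w : ∀ k, σ k → L)
    (𝒟 : Submodule K (((k : Fin q) × σ k) → K)) (T : Type) [Fintype T]
    (κ : T → (((k : Fin q) × σ k) → K) →ₗ[K] K) (a : Fin q → L),
    (∀ k, a k ≠ 0) →
    (∀ μ : Fin q → L, (∀ y ∈ W, ∑ k, μ k * φ k y = 0) → ∀ g ∈ 𝒟, (∀ l, κ l g = 0) →
      ∑ k, μ k * (a k * ∑ β, algebraMap K L (g ⟨k, β⟩) * w k β) = 0) →
    ∀ c : ℕ, finrank K (((k : Fin q) × σ k) → K) ≤ finrank K 𝒟 + c →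
    ∃ B : Finset (Fin q), q ≤ B.card + finrank L W ∧
      ∑ b ∈ B, finrank K (Submodule.span K (Set.range (w b))) ≤ c + Fintype.card T

/-! ## Limits -/

/-- an ultrapower of `K` -/
def UP (K : Type) : Type := ((hyperfilter ℕ : Ultrafilter ℕ) : Filter ℕ).Germ K

noncomputable instance (K : Type) [Field K] : Field (UP K) :=
  inferInstanceAs (Field (((hyperfilter ℕ : Ultrafilter ℕ) : Filter ℕ).Germ K))

/-- the class of a sequence -/
noncomputable def UP.mk {K : Type} (x : ℕ → K) : UP K :=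
  (x : ((hyperfilter ℕ : Ultrafilter ℕ) : Filter ℕ).Germ K)

noncomputable instance (K : Type) [Field K] : Algebra K (UP K) :=
  RingHom.toAlgebra
    { toFun := fun a => UP.mk fun _ => a
      map_one' := rfl
      map_mul' := fun _ _ => rfl
      map_zero' := rfl
      map_add' := fun _ _ => rfl }

/-- STA: an infinite set of points with quotients in a finitely generated group has a nonconstant
limit -/
def StaStm : Prop :=
  ∀ (k K : Type) [Field k] [Field K] [Algebra k K] [IsAlgClosed K] [CharZero K], UE K →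
    ∀ (M q : ℕ) (V : Set (MvPolynomial (Fin (M + 1)) k)),
    (∀ H ∈ V, ∃ e, H.IsHomogeneous e) → ∀ (d : Fin q → ℕ) (C : Finset (Fin q))
    (t : Idx M d → K) (Γ : Subgroup Kˣ), Γ.FG →
    {P : ℙ K (Fin (M + 1) → K) | (∀ H ∈ V, aeval P.rep H = 0) ∧ (∀ c ∈ C, fv t P.rep c = 0) ∧
      (∀ b, b ∉ C → fv t P.rep b ≠ 0) ∧ ∀ b b', b ∉ C → b' ∉ C → ∃ γ ∈ Γ,
        fv t P.rep b ^ d b' / fv t P.rep b' ^ d b = (γ : K)}.Infinite →
    ∃ x : Fin (M + 1) → UP K, Bad k K (UP K) V C t x

/-- STB: if the bad coefficients are Zariski dense, then some coefficients which are algebraically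
independent are bad -/
def StbStm : Prop :=
  ∀ (k K L : Type) [Field k] [Field K] [Field L] [Algebra k K] [Algebra K L]
    [IsAlgClosed K] [CharZero k] (M q : ℕ)
    (V : Set (MvPolynomial (Fin (M + 1)) k)) (d : Fin q → ℕ) (C : Finset (Fin q)),
    (∀ Q : MvPolynomial (Idx M d) k, Q ≠ 0 → ∃ t : Idx M d → K, aeval t Q ≠ 0 ∧
      ∃ x : Fin (M + 1) → L, Bad k K L V C t x) →
    ∃ (K' L' : Type) (_ : Field K') (_ : Field L') (_ : Algebra k K') (_ : Algebra K' L')
      (_ : IsAlgClosed K') (t : Idx M d → K') (x : Fin (M + 1) → L'),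
      AlgebraicIndependent k t ∧ Bad k K' L' V C t x

/-- STC: there is no bad point for algebraically independent coefficients -/
def StcStm : Prop :=
  ∀ (k K L : Type) [Field k] [Field K] [Field L] [Algebra k K] [Algebra K L]
    [IsAlgClosed K] [CharZero k] (M n q : ℕ)
    (V : Set (MvPolynomial (Fin (M + 1)) k)), (∀ H ∈ V, ∃ e, H.IsHomogeneous e) →
    ∀ ℓ : Fin (n + 1) → MvPolynomial (Fin (M + 1)) k, (∀ j, (ℓ j).IsHomogeneous 1) →
    NoZero V ℓ → n + 1 ≤ q → ∀ d : Fin q → ℕ, (∀ i, 1 ≤ d i) → Num n d →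
    ∀ C : Finset (Fin q), C ≠ Finset.univ → ∀ t : Idx M d → K, AlgebraicIndependent k t →
    ∀ x : Fin (M + 1) → L, ¬ Bad k K L V C t x

end Pool.Agent.NH29.GN
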