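import Pool.Agent.NH29.GN.Stm

/-!
# Project GN, part 3: statements

Points of large height: ultraproducts of fields with heights, subfields of small elements.
-/

set_option autoImplicit false

namespace Pool.Agent.NH29.GN

open MvPolynomial Module Filter
open scoped LinearAlgebra.Projectivization

/-! ## Ultraproducts of fields -/

section UPr

variable {I : Type} (𝒰 : Ultrafilter I) (E : I → Type) [∀ i, Field (E i)]

/-- the families which vanish for almost all indices -/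
def nul : Ideal (∀ i, E i) where
  carrier := {f | ∀ᶠ i in (𝒰 : Filter I), f i = 0}
  add_mem' := by
    intro f g hf hg
    filter_upwards [hf, hg] with i h1 h2
    rw [Pi.add_apply, h1, h2, add_zero]
  zero_mem' := Eventually.of_forall fun _ => rfl
  smul_mem' := by
    intro c f hf
    filter_upwards [hf] with i h1
    rw [smul_eq_mul, Pi.mul_apply, h1, mul_zero]

theorem mem_nul {f : ∀ i, E i} : f ∈ nul 𝒰 E ↔ ∀ᶠ i in (𝒰 : Filter I), f i = 0 := Iff.rfl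

instance maximal_nul : (nul 𝒰 E).IsMaximal := by
  classical
  rw [Ideal.isMaximal_iff]
  constructor
  · intro h
    obtain ⟨i, hi⟩ := (show ∀ᶠ i in (𝒰 : Filter I), (1 : ∀ i, E i) i = 0 from h).exists
    exact one_ne_zero hi
  · intro J f hJ hf hfJ
    have h1 : f * (fun i => (f i)⁻¹) - 1 ∈ nul 𝒰 E := by
      have h2 : ∀ᶠ i in (𝒰 : Filter I), ¬ f i = 0 := Ultrafilter.eventually_not.2 hf
      rw [mem_nul]
      filter_upwards [h2] with i hi
      simp [hi]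
    have h2 := J.sub_mem (J.mul_mem_right (fun i => (f i)⁻¹) hfJ) (hJ h1)
    rwa [sub_sub_cancel] at h2

/-- the ultraproduct of the fields `E i` -/
def UPr : Type := (∀ i, E i) ⧸ nul 𝒰 E

noncomputable instance : Field (UPr 𝒰 E) :=
  Ideal.Quotient.field (nul 𝒰 E)

/-- the class of a family -/
noncomputable def UPr.mk : (∀ i, E i) →+* UPr 𝒰 E := Ideal.Quotient.mk (nul 𝒰 E)

theorem UPr.mk_eq {f g : ∀ i, E i} :
    UPr.mk 𝒰 E f = UPr.mk 𝒰 E g ↔ ∀ᶠ i in (𝒰 : Filter I), f i = g i := by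
  refine (Ideal.Quotient.eq).trans ?_
  rw [mem_nul]
  refine eventually_congr (Eventually.of_forall fun i => ?_)
  rw [Pi.sub_apply, sub_eq_zero]

theorem UPr.mk_surj (y : UPr 𝒰 E) : ∃ f : ∀ i, E i, UPr.mk 𝒰 E f = y :=
  Ideal.Quotient.mk_surjective y

/-! ## Heights and small elements -/

/-- a height function on the fields `E i`, and a scale `H i` -/
structure HFam where
  /-- the heights -/
  h : ∀ i, E i → ℝ
  /-- the scale -/
  H : I → ℝ
  /-- constants -/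
  c : ℕ → ℝ
  nonneg : ∀ i a, 0 ≤ h i a
  zero : ∀ i, h i 0 ≤ c 0
  one : ∀ i, h i 1 ≤ c 0
  neg : ∀ i a, h i (-a) ≤ h i a + c 0
  inv : ∀ i a, h i a⁻¹ ≤ h i a + c 0
  add : ∀ i a b, h i (a + b) ≤ h i a + h i b + c 0
  mul : ∀ i a b, h i (a * b) ≤ h i a + h i b + c 0
  root : ∀ (n i) (g : E i) (a : Fin n → E i), g ^ n = ∑ j, a j * g ^ (j : ℕ) →
    h i g ≤ ∑ j, h i (a j) + c n
  small : ∀ n N : ℕ, ∀ᶠ i in (𝒰 : Filter I), N * c n ≤ H i

variable {𝒰 E}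

/-- the family `f` has small height, compared to the scale -/
def Sm (T : HFam 𝒰 E) (f : ∀ i, E i) : Prop :=
  ∀ N : ℕ, ∀ᶠ i in (𝒰 : Filter I), N * T.h i (f i) ≤ T.H i

end UPr

/-- SML: the small elements are a subfield which is algebraically closed in the ultraproduct -/
def SmlStm : Prop :=
  ∀ (I : Type) (𝒰 : Ultrafilter I) (E : I → Type) [∀ i, Field (E i)] (T : HFam 𝒰 E),
    ∃ A : Subfield (UPr 𝒰 E), (∀ f : ∀ i, E i, UPr.mk 𝒰 E f ∈ A ↔ Sm T f) ∧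
      ∀ y : UPr 𝒰 E, IsAlgebraic A y → y ∈ A

/-- LD: linear disjointness -/
def LdStm : Prop :=
  ∀ (Ω : Type) [Field Ω] [CharZero Ω] (A L : Subfield Ω), A ≤ L →
    (∀ y ∈ L, IsAlgebraic A y → y ∈ A) → ∀ (J : Type) [Fintype J] (u : J → Ω), (∀ j, u j ∈ L) →
    (∀ c : J → Ω, (∀ j, c j ∈ A) → ∑ j, c j * u j = 0 → ∀ j, c j = 0) →
    ∀ c : J → Ω, (∀ j, IsAlgebraic A (c j)) → ∑ j, c j * u j = 0 → ∀ j, c j = 0

/-- ABS: points of large height, with a unit equation up to small elements, give a bad point -/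
def AbsStm : Prop :=
  ∀ (k : Type) [Field k] [CharZero k] (I : Type) (𝒰 : Ultrafilter I) (E : I → Type)
    [∀ i, Field (E i)] [∀ i, Algebra k (E i)] (T : HFam 𝒰 E) (M q : ℕ)
    (V : Set (MvPolynomial (Fin (M + 1)) k)) (d : Fin q → ℕ) (C : Finset (Fin q))
    (t : ∀ i, Idx M d → E i) (x : ∀ i, Fin (M + 1) → E i) (Q : MvPolynomial (Idx M d) k),
    (∀ a : k, Sm T fun i => algebraMap k (E i) a) → (∀ s, Sm T fun i => t i s) →
    (∀ i, aeval (t i) Q ≠ 0) → (∀ i, ∀ H ∈ V, aeval (x i) H = 0) →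
    (∀ i, ∀ c ∈ C, fv (t i) (x i) c = 0) → (∀ i b, b ∉ C → fv (t i) (x i) b ≠ 0) →
    (∀ i, x i ≠ 0) →
    (∀ a₀, (∀ᶠ i in (𝒰 : Filter I), x i a₀ ≠ 0) → ∃ a, ¬ Sm T fun i => x i a / x i a₀) →
    (∀ b₀, b₀ ∉ C → ∀ S : Finset (Fin q → ℤ), S.Nonempty → ∀ c : (Fin q → ℤ) → ∀ i, E i,
      (∀ m ∈ S, Sm T (c m)) → (∀ m ∈ S, ∀ᶠ i in (𝒰 : Filter I), c m i ≠ 0) →
      (∀ᶠ i in (𝒰 : Filter I), ∑ m ∈ S, c m i * ∏ b, quo C (t i) (x i) b₀ b ^ m b = 0) →
      ∃ m ∈ S, ∃ m' ∈ S, m ≠ m' ∧ Sm T fun i =>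
        (∏ b, quo C (t i) (x i) b₀ b ^ m b) / ∏ b, quo C (t i) (x i) b₀ b ^ m' b) →
    ∃ (K' L' : Type) (_ : Field K') (_ : Field L') (_ : Algebra k K') (_ : Algebra K' L')
      (_ : IsAlgClosed K') (t' : Idx M d → K') (x' : Fin (M + 1) → L'),
      aeval t' Q ≠ 0 ∧ Bad k K' L' V C t' x'

/-- STB2: a variant of STB, with varying fields -/
def Stb2Stm : Prop :=
  ∀ (k : Type) [Field k] [CharZero k] (M q : ℕ)
    (V : Set (MvPolynomial (Fin (M + 1)) k)) (d : Fin q → ℕ) (C : Finset (Fin q)),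
    (∀ Q : MvPolynomial (Idx M d) k, Q ≠ 0 → ∃ (K L : Type) (_ : Field K) (_ : Field L)
      (_ : Algebra k K) (_ : Algebra K L) (_ : IsAlgClosed K) (t : Idx M d → K)
      (x : Fin (M + 1) → L), aeval t Q ≠ 0 ∧ Bad k K L V C t x) →
    ∃ (K' L' : Type) (_ : Field K') (_ : Field L') (_ : Algebra k K') (_ : Algebra K' L')
      (_ : IsAlgClosed K') (t : Idx M d → K') (x : Fin (M + 1) → L'),
      AlgebraicIndependent k t ∧ Bad k K' L' V C t x

/-! ## The unit equation with coefficients of small height, over number fields -/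

section NF

open Height

/-- small height, compared to the scale `H` -/
def SmN {κ : Type} [Field κ] [NumberField κ] (𝒰 : Ultrafilter ℕ) (H : ℕ → ℝ) (f : ℕ → κ) :
    Prop :=
  ∀ N : ℕ, ∀ᶠ s in (𝒰 : Filter ℕ), N * logHeight₁ (f s) ≤ H s

/-- MUE: the unit equation with small coefficients: some ratio of the units is small -/
def MueStm : Prop :=
  ∀ (κ : Type) [Field κ] [NumberField κ] (Γ : Subgroup κˣ), Γ.FG →
    ∀ (𝒰 : Ultrafilter ℕ) (H : ℕ → ℝ), (∀ B : ℝ, ∀ᶠ s in (𝒰 : Filter ℕ), B ≤ H s) →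
    ∀ (J : Type) [Fintype J] [Nonempty J] (u : J → ℕ → κˣ) (c : J → ℕ → κ),
    (∀ j s, u j s ∈ Γ) → (∀ j, ∀ᶠ s in (𝒰 : Filter ℕ), c j s ≠ 0) → (∀ j, SmN 𝒰 H (c j)) →
    (∀ᶠ s in (𝒰 : Filter ℕ), ∑ j, c j s * (u j s : κ) = 0) →
    ∃ i j, i ≠ j ∧ SmN 𝒰 H fun s => (u i s : κ) / u j s

/-- HN: the height of a number field is a height function -/
def HnStm : Prop :=
  ∀ (κ : Type) [Field κ] [NumberField κ], ∃ c : ℕ → ℝ, (∀ n, 0 ≤ c n) ∧
    (∀ a : κ, logHeight₁ (-a) ≤ logHeight₁ a + c 0) ∧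
    (∀ a : κ, logHeight₁ a⁻¹ ≤ logHeight₁ a + c 0) ∧
    (∀ a b : κ, logHeight₁ (a + b) ≤ logHeight₁ a + logHeight₁ b + c 0) ∧
    (∀ a b : κ, logHeight₁ (a * b) ≤ logHeight₁ a + logHeight₁ b + c 0) ∧
    (∀ (n : ℕ) (g : κ) (a : Fin n → κ), g ^ n = ∑ j, a j * g ^ (j : ℕ) →
      logHeight₁ g ≤ ∑ j, logHeight₁ (a j) + c n) ∧
    ∀ (M : ℕ) (x : Fin (M + 1) → κ) (a₀ : Fin (M + 1)), x a₀ ≠ 0 →
      logHeight x ≤ ∑ a, logHeight₁ (x a / x a₀)

end NF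

end Pool.Agent.NH29.GN
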