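import Pool.Agent.NH29.GN.Stm3
import Pool.Agent.W603.LV.Blk2
import Pool.Agent.W603.PV.Hgt

/-!
# Project GN, part 3: statements for function fields
-/

set_option autoImplicit false

namespace Pool.Agent.NH29.GN

open FF Pool.Agent.W603.LV Pool.Agent.W603.PV

/-- HG: the height of a function field is a height function -/
def HgStm : Prop :=
  ∀ (K E : Type) [Field K] [Field E] [Algebra K E] [IsAlgClosed K] [CharZero K] [IsFF K E],
    hgt K (0 : E) = 0 ∧ (∀ a b : E, hgt K (a + b) ≤ hgt K a + hgt K b) ∧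
    (∀ a b : E, hgt K (a * b) ≤ hgt K a + hgt K b) ∧ (∀ a : E, hgt K (-a) ≤ hgt K a) ∧
    (∀ (n : ℕ) (g : E) (a : Fin n → E), g ^ n = ∑ j, a j * g ^ (j : ℕ) →
      hgt K g ≤ ∑ j, hgt K (a j)) ∧
    ∀ (M : ℕ) (x : Fin (M + 1) → E) (a₀ : Fin (M + 1)), x a₀ ≠ 0 →
      pht K x ≤ ∑ a, hgt K (x a / x a₀)

/-- BLK: the unit equation over function fields -/
def BlkStm : Prop :=
  ∃ B : ℕ → ℤ, (∀ n, 0 ≤ B n) ∧
  ∀ (K E : Type) [Field K] [Field E] [Algebra K E] [IsAlgClosed K] [CharZero K] [IsFF K E]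
    (S : Finset (Place K E)) (J : Type) [Fintype J] [Nonempty J] (c u : J → E),
    (∀ j, c j ≠ 0) → (∀ j, u j ≠ 0) → (∀ Q ∉ S, ∀ j, Q.ord (u j) = 0) → ∑ j, c j * u j = 0 →
    ∃ i j, i ≠ j ∧
      hgt K (u i / u j) ≤ B (Fintype.card J) * (max (canDeg K E + S.card) 0 + ∑ j, hgt K (c j))

end Pool.Agent.NH29.GN
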