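import Pool.Agent.NH29.GN.Stm3
import Pool.Agent.R405.SchF

/-!
# Project GN, part 3: statements for the unit equation with moving coefficients over number fields
-/

set_option autoImplicit false

namespace Pool.Agent.NH29.GN

open Filter Height
open Pool.Agent.W180.OP (Pl av wt)

/-- GAL: every number field is contained in one which is Galois over `ℚ` and contains a square
root of `-1` -/
def GalStm : Prop :=
  ∀ (κ : Type) [Field κ] [NumberField κ], ∃ (K : Type) (_ : Field K) (_ : NumberField K)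
    (_ : Algebra κ K), IsGalois ℚ K ∧ ∃ z : K, z ^ 2 = -1

/-- the coordinates of `X`, and the value of the linear form `m` -/
noncomputable def ext {κ : Type} [Field κ] {N : ℕ} (m X : Fin (N + 1) → κ)
    (q : Option (Fin (N + 1))) : κ :=
  q.elim (∑ p, m p * X p) X

/-- MOVS: the subspace theorem for the coordinates and one more linear form, one of them dropped at
each place -/
def MovSStm : Prop :=
  ∀ (κ : Type) [Field κ] [NumberField κ] (𝒰 : Ultrafilter ℕ) (S : Finset (Pl κ)) (N : ℕ)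
    (m : Fin (N + 1) → κ) (X : ℕ → Fin (N + 1) → κ),
    Tendsto (fun s => logHeight (X s)) (𝒰 : Filter ℕ) atTop →
    (∀ d : Fin (N + 1) → κ, d ≠ 0 → ∀ᶠ s in (𝒰 : Filter ℕ), ∑ p, d p * X s p ≠ 0) →
    ∀ ε : ℝ, 0 < ε → ∀ᶠ s in (𝒰 : Filter ℕ), ∀ r : Pl κ → Option (Fin (N + 1)),
      (∀ v p, r v = some p → m p ≠ 0) →
      ∑ v ∈ S, wt v * ∑ q ∈ Finset.univ.erase (r v),
        (Real.log (⨆ p, av v (X s p)) - Real.log (av v (ext m (X s) q))) ≤
        (N + 1 + ε) * logHeight (X s)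

/-- MOVD: inequalities for the heights and absolute values of the summands of a unit equation -/
def MovDStm : Prop :=
  ∀ (κ : Type) [Field κ] [NumberField κ] (Γ : Subgroup κˣ), Γ.FG →
    ∀ (J : Type) [Fintype J] (j₀ : J) (N : ℕ) (π : Fin (N + 1) → J) (m : Fin (N + 1) → κ),
    (∀ p, π p ≠ j₀) → (∀ j, j ≠ j₀ → ∃ p, π p = j ∧ m p ≠ 0) →
    ∃ (S : Finset (Pl κ)) (C : ℝ), 0 ≤ C ∧
      ∀ (u : J → κˣ) (a₀ : κ) (a : Fin (N + 1) → κ), (∀ j, u j ∈ Γ) → a₀ ≠ 0 → (∀ p, a p ≠ 0) →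
      a₀ * u j₀ = ∑ p, m p * (a p * u (π p)) →
      ∀ (X : Fin (N + 1) → κ) (E : ℝ), (X = fun p => a p * (u (π p) : κ)) →
      E = C * (1 + logHeight₁ a₀ + ∑ p, logHeight₁ (a p)) →
      logHeight (fun j => (u j : κ)) ≤ logHeight X + E ∧
      logHeight X ≤ logHeight (fun j => (u j : κ)) + E ∧
      ∃ r : Pl κ → Option (Fin (N + 1)), (∀ v p, r v = some p → m p ≠ 0) ∧
        (N + 1) * logHeight X + logHeight (fun j => (u j : κ)) - E ≤
          ∑ v ∈ S, wt v * ∑ q ∈ Finset.univ.erase (r v),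
            (Real.log (⨆ p, av v (X p)) - Real.log (av v (ext m X q)))

/-- MOV: the unit equation with moving coefficients, nondegenerate case -/
def MovStm : Prop :=
  ∀ (κ : Type) [Field κ] [NumberField κ] (Γ : Subgroup κˣ), Γ.FG → ∀ (𝒰 : Ultrafilter ℕ)
    (J : Type) [Fintype J] (j₀ : J) (N : ℕ) (π : Fin (N + 1) → J) (m : Fin (N + 1) → κ),
    (∀ p, π p ≠ j₀) → (∀ j, j ≠ j₀ → ∃ p, π p = j ∧ m p ≠ 0) →
    ∀ (u : J → ℕ → κˣ) (a₀ : ℕ → κ) (a : Fin (N + 1) → ℕ → κ), (∀ j s, u j s ∈ Γ) →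
    (∀ᶠ s in (𝒰 : Filter ℕ), a₀ s ≠ 0) → (∀ p, ∀ᶠ s in (𝒰 : Filter ℕ), a p s ≠ 0) →
    (∀ᶠ s in (𝒰 : Filter ℕ), a₀ s * u j₀ s = ∑ p, m p * (a p s * u (π p) s)) →
    (∀ d : Fin (N + 1) → κ, d ≠ 0 →
      ∀ᶠ s in (𝒰 : Filter ℕ), ∑ p, d p * (a p s * (u (π p) s : κ)) ≠ 0) →
    ∃ C : ℝ, ∀ᶠ s in (𝒰 : Filter ℕ), ∀ i j, logHeight₁ ((u i s : κ) / u j s) ≤
      C * (1 + logHeight₁ (a₀ s) + ∑ p, logHeight₁ (a p s))

end Pool.Agent.NH29.GN
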