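import Pool.Agent.NH29.GN.Stm6

/-!
# Project GN, part 4: statements about scaling
-/

set_option autoImplicit false

namespace Pool.Agent.NH29.GN

open MvPolynomial Height NumberField

/-- PRJ: a nonzero polynomial does not vanish after scaling each form by a number times a small
natural number -/
def PrjStm : Prop :=
  ∀ (k : Type) [Field k] [CharZero k] (M q : ℕ) (d : Fin q → ℕ) (Φ : MvPolynomial (Idx M d) k),
    Φ ≠ 0 → ∃ (Φ' : MvPolynomial (Idx M d) k) (D : ℕ), Φ' ≠ 0 ∧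
      ∀ (κ : Type) [Field κ] [Algebra k κ] (t : Idx M d → κ), aeval t Φ' ≠ 0 →
        (∀ s, t s ≠ 0) ∧ ∀ μ : Fin q → κ, (∀ b, μ b ≠ 0) → ∃ l : Fin q → ℕ,
          (∀ b, 1 ≤ l b ∧ l b ≤ D) ∧
          aeval (fun s : Idx M d => (l s.1 : κ) * μ s.1 * t s) Φ ≠ 0

/-- SCL: heights and counting functions of scaled families -/
def SclStm : Prop :=
  ∀ (κ : Type) [Field κ] [NumberField κ] (D : ℕ), ∃ c : ℝ, 0 ≤ c ∧
    (∀ (ι : Type) [Fintype ι] (x : ι → κ) (a a₀ : ι) (l : ℕ), 1 ≤ l → l ≤ D → x a₀ ≠ 0 →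
      logHeight₁ ((l : κ) * (x a₀)⁻¹ * x a) ≤ logHeight x + c) ∧
    ∀ (S : Finset (FinitePlace κ)) (M e : ℕ) (t : Mon M e → κ) (x : Fin (M + 1) → κ) (μ : κ),
      μ ≠ 0 → cnt S (fun β => μ * t β) x = cnt S t x

end Pool.Agent.NH29.GN
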